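import Pool.Agent.LibHP.F1

set_option autoImplicit false
open Polynomial

namespace Pool.Agent.LibHP

/-- The field `k(t_1, ..., t_n)`. -/
abbrev RF (k : Type) [Field k] (n : ℕ) : Type := FractionRing (MvPolynomial (Fin n) k)

section F2
variable {K E M : Type} [Field K] [Field E] [Field M]

theorem F2_lift_aux [Algebra K E] [Algebra K M] [FiniteDimensional K (algebraicClosure K E)]
    (hle : Module.finrank K (algebraicClosure K E) ≤ Module.finrank K (algebraicClosure K M))
    (V : Subring M) (hV : ∀ x : M, IsIntegral V x → x ∈ V) (ρ : V →+* E)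
    (hK : ∀ a : K, algebraMap K M a ∈ V)
    (hρ : ∀ a : K, ρ ⟨algebraMap K M a, hK a⟩ = algebraMap K E a) :
    ∃ σ : algebraicClosure K E →ₐ[K] M, ∀ l, IsAlgebraic K (σ l) ∧
      ∃ h : σ l ∈ V, ρ ⟨σ l, h⟩ = l := by
  have hmem : ∀ x : algebraicClosure K M, (x : M) ∈ V := by
    intro x
    apply hV
    obtain ⟨p, hp, hx⟩ := mem_algebraicClosure_iff'.mp x.2
    refine ⟨p.map ((algebraMap K M).codRestrict V hK), hp.map _, ?_⟩
    rw [Polynomial.eval₂_map]
    exact hx
  let τ : algebraicClosure K M →ₐ[K] E :=
    { ρ.comp ((algebraMap (algebraicClosure K M) M).codRestrict V hmem) with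
      commutes' := fun a => hρ a }
  have hτ : ∀ x, τ x = ρ ⟨x, hmem x⟩ := fun _ => rfl
  have hτm : ∀ x, τ x ∈ (algebraicClosure K E).toSubalgebra := by
    intro x
    exact (IsAlgebraic.isIntegral (Algebra.IsAlgebraic.isAlgebraic (R := K) x)).map τ
  let τ' : algebraicClosure K M →ₐ[K] algebraicClosure K E := τ.codRestrict _ hτm
  have hτ' : ∀ x, (τ' x : E) = ρ ⟨x, hmem x⟩ := fun _ => rfl
  have hinj : Function.Injective τ' := τ'.toRingHom.injective
  have hfin : FiniteDimensional K (algebraicClosure K M) :=
    FiniteDimensional.of_injective τ'.toLinearMap hinj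
  have hsurj : Function.Surjective τ' := by
    have h1 := LinearMap.finrank_le_finrank_of_injective (f := τ'.toLinearMap) hinj
    exact (LinearMap.injective_iff_surjective_of_finrank_eq_finrank
      (f := τ'.toLinearMap) (le_antisymm h1 hle)).mp hinj
  let e : algebraicClosure K M ≃ₐ[K] algebraicClosure K E :=
    AlgEquiv.ofBijective τ' ⟨hinj, hsurj⟩
  refine ⟨(algebraicClosure K M).val.comp e.symm.toAlgHom, ?_⟩
  intro l
  refine ⟨mem_algebraicClosure_iff.mp (e.symm l).2, hmem (e.symm l), ?_⟩
  have h1 := congrArg (fun x : algebraicClosure K E => (x : E)) (e.apply_symm_apply l)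
  exact h1

/-- The value at `0`. -/
noncomputable def F2_val (E : Type) [Field E] : regRing E →+* E where
  toFun x := x.2.choose
  map_one' := by
    have h1 := (1 : regRing E).2.choose_spec.choose_spec
    exact (h1.unique (by simpa using HasJet.C (1 : E))).1
  map_zero' := by
    have h1 := (0 : regRing E).2.choose_spec.choose_spec
    exact (h1.unique (by simpa using HasJet.C (0 : E))).1
  map_mul' x y := (((x * y).2.choose_spec.choose_spec).unique
    ((x.2.choose_spec.choose_spec).mul (y.2.choose_spec.choose_spec))).1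
  map_add' x y := (((x + y).2.choose_spec.choose_spec).unique
    ((x.2.choose_spec.choose_spec).add (y.2.choose_spec.choose_spec))).1

theorem F2_val_eq (x : regRing E) {a b : E} (h : HasJet (x : RatFunc E) a b) :
    F2_val E x = a :=
  ((x.2.choose_spec.choose_spec).unique h).1

theorem F2_val_jet (x : regRing E) : ∃ b, HasJet (x : RatFunc E) (F2_val E x) b :=
  x.2.choose_spec

theorem F2_rmap_algebraMap (F : K →+* E) (p : K[X]) :
    rmap F (algebraMap K[X] (RatFunc K) p) = algebraMap E[X] (RatFunc E) (p.map F) := by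
  rw [rmap, RatFunc.coe_mapRingHom_eq_coe_map, RatFunc.map_apply]
  simp

theorem F2_rmap_C (F : K →+* E) (a : K) : rmap F (RatFunc.C a) = RatFunc.C (F a) := by
  rw [← RatFunc.algebraMap_C, F2_rmap_algebraMap, Polynomial.map_C, RatFunc.algebraMap_C]

theorem F2_rmap_comp (F : K →+* E) (G : E →+* M) (f : RatFunc K) :
    rmap G (rmap F f) = rmap (G.comp F) f := by
  rw [← RatFunc.num_div_denom f]
  simp only [map_div₀, F2_rmap_algebraMap, Polynomial.map_map]

theorem F2_dF_equiv (G : K →+* E) (e : E ≃+* M) : dF (e.toRingHom.comp G) = dF G := by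
  let _ : Algebra K E := G.toAlgebra
  let _ : Algebra K M := (e.toRingHom.comp G).toAlgebra
  let e' : E ≃ₐ[K] M := AlgEquiv.ofRingEquiv (f := e) (fun _ => rfl)
  exact (algebraicClosure.algEquivOfAlgEquiv e').toLinearEquiv.finrank_eq.symm

end F2

/-- The map `R[X] → K(X)`. -/
noncomputable def F2_j (R Kn : Type) [CommRing R] [Field Kn] [Algebra R Kn] :
    R[X] →+* RatFunc Kn :=
  (algebraMap Kn[X] (RatFunc Kn)).comp (mapRingHom (algebraMap R Kn))

theorem F2_isFractionRing (R Kn : Type) [CommRing R] [IsDomain R] [Field Kn] [Algebra R Kn]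
    [IsFractionRing R Kn] :
    @IsFractionRing R[X] _ (RatFunc Kn) _ (F2_j R Kn).toAlgebra := by
  let _ : Algebra R[X] (RatFunc Kn) := (F2_j R Kn).toAlgebra
  have hj : ∀ p : R[X], algebraMap R[X] (RatFunc Kn) p =
      algebraMap Kn[X] (RatFunc Kn) (p.map (algebraMap R Kn)) := fun _ => rfl
  have hinj : Function.Injective (algebraMap R[X] (RatFunc Kn)) := by
    intro p q h
    rw [hj, hj] at h
    exact Polynomial.map_injective _ (IsFractionRing.injective R Kn)
      (IsFractionRing.injective Kn[X] (RatFunc Kn) h)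
  refine { map_units := ?_, surj := ?_, exists_of_eq := ?_ }
  · intro y
    rw [isUnit_iff_ne_zero, Ne, map_eq_zero_iff _ hinj]
    exact nonZeroDivisors.coe_ne_zero y
  · intro z
    obtain ⟨b, hb, hb'⟩ := IsLocalization.integerNormalization_spec (nonZeroDivisors R) z.num
    obtain ⟨c, hc, hc'⟩ := IsLocalization.integerNormalization_spec (nonZeroDivisors R) z.denom
    have hne : C b * IsLocalization.integerNormalization (nonZeroDivisors R) z.denom ≠ 0 := by
      refine mul_ne_zero (by simpa using nonZeroDivisors.ne_zero hb) ?_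
      intro h0
      exact z.denom_ne_zero
        ((IsLocalization.integerNormalization_eq_zero_iff le_rfl z.denom).mp h0)
    refine ⟨⟨C c * IsLocalization.integerNormalization (nonZeroDivisors R) z.num,
      ⟨C b * IsLocalization.integerNormalization (nonZeroDivisors R) z.denom,
        mem_nonZeroDivisors_of_ne_zero hne⟩⟩, ?_⟩
    simp only
    rw [hj, hj, Polynomial.map_mul, Polynomial.map_mul, hb', hc']
    have h2 : algebraMap Kn[X] (RatFunc Kn) z.denom ≠ 0 := by
      rw [Ne, map_eq_zero_iff _ (IsFractionRing.injective Kn[X] (RatFunc Kn))]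
      exact z.denom_ne_zero
    have h1 : z * algebraMap Kn[X] (RatFunc Kn) z.denom = algebraMap Kn[X] (RatFunc Kn) z.num :=
      ((div_eq_iff h2).mp z.num_div_denom).symm
    rw [← algebraMap_smul Kn b, ← algebraMap_smul Kn c, Polynomial.smul_eq_C_mul,
      Polynomial.smul_eq_C_mul, Polynomial.map_C, Polynomial.map_C]
    simp only [map_mul, ← h1]
    ring
  · intro x y h
    exact ⟨1, by rw [hinj h]⟩

/-- `K(t)` for `K = k(t_1, ..., t_n)` is again a rational function field. -/
theorem exists_algEquiv_ratFunc (k : Type) [Field k] (n : ℕ) :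
    Nonempty (RatFunc (RF k n) ≃ₐ[k] RF k (n + 1)) := by
  let _ : Algebra (MvPolynomial (Fin n) k)[X] (RatFunc (RF k n)) :=
    (F2_j (MvPolynomial (Fin n) k) (RF k n)).toAlgebra
  have : IsFractionRing (MvPolynomial (Fin n) k)[X] (RatFunc (RF k n)) :=
    F2_isFractionRing _ _
  let Ψ : RF k (n + 1) ≃+* RatFunc (RF k n) :=
    IsFractionRing.ringEquivOfRingEquiv (MvPolynomial.finSuccEquiv k n).toRingEquiv
  refine ⟨(AlgEquiv.ofRingEquiv (f := Ψ) ?_).symm⟩
  intro c
  have h1 : algebraMap k (RF k (n + 1)) c =
      algebraMap (MvPolynomial (Fin (n + 1)) k) (RF k (n + 1)) (MvPolynomial.C c) :=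
    IsScalarTower.algebraMap_apply k (MvPolynomial (Fin (n + 1)) k) (RF k (n + 1)) c
  rw [h1, IsFractionRing.ringEquivOfRingEquiv_algebraMap]
  have h2 : (MvPolynomial.finSuccEquiv k n).toRingEquiv (MvPolynomial.C c) =
      Polynomial.C (MvPolynomial.C c) := by
    change MvPolynomial.finSuccEquiv k n (MvPolynomial.C c) = _
    simp [MvPolynomial.finSuccEquiv_apply]
  rw [h2]
  change algebraMap (RF k n)[X] (RatFunc (RF k n))
    ((Polynomial.C (MvPolynomial.C c)).map (algebraMap (MvPolynomial (Fin n) k) (RF k n))) = _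
  rw [Polynomial.map_C]
  have h3 : algebraMap k (RatFunc (RF k n)) c =
      algebraMap (RF k n)[X] (RatFunc (RF k n)) (algebraMap k (RF k n)[X] c) := by
    rw [RatFunc.algebraMap_apply]
    simp
  rw [h3]
  rfl


/-- Embeddings into rational function fields, minimal algebraic closure, and lifting of sprays. -/
theorem exists_liftable (k K : Type) [Field k] [CharZero k] [Field K] [Algebra k K] (n0 : ℕ)
    (F0 : K →ₐ[k] RF k n0) :
    ∃ (L : Type) (_ : Field L) (_ : Algebra K L) (n : ℕ) (ι : L →+* RF k n),
      FiniteDimensional K L ∧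
      (∀ e : RF k n, (∃ P : L[X], P ≠ 0 ∧ P.eval₂ ι e = 0) → ∃ l, ι l = e) ∧
      (∀ c : k, ι (algebraMap K L (algebraMap k K c)) = algebraMap k (RF k n) c) ∧
      (∀ s : K →+* RatFunc K, (∀ c : k, s (algebraMap k K c) = RatFunc.C (algebraMap k K c)) →
        (∀ a, ∃ b, HasJet (s a) a b) →
        ∃ s' : L →+* RatFunc L, (∀ l, ∃ b, HasJet (s' l) l b) ∧
          ∀ a : K, s' (algebraMap K L a) = rmap (algebraMap K L) (s a)) := by
  classical
  have hne : ∃ d, ∃ n, ∃ F : K →ₐ[k] RF k n, dF F.toRingHom = d := ⟨_, n0, F0, rfl⟩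
  obtain ⟨n, F, hF⟩ := Nat.find_spec hne
  have hmin : ∀ n' (F' : K →ₐ[k] RF k n'), dF F.toRingHom ≤ dF F'.toRingHom := by
    intro n' F'
    rw [hF]
    exact Nat.find_min' hne ⟨n', F', rfl⟩
  clear hF
  let _ : Algebra K (RF k n) := F.toRingHom.toAlgebra
  have hmap : ∀ a : K, algebraMap K (RF k n) a = F a := fun _ => rfl
  have : IsScalarTower k K (RF k n) :=
    IsScalarTower.of_algebraMap_eq (fun c => (F.commutes c).symm)
  have : Algebra.EssFiniteType k (RF k n) := inferInstance
  have : Algebra.EssFiniteType K (RF k n) := Algebra.EssFiniteType.of_comp k K (RF k n)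
  have hfd : FiniteDimensional K (algebraicClosure K (RF k n)) :=
    finiteDimensional_algebraicClosure K (RF k n)
  have hcl : ∀ e : RF k n, (∃ P : (algebraicClosure K (RF k n))[X], P ≠ 0 ∧
      P.eval₂ (algebraMap (algebraicClosure K (RF k n)) (RF k n)) e = 0) →
      ∃ l, algebraMap (algebraicClosure K (RF k n)) (RF k n) l = e := by
    rintro e ⟨P, hP, he⟩
    have h1 : IsAlgebraic (algebraicClosure K (RF k n)) e := ⟨P, hP, he⟩
    have h2 : IsAlgebraic K e := h1.restrictScalars K
    exact ⟨⟨e, mem_algebraicClosure_iff.mpr h2⟩, rfl⟩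
  refine ⟨algebraicClosure K (RF k n), inferInstance, inferInstance, n,
    algebraMap (algebraicClosure K (RF k n)) (RF k n), hfd, hcl, ?_, ?_⟩
  · intro c
    exact F.commutes c
  · intro s hs hj
    have : CharZero K := charZero_of_injective_algebraMap (algebraMap k K).injective
    have : CharZero (algebraicClosure K (RF k n)) :=
      charZero_of_injective_algebraMap (algebraMap K (algebraicClosure K (RF k n))).injective
    let Fs : K →+* RatFunc (RF k n) := (rmap F.toRingHom).comp s
    let Fs' : K →ₐ[k] RatFunc (RF k n) :=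
      { Fs with
        commutes' := by
          intro c
          change rmap F.toRingHom (s (algebraMap k K c)) = _
          rw [hs, F2_rmap_C]
          have h1 : F.toRingHom (algebraMap k K c) = algebraMap k (RF k n) c := F.commutes c
          rw [h1]
          have h3 : algebraMap k (RatFunc (RF k n)) c =
              algebraMap (RF k n)[X] (RatFunc (RF k n)) (algebraMap k (RF k n)[X] c) := by
            rw [RatFunc.algebraMap_apply]
            simp
          rw [h3, ← RatFunc.algebraMap_C]
          rfl }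
    obtain ⟨Φ⟩ := exists_algEquiv_ratFunc k n
    have h1 := hmin (n + 1) (Φ.toAlgHom.comp Fs')
    have h2 : dF (Φ.toAlgHom.comp Fs').toRingHom = dF Fs := F2_dF_equiv Fs Φ.toRingEquiv
    rw [h2] at h1
    have hjF : ∀ a, ∃ b, HasJet (Fs a) (F a) b := by
      intro a
      obtain ⟨b, hb⟩ := hj a
      exact ⟨_, hb.map F.toRingHom⟩
    obtain ⟨σ, hσ⟩ := @F2_lift_aux K (RF k n) (RatFunc (RF k n)) _ _ _
      F.toRingHom.toAlgebra Fs.toAlgebra hfd h1 (regRing (RF k n))
      (fun x hx => exists_hasJet_of_isIntegral x hx) (F2_val (RF k n))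
      (fun a => ⟨_, hjF a⟩) (fun a => F2_val_eq _ (hjF a).choose_spec)
    have hσa : ∀ a : K, σ (algebraMap K (algebraicClosure K (RF k n)) a) = Fs a := by
      intro a
      exact @AlgHom.commutes K _ _ _ _ _ _ Fs.toAlgebra σ a
    have hFcomp : (algebraMap (algebraicClosure K (RF k n)) (RF k n)).comp
        (algebraMap K (algebraicClosure K (RF k n))) = F.toRingHom := rfl
    have hrange : ∀ l, ∃ g : RatFunc (algebraicClosure K (RF k n)),
        rmap (algebraMap (algebraicClosure K (RF k n)) (RF k n)) g = σ l := by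
      intro l
      obtain ⟨p, hp, hpl⟩ := (hσ l).1
      refine mem_range_rmap _ hcl _
        (p.map ((rmap (algebraMap K (algebraicClosure K (RF k n)))).comp s)) ?_ ?_
      · rw [Ne, Polynomial.map_eq_zero_iff
          ((rmap (algebraMap K (algebraicClosure K (RF k n)))).comp s).injective]
        exact hp
      · rw [Polynomial.eval₂_map]
        have h3 : (rmap (algebraMap (algebraicClosure K (RF k n)) (RF k n))).comp
            ((rmap (algebraMap K (algebraicClosure K (RF k n)))).comp s) = Fs := by
          ext a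
          exact F2_rmap_comp _ _ _
        rw [h3]
        exact hpl
    choose g hg using hrange
    have hinj : Function.Injective
        (rmap (algebraMap (algebraicClosure K (RF k n)) (RF k n))) :=
      (rmap (algebraMap (algebraicClosure K (RF k n)) (RF k n))).injective
    let s' : algebraicClosure K (RF k n) →+* RatFunc (algebraicClosure K (RF k n)) :=
      { toFun := g
        map_one' := hinj (by rw [hg, map_one, map_one])
        map_mul' := fun x y => hinj (by rw [hg, map_mul, map_mul, hg, hg])
        map_zero' := hinj (by rw [hg, map_zero, map_zero])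
        map_add' := fun x y => hinj (by rw [hg, map_add, map_add, hg, hg]) }
    refine ⟨s', ?_, ?_⟩
    · intro l
      obtain ⟨-, h4, h5⟩ := hσ l
      obtain ⟨b, hb⟩ := F2_val_jet (⟨σ l, h4⟩ : regRing (RF k n))
      rw [h5] at hb
      simp only at hb
      rw [← hg l] at hb
      obtain ⟨a', b', h6, h7, -⟩ := hb.of_map
      have h8 : a' = l := (algebraMap (algebraicClosure K (RF k n)) (RF k n)).injective h7
      rw [h8] at h6
      exact ⟨b', h6⟩
    · intro a
      apply hinj
      change rmap _ (g _) = _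
      rw [hg, hσa, F2_rmap_comp]
      rfl

end Pool.Agent.LibHP
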