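import Mathlib

set_option autoImplicit false

namespace Pool.Agent.LibHP

open TensorProduct

section E1aux

variable {A B : Type} [CommRing A] [CommRing B] [Algebra A B]

theorem E1_smul (dA : Derivation ℤ A A) (dB : Derivation ℤ B B)
    (hc : ∀ a, dB (algebraMap A B a) = algebraMap A B (dA a)) (a : A) (y : B) :
    dB (a • y) = dA a • y + a • dB y := by
  simp only [Algebra.smul_def, Derivation.leibniz, hc, Algebra.algebraMap_self, RingHom.id_apply]
  ring

/-- commutator of a tensor with a derivation -/
theorem E1_comm (dA : Derivation ℤ A A) (dB : Derivation ℤ B B)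
    (hc : ∀ a, dB (algebraMap A B a) = algebraMap A B (dA a))
    (t : Module.Dual A B ⊗[A] B) :
    ∃ t' : Module.Dual A B ⊗[A] B, ∀ y, dualTensorHom A B B t' y =
      dB (dualTensorHom A B B t y) - dualTensorHom A B B t (dB y) := by
  have hsm := E1_smul dA dB hc
  induction t using TensorProduct.induction_on with
  | zero => exact ⟨0, fun y => by simp⟩
  | tmul φ b =>
    let ψ : Module.Dual A B :=
      { toFun := fun y => dA (φ y) - φ (dB y)
        map_add' := fun x y => by simp only [map_add]; ring
        map_smul' := fun a y => by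
          simp only [map_smul, hsm, map_add, smul_eq_mul, Derivation.leibniz, RingHom.id_apply]
          ring }
    refine ⟨ψ ⊗ₜ b + φ ⊗ₜ dB b, fun y => ?_⟩
    rw [map_add, LinearMap.add_apply, dualTensorHom_apply, dualTensorHom_apply,
      dualTensorHom_apply, dualTensorHom_apply, hsm]
    show (dA (φ y) - φ (dB y)) • b + _ = _
    rw [sub_smul]; ring
  | add t₁ t₂ h₁ h₂ =>
    obtain ⟨s₁, h₁⟩ := h₁
    obtain ⟨s₂, h₂⟩ := h₂
    refine ⟨s₁ + s₂, fun y => ?_⟩
    simp only [map_add, LinearMap.add_apply, h₁, h₂]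
    ring

/-- the derivation on the tensor square -/
theorem E1_delta (dA : Derivation ℤ A A) (dB : Derivation ℤ B B)
    (hc : ∀ a, dB (algebraMap A B a) = algebraMap A B (dA a)) :
    ∃ Δ : B ⊗[A] B →+ B ⊗[A] B, (∀ b c, Δ (b ⊗ₜ c) = dB b ⊗ₜ c + b ⊗ₜ dB c) ∧
      (∀ x y, Δ (x * y) = Δ x * y + x * Δ y) ∧
      (∀ x, Algebra.TensorProduct.lmul' A (Δ x) = dB (Algebra.TensorProduct.lmul' A x)) := by
  have hsm := E1_smul dA dB hc
  let f : B →+ B →+ B ⊗[A] B :=
    AddMonoidHom.mk' (fun b => AddMonoidHom.mk' (fun c => dB b ⊗ₜ[A] c + b ⊗ₜ[A] dB c)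
      (fun c c' => by simp only [tmul_add, map_add]; abel))
      (fun b b' => by
        ext c
        simp only [AddMonoidHom.mk'_apply, AddMonoidHom.add_apply, map_add, add_tmul]
        abel)
  have hf : ∀ (r : A) (m : B) (n : B), f (r • m) n = f m (r • n) := by
    intro r m n
    simp only [f, AddMonoidHom.mk'_apply, hsm, add_tmul, tmul_add, smul_tmul]
    abel
  have h1 : ∀ b c, TensorProduct.liftAddHom f hf (b ⊗ₜ c) = dB b ⊗ₜ c + b ⊗ₜ dB c :=
    fun b c => rfl
  refine ⟨TensorProduct.liftAddHom f hf, h1, ?_, ?_⟩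
  · intro x y
    induction x using TensorProduct.induction_on with
    | zero => simp
    | tmul b c =>
      induction y using TensorProduct.induction_on with
      | zero => simp
      | tmul b' c' =>
        rw [Algebra.TensorProduct.tmul_mul_tmul, h1, h1, h1]
        simp only [Derivation.leibniz, smul_eq_mul, add_tmul, tmul_add, mul_add, add_mul,
          Algebra.TensorProduct.tmul_mul_tmul]
        simp only [mul_comm]
        abel
      | add y₁ y₂ h₁ h₂ =>
        rw [mul_add, map_add, map_add, h₁, h₂, mul_add, mul_add]; abel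
    | add x₁ x₂ h₁ h₂ =>
      rw [add_mul, map_add, map_add, h₁, h₂, add_mul, add_mul]; abel
  · intro x
    induction x using TensorProduct.induction_on with
    | zero => simp
    | tmul b c =>
      rw [h1]
      simp only [map_add, Algebra.TensorProduct.lmul'_apply_tmul, Derivation.leibniz, smul_eq_mul]
      ring
    | add x₁ x₂ h₁ h₂ => rw [map_add, map_add, map_add, map_add, h₁, h₂]

/-- the ideal of denominators of a dual basis -/
theorem E1_proj (A B : Type) [CommRing A] [CommRing B] [Algebra A B]
    (P : Set (Derivation ℤ A A × Derivation ℤ B B))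
    (hP : ∀ p ∈ P, ∀ a, p.2 (algebraMap A B a) = algebraMap A B (p.1 a))
    (hs : ∀ I : Ideal A, I ≠ ⊥ → (∀ p ∈ P, ∀ a ∈ I, p.1 a ∈ I) → I = ⊤)
    (a₀ : A) (ha₀ : a₀ ≠ 0) (t₀ : Module.Dual A B ⊗[A] B)
    (h₀ : ∀ y, dualTensorHom A B B t₀ y = a₀ • y) : Module.Projective A B := by
  let I : Ideal A := Submodule.comap (LinearMap.toSpanSingleton A (B →ₗ[A] B) 1)
    (LinearMap.range (dualTensorHom A B B))
  have hmem : ∀ a, a ∈ I ↔ ∃ t, ∀ y, dualTensorHom A B B t y = a • y := by
    intro a
    constructor
    · rintro ⟨t, ht⟩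
      refine ⟨t, fun y => ?_⟩
      rw [ht]; simp
    · rintro ⟨t, ht⟩
      refine ⟨t, LinearMap.ext fun y => ?_⟩
      rw [ht]; simp
  have hI : I = ⊤ := by
    refine hs I ?_ ?_
    · intro h
      have : a₀ ∈ I := (hmem a₀).2 ⟨t₀, h₀⟩
      rw [h] at this
      exact ha₀ (by simpa using this)
    · intro p hp a ha
      obtain ⟨t, ht⟩ := (hmem a).1 ha
      obtain ⟨t', ht'⟩ := E1_comm p.1 p.2 (hP p hp) t
      refine (hmem _).2 ⟨t', fun y => ?_⟩
      rw [ht', ht, ht, E1_smul p.1 p.2 (hP p hp)]
      abel
  have h1 : (1 : A) ∈ I := by rw [hI]; trivial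
  refine Module.Projective.of_one_mem_range_dualTensorHom ?_
  obtain ⟨t, ht⟩ := (hmem 1).1 h1
  exact ⟨t, LinearMap.ext fun y => by rw [ht]; simp⟩

theorem E1_unr (A B : Type) [CommRing A] [CommRing B] [Algebra A B]
    (P : Set (Derivation ℤ A A × Derivation ℤ B B))
    (hP : ∀ p ∈ P, ∀ a, p.2 (algebraMap A B a) = algebraMap A B (p.1 a))
    (hs : ∀ I : Ideal A, I ≠ ⊥ → (∀ p ∈ P, ∀ a ∈ I, p.1 a ∈ I) → I = ⊤)
    (a₀ : A) (ha₀ : a₀ ≠ 0) (e₀ : B ⊗[A] B)
    (h₀ : ∀ b : B, ((1 : B) ⊗ₜ[A] b - b ⊗ₜ[A] (1 : B)) * e₀ = 0)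
    (h₀' : Algebra.TensorProduct.lmul' A e₀ = algebraMap A B a₀) :
    ∃ e : B ⊗[A] B, (∀ b : B, ((1 : B) ⊗ₜ[A] b - b ⊗ₜ[A] (1 : B)) * e = 0) ∧
      Algebra.TensorProduct.lmul' A e = 1 := by
  let I : Ideal A :=
    { carrier := {a | ∃ e : B ⊗[A] B, (∀ b : B, ((1 : B) ⊗ₜ[A] b - b ⊗ₜ[A] (1 : B)) * e = 0) ∧
        Algebra.TensorProduct.lmul' A e = algebraMap A B a}
      zero_mem' := ⟨0, by simp, by simp⟩
      add_mem' := by
        rintro a b ⟨e, he, he'⟩ ⟨f, hf, hf'⟩
        refine ⟨e + f, fun b => by rw [mul_add, he, hf, add_zero], by rw [map_add, map_add, he', hf']⟩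
      smul_mem' := by
        rintro c a ⟨e, he, he'⟩
        refine ⟨c • e, fun b => by rw [mul_smul_comm, he, smul_zero], ?_⟩
        rw [map_smul, he', smul_eq_mul, map_mul, Algebra.smul_def] }
  have hI : I = ⊤ := by
    refine hs I ?_ ?_
    · intro h
      have : a₀ ∈ I := ⟨e₀, h₀, h₀'⟩
      rw [h] at this
      exact ha₀ (by simpa using this)
    · rintro p hp a ⟨e, he, he'⟩
      obtain ⟨Δ, hΔ1, hΔ2, hΔ3⟩ := E1_delta p.1 p.2 (hP p hp)
      refine ⟨Δ e, fun b => ?_, ?_⟩
      · have h1 := congrArg Δ (he b)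
        rw [hΔ2, map_zero, map_sub, hΔ1, hΔ1] at h1
        have h2 := he (p.2 b)
        simp only [Derivation.map_one_eq_zero, zero_tmul, tmul_zero, zero_add, add_zero] at h1
        rw [h2, zero_add] at h1
        exact h1
      · rw [hΔ3, he', hP p hp]
  have h1 : (1 : A) ∈ I := by rw [hI]; trivial
  obtain ⟨e, he, he'⟩ := h1
  exact ⟨e, he, by rw [he', map_one]⟩

end E1aux

theorem E1_exists_dual (A K L : Type) [CommRing A] [IsDomain A] [Field K]
    [Algebra A K] [IsFractionRing A K] [Field L] [Algebra K L] [Algebra A L] [IsScalarTower A K L]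
    [FiniteDimensional K L] (hfin : Module.Finite A (integralClosure A L)) :
    ∃ a₀ : A, a₀ ≠ 0 ∧ ∃ t₀ : Module.Dual A (integralClosure A L) ⊗[A] (integralClosure A L),
      ∀ y, dualTensorHom A (integralClosure A L) (integralClosure A L) t₀ y = a₀ • y := by
  classical
  have hinjAK : Function.Injective (algebraMap A K) := IsFractionRing.injective A K
  obtain ⟨s, bas, hbas⟩ := FiniteDimensional.exists_is_basis_integral A K L
  obtain ⟨G, hG⟩ := hfin.fg_top
  obtain ⟨c, hc⟩ := IsLocalization.exist_integer_multiples_of_finset (nonZeroDivisors A)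
    ((s.attach ×ˢ G).image (fun p => bas.repr (p.2 : L) p.1))
  have hint : ∀ (i : s) (y : integralClosure A L),
      ∃ r : A, algebraMap A K r = (c : A) • bas.repr (y : L) i := by
    intro i y
    have hy : y ∈ Submodule.span A (G : Set (integralClosure A L)) := by rw [hG]; trivial
    induction hy using Submodule.span_induction with
    | mem x hx =>
      obtain ⟨r, hr⟩ := hc (bas.repr (x : L) i) (Finset.mem_image.2 ⟨(i, x),
        Finset.mem_product.2 ⟨Finset.mem_attach _ _, hx⟩, rfl⟩)
      exact ⟨r, hr⟩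
    | zero => exact ⟨0, by simp⟩
    | add x x' _ _ h h' =>
      obtain ⟨r, hr⟩ := h
      obtain ⟨r', hr'⟩ := h'
      refine ⟨r + r', ?_⟩
      rw [map_add, hr, hr', AddMemClass.coe_add, map_add, Finsupp.add_apply, smul_add]
    | smul a x _ h =>
      obtain ⟨r, hr⟩ := h
      refine ⟨a * r, ?_⟩
      have h1 : bas.repr ((a • x : integralClosure A L) : L) i = a • bas.repr (x : L) i := by
        have : ((a • x : integralClosure A L) : L) = (algebraMap A K a) • (x : L) := by
          rw [algebraMap_smul]; rfl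
        rw [this, map_smul, Finsupp.smul_apply, algebraMap_smul]
      rw [h1, map_mul, hr, Algebra.smul_def, Algebra.smul_def, Algebra.smul_def]
      ring
  choose r hr using hint
  let φ : s → Module.Dual A (integralClosure A L) := fun i =>
    { toFun := fun y => r i y
      map_add' := fun x y => by
        apply hinjAK
        rw [map_add, hr, hr, hr, AddMemClass.coe_add, map_add, Finsupp.add_apply, smul_add]
      map_smul' := fun a x => by
        apply hinjAK
        have h1 : bas.repr ((a • x : integralClosure A L) : L) i = a • bas.repr (x : L) i := by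
          have : ((a • x : integralClosure A L) : L) = (algebraMap A K a) • (x : L) := by
            rw [algebraMap_smul]; rfl
          rw [this, map_smul, Finsupp.smul_apply, algebraMap_smul]
        rw [RingHom.id_apply, smul_eq_mul, map_mul, hr, hr, h1, Algebra.smul_def, Algebra.smul_def,
          Algebra.smul_def]
        ring }
  refine ⟨c, nonZeroDivisors.coe_ne_zero c, ∑ i : s, φ i ⊗ₜ (⟨bas i, hbas i⟩ : integralClosure A L),
    fun y => ?_⟩
  rw [map_sum, LinearMap.sum_apply]
  simp only [dualTensorHom_apply]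
  apply Subtype.ext
  rw [AddSubmonoidClass.coe_finsetSum]
  have h1 : ∀ i : s, ((φ i y • (⟨bas i, hbas i⟩ : integralClosure A L) : integralClosure A L) : L)
      = (c : A) • (bas.repr (y : L) i • bas i) := by
    intro i
    have h2 : ((φ i y • (⟨bas i, hbas i⟩ : integralClosure A L) : integralClosure A L) : L)
      = (algebraMap A K (r i y)) • bas i := by
      rw [algebraMap_smul]; rfl
    rw [h2, hr, smul_assoc]
  rw [Finset.sum_congr rfl (fun i _ => h1 i), ← Finset.smul_sum, bas.sum_repr]
  rfl

theorem E1_exists_sep (A K L : Type) [CommRing A] [IsDomain A] [Field K]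
    [Algebra A K] [IsFractionRing A K] [Field L] [Algebra K L] [Algebra A L] [IsScalarTower A K L]
    [FiniteDimensional K L] [Algebra.IsSeparable K L]
    (hfin : Module.Finite A (integralClosure A L)) :
    ∃ a₀ : A, a₀ ≠ 0 ∧ ∃ e₀ : (integralClosure A L) ⊗[A] (integralClosure A L),
      (∀ b : integralClosure A L, ((1 : integralClosure A L) ⊗ₜ[A] b -
        b ⊗ₜ[A] (1 : integralClosure A L)) * e₀ = 0) ∧
      Algebra.TensorProduct.lmul' A e₀ = algebraMap A (integralClosure A L) a₀ := by
  have hinjAK : Function.Injective (algebraMap A K) := IsFractionRing.injective A K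
  have hinj : Function.Injective (algebraMap A L) := by
    rw [IsScalarTower.algebraMap_eq A K L]
    exact (algebraMap K L).injective.comp hinjAK
  have : Algebra.FormallyUnramified A K :=
    Algebra.FormallyUnramified.of_isLocalization (nonZeroDivisors A)
  have : Algebra.FormallyUnramified K L := Algebra.FormallyUnramified.of_isSeparable K L
  have : Algebra.FormallyUnramified A L := Algebra.FormallyUnramified.comp A K L
  have : Algebra.EssFiniteType A K := Algebra.EssFiniteType.of_isLocalization K (nonZeroDivisors A)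
  have : Algebra.EssFiniteType A L := Algebra.EssFiniteType.comp A K L
  obtain ⟨t, ht1, ht2⟩ := (Algebra.FormallyUnramified.iff_exists_tensorProduct (R := A)
    (S := L)).1 inferInstance
  have hloc : IsLocalization (Algebra.algebraMapSubmonoid (integralClosure A L)
    (nonZeroDivisors A)) L := IsIntegralClosure.isLocalization A K L (integralClosure A L)
  have hlm : IsLocalizedModule (nonZeroDivisors A)
      (IsScalarTower.toAlgHom A (integralClosure A L) L).toLinearMap :=
    isLocalizedModule_iff_isLocalization.2 hloc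
  let ι : integralClosure A L →ₐ[A] L := IsScalarTower.toAlgHom A (integralClosure A L) L
  let g : (integralClosure A L) ⊗[A] (integralClosure A L) →ₗ[A] L ⊗[A] L :=
    TensorProduct.map ι.toLinearMap ι.toLinearMap
  have hg : IsLocalizedModule (nonZeroDivisors A) g := inferInstance
  let γ : (integralClosure A L) ⊗[A] (integralClosure A L) →ₐ[A] L ⊗[A] L :=
    Algebra.TensorProduct.map ι ι
  have hγ : ∀ x, γ x = g x := fun x => rfl
  obtain ⟨⟨e, a⟩, hea⟩ := IsLocalizedModule.surj (nonZeroDivisors A) g t
  simp only at hea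
  -- each commutator is killed by a nonzero element
  have hkill : ∀ b : integralClosure A L, ∃ c : nonZeroDivisors A,
      c • (((1 : integralClosure A L) ⊗ₜ[A] b - b ⊗ₜ[A] (1 : integralClosure A L)) * e) = 0 := by
    intro b
    have h1 : g (((1 : integralClosure A L) ⊗ₜ[A] b - b ⊗ₜ[A] (1 : integralClosure A L)) * e)
        = g 0 := by
      rw [← hγ, map_mul, hγ e, ← hea, map_sub]
      have h2 : γ ((1 : integralClosure A L) ⊗ₜ[A] b) = (1 : L) ⊗ₜ[A] (b : L) := by
        show ι 1 ⊗ₜ ι b = _
        rw [map_one]; rfl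
      have h3 : γ (b ⊗ₜ[A] (1 : integralClosure A L)) = (b : L) ⊗ₜ[A] (1 : L) := by
        show ι b ⊗ₜ ι 1 = _
        rw [map_one]; rfl
      rw [h2, h3, mul_smul_comm, ht1, smul_zero, map_zero]
    obtain ⟨c, hc⟩ := IsLocalizedModule.exists_of_eq (S := nonZeroDivisors A) h1
    exact ⟨c, by rw [hc, smul_zero]⟩
  choose c hc using hkill
  obtain ⟨G, hG⟩ := hfin.fg_top
  let d : nonZeroDivisors A := ∏ y ∈ G, c y
  have hd : ∀ b : integralClosure A L,
      ((1 : integralClosure A L) ⊗ₜ[A] b - b ⊗ₜ[A] (1 : integralClosure A L)) * ((d : A) • e)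
        = 0 := by
    intro b
    have hb : b ∈ Submodule.span A (G : Set (integralClosure A L)) := by rw [hG]; trivial
    induction hb using Submodule.span_induction with
    | mem x hx =>
      obtain ⟨u, hu⟩ := Finset.dvd_prod_of_mem c hx
      have h1 : (d : A) = (u : A) * (c x : A) := by
        have : d = u * c x := by rw [mul_comm]; exact hu
        rw [this]; rfl
      rw [h1, mul_smul_comm, mul_smul]
      have := hc x
      rw [Submonoid.smul_def] at this
      rw [this, smul_zero]
    | zero => simp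
    | add x y _ _ h h' =>
      have : ((1 : integralClosure A L) ⊗ₜ[A] (x + y) - (x + y) ⊗ₜ[A] (1 : integralClosure A L))
          = ((1 : integralClosure A L) ⊗ₜ[A] x - x ⊗ₜ[A] (1 : integralClosure A L)) +
          ((1 : integralClosure A L) ⊗ₜ[A] y - y ⊗ₜ[A] (1 : integralClosure A L)) := by
        rw [tmul_add, add_tmul]; abel
      rw [this, add_mul, h, h', add_zero]
    | smul r x _ h =>
      have : ((1 : integralClosure A L) ⊗ₜ[A] (r • x) - (r • x) ⊗ₜ[A] (1 : integralClosure A L))
          = r • ((1 : integralClosure A L) ⊗ₜ[A] x - x ⊗ₜ[A] (1 : integralClosure A L)) := by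
        rw [tmul_smul, smul_sub]
        rfl
      rw [this, smul_mul_assoc, h, smul_zero]
  refine ⟨d * a, mul_ne_zero (nonZeroDivisors.coe_ne_zero d) (nonZeroDivisors.coe_ne_zero a),
    (d : A) • e, hd, ?_⟩
  apply Subtype.ext
  have h1 : ∀ x, ι (Algebra.TensorProduct.lmul' A x) = Algebra.TensorProduct.lmul' A (γ x) := by
    intro x
    induction x using TensorProduct.induction_on with
    | zero => simp
    | tmul b c =>
      have : γ (b ⊗ₜ[A] c) = ι b ⊗ₜ[A] ι c := rfl
      rw [this, Algebra.TensorProduct.lmul'_apply_tmul, Algebra.TensorProduct.lmul'_apply_tmul,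
        map_mul]
    | add x y h h' => rw [map_add, map_add, map_add, map_add, h, h']
  have h2 := h1 e
  rw [hγ, ← hea, Submonoid.smul_def, map_smul, ht2] at h2
  have h3 : ((Algebra.TensorProduct.lmul' A ((d : A) • e) : integralClosure A L) : L)
      = (d : A) • ι (Algebra.TensorProduct.lmul' A e) := by
    rw [map_smul]; rfl
  rw [h3, h2, ← mul_smul, Algebra.smul_def, mul_one]
  rfl

/-- Etaleness from derivations: if a family of derivations of `L` preserves the domain `A` and its
integral closure `B` in the finite separable extension `L` of `K = Frac A`, and `A` has no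
nonzero proper ideal stable under the family, then `B` is finite etale over `A`. -/
theorem etale_of_simple (A K L : Type) [CommRing A] [IsDomain A] [IsNoetherianRing A] [Field K]
    [Algebra A K] [IsFractionRing A K] [Field L] [Algebra K L] [Algebra A L] [IsScalarTower A K L]
    [FiniteDimensional K L] [Algebra.IsSeparable K L]
    (hfin : Module.Finite A (integralClosure A L))
    (𝔇 : Set (Derivation ℤ L L))
    (hA : ∀ D ∈ 𝔇, ∀ a : A, ∃ a' : A, D (algebraMap A L a) = algebraMap A L a')
    (hB : ∀ D ∈ 𝔇, ∀ b : L, IsIntegral A b → IsIntegral A (D b))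
    (hsimple : ∀ I : Ideal A, I ≠ ⊥ →
      (∀ D ∈ 𝔇, ∀ a ∈ I, ∀ a' : A, D (algebraMap A L a) = algebraMap A L a' → a' ∈ I) → I = ⊤) :
    Algebra.Etale A (integralClosure A L) := by
  have hinjAK : Function.Injective (algebraMap A K) := IsFractionRing.injective A K
  have hinj : Function.Injective (algebraMap A L) := by
    rw [IsScalarTower.algebraMap_eq A K L]
    exact (algebraMap K L).injective.comp hinjAK
  let P : Set (Derivation ℤ A A × Derivation ℤ (integralClosure A L) (integralClosure A L)) :=
    {p | ∃ D ∈ 𝔇, (∀ a, algebraMap A L (p.1 a) = D (algebraMap A L a)) ∧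
      ∀ b : integralClosure A L, ((p.2 b : integralClosure A L) : L) = D b}
  have hP : ∀ p ∈ P, ∀ a, p.2 (algebraMap A (integralClosure A L) a) =
      algebraMap A (integralClosure A L) (p.1 a) := by
    rintro p ⟨D, -, h1, h2⟩ a
    apply Subtype.ext
    rw [h2]
    exact (h1 a).symm
  have hex : ∀ D ∈ 𝔇, ∃ p ∈ P, ∀ a, algebraMap A L (p.1 a) = D (algebraMap A L a) := by
    intro D hD
    choose f hf using hA D hD
    let dA : Derivation ℤ A A := Derivation.mk'
      (AddMonoidHom.toIntLinearMap (AddMonoidHom.mk' f (fun a b => by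
        apply hinj
        rw [← hf, map_add, map_add, map_add, hf, hf]))) (fun a b => by
        apply hinj
        show algebraMap A L (f (a * b)) = algebraMap A L (a • f b + b • f a)
        rw [← hf, map_mul, Derivation.leibniz, hf, hf, smul_eq_mul, smul_eq_mul, smul_eq_mul,
          smul_eq_mul, map_add, map_mul, map_mul])
    let dB : Derivation ℤ (integralClosure A L) (integralClosure A L) := Derivation.mk'
      (AddMonoidHom.toIntLinearMap (AddMonoidHom.mk'
        (fun b => (⟨D b, hB D hD b b.2⟩ : integralClosure A L)) (fun a b => by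
        apply Subtype.ext
        show D ((a : L) + (b : L)) = D a + D b
        rw [map_add]))) (fun a b => by
        apply Subtype.ext
        show D ((a : L) * (b : L)) = (a : L) * D b + (b : L) * D a
        rw [Derivation.leibniz]; rfl)
    have h1 : ∀ a, algebraMap A L (dA a) = D (algebraMap A L a) := fun a => (hf a).symm
    exact ⟨(dA, dB), ⟨D, hD, h1, fun b => rfl⟩, h1⟩
  have hs : ∀ I : Ideal A, I ≠ ⊥ → (∀ p ∈ P, ∀ a ∈ I, p.1 a ∈ I) → I = ⊤ := by
    intro I hI hst
    refine hsimple I hI ?_
    intro D hD a ha a' haa'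
    obtain ⟨p, hp, hp1⟩ := hex D hD
    have h1 : a' = p.1 a := by
      apply hinj
      rw [← haa', hp1]
    rw [h1]
    exact hst p hp a ha
  obtain ⟨a₀, ha₀, t₀, ht₀⟩ := E1_exists_dual A K L hfin
  have hproj : Module.Projective A (integralClosure A L) :=
    E1_proj A (integralClosure A L) P hP hs a₀ ha₀ t₀ ht₀
  obtain ⟨a₁, ha₁, e₁, he₁, he₁'⟩ := E1_exists_sep A K L hfin
  have hun : Algebra.FormallyUnramified A (integralClosure A L) := by
    rw [Algebra.FormallyUnramified.iff_exists_tensorProduct]
    exact E1_unr A (integralClosure A L) P hP hs a₁ ha₁ e₁ he₁ he₁'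
  have hfp : Algebra.FinitePresentation A (integralClosure A L) :=
    Algebra.FinitePresentation.of_finiteType.1 inferInstance
  exact Algebra.Etale.of_formallyUnramified_of_flat

end Pool.Agent.LibHP
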