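import Mathlib

set_option autoImplicit false
open Polynomial

namespace Pool.Agent.LibHP

/-- Derivations of `L` preserving `O` preserve the integral closure of `O` in `L` when the integral
closure is etale over `O`. -/
theorem isIntegral_derivation_of_etale (O K L : Type) [CommRing O] [IsDomain O] [Field K]
    [Algebra O K] [IsFractionRing O K] [Field L] [Algebra K L] [Algebra O L] [IsScalarTower O K L]
    [Algebra.IsAlgebraic K L] [Algebra.IsSeparable K L]
    [Algebra.FormallyEtale O (integralClosure O L)] (D : Derivation ℤ L L)
    (hD : ∀ x : O, ∃ y : O, D (algebraMap O L x) = algebraMap O L y) (b : L)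
    (hb : IsIntegral O b) : IsIntegral O (D b) := by
  have hinj : Function.Injective (algebraMap O L) := by
    rw [IsScalarTower.algebraMap_eq O K L]
    exact (algebraMap K L).injective.comp (IsFractionRing.injective O K)
  choose δ0 hδ0 using hD
  let δ : Derivation ℤ O (integralClosure O L) := Derivation.mk'
    (AddMonoidHom.toIntLinearMap
      { toFun := fun x => algebraMap O (integralClosure O L) (δ0 x)
        map_zero' := by
          have : δ0 0 = 0 := hinj (by rw [← hδ0]; simp)
          rw [this, map_zero]
        map_add' := by
          intro x y
          have : δ0 (x + y) = δ0 x + δ0 y := hinj (by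
            rw [← hδ0, map_add, map_add, map_add, hδ0, hδ0])
          rw [this, map_add] }) (by
      intro x y
      have : δ0 (x * y) = x * δ0 y + y * δ0 x := hinj (by
        rw [← hδ0, map_mul, Derivation.leibniz, hδ0, hδ0]
        simp only [smul_eq_mul, map_add, map_mul])
      simp only [AddMonoidHom.coe_toIntLinearMap, AddMonoidHom.coe_mk, ZeroHom.coe_mk, this]
      simp only [map_add, map_mul, Algebra.smul_def])
  have hδ : ∀ x, δ x = algebraMap O (integralClosure O L) (δ0 x) := fun x => rfl
  have hbc := KaehlerDifferential.isBaseChange_of_formallyEtale ℤ O (integralClosure O L)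
  let ℓ := hbc.lift δ.liftKaehlerDifferential
  let D1 : Derivation ℤ (integralClosure O L) (integralClosure O L) :=
    ℓ.compDer (KaehlerDifferential.D ℤ (integralClosure O L))
  have hD1 : ∀ x : O, D1 (algebraMap O _ x) = algebraMap O _ (δ0 x) := by
    intro x
    have h1 := hbc.lift_eq δ.liftKaehlerDifferential (KaehlerDifferential.D ℤ O x)
    rw [KaehlerDifferential.map_D, Derivation.liftKaehlerDifferential_comp_D, hδ] at h1
    exact h1
  let Δ : Derivation O (integralClosure O L) L := Derivation.mk'
    { toFun := fun b => D (b : L) - (D1 b : L)
      map_add' := by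
        intro x y
        push_cast
        rw [map_add, map_add]
        push_cast
        ring
      map_smul' := by
        intro x b
        simp only [RingHom.id_apply]
        have e1 : ((x • b : integralClosure O L) : L) = algebraMap O L x * (b : L) := by
          rw [Algebra.smul_def]; rfl
        have e2 : D1 (x • b) = algebraMap O _ x * D1 b + b * algebraMap O _ (δ0 x) := by
          rw [Algebra.smul_def, Derivation.leibniz, hD1]
          rfl
        have e3 : ((D1 (x • b) : integralClosure O L) : L) =
            algebraMap O L x * (D1 b : L) + (b : L) * algebraMap O L (δ0 x) := by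
          rw [e2]; rfl
        have e5 : x • (D (b : L) - (D1 b : L)) = algebraMap O L x * (D (b : L) - (D1 b : L)) :=
          Algebra.smul_def _ _
        rw [e1, e3, e5, Derivation.leibniz, hδ0]
        simp only [smul_eq_mul]
        ring } (by
      intro x y
      simp only [LinearMap.coe_mk, AddHom.coe_mk]
      have e1 : ((x * y : integralClosure O L) : L) = (x : L) * (y : L) := rfl
      have e2 : D1 (x * y) = x * D1 y + y * D1 x := by
        rw [Derivation.leibniz]; rfl
      have e3 : ((D1 (x * y) : integralClosure O L) : L) =
          (x : L) * (D1 y : L) + (y : L) * (D1 x : L) := by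
        rw [e2]; rfl
      rw [e1, e3, Derivation.leibniz]
      have e4 : ∀ (u : integralClosure O L) (w : L), u • w = (u : L) * w := fun u w => rfl
      simp only [smul_eq_mul, e4]
      ring)
  have hΔ : ∀ b, Δ b = 0 := by
    intro b
    have h1 := Δ.liftKaehlerDifferential_comp_D b
    have h2 : KaehlerDifferential.D O (integralClosure O L) b = 0 := Subsingleton.elim _ _
    rw [h2, map_zero] at h1
    exact h1.symm
  have h3 : D b = (D1 ⟨b, hb⟩ : L) := by
    have := hΔ ⟨b, hb⟩
    exact sub_eq_zero.mp this
  rw [h3]
  exact (D1 ⟨b, hb⟩).2

end Pool.Agent.LibHP
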