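import Pool.Agent.LibHP.F1

set_option autoImplicit false
open Polynomial

namespace Pool.Agent.LibHP

/-- The rational curve `σ` meets the divisor with local ring `O` at the closed point `g = 0` of the
affine line over `K`, with local multiplicity `m ≥ 1`. -/
def LocMult (O K : Type) [CommRing O] [Field K] [Algebra O K] (σ : K →+* RatFunc K) (g : K[X])
    (m : ℕ) : Prop :=
  1 ≤ m ∧
  (∀ a : O, ∃ p q : K[X], ¬ g ∣ q ∧
    σ (algebraMap O K a) * algebraMap K[X] (RatFunc K) q = algebraMap K[X] (RatFunc K) p) ∧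
  ∃ π : O, (∀ a : O, ¬ IsUnit a ↔ π ∣ a) ∧ ∃ p q : K[X], ¬ g ∣ p ∧ ¬ g ∣ q ∧
    σ (algebraMap O K π) * algebraMap K[X] (RatFunc K) q =
      algebraMap K[X] (RatFunc K) (g ^ m * p)

end Pool.Agent.LibHP
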