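import Pool.Agent.LibHP.F1
import Pool.Agent.LibHP.E2d

set_option autoImplicit false
open Polynomial

namespace Pool.Agent.LibHP

section Val

variable {M : Type} [Field M] (t : M)

/-- the point `t` of the affine line -/
noncomputable def hspec : IsDedekindDomain.HeightOneSpectrum M[X] where
  asIdeal := Ideal.span {X - C t}
  isPrime := (Ideal.span_singleton_prime (X_sub_C_ne_zero t)).2 (prime_X_sub_C t)
  ne_bot := by
    rw [Ne, Ideal.span_singleton_eq_bot]
    exact X_sub_C_ne_zero t

/-- the order of vanishing at `t` -/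
noncomputable def vt : Valuation (RatFunc M) (WithZero (Multiplicative ℤ)) :=
  (hspec t).valuation (RatFunc M)

theorem mem_hspec (p : M[X]) : p ∈ (hspec t).asIdeal ↔ p.eval t = 0 := by
  change p ∈ Ideal.span {X - C t} ↔ _
  rw [Ideal.mem_span_singleton, dvd_iff_isRoot]
  rfl

theorem vt_poly_le (p : M[X]) : vt t (algebraMap M[X] (RatFunc M) p) ≤ 1 :=
  (hspec t).valuation_le_one p

theorem vt_poly_lt (p : M[X]) : vt t (algebraMap M[X] (RatFunc M) p) < 1 ↔ p.eval t = 0 := by
  rw [← mem_hspec]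
  exact (hspec t).valuation_lt_one_iff_mem p

theorem vt_poly_eq (p : M[X]) : vt t (algebraMap M[X] (RatFunc M) p) = 1 ↔ p.eval t ≠ 0 := by
  rw [Ne, ← vt_poly_lt, not_lt]
  exact ⟨fun h => h.ge, fun h => le_antisymm (vt_poly_le t p) h⟩

theorem vt_eq {f : RatFunc M} {p q : M[X]} (hq : q.eval t ≠ 0)
    (h : f * algebraMap M[X] (RatFunc M) q = algebraMap M[X] (RatFunc M) p) :
    vt t f = vt t (algebraMap M[X] (RatFunc M) p) := by
  rw [← h, map_mul, (vt_poly_eq t q).2 hq, mul_one]

theorem vt_le_one_iff (f : RatFunc M) : vt t f ≤ 1 ↔ ∃ p q : M[X], q.eval t ≠ 0 ∧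
    f * algebraMap M[X] (RatFunc M) q = algebraMap M[X] (RatFunc M) p := by
  constructor
  · intro h
    obtain ⟨p, q, hpq⟩ := (hspec t).exists_primeCompl_mul_eq_of_integer f h
    refine ⟨p, q, ?_, hpq⟩
    intro h0
    exact q.2 ((mem_hspec t q).2 h0)
  · rintro ⟨p, q, hq, h⟩
    rw [vt_eq t hq h]
    exact vt_poly_le t p

theorem vt_lt_one_iff (f : RatFunc M) : vt t f < 1 ↔ ∃ p q : M[X], q.eval t ≠ 0 ∧ p.eval t = 0 ∧
    f * algebraMap M[X] (RatFunc M) q = algebraMap M[X] (RatFunc M) p := by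
  constructor
  · intro h
    obtain ⟨p, q, hq, hpq⟩ := (vt_le_one_iff t f).1 h.le
    refine ⟨p, q, hq, ?_, hpq⟩
    rw [← vt_poly_lt, ← vt_eq t hq hpq]
    exact h
  · rintro ⟨p, q, hq, hp, h⟩
    rw [vt_eq t hq h, vt_poly_lt]
    exact hp

/-- functions integral over regular functions are regular -/
theorem vt_le_one_of_isIntegral {O : Type} [CommRing O] (φ : O →+* RatFunc M)
    (hφ : ∀ a, vt t (φ a) ≤ 1) {f : RatFunc M} (hf : φ.IsIntegralElem f) : vt t f ≤ 1 := by
  have hv : (vt t).Integers (vt t).integer := Valuation.integer.integers _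
  rw [← hv.isIntegral_iff_v_le_one]
  let φ' : O →+* (vt t).integer := φ.codRestrict _ hφ
  obtain ⟨P, hP, hP'⟩ := hf
  refine ⟨P.map φ', hP.map _, ?_⟩
  rw [eval₂_map]
  exact hP'

end Val

theorem rmap_algebraMap_b {K E : Type} [Field K] [Field E] (F : K →+* E) (p : K[X]) :
    rmap F (algebraMap K[X] (RatFunc K) p) = algebraMap E[X] (RatFunc E) (p.map F) := by
  have h := RatFunc.map_apply_div (R := E) (K := K) (Polynomial.mapRingHom F)
    (nonZeroDivisors_le_comap_nonZeroDivisors_of_injective _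
      (Polynomial.map_injective F F.injective)) p 1
  rw [map_one, div_one, map_one, map_one, div_one] at h
  exact h

theorem rmap_rmap {K E E' : Type} [Field K] [Field E] [Field E'] (F : K →+* E) (G : E →+* E')
    (f : RatFunc K) : rmap G (rmap F f) = rmap (G.comp F) f := by
  rw [← RatFunc.num_div_denom f]
  simp only [map_div₀, rmap_algebraMap_b, Polynomial.map_map]

/-- The norm is the product over sufficiently many embeddings. -/
theorem norm_eq_prod (K L F : Type) [Field K] [Field L] [Field F] [Algebra K L]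
    [FiniteDimensional K L] [Algebra.IsSeparable K L] (φ : K →+* F) {ι : Type} [Fintype ι]
    (ψ : ι → L →+* F) (hψ : ∀ i a, ψ i (algebraMap K L a) = φ a) (hinj : Function.Injective ψ)
    (hcard : Fintype.card ι = Module.finrank K L) (x : L) :
    φ (Algebra.norm K x) = ∏ i, ψ i x := by
  let _ := φ.toAlgebra
  let Ω := AlgebraicClosure F
  let e : ι → (L →ₐ[K] Ω) := fun i =>
    { (algebraMap F Ω).comp (ψ i) with
      commutes' := fun a => by
        change algebraMap F Ω (ψ i (algebraMap K L a)) = algebraMap K Ω a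
        rw [hψ, IsScalarTower.algebraMap_apply K F Ω]
        rfl }
  have he : ∀ i x, e i x = algebraMap F Ω (ψ i x) := fun i x => rfl
  have hei : Function.Injective e := by
    intro i j hij
    apply hinj
    ext x
    apply (algebraMap F Ω).injective
    rw [← he, ← he, hij]
  have heb : Function.Bijective e := by
    rw [Fintype.bijective_iff_injective_and_card]
    refine ⟨hei, ?_⟩
    rw [hcard, AlgHom.card]
  apply (algebraMap F Ω).injective
  have h1 := Algebra.norm_eq_prod_embeddings (K := K) (L := L) Ω x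
  rw [IsScalarTower.algebraMap_apply K F Ω] at h1
  rw [map_prod]
  exact h1.trans (Fintype.prod_bijective e heb _ _ (fun i => (he i x).symm)).symm

theorem exists_embedding_aux (O K L : Type) [CommRing O] [IsDomain O]
    [IsDiscreteValuationRing O] [Field K] [CharZero K] [Algebra O K] [IsFractionRing O K] [Field L]
    [Algebra K L] [Algebra O L] [IsScalarTower O K L] [FiniteDimensional K L]
    (σ : K →+* RatFunc K) (σ' : L →+* RatFunc L) (hσ' : ∀ l, ∃ b, HasJet (σ' l) l b)
    (hext : ∀ a : K, σ' (algebraMap K L a) = rmap (algebraMap K L) (σ a))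
    (g : K[X]) (hg : Irreducible g) (m : ℕ) (hm : LocMult O K σ g m)
    (Kb : Type) [Field Kb] [Algebra K Kb] [IsAlgClosed Kb]
    (t1 : Kb) (ht1 : aeval t1 g = 0)
    (𝔮 : Ideal (integralClosure O L)) (h𝔮 : 𝔮.IsMaximal) :
    ∃ τ : L →ₐ[K] Kb, ∀ b : integralClosure O L,
      vt t1 (rmap (τ : L →+* Kb) (σ' b)) ≤ 1 ∧
      (b ∈ 𝔮 ↔ vt t1 (rmap (τ : L →+* Kb) (σ' b)) < 1) := by
  classical
  obtain ⟨hm1, hreg, π, hπ, pπ, qπ, hpπ, hqπ, hpq⟩ := hm
  have hgt : (g.map (algebraMap K Kb)).eval t1 = 0 := by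
    rw [eval_map_algebraMap]
    exact ht1
  have hgq : ∀ q : K[X], ¬ g ∣ q → (q.map (algebraMap K Kb)).eval t1 ≠ 0 := by
    intro q hq h0
    have hcop : IsCoprime g q := (EuclideanDomain.dvd_or_coprime g q hg).resolve_left hq
    obtain ⟨u, w, huw⟩ := hcop
    have := congrArg (fun r => (r.map (algebraMap K Kb)).eval t1) huw
    simp only [Polynomial.map_add, Polynomial.map_mul, eval_add, eval_mul, hgt, h0, mul_zero,
      add_zero, Polynomial.map_one, eval_one] at this
    exact zero_ne_one this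
  let φ : K →+* RatFunc Kb := (rmap (algebraMap K Kb)).comp σ
  let ψ : (L →ₐ[K] Kb) → (L →+* RatFunc Kb) := fun τ => (rmap (τ : L →+* Kb)).comp σ'
  have hψdef : ∀ τ l, ψ τ l = rmap (τ : L →+* Kb) (σ' l) := fun τ l => rfl
  have hψφ : ∀ τ a, ψ τ (algebraMap K L a) = φ a := by
    intro τ a
    rw [hψdef, hext, rmap_rmap]
    change _ = rmap (algebraMap K Kb) (σ a)
    congr 1
    ext x
    simp
  have hφpoly : ∀ (a : K) (p q : K[X]), σ a * algebraMap K[X] (RatFunc K) q =
      algebraMap K[X] (RatFunc K) p → φ a * algebraMap Kb[X] (RatFunc Kb)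
        (q.map (algebraMap K Kb)) = algebraMap Kb[X] (RatFunc Kb) (p.map (algebraMap K Kb)) := by
    intro a p q h
    have := congrArg (rmap (algebraMap K Kb)) h
    rw [map_mul, rmap_algebraMap_b, rmap_algebraMap_b] at this
    exact this
  have hφO : ∀ a : O, vt t1 (φ (algebraMap O K a)) ≤ 1 := by
    intro a
    obtain ⟨p, q, hq, h⟩ := hreg a
    rw [vt_le_one_iff]
    exact ⟨_, _, hgq q hq, hφpoly _ p q h⟩
  have hφπ : vt t1 (φ (algebraMap O K π)) < 1 := by
    rw [vt_lt_one_iff]
    refine ⟨_, _, hgq qπ hqπ, ?_, hφpoly _ _ _ hpq⟩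
    rw [Polynomial.map_mul, Polynomial.map_pow, eval_mul, eval_pow, hgt,
      zero_pow (by omega), zero_mul]
  have hψB : ∀ (τ : L →ₐ[K] Kb) (b : integralClosure O L), vt t1 (ψ τ b) ≤ 1 := by
    intro τ b
    refine vt_le_one_of_isIntegral t1 (φ.comp (algebraMap O K)) hφO ?_
    obtain ⟨P, hP, hP0⟩ := b.2
    refine ⟨P, hP, ?_⟩
    have h1 := congrArg (ψ τ) hP0
    rw [map_zero, hom_eval₂] at h1
    have h2 : φ.comp (algebraMap O K) = (ψ τ).comp (algebraMap O L) := by
      refine RingHom.ext fun a => ?_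
      change φ (algebraMap O K a) = ψ τ (algebraMap O L a)
      rw [IsScalarTower.algebraMap_apply O K L, hψφ]
    rw [h2]
    exact h1
  -- the prime ideals
  let Q : (L →ₐ[K] Kb) → Ideal (integralClosure O L) := fun τ =>
    { carrier := {b | vt t1 (ψ τ b) < 1}
      add_mem' := fun {a b} ha hb => by
        simp only [Set.mem_ofPred_eq, Subalgebra.coe_add, map_add] at ha hb ⊢
        exact (vt t1).map_add_lt ha hb
      zero_mem' := by simp
      smul_mem' := fun c x hx => by
        simp only [Set.mem_ofPred_eq, smul_eq_mul, Subalgebra.coe_mul, map_mul] at hx ⊢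
        exact mul_lt_of_le_one_of_lt (hψB τ c) hx }
  have hQ : ∀ τ b, b ∈ Q τ ↔ vt t1 (ψ τ b) < 1 := fun τ b => Iff.rfl
  have hQprime : ∀ τ, (Q τ).IsPrime := by
    intro τ
    refine ⟨?_, ?_⟩
    · rw [Ne, Ideal.eq_top_iff_one, hQ]
      simp
    · intro a b hab
      rw [hQ] at hab
      rw [hQ, hQ]
      by_contra hcon
      push Not at hcon
      have h1 := le_antisymm (hψB τ a) hcon.1
      have h2 := le_antisymm (hψB τ b) hcon.2
      rw [Subalgebra.coe_mul, map_mul, map_mul, h1, h2, one_mul] at hab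
      exact lt_irrefl _ hab
  have hOint : Algebra.IsIntegral O (integralClosure O L) := inferInstance
  have hQmax : ∀ τ, (Q τ).IsMaximal := by
    intro τ
    have := hQprime τ
    refine Ideal.isMaximal_of_isIntegral_of_isMaximal_comap (R := O) (Q τ) ?_
    have h1 : IsLocalRing.maximalIdeal O ≤ (Q τ).comap (algebraMap O (integralClosure O L)) := by
      intro a ha
      rw [IsLocalRing.mem_maximalIdeal, mem_nonunits_iff, hπ] at ha
      obtain ⟨c, rfl⟩ := ha
      rw [Ideal.mem_comap, hQ]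
      have : ((algebraMap O (integralClosure O L) (π * c) : integralClosure O L) : L) =
          algebraMap K L (algebraMap O K (π * c)) := by
        rw [← IsScalarTower.algebraMap_apply O K L]
        rfl
      rw [this, hψφ, map_mul, map_mul, map_mul]
      exact mul_lt_of_lt_of_le_one hφπ (hφO c)
    have h2 : (Q τ).comap (algebraMap O (integralClosure O L)) ≠ ⊤ :=
      Ideal.comap_ne_top _ (hQprime τ).ne_top
    rw [← (IsLocalRing.maximalIdeal.isMaximal O).eq_of_le h2 h1]
    infer_instance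
  -- the embeddings
  have hψinj : Function.Injective ψ := by
    intro τ τ' h
    ext l
    obtain ⟨b, hb⟩ := hσ' l
    have h1 := hb.map (τ : L →+* Kb)
    have h2 := hb.map (τ' : L →+* Kb)
    have h3 : rmap (τ : L →+* Kb) (σ' l) = rmap (τ' : L →+* Kb) (σ' l) := by
      rw [← hψdef, ← hψdef, h]
    rw [h3] at h1
    exact (h1.unique h2).1
  have hex : ∃ τ, 𝔮 = Q τ := by
    by_contra hcon
    push Not at hcon
    have hnot : ¬ ((𝔮 : Set (integralClosure O L)) ⊆
        ⋃ τ ∈ (↑(Finset.univ : Finset (L →ₐ[K] Kb)) : Set (L →ₐ[K] Kb)), Q τ) := by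
      intro hsub
      have hne : Nonempty (L →ₐ[K] Kb) := ⟨IsAlgClosed.lift⟩
      obtain ⟨τ₀⟩ := hne
      rw [Ideal.subset_union_prime τ₀ τ₀ (fun τ _ _ _ => hQprime τ)] at hsub
      obtain ⟨τ, -, hτ⟩ := hsub
      exact hcon τ (h𝔮.eq_of_le (hQprime τ).ne_top hτ)
    rw [Set.not_subset] at hnot
    obtain ⟨b, hb𝔮, hbQ⟩ := hnot
    have hbv : ∀ τ, vt t1 (ψ τ b) = 1 := by
      intro τ
      refine le_antisymm (hψB τ b) ?_
      by_contra hlt
      rw [not_le] at hlt
      exact hbQ (Set.mem_biUnion (x := τ) (by simp) hlt)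
    have hnorm : vt t1 (φ (Algebra.norm K (b : L))) = 1 := by
      rw [norm_eq_prod K L (RatFunc Kb) φ ψ hψφ hψinj (AlgHom.card K L Kb), map_prod]
      exact Finset.prod_eq_one fun τ _ => hbv τ
    have hfin : Module.Finite O (integralClosure O L) :=
      IsIntegralClosure.finite O K L (integralClosure O L)
    have : IsIntegrallyClosed (integralClosure O L) :=
      integralClosure.isIntegrallyClosedOfFiniteExtension K
    have : Module.IsTorsionFree O (integralClosure O L) := by
      have : FaithfulSMul O L := by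
        rw [faithfulSMul_iff_algebraMap_injective, IsScalarTower.algebraMap_eq O K L]
        exact (algebraMap K L).injective.comp (IsFractionRing.injective O K)
      infer_instance
    have hN := Algebra.algebraMap_intNorm (A := O) (K := K) (L := L) (B := integralClosure O L) b
    have hdvd := Algebra.dvd_algebraMap_intNorm_self (A := O) (B := integralClosure O L) b
    have hN𝔮 : algebraMap O (integralClosure O L) (Algebra.intNorm O (integralClosure O L) b) ∈ 𝔮 :=
      𝔮.mem_of_dvd hdvd hb𝔮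
    have hnu : ¬ IsUnit (Algebra.intNorm O (integralClosure O L) b) := by
      intro hu
      exact h𝔮.ne_top (Ideal.eq_top_of_isUnit_mem _ hN𝔮 (hu.map _))
    rw [hπ] at hnu
    obtain ⟨c, hc⟩ := hnu
    rw [hc] at hN
    have : (algebraMap (integralClosure O L) L b) = (b : L) := rfl
    rw [this] at hN
    rw [← hN, map_mul, map_mul, map_mul] at hnorm
    exact absurd hnorm (mul_lt_of_lt_of_le_one hφπ (hφO c)).ne
  obtain ⟨τ, rfl⟩ := hex
  exact ⟨τ, fun b => ⟨hψB τ b, Iff.rfl⟩⟩

/-- Every maximal ideal of the integral closure of `O` in `L` is induced by one of the lifted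
curves `rmap τ ∘ σ'`, `τ : L → Kbar`. -/
theorem exists_embedding_of_maximal (O K L : Type) [CommRing O] [IsDomain O]
    [IsDiscreteValuationRing O] [Field K] [CharZero K] [Algebra O K] [IsFractionRing O K] [Field L] [Algebra K L] [Algebra O L]
    [IsScalarTower O K L] [FiniteDimensional K L]
    (σ : K →+* RatFunc K) (σ' : L →+* RatFunc L) (hσ' : ∀ l, ∃ b, HasJet (σ' l) l b)
    (hext : ∀ a : K, σ' (algebraMap K L a) = rmap (algebraMap K L) (σ a))
    (g : K[X]) (hg : Irreducible g) (m : ℕ) (hm : LocMult O K σ g m)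
    (t1 : AlgebraicClosure K) (ht1 : aeval t1 g = 0)
    (𝔮 : Ideal (integralClosure O L)) (h𝔮 : 𝔮.IsMaximal) :
    ∃ τ : L →ₐ[K] AlgebraicClosure K, ∀ b : integralClosure O L,
      (∃ p q : (AlgebraicClosure K)[X], q.eval t1 ≠ 0 ∧
        rmap (τ : L →+* AlgebraicClosure K) (σ' b) * algebraMap _ _ q = algebraMap _ _ p) ∧
      (b ∈ 𝔮 ↔ ∃ p q : (AlgebraicClosure K)[X], q.eval t1 ≠ 0 ∧ p.eval t1 = 0 ∧
        rmap (τ : L →+* AlgebraicClosure K) (σ' b) * algebraMap _ _ q = algebraMap _ _ p) := by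
  obtain ⟨τ, hτ⟩ := exists_embedding_aux O K L σ σ' hσ' hext g hg m hm (AlgebraicClosure K) t1 ht1
    𝔮 h𝔮
  refine ⟨τ, fun b => ⟨?_, ?_⟩⟩
  · rw [← vt_le_one_iff]
    exact (hτ b).1
  · rw [← vt_lt_one_iff]
    exact (hτ b).2

end Pool.Agent.LibHP
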