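import Pool.Agent.LibHP.F1
import Pool.Agent.LibHP.E1
import Pool.Agent.LibHP.E2a
import Pool.Agent.LibHP.E2b

set_option autoImplicit false
open Polynomial

namespace Pool.Agent.LibHP

section RMap
variable {K E F : Type} [Field K] [Field E] [Field F]

theorem rmap_algebraMap_c (f : K →+* E) (p : K[X]) :
    rmap f (algebraMap K[X] (RatFunc K) p) = algebraMap E[X] (RatFunc E) (p.map f) := by
  have hq : (Polynomial.mapRingHom f) 1 ≠ 0 := by simp
  have h := RatFunc.map_apply_div_ne_zero (φ := Polynomial.mapRingHom f)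
    (nonZeroDivisors_le_comap_nonZeroDivisors_of_injective _
      (Polynomial.map_injective f f.injective)) p 1 one_ne_zero
  rw [map_one, div_one, map_one, map_one, div_one] at h
  exact h

theorem rmap_rmap_c (f : K →+* E) (g : E →+* F) (x : RatFunc K) :
    rmap g (rmap f x) = rmap (g.comp f) x := by
  obtain ⟨p, q, hq, rfl⟩ := IsFractionRing.div_surjective (A := K[X]) x
  simp only [map_div₀, rmap_algebraMap_c, Polynomial.map_map]

end RMap

section Mult
variable {F : Type} [Field F]

theorem rootMultiplicity_eq_zero_c {p : F[X]} {t : F} (h : p.eval t ≠ 0) :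
    p.rootMultiplicity t = 0 :=
  Polynomial.rootMultiplicity_eq_zero (fun h' => h h')

theorem rootMultiplicity_pow_c {p : F[X]} (t : F) (hp : p ≠ 0) (n : ℕ) :
    (p ^ n).rootMultiplicity t = n * p.rootMultiplicity t := by
  induction n with
  | zero => simp [rootMultiplicity_eq_zero_c]
  | succ n ih =>
    rw [pow_succ, Polynomial.rootMultiplicity_mul (mul_ne_zero (pow_ne_zero _ hp) hp), ih]
    ring

theorem mult_lemma_c (t1 : F) (G P Q Nt Dt Ns Ds Nb Db Na Da : F[X]) (m e : ℕ)
    (x y z w u : RatFunc F)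
    (hx : x * algebraMap F[X] (RatFunc F) Q = algebraMap F[X] (RatFunc F) (G ^ m * P))
    (hy : y * algebraMap F[X] (RatFunc F) Dt = algebraMap F[X] (RatFunc F) Nt)
    (hz : z * algebraMap F[X] (RatFunc F) Ds = algebraMap F[X] (RatFunc F) Ns)
    (hw : w * algebraMap F[X] (RatFunc F) Db = algebraMap F[X] (RatFunc F) Nb)
    (hu : u * algebraMap F[X] (RatFunc F) Da = algebraMap F[X] (RatFunc F) Na)
    (hrel : x * y * z ^ e = w * u ^ e)
    (hP : P.eval t1 ≠ 0) (hQ : Q.eval t1 ≠ 0) (hNt : Nt.eval t1 ≠ 0) (hDt : Dt.eval t1 ≠ 0)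
    (hNs : Ns.eval t1 ≠ 0) (hDs : Ds.eval t1 ≠ 0) (hNb : Nb.eval t1 ≠ 0)
    (hDb : Db.eval t1 ≠ 0) (hDa : Da.eval t1 ≠ 0) (hG0 : G ≠ 0)
    (hG : G.rootMultiplicity t1 = 1) : e ∣ m := by
  have hne : ∀ {p : F[X]}, p.eval t1 ≠ 0 → p ≠ 0 := by
    intro p hp h0
    exact hp (by rw [h0, Polynomial.eval_zero])
  have hz' : z ^ e * algebraMap F[X] (RatFunc F) Ds ^ e = algebraMap F[X] (RatFunc F) Ns ^ e := by
    rw [← mul_pow, hz]
  have hu' : u ^ e * algebraMap F[X] (RatFunc F) Da ^ e = algebraMap F[X] (RatFunc F) Na ^ e := by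
    rw [← mul_pow, hu]
  have key : G ^ m * (P * (Nt * (Ns ^ e * (Db * Da ^ e)))) =
      Na ^ e * (Nb * (Q * (Dt * Ds ^ e))) := by
    apply IsFractionRing.injective F[X] (RatFunc F)
    rw [map_mul] at hx
    simp only [map_mul, map_pow] at hx ⊢
    calc _ = (algebraMap F[X] (RatFunc F) G ^ m * algebraMap F[X] (RatFunc F) P) *
          algebraMap F[X] (RatFunc F) Nt * algebraMap F[X] (RatFunc F) Ns ^ e *
          (algebraMap F[X] (RatFunc F) Db * algebraMap F[X] (RatFunc F) Da ^ e) := by ring
      _ = (x * y * z ^ e) * (algebraMap F[X] (RatFunc F) Q * algebraMap F[X] (RatFunc F) Dt *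
          algebraMap F[X] (RatFunc F) Ds ^ e * (algebraMap F[X] (RatFunc F) Db *
          algebraMap F[X] (RatFunc F) Da ^ e)) := by
          rw [← hx, ← hy, ← hz']; ring
      _ = _ := by
          rw [hrel, ← hw, ← hu']; ring
  have hL : G ^ m * (P * (Nt * (Ns ^ e * (Db * Da ^ e)))) ≠ 0 := by
    have := hne hP; have := hne hNt; have := hne hNs; have := hne hDb; have := hne hDa
    exact mul_ne_zero (pow_ne_zero _ hG0) (mul_ne_zero (hne hP) (mul_ne_zero (hne hNt) (mul_ne_zero (pow_ne_zero _ (hne hNs)) (mul_ne_zero (hne hDb) (pow_ne_zero _ (hne hDa))))))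
  have hR := key ▸ hL
  have h := congrArg (Polynomial.rootMultiplicity t1) key
  rw [Polynomial.rootMultiplicity_mul hL, Polynomial.rootMultiplicity_mul hR,
    rootMultiplicity_pow_c t1 hG0, hG, mul_one,
    rootMultiplicity_eq_zero_c (p := P * (Nt * (Ns ^ e * (Db * Da ^ e)))) ?_,
    rootMultiplicity_eq_zero_c (p := Nb * (Q * (Dt * Ds ^ e))) ?_, add_zero, add_zero] at h
  · rcases Nat.eq_zero_or_pos e with rfl | he
    · rw [pow_zero, rootMultiplicity_eq_zero_c (by simp)] at h
      rw [h]
    · have hNa : Na ≠ 0 := fun h0 => (left_ne_zero_of_mul hR) (by rw [h0, zero_pow he.ne'])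
      rw [rootMultiplicity_pow_c t1 hNa] at h
      exact ⟨_, h⟩
  · simp only [Polynomial.eval_mul, Polynomial.eval_pow]
    exact mul_ne_zero hNb (mul_ne_zero hQ (mul_ne_zero hDt (pow_ne_zero _ hDs)))
  · simp only [Polynomial.eval_mul, Polynomial.eval_pow]
    exact mul_ne_zero hP (mul_ne_zero hNt (mul_ne_zero (pow_ne_zero _ hNs)
      (mul_ne_zero hDb (pow_ne_zero _ hDa))))

end Mult

/-- The ramification index divides the local multiplicity of any curve. -/
theorem dvd_of_curve (O K L : Type) [CommRing O] [IsDomain O] [IsDiscreteValuationRing O]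
    [Field K] [CharZero K] [Algebra O K] [IsFractionRing O K] [Field L] [Algebra K L] [Algebra O L]
    [IsScalarTower O K L] [FiniteDimensional K L]
    (σ : K →+* RatFunc K) (σ' : L →+* RatFunc L) (hσ' : ∀ l, ∃ b, HasJet (σ' l) l b)
    (hext : ∀ a : K, σ' (algebraMap K L a) = rmap (algebraMap K L) (σ a))
    (g : K[X]) (hg : Irreducible g) (m : ℕ) (hm : LocMult O K σ g m)
    (𝔮 : Ideal (integralClosure O L)) (h𝔮 : 𝔮.IsMaximal)
    (π0 : O) (hπ0 : Irreducible π0) (e : ℕ) (a b s t : integralClosure O L)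
    (hb : b ∉ 𝔮) (hs : s ∉ 𝔮) (ht : t ∉ 𝔮)
    (heq : algebraMap O (integralClosure O L) π0 * t * s ^ e = b * a ^ e) : e ∣ m := by
  obtain ⟨t1, ht1⟩ := IsAlgClosed.exists_aeval_eq_zero (AlgebraicClosure K) g
    (Polynomial.degree_pos_of_irreducible hg).ne'
  obtain ⟨τ, hτ⟩ := exists_embedding_of_maximal O K L σ σ' hσ' hext g hg m hm t1 ht1 𝔮 h𝔮
  obtain ⟨hm1, -, π, hπ, p, q, hgp, hgq, hpq⟩ := hm
  -- `π0` and `π` are associated
  obtain ⟨v, hv⟩ := (hπ π0).1 hπ0.not_isUnit
  have hvu : IsUnit v := (hπ0.isUnit_or_isUnit hv).resolve_left ((hπ π).2 dvd_rfl)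
  have hprime : 𝔮.IsPrime := h𝔮.isPrime
  have hvq : algebraMap O (integralClosure O L) v ∉ 𝔮 := fun h =>
    hprime.ne_top (Ideal.eq_top_of_isUnit_mem _ h (hvu.map _))
  have hvt : algebraMap O (integralClosure O L) v * t ∉ 𝔮 := fun h =>
    (hprime.mem_or_mem h).elim hvq ht
  -- representation of the elements outside `𝔮`
  have hrep : ∀ x : integralClosure O L, x ∉ 𝔮 → ∃ N D : (AlgebraicClosure K)[X],
      N.eval t1 ≠ 0 ∧ D.eval t1 ≠ 0 ∧
      rmap (τ : L →+* AlgebraicClosure K) (σ' x) * algebraMap _ _ D = algebraMap _ _ N := by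
    intro x hx
    obtain ⟨⟨N, D, hD, h⟩, hiff⟩ := hτ x
    exact ⟨N, D, fun hN => hx (hiff.2 ⟨N, D, hD, hN, h⟩), hD, h⟩
  obtain ⟨Nt, Dt, hNt, hDt, et⟩ := hrep _ hvt
  obtain ⟨Ns, Ds, hNs, hDs, es⟩ := hrep _ hs
  obtain ⟨Nb, Db, hNb, hDb, eb⟩ := hrep _ hb
  obtain ⟨⟨Na, Da, hDa, ea⟩, -⟩ := hτ a
  -- the equation for `π`
  have hcomp : (τ : L →+* AlgebraicClosure K).comp (algebraMap K L) =
      algebraMap K (AlgebraicClosure K) := τ.comp_algebraMap
  have eπ : rmap (τ : L →+* AlgebraicClosure K) (σ' (algebraMap O L π)) *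
      algebraMap _ (RatFunc (AlgebraicClosure K)) (q.map (algebraMap K (AlgebraicClosure K))) =
      algebraMap _ (RatFunc (AlgebraicClosure K))
        ((g.map (algebraMap K (AlgebraicClosure K))) ^ m *
          p.map (algebraMap K (AlgebraicClosure K))) := by
    rw [IsScalarTower.algebraMap_apply O K L, hext, rmap_rmap_c, hcomp,
      ← rmap_algebraMap_c, ← map_mul, hpq, rmap_algebraMap_c, Polynomial.map_mul,
      Polynomial.map_pow]
  have hsep : (g.map (algebraMap K (AlgebraicClosure K))).Separable := hg.separable.map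
  have hGt : (g.map (algebraMap K (AlgebraicClosure K))).IsRoot t1 := by
    rw [Polynomial.IsRoot.def, Polynomial.eval_map, ← Polynomial.aeval_def, ht1]
  have hG0 : g.map (algebraMap K (AlgebraicClosure K)) ≠ 0 := hsep.ne_zero
  have hG1 : (g.map (algebraMap K (AlgebraicClosure K))).rootMultiplicity t1 = 1 :=
    le_antisymm (Polynomial.rootMultiplicity_le_one_of_separable hsep t1)
      ((Polynomial.rootMultiplicity_pos hG0).2 hGt)
  have hnd : ∀ r : K[X], ¬ g ∣ r → (r.map (algebraMap K (AlgebraicClosure K))).eval t1 ≠ 0 := by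
    intro r hr h0
    obtain ⟨u, w, huw⟩ := (hg.coprime_iff_not_dvd).2 hr
    have h1 := congrArg (fun f => (f.map (algebraMap K (AlgebraicClosure K))).eval t1) huw
    simp only [Polynomial.map_add, Polynomial.map_mul, Polynomial.eval_add, Polynomial.eval_mul,
      h0, hGt.eq_zero, mul_zero, add_zero, Polynomial.map_one, Polynomial.eval_one] at h1
    exact zero_ne_one h1
  have hp1 := hnd p hgp
  have hq1 := hnd q hgq
  generalize hG : g.map (algebraMap K (AlgebraicClosure K)) = G at *
  generalize hP : p.map (algebraMap K (AlgebraicClosure K)) = P at *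
  generalize hQ : q.map (algebraMap K (AlgebraicClosure K)) = Q at *
  -- the multiplicative relation
  have hL : algebraMap O L π * (algebraMap O (integralClosure O L) v * t : integralClosure O L) *
      (s : L) ^ e = (b : L) * (a : L) ^ e := by
    have h1 := congrArg (fun x : integralClosure O L => (x : L)) heq
    simp only [hv, map_mul] at h1
    push_cast at h1 ⊢
    rw [← mul_assoc]
    exact h1
  have hφ := congrArg (fun x => rmap (τ : L →+* AlgebraicClosure K) (σ' x)) hL
  have hφ' : rmap (τ : L →+* AlgebraicClosure K) (σ' (algebraMap O L π)) *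
      rmap (τ : L →+* AlgebraicClosure K)
        (σ' (algebraMap O (integralClosure O L) v * t : integralClosure O L)) *
      rmap (τ : L →+* AlgebraicClosure K) (σ' s) ^ e =
      rmap (τ : L →+* AlgebraicClosure K) (σ' b) *
      rmap (τ : L →+* AlgebraicClosure K) (σ' a) ^ e := by
    have h2 := hφ
    simp only [map_mul, map_pow] at h2
    rw [← map_mul] at h2
    rw [← map_mul]
    exact h2
  exact mult_lemma_c t1 G P Q Nt Dt Ns Ds Nb Db Na Da m e _ _ _ _ _ eπ et es eb ea hφ'
    hp1 hq1 hNt hDt hNs hDs hNb hDb hDa hG0 hG1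

theorem exists_repr_c (B : Type) [CommRing B] [IsDedekindDomain B] (q : Ideal B) [q.IsPrime]
    (hq : q ≠ ⊥) (x : B) (hx : x ≠ 0) :
    ∃ (e : ℕ) (a b s t : B), b ∉ q ∧ s ∉ q ∧ t ∉ q ∧ x * t * s ^ e = b * a ^ e ∧
      (e = 1 → Ideal.span {algebraMap B (Localization.AtPrime q) x} =
        IsLocalRing.maximalIdeal (Localization.AtPrime q)) := by
  have hdvr := IsLocalization.AtPrime.isDiscreteValuationRing_of_dedekind_domain B hq
    (Localization.AtPrime q)
  have hinj : Function.Injective (algebraMap B (Localization.AtPrime q)) :=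
    IsLocalization.injective _ q.primeCompl_le_nonZeroDivisors
  obtain ⟨ϖ, hϖ⟩ := IsDiscreteValuationRing.exists_irreducible (Localization.AtPrime q)
  have hx' : algebraMap B (Localization.AtPrime q) x ≠ 0 := fun h =>
    hx (hinj (by rw [h, map_zero]))
  obtain ⟨e, u, hu⟩ := IsDiscreteValuationRing.eq_unit_mul_pow_irreducible hx' hϖ
  obtain ⟨a, s, has⟩ := IsLocalization.exists_mk'_eq q.primeCompl ϖ
  obtain ⟨b, t, hbt⟩ := IsLocalization.exists_mk'_eq q.primeCompl (u : Localization.AtPrime q)
  have h1 : ϖ * algebraMap B (Localization.AtPrime q) s = algebraMap B (Localization.AtPrime q) a :=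
    by rw [← has]; exact IsLocalization.mk'_spec _ _ _
  have h2 : (u : Localization.AtPrime q) * algebraMap B (Localization.AtPrime q) t =
      algebraMap B (Localization.AtPrime q) b := by
    rw [← hbt]; exact IsLocalization.mk'_spec _ _ _
  refine ⟨e, a, b, s, t, ?_, s.2, t.2, ?_, ?_⟩
  · have hub : IsUnit (IsLocalization.mk' (Localization.AtPrime q) b t) := hbt ▸ u.isUnit
    rw [IsLocalization.AtPrime.isUnit_mk'_iff (Localization.AtPrime q) q] at hub
    exact hub
  · apply hinj
    simp only [map_mul, map_pow]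
    rw [hu, ← h1, ← h2]
    ring
  · rintro rfl
    rw [hϖ.maximalIdeal_eq, Ideal.span_singleton_eq_span_singleton, hu, pow_one]
    exact associated_unit_mul_left _ _ u.isUnit

/-- The codimension one statement: if rational curves through the generic point meet the divisor
with local multiplicities which have no common prime factor, the integral closure is etale. -/
theorem etale_of_curves (O K L : Type) [CommRing O] [IsDomain O] [IsDiscreteValuationRing O]
    [Field K] [CharZero K] (hQ : ∀ n : ℕ, n ≠ 0 → IsUnit (n : O))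
    [Algebra O K] [IsFractionRing O K] [Field L] [Algebra K L] [Algebra O L]
    [IsScalarTower O K L] [FiniteDimensional K L]
    (hcurves : ∀ l : ℕ, l.Prime → ∃ (σ : K →+* RatFunc K) (σ' : L →+* RatFunc L) (g : K[X])
      (m : ℕ), Irreducible g ∧ ¬ l ∣ m ∧ (∀ x, ∃ b, HasJet (σ' x) x b) ∧
        (∀ a : K, σ' (algebraMap K L a) = rmap (algebraMap K L) (σ a)) ∧ LocMult O K σ g m) :
    Algebra.Etale O (integralClosure O L) := by
  have hfin : Module.Finite O (integralClosure O L) :=
    IsIntegralClosure.finite O K L (integralClosure O L)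
  have hded : IsDedekindDomain (integralClosure O L) := integralClosure.isDedekindDomain O K L
  have hinjOL : Function.Injective (algebraMap O L) := by
    rw [IsScalarTower.algebraMap_eq O K L]
    exact (algebraMap K L).injective.comp (IsFractionRing.injective O K)
  have hinj : Function.Injective (algebraMap O (integralClosure O L)) := fun x y h =>
    hinjOL (congrArg (fun z : integralClosure O L => (z : L)) h)
  have hfs : FaithfulSMul O (integralClosure O L) :=
    (faithfulSMul_iff_algebraMap_injective _ _).2 hinj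
  have hfree : Module.Free O (integralClosure O L) := inferInstance
  have hfp : Algebra.FinitePresentation O (integralClosure O L) :=
    (Algebra.FinitePresentation.of_finiteType (R := O)).1 inferInstance
  have hchar : CharZero O :=
    ⟨fun a b h => by
      have h' := congrArg (algebraMap O K) h
      simpa using h'⟩
  obtain ⟨π0, hπ0⟩ := IsDiscreteValuationRing.exists_irreducible O
  have hunr : Algebra.FormallyUnramified O (integralClosure O L) := by
    rw [Algebra.formallyUnramified_iff_forall]
    rintro ⟨q, hq⟩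
    rcases eq_or_ne q ⊥ with rfl | hq0
    · exact Algebra.isUnramifiedAt_bot
    have hqm : q.IsMaximal := hq.isMaximal hq0
    have hx : algebraMap O (integralClosure O L) π0 ≠ 0 := fun h =>
      hπ0.ne_zero (hinj (by rw [h, map_zero]))
    obtain ⟨e, a, b, s, t, hb, hs, ht, heq, he⟩ :=
      exists_repr_c (integralClosure O L) q hq0 _ hx
    have he1 : e = 1 := by
      by_contra hne
      obtain ⟨l, hl, hle⟩ := Nat.exists_prime_and_dvd hne
      obtain ⟨σ, σ', g, m, hg, hlm, hjet, hext, hmult⟩ := hcurves l hl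
      exact hlm (hle.trans (dvd_of_curve O K L σ σ' hjet hext g hg m hmult q hqm π0 hπ0 e a b s t
        hb hs ht heq))
    have hunder : q.under O = IsLocalRing.maximalIdeal O := by
      have := hqm
      have h1 : (q.under O).IsMaximal := inferInstance
      exact IsLocalRing.eq_maximalIdeal h1
    have hcz : CharZero (q.under O).ResidueField := by
      refine charZero_of_inj_zero fun n hn => ?_
      by_contra hn0
      have h1 : IsUnit (algebraMap O (q.under O).ResidueField (n : O)) := (hQ n hn0).map _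
      rw [map_natCast, hn] at h1
      exact not_isUnit_zero h1
    have hperf : PerfectField (q.under O).ResidueField := inferInstance
    rw [← Ideal.ramificationIdx_eq_one_iff, Ideal.ramificationIdx_def,
      ENat.toNat_eq_iff_eq_natCast, Nat.cast_one, Module.length_eq_one_iff,
      isSimpleModule_iff_isCoatom, ← Ideal.isMaximal_def, IsLocalRing.isMaximal_iff, hunder,
      hπ0.maximalIdeal_eq, Ideal.map_span, Set.image_singleton,
      IsScalarTower.algebraMap_apply O (integralClosure O L) (Localization.AtPrime q)]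
    exact he he1
  exact Algebra.Etale.of_formallyUnramified_of_flat

end Pool.Agent.LibHP
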