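import Pool.Agent.LibHP.E1

set_option autoImplicit false

namespace Pool.Agent.LibHP

section PartA

open TensorProduct

/-- A Noetherian integrally closed domain is the intersection of its localizations at the primes
of height one. -/
theorem exists_algebraMap_eq_of_height_one (A K : Type) [CommRing A] [IsDomain A]
    [IsNoetherianRing A] [IsIntegrallyClosed A] [Field K] [Algebra A K] [IsFractionRing A K]
    (z : K) (hz : ∀ P : Ideal A, P.IsPrime → P.height = 1 →
      ∃ r : A, r ∉ P ∧ ∃ y : A, algebraMap A K r * z = algebraMap A K y) :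
    ∃ y : A, algebraMap A K y = z := by
  classical
  by_contra hcon
  let N : Submodule A K := LinearMap.range (Algebra.linearMap A K)
  have hN : ∀ w : K, w ∈ N ↔ ∃ y : A, algebraMap A K y = w := by
    intro w; simp [N, LinearMap.mem_range]
  have hzN : z ∉ N := fun h => hcon ((hN z).1 h)
  have hx : (Submodule.Quotient.mk z : K ⧸ N) ≠ 0 := by
    rw [Ne, Submodule.Quotient.mk_eq_zero]; exact hzN
  obtain ⟨P, hP, hle⟩ := exists_le_isAssociatedPrime_of_isNoetherianRing (R := A) _ hx
  rw [isAssociatedPrime_iff] at hP
  obtain ⟨hPp, x, hPx⟩ := hP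
  obtain ⟨w, rfl⟩ := Submodule.Quotient.mk_surjective N x
  have hmem : ∀ r : A, r ∈ P ↔ ∃ y : A, algebraMap A K y = algebraMap A K r * w := by
    intro r
    rw [hPx, Submodule.mem_colon_singleton, Submodule.mem_bot, ← Submodule.Quotient.mk_smul,
      Submodule.Quotient.mk_eq_zero, hN, Algebra.smul_def]
  have hsub : ∀ r : A, (∃ y : A, algebraMap A K r * z = algebraMap A K y) → r ∈ P := by
    rintro r ⟨y, hy⟩
    apply hle
    rw [Submodule.mem_colon_singleton, Submodule.mem_bot, ← Submodule.Quotient.mk_smul,
      Submodule.Quotient.mk_eq_zero, hN, Algebra.smul_def]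
    exact ⟨y, hy.symm⟩
  have hwN : ¬ ∃ y : A, algebraMap A K y = w := by
    intro h
    apply hPp.ne_top
    rw [Ideal.eq_top_iff_one, hmem]
    simpa using h
  -- P is not zero
  have hPbot : P ≠ ⊥ := by
    intro h
    obtain ⟨a, b, hb, hab⟩ := IsFractionRing.div_surjective (A := A) w
    have hb0 : b ≠ 0 := nonZeroDivisors.ne_zero hb
    have : b ∈ P := by
      rw [hmem]
      refine ⟨a, ?_⟩
      rw [← hab, mul_div_cancel₀]
      exact (IsFractionRing.to_map_eq_zero_iff (K := K)).not.mpr hb0
    rw [h] at this
    exact hb0 (by simpa using this)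
  -- some p in P with w p a unit at P
  have hex : ∃ p ∈ P, ∃ u : A, u ∉ P ∧ algebraMap A K u = algebraMap A K p * w := by
    by_contra hno
    push Not at hno
    let Q : Submodule A K := Submodule.map (Algebra.linearMap A K) P
    have hint : IsIntegral A w := by
      refine isIntegral_of_smul_mem_submodule Q ?_ ?_ w ?_
      · obtain ⟨b, hb, hb0⟩ := Submodule.exists_mem_ne_zero_of_ne_bot hPbot
        rw [Submodule.ne_bot_iff]
        refine ⟨algebraMap A K b, ⟨b, hb, rfl⟩, ?_⟩
        exact (IsFractionRing.to_map_eq_zero_iff (K := K)).not.mpr hb0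
      · exact Submodule.FG.map _ (IsNoetherian.noetherian P)
      · rintro _ ⟨p, hp, rfl⟩
        obtain ⟨y, hy⟩ := (hmem p).1 hp
        refine ⟨y, ?_, ?_⟩
        · by_contra hyP
          exact hno p hp y hyP hy
        · simp only [Algebra.linearMap_apply, smul_eq_mul]
          rw [hy, mul_comm]
    exact hwN (IsIntegrallyClosed.algebraMap_eq_of_integral hint)
  obtain ⟨p, hp, u, hu, hup⟩ := hex
  have hmin : P ∈ (Ideal.span {p}).minimalPrimes := by
    refine ⟨⟨hPp, by rwa [Ideal.span_singleton_le_iff_mem]⟩, ?_⟩
    rintro Q ⟨hQp, hpQ⟩ hQP x hx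
    rw [Ideal.span_singleton_le_iff_mem] at hpQ
    obtain ⟨y, hy⟩ := (hmem x).1 hx
    have hxu : x * u = y * p := by
      apply IsFractionRing.injective A K
      rw [map_mul, map_mul, hup, hy]; ring
    have : x * u ∈ Q := by rw [hxu]; exact Q.mul_mem_left _ hpQ
    rcases hQp.mem_or_mem this with h | h
    · exact h
    · exact absurd (hQP h) hu
  have hle1 : P.height ≤ 1 :=
    Ideal.height_le_one_of_isPrincipal_of_mem_minimalPrimes (Ideal.span {p}) P hmin
  have hne0 : P.height ≠ 0 := by
    rw [Ne, Ideal.height_eq_zero_iff_eq_bot]; exact hPbot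
  have hone : P.height = 1 := le_antisymm hle1 (Order.one_le_iff_pos.mpr (pos_iff_ne_zero.mpr hne0))
  obtain ⟨r, hr, hy⟩ := hz P hPp hone
  exact hr (hsub r hy)

/-- A domain etale over a polynomial ring over a field is integrally closed. -/
theorem isIntegrallyClosed_of_etale (k : Type) [Field k] (n : ℕ) (A : Type) [CommRing A]
    [IsDomain A] [Algebra (MvPolynomial (Fin n) k) A] [Algebra.Etale (MvPolynomial (Fin n) k) A] :
    IsIntegrallyClosed A := by
  classical
  let R := MvPolynomial (Fin n) k
  let F := FractionRing R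
  let B := A ⊗[R] F
  have hflat : Module.Flat R A := inferInstance
  have hinj : Function.Injective (algebraMap R A) := by
    rw [injective_iff_map_eq_zero]
    intro r hr
    by_contra hr0
    have hreg : IsSMulRegular A r := Module.Flat.isSMulRegular_of_nonZeroDivisors
      (mem_nonZeroDivisors_of_ne_zero hr0)
    have h1 : r • (1 : A) = r • (0 : A) := by
      rw [smul_zero, Algebra.smul_def, hr, zero_mul]
    exact one_ne_zero (hreg h1)
  have hle : Algebra.algebraMapSubmonoid A (nonZeroDivisors R) ≤ nonZeroDivisors A := by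
    rintro _ ⟨r, hr, rfl⟩
    apply mem_nonZeroDivisors_of_ne_zero
    intro h0
    have hr0 : r ≠ 0 := nonZeroDivisors.ne_zero hr
    exact hr0 (hinj (by rw [map_zero]; exact h0))
  have hloc : IsLocalization (Algebra.algebraMapSubmonoid A (nonZeroDivisors R)) B :=
    IsLocalization.tensor F (nonZeroDivisors R)
  have hBdom : IsDomain B := IsLocalization.isDomain_of_le_nonZeroDivisors B hle
  have hBfield : IsField B := by
    let e : F ⊗[R] A ≃+* B := (Algebra.TensorProduct.comm R F A).toRingEquiv
    have hdom' : IsDomain (F ⊗[R] A) := e.toMulEquiv.isDomain _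
    have hfin : Module.Finite F (F ⊗[R] A) := Algebra.FormallyUnramified.finite_of_free F (F ⊗[R] A)
    have hintg : Algebra.IsIntegral F (F ⊗[R] A) := inferInstance
    have hf : IsField (F ⊗[R] A) :=
      isField_of_isIntegral_of_isField' (Field.toIsField F)
    exact e.symm.toMulEquiv.isField hf
  let _ : Field B := hBfield.toField
  have hfrac : IsFractionRing A B := by
    refine IsLocalization.of_le (Algebra.algebraMapSubmonoid A (nonZeroDivisors R)) _ hle ?_
    intro r hr
    rw [isUnit_iff_ne_zero]
    intro h0
    have := IsLocalization.injective B hle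
    have h1 : r = 0 := this (by rw [h0, map_zero])
    exact nonZeroDivisors.ne_zero hr h1
  rw [isIntegrallyClosed_iff B]
  intro x hx
  obtain ⟨t, ht⟩ := (TensorProduct.toIntegralClosure_bijective_of_smooth (R := R) (S := A)
    (B := F)).2 ⟨x, hx⟩
  have hbot : integralClosure R F = ⊥ := IsIntegrallyClosed.integralClosure_eq_bot R F
  have key : ∀ t : A ⊗[R] (integralClosure R F), ∃ y : A, algebraMap A B y =
      ((TensorProduct.toIntegralClosure R A F t : integralClosure A B) : B) := by
    intro t
    induction t with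
    | zero => exact ⟨0, by simp⟩
    | add x y hx hy =>
      obtain ⟨a, ha⟩ := hx
      obtain ⟨b, hb⟩ := hy
      exact ⟨a + b, by rw [map_add, ha, hb, map_add]; rfl⟩
    | tmul a c =>
      obtain ⟨c, hc⟩ := c
      rw [hbot] at hc
      obtain ⟨r, hr⟩ := Algebra.mem_bot.1 hc
      refine ⟨r • a, ?_⟩
      subst hr
      change (r • a) ⊗ₜ[R] (1 : F) = a ⊗ₜ[R] (algebraMap R F r)
      rw [TensorProduct.smul_tmul, Algebra.smul_def, mul_one]
  obtain ⟨y, hy⟩ := key t
  exact ⟨y, by rw [hy, ht]⟩

end PartA

/-- Derivations extend along formally etale extensions. -/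
theorem exists_derivation_of_formallyEtale (S T : Type) [CommRing S] [CommRing T] [Algebra S T]
    [Algebra.FormallyEtale S T] (D : Derivation ℤ S S) :
    ∃ D' : Derivation ℤ T T, ∀ s : S, D' (algebraMap S T s) = algebraMap S T (D s) := by
  let e := KaehlerDifferential.tensorKaehlerEquivOfFormallyEtale ℤ S T
  let ψ : TensorProduct S T (Ω[S⁄ℤ]) →ₗ[T] T :=
    LinearMap.liftBaseChange T ((Algebra.linearMap S T).comp D.liftKaehlerDifferential)
  refine ⟨(ψ.comp e.symm.toLinearMap).compDer (KaehlerDifferential.D ℤ T), fun s => ?_⟩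
  change ψ (e.symm (KaehlerDifferential.D ℤ T (algebraMap S T s))) = _
  rw [KaehlerDifferential.tensorKaehlerEquivOfFormallyEtale_symm_D_algebraMap]
  simp [ψ]

/-- A domain etale over a domain is algebraic over it. -/
theorem isAlgebraic_of_etale (R A : Type) [CommRing R] [IsDomain R] [CommRing A]
    [IsDomain A] [Algebra R A] [Algebra.Etale R A] :
    Algebra.IsAlgebraic R A := by
  haveI : Module.Flat R A := inferInstance
  haveI : Module.IsTorsionFree R A := inferInstance
  haveI : FaithfulSMul R A := inferInstance
  let KR := FractionRing R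
  let KA := FractionRing A
  haveI : Algebra.FormallyEtale A KA := Algebra.FormallyEtale.of_isLocalization (nonZeroDivisors A)
  haveI : Algebra.FormallyEtale R KA := Algebra.FormallyEtale.comp R A KA
  haveI : Algebra.FormallyEtale R KR := Algebra.FormallyEtale.of_isLocalization (nonZeroDivisors R)
  haveI : FaithfulSMul R KA := by
    rw [faithfulSMul_iff_algebraMap_injective, IsScalarTower.algebraMap_eq R A KA]
    exact (IsFractionRing.injective A KA).comp (FaithfulSMul.algebraMap_injective R A)
  letI : Algebra KR KA := FractionRing.liftAlgebra R KA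
  haveI : IsScalarTower R KR KA := FractionRing.isScalarTower_liftAlgebra R KA
  haveI : Algebra.FormallyEtale KR KA := Algebra.FormallyEtale.of_restrictScalars (R := R)
  haveI : Algebra.EssFiniteType A KA := Algebra.EssFiniteType.of_isLocalization _ (nonZeroDivisors A)
  haveI : Algebra.EssFiniteType R KA := Algebra.EssFiniteType.comp R A KA
  haveI : Algebra.EssFiniteType KR KA := Algebra.EssFiniteType.of_comp R KR KA
  haveI : Module.Finite KR KA := Algebra.FormallyUnramified.finite_of_free KR KA
  haveI : Algebra.IsAlgebraic KR KA := inferInstance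
  have h1 : Algebra.IsAlgebraic R KA :=
    (IsFractionRing.comap_isAlgebraic_iff (A := R) (K := KR) (C := KA)).mpr inferInstance
  refine ⟨fun x => ?_⟩
  have := h1.isAlgebraic (algebraMap A KA x)
  exact (isAlgebraic_algebraMap_iff (IsFractionRing.injective A KA)).mp this

/-- A domain etale over a polynomial ring over a field of characteristic zero has no proper
nonzero ideal stable under all derivations. -/
theorem eq_top_of_stable (k : Type) [Field k] [CharZero k] (n : ℕ) (A : Type) [CommRing A]
    [IsDomain A] [Algebra (MvPolynomial (Fin n) k) A] [Algebra.Etale (MvPolynomial (Fin n) k) A]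
    (I : Ideal A) (hI : I ≠ ⊥) (hst : ∀ D : Derivation ℤ A A, ∀ a ∈ I, D a ∈ I) : I = ⊤ := by
  classical
  obtain ⟨a, haI, ha0⟩ := Submodule.exists_mem_ne_zero_of_ne_bot hI
  have halg : IsAlgebraic (MvPolynomial (Fin n) k) a :=
    (isAlgebraic_of_etale (MvPolynomial (Fin n) k) A).isAlgebraic a
  have hJ : I.comap (algebraMap (MvPolynomial (Fin n) k) A) ≠ ⊥ :=
    Ideal.comap_ne_bot_of_algebraic_mem ha0 haI halg
  obtain ⟨p0, hp0, hp00⟩ := Submodule.exists_mem_ne_zero_of_ne_bot hJ
  have hex : ∃ d : ℕ, ∃ p : MvPolynomial (Fin n) k, p ∈ I.comap (algebraMap _ A) ∧ p ≠ 0 ∧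
      p.totalDegree = d := ⟨_, p0, hp0, hp00, rfl⟩
  obtain ⟨p, hpJ, hpne, hpdeg⟩ := Nat.find_spec hex
  have hmin : ∀ q : MvPolynomial (Fin n) k, q ∈ I.comap (algebraMap _ A) → q ≠ 0 →
      p.totalDegree ≤ q.totalDegree := by
    intro q hq hq0
    rw [hpdeg]
    exact Nat.find_min' hex ⟨q, hq, hq0, rfl⟩
  -- stability under partial derivatives
  have hstab : ∀ i : Fin n, ∀ q : MvPolynomial (Fin n) k, q ∈ I.comap (algebraMap _ A) →
      MvPolynomial.pderiv i q ∈ I.comap (algebraMap (MvPolynomial (Fin n) k) A) := by
    intro i q hq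
    obtain ⟨D', hD'⟩ := exists_derivation_of_formallyEtale (MvPolynomial (Fin n) k) A
      ((MvPolynomial.pderiv i).restrictScalars ℤ)
    rw [Ideal.mem_comap]
    have h1 := hst D' _ (Ideal.mem_comap.mp hq)
    rw [hD'] at h1
    exact h1
  by_cases hd : p.totalDegree = 0
  · obtain ⟨c, hc⟩ : ∃ c, p = MvPolynomial.C c := ⟨_, MvPolynomial.totalDegree_eq_zero_iff_eq_C.mp hd⟩
    have hc0 : c ≠ 0 := by
      rintro rfl
      apply hpne
      rw [hc, map_zero]
    have hu : IsUnit (algebraMap (MvPolynomial (Fin n) k) A p) := by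
      rw [hc]
      exact ((IsUnit.mk0 c hc0).map MvPolynomial.C).map _
    exact Ideal.eq_top_of_isUnit_mem I (Ideal.mem_comap.mp hpJ) hu
  · exfalso
    -- a monomial of top degree
    obtain ⟨m, hm, hmd⟩ : ∃ m ∈ p.support, p.totalDegree = m.sum fun _ e => e := by
      have := Finset.exists_mem_eq_sup p.support (MvPolynomial.support_nonempty.mpr hpne)
        (fun s => s.sum fun _ e => e)
      exact this
    obtain ⟨i, hi⟩ : ∃ i, m i ≠ 0 := by
      by_contra hcon
      push Not at hcon
      apply hd
      rw [hmd, Finsupp.sum]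
      exact Finset.sum_eq_zero fun j _ => hcon j
    have hq := hstab i p hpJ
    have hcoeff : MvPolynomial.coeff (m - Finsupp.single i 1) (MvPolynomial.pderiv i p) ≠ 0 := by
      rw [MvPolynomial.coeff_pderiv]
      have e1 : m - Finsupp.single i 1 + Finsupp.single i 1 = m := by
        apply tsub_add_cancel_of_le
        rw [Finsupp.single_le_iff]
        omega
      rw [e1]
      refine mul_ne_zero (MvPolynomial.mem_support_iff.mp hm) ?_
      exact Nat.cast_add_one_ne_zero _
    have hq0 : MvPolynomial.pderiv i p ≠ 0 := by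
      intro h0
      apply hcoeff
      rw [h0, MvPolynomial.coeff_zero]
    have hle := hmin _ hq hq0
    -- but the degree drops
    obtain ⟨m', hm', hmd'⟩ : ∃ m' ∈ (MvPolynomial.pderiv i p).support,
        (MvPolynomial.pderiv i p).totalDegree = m'.sum fun _ e => e := by
      have := Finset.exists_mem_eq_sup (MvPolynomial.pderiv i p).support
        (MvPolynomial.support_nonempty.mpr hq0) (fun s => s.sum fun _ e => e)
      exact this
    have h2 : MvPolynomial.coeff (m' + Finsupp.single i 1) p ≠ 0 := by
      have := MvPolynomial.mem_support_iff.mp hm'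
      rw [MvPolynomial.coeff_pderiv] at this
      exact left_ne_zero_of_mul this
    have h3 : ((m' + Finsupp.single i 1).sum fun _ e => e) ≤ p.totalDegree :=
      MvPolynomial.le_totalDegree (MvPolynomial.mem_support_iff.mpr h2)
    rw [Finsupp.sum_add_index' (by simp) (by simp), Finsupp.sum_single_index (by simp)] at h3
    omega

/-- Derivations extend uniquely along finite separable extensions of the fraction field. -/
theorem exists_derivation_extends (A K L : Type) [CommRing A] [IsDomain A] [Field K] [Algebra A K]
    [IsFractionRing A K] [Field L] [Algebra K L] [Algebra A L] [IsScalarTower A K L]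
    [FiniteDimensional K L] [Algebra.IsSeparable K L] (D : Derivation ℤ A A) :
    ∃ D' : Derivation ℤ L L, ∀ a : A, D' (algebraMap A L a) = algebraMap A L (D a) := by
  haveI : Algebra.FormallyEtale A K := Algebra.FormallyEtale.of_isLocalization (nonZeroDivisors A)
  haveI : Algebra.FormallyEtale K L := Algebra.FormallyEtale.of_isSeparable K L
  haveI : Algebra.FormallyEtale A L := Algebra.FormallyEtale.comp A K L
  exact exists_derivation_of_formallyEtale A L D

/-- Integrality over a normal Noetherian domain can be tested in codimension one. -/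
theorem isIntegral_of_height_one (A K L : Type) [CommRing A] [IsDomain A] [IsNoetherianRing A]
    [IsIntegrallyClosed A] [Field K] [Algebra A K] [IsFractionRing A K] [Field L] [Algebra K L]
    [Algebra A L] [IsScalarTower A K L] [FiniteDimensional K L] (z : L)
    (hz : ∀ P : Ideal A, P.IsPrime → P.height = 1 →
      ∃ r : A, r ∉ P ∧ IsIntegral A (algebraMap A L r * z)) : IsIntegral A z := by
  have hzK : IsIntegral K z := Algebra.IsIntegral.isIntegral z
  have hcoef : ∀ j : ℕ, ∃ y : A, algebraMap A K y = (minpoly K z).coeff j := by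
    intro j
    apply exists_algebraMap_eq_of_height_one A K
    intro P hP hht
    obtain ⟨r, hrP, hr⟩ := hz P hP hht
    have hr0 : r ≠ 0 := fun h => hrP (h ▸ P.zero_mem)
    have hu : algebraMap A K r ≠ 0 := by
      intro h
      exact hr0 ((map_eq_zero_iff _ (IsFractionRing.injective A K)).mp h)
    have e1 : minpoly K (algebraMap A L r * z) = (minpoly K z).scaleRoots (algebraMap A K r) := by
      rw [← IsIntegrallyClosed.minpoly_smul hu hzK, Algebra.smul_def,
        ← IsScalarTower.algebraMap_apply]
    have e2 : minpoly K (algebraMap A L r * z)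
        = (minpoly A (algebraMap A L r * z)).map (algebraMap A K) :=
      minpoly.isIntegrallyClosed_eq_field_fractions' K hr
    refine ⟨r ^ ((minpoly K z).natDegree - j), fun h => hrP (hP.mem_of_pow_mem _ h),
      (minpoly A (algebraMap A L r * z)).coeff j, ?_⟩
    rw [← Polynomial.coeff_map, ← e2, e1, Polynomial.coeff_scaleRoots, map_pow, mul_comm]
  have hlift : minpoly K z ∈ Polynomial.lifts (algebraMap A K) := by
    rw [Polynomial.lifts_iff_coeff_lifts]
    intro j
    exact hcoef j
  obtain ⟨q, hq, -, hqm⟩ := Polynomial.lifts_and_natDegree_eq_and_monic hlift (minpoly.monic hzK)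
  refine ⟨q, hqm, ?_⟩
  have h1 : Polynomial.aeval z (q.map (algebraMap A K)) = 0 := by rw [hq, minpoly.aeval]
  rw [Polynomial.aeval_map_algebraMap] at h1
  exact h1

/-- Purity of the branch locus, in the form needed. -/
theorem etale_of_codim_one (k : Type) [Field k] [CharZero k] (n : ℕ) (A K L : Type) [CommRing A]
    [IsDomain A] [Algebra (MvPolynomial (Fin n) k) A] [Algebra.Etale (MvPolynomial (Fin n) k) A]
    [Field K] [Algebra A K] [IsFractionRing A K] [Field L] [Algebra K L] [Algebra A L]
    [IsScalarTower A K L] [FiniteDimensional K L]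
    (h1 : ∀ P : Ideal A, P.IsPrime → P.height = 1 → ∀ D : Derivation ℤ L L,
      (∀ x : A, ∃ y : A, D (algebraMap A L x) = algebraMap A L y) → ∀ b : L, IsIntegral A b →
        ∃ r : A, r ∉ P ∧ IsIntegral A (algebraMap A L r * D b)) :
    Module.Finite A (integralClosure A L) ∧ Algebra.Etale A (integralClosure A L) := by
  haveI : IsNoetherianRing A := Algebra.FiniteType.isNoetherianRing (MvPolynomial (Fin n) k) A
  haveI : IsIntegrallyClosed A := isIntegrallyClosed_of_etale k n A
  haveI : CharZero A := by
    have h : Function.Injective (algebraMap (MvPolynomial (Fin n) k) A) :=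
      FaithfulSMul.algebraMap_injective _ _
    exact charZero_of_injective_algebraMap h
  haveI : CharZero K := charZero_of_injective_algebraMap (IsFractionRing.injective A K)
  haveI : Algebra.IsSeparable K L := inferInstance
  have hfin : Module.Finite A (integralClosure A L) := IsIntegralClosure.finite A K L _
  refine ⟨hfin, ?_⟩
  refine etale_of_simple A K L hfin
    {D | ∀ x : A, ∃ y : A, D (algebraMap A L x) = algebraMap A L y} (fun D hD a => hD a) ?_ ?_
  · intro D hD b hb
    exact isIntegral_of_height_one A K L (D b) fun P hP hht => h1 P hP hht D hD b hb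
  · intro I hI hst
    refine eq_top_of_stable k n A I hI fun D a ha => ?_
    obtain ⟨D', hD'⟩ := exists_derivation_extends A K L D
    exact hst D' (fun x => ⟨D x, hD' x⟩) a ha (D a) (hD' a)

end Pool.Agent.LibHP
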