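import Pool.Agent.LibHP.SDefs
import Pool.Agent.LibHP.F2
import Pool.Agent.LibHP.E3
import Pool.Agent.LibHP.E2

set_option autoImplicit false
set_option linter.unusedSectionVars false
open AlgebraicGeometry CategoryTheory Polynomial

namespace Pool.Agent.LibHP

/-- The map from the local ring at `x` to an extension `L` of the function field. -/
noncomputable def stalkTo {X : Scheme} [IsIntegral X] {L : Type} [Field L]
    (j : X.functionField →+* L) (x : X) : X.presheaf.stalk x →+* L :=
  j.comp (algebraMap (X.presheaf.stalk x) X.functionField)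

/-- Every derivation of `L` preserving the local ring at `x` preserves its integral closure
in `L`. -/
def PresAt {X : Scheme} [IsIntegral X] {L : Type} [Field L]
    (j : X.functionField →+* L) (x : X) : Prop :=
  ∀ D : Derivation ℤ L L,
    (∀ y : X.presheaf.stalk x, ∃ y' : X.presheaf.stalk x, D (stalkTo j x y) = stalkTo j x y') →
    ∀ b : L, (stalkTo j x).IsIntegralElem b → (stalkTo j x).IsIntegralElem (D b)

/-- A Noetherian integrally closed local domain of dimension one is a discrete valuation ring. -/
theorem isDiscreteValuationRing_of_dim_one (O : Type) [CommRing O] [IsDomain O] [IsLocalRing O]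
    [IsNoetherianRing O] [IsIntegrallyClosed O] (h : ringKrullDim O = 1) :
    IsDiscreteValuationRing O := by
  have hf : ¬ IsField O := by
    intro hf
    have := ringKrullDim_eq_zero_of_isField hf
    rw [h] at this
    exact one_ne_zero this
  have h1 : Ring.KrullDimLE 1 O := by
    rw [Ring.krullDimLE_iff, h]
    rfl
  have htf : IsDiscreteValuationRing O ↔
      (IsIntegrallyClosed O ∧ ∃! P : Ideal O, P ≠ ⊥ ∧ P.IsPrime) :=
    (IsDiscreteValuationRing.TFAE O hf).out 0 3
  refine htf.2 ⟨inferInstance, ?_⟩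
  refine ⟨IsLocalRing.maximalIdeal O, ⟨?_, inferInstance⟩, ?_⟩
  · rwa [Ne, ← IsLocalRing.isField_iff_maximalIdeal_eq]
  · rintro P ⟨hP, hP'⟩
    exact IsLocalRing.eq_maximalIdeal (Ring.krullDimLE_one_iff_of_noZeroDivisors.1 h1 P hP hP')

/-- A derivation of the field `L` preserving `A` preserves the localizations of `A`. -/
theorem derivation_localization {A O L : Type} [CommRing A] [CommRing O] [Field L] [Algebra A O]
    [Algebra A L] [Algebra O L] [IsScalarTower A O L] (M : Submonoid A) [IsLocalization M O]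
    (D : Derivation ℤ L L) (hD : ∀ x : A, ∃ y : A, D (algebraMap A L x) = algebraMap A L y)
    (z : O) : ∃ z' : O, D (algebraMap O L z) = algebraMap O L z' := by
  obtain ⟨a, s, rfl⟩ := IsLocalization.exists_mk'_eq M z
  obtain ⟨a', ha'⟩ := hD a
  obtain ⟨s', hs'⟩ := hD s
  obtain ⟨t, ht⟩ := (IsLocalization.map_units O s).exists_right_inv
  set z : O := IsLocalization.mk' O a s with hz
  have h1 : z * algebraMap A O s = algebraMap A O a := IsLocalization.mk'_spec O a s
  refine ⟨(algebraMap A O a' - z * algebraMap A O s') * t, ?_⟩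
  have h2 : algebraMap O L z * algebraMap A L s = algebraMap A L a := by
    rw [IsScalarTower.algebraMap_apply A O L, IsScalarTower.algebraMap_apply A O L a, ← map_mul, h1]
  have h3 := congrArg D h2
  rw [Derivation.leibniz, ha', hs', smul_eq_mul, smul_eq_mul] at h3
  have h4 : algebraMap A L s * algebraMap O L t = 1 := by
    rw [IsScalarTower.algebraMap_apply A O L, ← map_mul, ht, map_one]
  rw [map_mul, map_sub, map_mul, ← IsScalarTower.algebraMap_apply A O L,
    ← IsScalarTower.algebraMap_apply A O L]
  linear_combination (-D (algebraMap O L z)) * h4 + algebraMap O L t * h3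

variable {k : Type} [Field k] [CharZero k] {X : Scheme} (f : X ⟶ Spec (CommRingCat.of k))

/-- Around every point there is an affine open which is etale over an affine space. -/
theorem exists_etale_chart [IsIntegral X] [Smooth f] (x : X) :
    ∃ U : X.Opens, IsAffineOpen U ∧ x ∈ U ∧
      ∃ (n : ℕ) (ψ : MvPolynomial (Fin n) k →+* Γ(X, U)), ψ.Etale := by
  obtain ⟨U, hU, V, hV, hxV, e, hs⟩ := Smooth.exists_isStandardSmooth f x
  obtain ⟨n, g, hg, het⟩ := hs.exists_etale_mvPolynomial
  have hUtop : U = ⊤ := by
    have hne : (U : Set (Spec (CommRingCat.of k))).Nonempty := ⟨f x, e hxV⟩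
    have : Subsingleton (Spec (CommRingCat.of k)) :=
      inferInstanceAs (Subsingleton (PrimeSpectrum k))
    exact TopologicalSpace.Opens.ext (Set.Nonempty.eq_univ hne)
  subst hUtop
  refine ⟨V, hV, hxV, n, g.comp (MvPolynomial.map (Scheme.ΓSpecIso (CommRingCat.of k)).inv.hom), ?_⟩
  refine RingHom.Etale.stableUnderComposition _ _ (RingHom.Etale.of_bijective ?_) het
  have hb : Function.Bijective (Scheme.ΓSpecIso (CommRingCat.of k)).inv.hom :=
    ConcreteCategory.bijective_of_isIso (Scheme.ΓSpecIso (CommRingCat.of k)).inv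
  exact ⟨MvPolynomial.map_injective _ hb.1, MvPolynomial.map_surjective _ hb.2⟩

/-- Local rings of codimension one points of a smooth variety are discrete valuation rings. -/
theorem isDiscreteValuationRing_stalk [IsIntegral X] [Smooth f] (x : X)
    (hx : ringKrullDim (X.presheaf.stalk x) = 1) :
    IsDiscreteValuationRing (X.presheaf.stalk x) := by
  obtain ⟨U, hU, hxU, n, ψ, hψ⟩ := exists_etale_chart f x
  have hne : Nonempty U := ⟨⟨x, hxU⟩⟩
  let _ : Algebra (MvPolynomial (Fin n) k) Γ(X, U) := ψ.toAlgebra
  have hAet : Algebra.Etale (MvPolynomial (Fin n) k) Γ(X, U) := hψ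
  have hnoeth : IsNoetherianRing Γ(X, U) :=
    Algebra.FiniteType.isNoetherianRing (MvPolynomial (Fin n) k) Γ(X, U)
  have hic : IsIntegrallyClosed Γ(X, U) := isIntegrallyClosed_of_etale k n Γ(X, U)
  let _ := TopCat.Presheaf.algebra_section_stalk X.presheaf (⟨x, hxU⟩ : U)
  have hloc := hU.isLocalization_stalk ⟨x, hxU⟩
  have hn : IsNoetherianRing (X.presheaf.stalk x) :=
    IsLocalization.isNoetherianRing (hU.primeIdealOf ⟨x, hxU⟩).asIdeal.primeCompl _ hnoeth
  have hi : IsIntegrallyClosed (X.presheaf.stalk x) :=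
    isIntegrallyClosed_of_isLocalization (R := Γ(X, U)) _
      (hU.primeIdealOf ⟨x, hxU⟩).asIdeal.primeCompl
      (Ideal.primeCompl_le_nonZeroDivisors _)
  exact isDiscreteValuationRing_of_dim_one _ hx

theorem finEt_of_presAt [IsIntegral X] {L : Type} [Field L]
    (j : X.functionField →+* L) (hfin : j.Finite)
    (hpres : ∀ x : X, ringKrullDim (X.presheaf.stalk x) = 1 → PresAt j x)
    (x : X) (U : X.Opens) (hU : IsAffineOpen U) (hx : x ∈ U) (n : ℕ)
    (ψ : MvPolynomial (Fin n) k →+* Γ(X, U)) (hψ : ψ.Etale) :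
    FinEt (j.comp ((X.presheaf.germ U (genericPoint X)
        (((genericPoint_spec X).mem_open_set_iff U.isOpen).mpr (by simpa using ⟨x, hx⟩))).hom)) := by
  have hne : Nonempty U := ⟨⟨x, hx⟩⟩
  let _ : Algebra (MvPolynomial (Fin n) k) Γ(X, U) := ψ.toAlgebra
  have hAet : Algebra.Etale (MvPolynomial (Fin n) k) Γ(X, U) := hψ
  let _ : Algebra X.functionField L := j.toAlgebra
  let _ : Algebra Γ(X, U) L := (j.comp ((X.presheaf.germ U (genericPoint X)
        (((genericPoint_spec X).mem_open_set_iff U.isOpen).mpr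
          (by simpa using ⟨x, hx⟩))).hom)).toAlgebra
  have hst : IsScalarTower Γ(X, U) X.functionField L := IsScalarTower.of_algebraMap_eq' rfl
  have hfr : IsFractionRing Γ(X, U) X.functionField :=
    functionField_isFractionRing_of_isAffineOpen X U hU
  have hfd : FiniteDimensional X.functionField L := hfin
  refine etale_of_codim_one k n Γ(X, U) X.functionField L ?_
  intro P hP hPh D hD b hb
  obtain ⟨y, hy, hloc⟩ : ∃ (y : X) (hy : y ∈ U),
      @IsLocalization.AtPrime Γ(X, U) _ (X.presheaf.stalk y) _
        (TopCat.Presheaf.algebra_section_stalk X.presheaf (⟨y, hy⟩ : U)) P _ := by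
    have hy : hU.fromSpec ⟨P, hP⟩ ∈ U := by
      have : hU.fromSpec ⟨P, hP⟩ ∈ Set.range hU.fromSpec := ⟨_, rfl⟩
      rwa [hU.range_fromSpec] at this
    exact ⟨_, hy, hU.isLocalization_stalk' ⟨P, hP⟩ hy⟩
  let _i1 : Algebra Γ(X, U) (X.presheaf.stalk y) :=
    TopCat.Presheaf.algebra_section_stalk X.presheaf (⟨y, hy⟩ : U)
  have hdim : ringKrullDim (X.presheaf.stalk y) = 1 := by
    rw [IsLocalization.AtPrime.ringKrullDim_eq_height P, hPh]
    rfl
  have htow : IsScalarTower Γ(X, U) (X.presheaf.stalk y) X.functionField :=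
    functionField_isScalarTower X U ⟨y, hy⟩
  let _i2 : Algebra (X.presheaf.stalk y) L := (stalkTo j y).toAlgebra
  have htow2 : IsScalarTower (X.presheaf.stalk y) X.functionField L :=
    IsScalarTower.of_algebraMap_eq' rfl
  have htow3 : IsScalarTower Γ(X, U) (X.presheaf.stalk y) L := by
    refine IsScalarTower.of_algebraMap_eq fun a => ?_
    rw [IsScalarTower.algebraMap_apply Γ(X, U) X.functionField L,
      IsScalarTower.algebraMap_apply (X.presheaf.stalk y) X.functionField L,
      ← IsScalarTower.algebraMap_apply Γ(X, U) (X.presheaf.stalk y) X.functionField]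
  have hD' : ∀ z : X.presheaf.stalk y, ∃ z' : X.presheaf.stalk y,
      D (stalkTo j y z) = stalkTo j y z' :=
    derivation_localization P.primeCompl D hD
  have hb' : (stalkTo j y).IsIntegralElem b := IsIntegral.tower_top (A := X.presheaf.stalk y) hb
  have hDb : IsIntegral (X.presheaf.stalk y) (D b) := hpres y hdim D hD' b hb'
  obtain ⟨m, hm⟩ := hDb.exists_multiple_integral_of_isLocalization P.primeCompl _
  refine ⟨m, m.2, ?_⟩
  rwa [Submonoid.smul_def, Algebra.smul_def] at hm

theorem presAt_of_curves [IsIntegral X] [Smooth f] {L : Type} [Field L]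
    (j : X.functionField →+* L) (hfin : j.Finite) (x : X)
    (hx : ringKrullDim (X.presheaf.stalk x) = 1)
    (hcurves : ∀ l : ℕ, l.Prime → ∃ m : ℕ, ¬ l ∣ m ∧ CurveMeets f x m)
    (hlift : ∀ σ : X.functionField →+* RatFunc X.functionField,
      (∀ c : k, σ (toStalk f (genericPoint X) c) = RatFunc.C (toStalk f (genericPoint X) c)) →
      (∀ a, ∃ b, HasJet (σ a) a b) →
      ∃ σ' : L →+* RatFunc L, (∀ l, ∃ b, HasJet (σ' l) l b) ∧
        ∀ a, σ' (j a) = rmap j (σ a)) :
    PresAt j x := by
  haveI := isDiscreteValuationRing_stalk f x hx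
  letI algKL : Algebra X.functionField L := j.toAlgebra
  letI algOL : Algebra (X.presheaf.stalk x) L := (stalkTo j x).toAlgebra
  haveI tow : IsScalarTower (X.presheaf.stalk x) X.functionField L :=
    IsScalarTower.of_algebraMap_eq (fun _ => rfl)
  haveI fd : FiniteDimensional X.functionField L := hfin
  -- the residue characteristic
  have hQ : ∀ n : ℕ, n ≠ 0 → IsUnit (n : X.presheaf.stalk x) := by
    intro n hn
    have h1 : IsUnit (n : k) := (Nat.cast_ne_zero.mpr hn).isUnit
    have h2 := h1.map (toStalk f x)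
    simpa using h2
  haveI cz : CharZero X.functionField :=
    charZero_of_injective_ringHom (toStalk f (genericPoint X)).injective
  haveI czL : CharZero L := charZero_of_injective_ringHom j.injective
  have hjet : ∀ σ : X.functionField →+* RatFunc X.functionField,
      (∀ a : X.functionField, ∃ p q : Polynomial X.functionField, q.coeff 0 = 1 ∧ p.coeff 0 = a ∧
        σ a * algebraMap _ (RatFunc X.functionField) q = algebraMap _ _ p) →
      ∀ a, ∃ b, HasJet (σ a) a b := by
    intro σ h a
    obtain ⟨p, q, h0, h1, h2⟩ := h a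
    exact ⟨p.coeff 1 - a * q.coeff 1, p, q, h0, h2, h1, by ring⟩
  have het : Algebra.Etale (X.presheaf.stalk x) (integralClosure (X.presheaf.stalk x) L) := by
    apply etale_of_curves (X.presheaf.stalk x) X.functionField L hQ
    intro l hl
    obtain ⟨m, hm, σ, g, hσk, hσ, hg, hloc⟩ := hcurves l hl
    obtain ⟨σ', h1, h2⟩ := hlift σ hσk (hjet σ hσ)
    exact ⟨σ, σ', g, m, hg, hm, h1, h2, hloc⟩
  intro D hD b hb
  haveI := het
  exact isIntegral_derivation_of_etale (X.presheaf.stalk x) X.functionField L D hD b hb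

end Pool.Agent.LibHP
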