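import Pool.Agent.LibHP.E2

set_option autoImplicit false
open AlgebraicGeometry CategoryTheory

namespace Pool.Agent.LibHP

/-- The structure map from the base field `k` to the local ring at `x` of a scheme over `k`. -/
noncomputable def toStalk {k : Type} [Field k] {X : Scheme} (f : X ⟶ Spec (CommRingCat.of k))
    (x : X) : k →+* X.presheaf.stalk x :=
  ((Scheme.ΓSpecIso (CommRingCat.of k)).inv ≫ f.appTop ≫
    X.presheaf.germ ⊤ x trivial).hom

/-- `CurveMeets f x m`: there is a rational curve over the function field `K` of `X`, i.e. a
homomorphism `σ : K → K(t)` over `k` (the generic point of a rational map from the affine line over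
`K` to `X`), which passes at `t = 0` through the generic point of `X` (the value of `σ a` at
`t = 0` is `a`), and which meets the prime divisor with generic point `x` at some closed point
`g = 0` of the affine line over `K` with local multiplicity `m ≥ 1`. -/
def CurveMeets {k : Type} [Field k] {X : Scheme} [IsIntegral X] (f : X ⟶ Spec (CommRingCat.of k))
    (x : X) (m : ℕ) : Prop :=
  ∃ (σ : X.functionField →+* RatFunc X.functionField) (g : Polynomial X.functionField),
    (∀ c : k, σ (toStalk f (genericPoint X) c) = RatFunc.C (toStalk f (genericPoint X) c)) ∧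
    (∀ a : X.functionField, ∃ p q : Polynomial X.functionField, q.coeff 0 = 1 ∧ p.coeff 0 = a ∧
      σ a * algebraMap _ (RatFunc X.functionField) q = algebraMap _ _ p) ∧
    Irreducible g ∧ LocMult (X.presheaf.stalk x) X.functionField σ g m

/-- Every connected finite etale cover of the base change to an algebraic closure is trivial. -/
def GeomSimplyConnected {k : Type} [Field k] {X : Scheme} (f : X ⟶ Spec (CommRingCat.of k)) :
    Prop :=
  ∀ (Y : Scheme)
    (g : Y ⟶ Limits.pullback f
      (Spec.map (CommRingCat.ofHom (algebraMap k (AlgebraicClosure k))))),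
    AlgebraicGeometry.IsFinite g → AlgebraicGeometry.Etale g → ConnectedSpace Y → IsIso g

/-- The Hilbert property as in the problem. -/
def HilbertProp {k : Type} [Field k] {X : Scheme} (f : X ⟶ Spec (CommRingCat.of k)) : Prop :=
  ∀ (n : ℕ) (Y : Fin n → Scheme) (π : ∀ i, Y i ⟶ X),
    (∀ i, AlgebraicGeometry.IsIntegral (Y i)) →
    (∀ i, AlgebraicGeometry.IsFinite (π i)) →
    (∀ i, AlgebraicGeometry.Surjective (π i)) →
    (∀ i, ¬ IsIso (π i)) →
    Dense {x : X | ∃ s : Spec (CommRingCat.of k) ⟶ X, s ≫ f = 𝟙 _ ∧
      x ∈ Set.range s.base ∧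
      ∀ i (t : Spec (CommRingCat.of k) ⟶ Y i), t ≫ π i ≠ s}

/-- `FinEt φ`: the integral closure of `A` in the field `L` (an `A`-algebra via `φ`) is finite
etale over `A`. -/
def FinEt {A L : Type} [CommRing A] [Field L] (φ : A →+* L) : Prop :=
  letI := φ.toAlgebra
  Module.Finite A (integralClosure A L) ∧ Algebra.Etale A (integralClosure A L)

end Pool.Agent.LibHP
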