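import Pool.Agent.LibHP.H0

set_option autoImplicit false
open Polynomial

namespace Pool.Agent.LibHP

theorem HasSpec.of_equiv {R S : Type} [CommRing R] [CommRing S] (e : R ≃+* S) (h : HasSpec R) :
    HasSpec S := by
  intro P hP
  have hmon : (P.map (mapRingHom (e.symm : S →+* R))).Monic := hP.map _
  obtain ⟨Z, hZ, h1⟩ := h _ hmon
  refine ⟨Z, hZ, fun τ hτ x hx => ?_⟩
  have hcomm : (evalRingHom ((τ : ℕ) : R)).comp (mapRingHom (e.symm : S →+* R)) =
      (e.symm : S →+* R).comp (evalRingHom ((τ : ℕ) : S)) := by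
    apply Polynomial.ringHom_ext
    · intro a; simp
    · simp
  have hx' : ((P.map (mapRingHom (e.symm : S →+* R))).map (evalRingHom ((τ : ℕ) : R))).IsRoot
      (e.symm x) := by
    rw [Polynomial.map_map, hcomm, ← Polynomial.map_map]
    exact hx.map (f := (e.symm : S →+* R))
  obtain ⟨r, hr, hrx⟩ := h1 τ hτ _ hx'
  refine ⟨r.map (e : R →+* S), ?_, ?_⟩
  · have h2 := hr.map (f := mapRingHom (e : R →+* S))
    rw [Polynomial.map_map] at h2
    have hid : (mapRingHom (e : R →+* S)).comp (mapRingHom (e.symm : S →+* R)) =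
        RingHom.id _ := by
      apply Polynomial.ringHom_ext
      · intro a; simp
      · simp
    rw [hid, Polynomial.map_id] at h2
    exact h2
  · have h3 : (r.map (e : R →+* S)).eval ((τ : ℕ) : S) = e (r.eval ((τ : ℕ) : R)) := by
      rw [Polynomial.eval_natCast_map]
      rfl
    rw [h3, hrx]
    simp

/-! ### degrees of roots over `R[v]` -/

theorem natDegree_root_le {R : Type} [CommRing R] [IsDomain R] (Q : R[X][X]) (hQ : Q.Monic)
    (D : ℕ) (hD : ∀ i, (Q.coeff i).natDegree ≤ D) (x : R[X]) (hx : Q.IsRoot x) :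
    x.natDegree ≤ D := by
  by_contra hcon
  push Not at hcon
  have h0 : Q.eval x = 0 := hx
  rw [Polynomial.eval_eq_sum_range, Finset.sum_range_succ, hQ.coeff_natDegree, one_mul] at h0
  obtain ⟨n, hn⟩ : ∃ n, n = Q.natDegree := ⟨_, rfl⟩
  rw [← hn] at h0
  rcases Nat.eq_zero_or_pos n with h1 | h1
  · rw [h1] at h0
    simp at h0
  · have h2 : x ^ n = -∑ i ∈ Finset.range n, Q.coeff i * x ^ i := by
      rw [eq_neg_iff_add_eq_zero, add_comm]
      exact h0
    have h3 : (∑ i ∈ Finset.range n, Q.coeff i * x ^ i).natDegree ≤ D + (n - 1) * x.natDegree := by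
      apply natDegree_sum_le_of_forall_le
      intro i hi
      have hi' : i ≤ n - 1 := by
        have := Finset.mem_range.mp hi
        omega
      calc (Q.coeff i * x ^ i).natDegree ≤ (Q.coeff i).natDegree + (x ^ i).natDegree :=
            natDegree_mul_le
        _ ≤ D + i * x.natDegree := add_le_add (hD i) natDegree_pow_le
        _ ≤ D + (n - 1) * x.natDegree := by gcongr
    have h4 : (x ^ n).natDegree = n * x.natDegree := natDegree_pow _ _
    rw [h2, natDegree_neg] at h4
    rw [h4] at h3
    obtain ⟨m, rfl⟩ : ∃ m, n = m + 1 := ⟨n - 1, by omega⟩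
    simp only [Nat.add_sub_cancel] at h3
    nlinarith

theorem exists_natDegree_bound {R : Type} [CommRing R] (P : R[X][X][X]) :
    ∃ D : ℕ, ∀ i j, ((P.coeff i).coeff j).natDegree ≤ D := by
  refine ⟨P.support.sup (fun i => (P.coeff i).support.sup
    (fun j => ((P.coeff i).coeff j).natDegree)), fun i j => ?_⟩
  by_cases hi : i ∈ P.support
  · by_cases hj : j ∈ (P.coeff i).support
    · exact le_trans (Finset.le_sup (f := fun j => ((P.coeff i).coeff j).natDegree) hj)
        (Finset.le_sup (f := fun i => (P.coeff i).support.sup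
          (fun j => ((P.coeff i).coeff j).natDegree)) hi)
    · rw [notMem_support_iff.mp hj]
      simp
  · rw [notMem_support_iff.mp hi]
    simp

theorem natDegree_eval_natCast_le {R : Type} [CommRing R] (p : R[X][X]) (D : ℕ)
    (hD : ∀ j, (p.coeff j).natDegree ≤ D) (τ : ℕ) : (p.eval (τ : R[X])).natDegree ≤ D := by
  rw [Polynomial.eval_eq_sum_range]
  apply natDegree_sum_le_of_forall_le
  intro j _
  calc (p.coeff j * (τ : R[X]) ^ j).natDegree
      ≤ (p.coeff j).natDegree + ((τ : R[X]) ^ j).natDegree := natDegree_mul_le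
    _ ≤ D + j * (τ : R[X]).natDegree := add_le_add (hD j) natDegree_pow_le
    _ = D := by simp

/-! ### interpolation at `0, 1, ..., B` -/

theorem charZero_of_units {R : Type} [CommRing R] [IsDomain R]
    (hQ : ∀ n : ℕ, n ≠ 0 → IsUnit (n : R)) : CharZero R := by
  apply charZero_of_inj_zero
  intro n hn
  by_contra h0
  have := hQ n h0
  rw [hn] at this
  exact not_isUnit_zero this

theorem isUnit_sub {R : Type} [CommRing R] (hQ : ∀ n : ℕ, n ≠ 0 → IsUnit (n : R)) {a b : ℕ}
    (h : a ≠ b) : IsUnit ((a : R) - (b : R)) := by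
  rcases lt_or_gt_of_ne h with h1 | h1
  · have h2 : (a : R) - (b : R) = -((b - a : ℕ) : R) := by
      rw [Nat.cast_sub h1.le]
      ring
    rw [h2]
    exact (hQ _ (by omega)).neg
  · have h2 : (a : R) - (b : R) = ((a - b : ℕ) : R) := by
      rw [Nat.cast_sub h1.le]
    rw [h2]
    exact hQ _ (by omega)

theorem exists_lagrange {R : Type} [CommRing R] [IsDomain R]
    (hQ : ∀ n : ℕ, n ≠ 0 → IsUnit (n : R)) (B : ℕ) :
    ∃ l : ℕ → R[X], ∀ x : R[X], x.natDegree ≤ B →
      x = ∑ c ∈ Finset.range (B + 1), C (x.eval (c : R)) * l c := by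
  classical
  have := charZero_of_units hQ
  have hu : ∀ c : ℕ, ∃ u : R, u * ∏ j ∈ (Finset.range (B + 1)).erase c, ((c : R) - (j : R)) = 1 := by
    intro c
    have h1 : IsUnit (∏ j ∈ (Finset.range (B + 1)).erase c, ((c : R) - (j : R))) := by
      apply IsUnit.prod_iff.mpr
      intro j hj
      exact isUnit_sub hQ (Finset.ne_of_mem_erase hj).symm
    obtain ⟨v, hv⟩ := h1
    exact ⟨(v⁻¹ : Rˣ), by rw [← hv]; exact Units.inv_mul v⟩
  choose u hu using hu
  have hl : ∀ c ∈ Finset.range (B + 1), ∀ j ∈ Finset.range (B + 1),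
      (C (u c) * ∏ i ∈ (Finset.range (B + 1)).erase c, (X - C (i : R))).eval (j : R) =
        if j = c then 1 else 0 := by
    intro c hc j hj
    rw [eval_mul, eval_C, eval_prod]
    simp only [eval_sub, eval_X, eval_C]
    split_ifs with h
    · rw [h]
      exact hu c
    · rw [Finset.prod_eq_zero (i := j), mul_zero]
      · exact Finset.mem_erase.mpr ⟨h, hj⟩
      · exact sub_self _
  refine ⟨fun c => C (u c) * ∏ i ∈ (Finset.range (B + 1)).erase c, (X - C (i : R)), ?_⟩
  intro x hx
  rw [← sub_eq_zero]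
  set y := x - ∑ c ∈ Finset.range (B + 1), C (x.eval (c : R)) *
    (C (u c) * ∏ i ∈ (Finset.range (B + 1)).erase c, (X - C (i : R))) with hy
  have hdeg : y.natDegree ≤ B := by
    apply le_trans (natDegree_sub_le _ _)
    apply max_le hx
    apply natDegree_sum_le_of_forall_le
    intro c hc
    refine le_trans (natDegree_C_mul_le _ _) (le_trans (natDegree_C_mul_le _ _) ?_)
    refine le_trans (natDegree_prod_le _ _) ?_
    refine le_trans (Finset.sum_le_card_nsmul _ _ 1 ?_) ?_
    · intro i _
      exact natDegree_X_sub_C_le _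
    · rw [Finset.card_erase_of_mem hc, Finset.card_range]
      simp
  refine Polynomial.eq_zero_of_natDegree_lt_card_of_eval_eq_zero' y
    ((Finset.range (B + 1)).image (Nat.cast : ℕ → R)) ?_ ?_
  · intro z hz
    obtain ⟨j, hj, rfl⟩ := Finset.mem_image.mp hz
    rw [hy, eval_sub, eval_finsetSum]
    have h1 : ∀ c ∈ Finset.range (B + 1), (C (x.eval (c : R)) * (C (u c) *
        ∏ i ∈ (Finset.range (B + 1)).erase c, (X - C (i : R)))).eval (j : R) =
        if j = c then x.eval (c : R) else 0 := by
      intro c hc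
      rw [eval_mul, hl c hc j hj, eval_C]
      split_ifs <;> simp
    rw [Finset.sum_congr rfl h1, Finset.sum_ite_eq, if_pos hj, sub_self]
  · rw [Finset.card_image_of_injective _ Nat.cast_injective, Finset.card_range]
    omega

/-- only finitely many natural numbers are roots -/
theorem finite_nat_roots {A : Type} [CommRing A] [IsDomain A] [CharZero A] (p : A[X])
    (hp : p ≠ 0) : {τ : ℕ | p.eval (τ : A) = 0}.Finite := by
  have h1 : {τ : ℕ | p.eval (τ : A) = 0} = (Nat.cast : ℕ → A) ⁻¹' (p.rootSet A) := by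
    ext τ
    rw [Set.mem_preimage, Polynomial.mem_rootSet]
    simp [hp]
  rw [h1]
  exact (p.rootSet_finite A).preimage Nat.cast_injective.injOn

theorem HasSpec.polynomial {R : Type} [CommRing R] [IsDomain R]
    (hQ : ∀ n : ℕ, n ≠ 0 → IsUnit (n : R)) (h : HasSpec R) : HasSpec R[X] := by
  classical
  have := charZero_of_units hQ
  intro P hP
  obtain ⟨D, hD⟩ := exists_natDegree_bound P
  obtain ⟨l, hl⟩ := exists_lagrange hQ D
  choose Z hZ h1 using fun c : ℕ => h (P.map (mapRingHom (evalRingHom (c : R)))) (hP.map _)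
  set S : Finset (Fin (D + 1) → R[X]) := Fintype.piFinset (fun c : Fin (D + 1) =>
    (P.map (mapRingHom (evalRingHom ((c : ℕ) : R)))).roots.toFinset) with hS
  set ρ : (Fin (D + 1) → R[X]) → R[X][X] := fun f =>
    ∑ c : Fin (D + 1), (f c).map (C : R →+* R[X]) * C (l c) with hρ
  set Zf : (Fin (D + 1) → R[X]) → Set ℕ := fun f =>
    {τ : ℕ | ¬ P.IsRoot (ρ f) ∧ (P.eval (ρ f)).eval (τ : R[X]) = 0} with hZf
  refine ⟨(⋃ c ∈ Finset.range (D + 1), Z c) ∪ ⋃ f ∈ S, Zf f, ?_, ?_⟩
  · apply DZ.union
    · exact DZ.biUnion _ _ (fun c _ => hZ c)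
    · apply DZ.biUnion
      intro f _
      apply DZ.of_finite
      by_cases hf : P.IsRoot (ρ f)
      · have : Zf f = ∅ := by
          ext τ
          constructor
          · intro hτ
            exact absurd hf hτ.1
          · intro hτ
            exact absurd hτ (Set.notMem_empty τ)
        rw [this]
        exact Set.finite_empty
      · exact (finite_nat_roots _ hf).subset (fun τ hτ => hτ.2)
  · intro τ hτ x hx
    simp only [Set.mem_union, Set.mem_iUnion, not_or, not_exists, exists_prop, not_and] at hτ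
    obtain ⟨hτ1, hτ2⟩ := hτ
    have hxd : x.natDegree ≤ D := by
      refine natDegree_root_le _ (hP.map _) D (fun i => ?_) x hx
      rw [coeff_map]
      exact natDegree_eval_natCast_le _ D (hD i) τ
    have h2 : ∀ c : Fin (D + 1), ∃ r : R[X],
        (P.map (mapRingHom (evalRingHom ((c : ℕ) : R)))).IsRoot r ∧
          r.eval (τ : R) = x.eval ((c : ℕ) : R) := by
      intro c
      refine h1 c τ (hτ1 c (Finset.mem_range.mpr c.2)) _ ?_
      have hcomm : (evalRingHom ((τ : ℕ) : R)).comp (mapRingHom (evalRingHom ((c : ℕ) : R))) =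
          (evalRingHom ((c : ℕ) : R)).comp (evalRingHom ((τ : ℕ) : R[X])) := by
        apply Polynomial.ringHom_ext
        · intro a; simp
        · simp
      rw [Polynomial.map_map, hcomm, ← Polynomial.map_map]
      exact hx.map (f := evalRingHom ((c : ℕ) : R))
    choose f hf1 hf2 using h2
    have hfS : f ∈ S := by
      rw [hS, Fintype.mem_piFinset]
      intro c
      rw [Multiset.mem_toFinset, mem_roots (hP.map _).ne_zero]
      exact hf1 c
    have hρτ : (ρ f).eval (τ : R[X]) = x := by
      rw [hρ]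
      simp only [eval_finsetSum, eval_mul, eval_C, eval_natCast_map]
      conv_rhs => rw [hl x hxd, Finset.sum_range]
      refine Finset.sum_congr rfl (fun c _ => ?_)
      rw [hf2 c]
    have h3 : (P.eval (ρ f)).eval (τ : R[X]) = 0 := by
      have h4 := Polynomial.eval_map_apply (f := evalRingHom ((τ : ℕ) : R[X])) (p := P) (ρ f)
      rw [coe_evalRingHom] at h4
      rw [← h4, hρτ]
      exact hx
    refine ⟨ρ f, ?_, hρτ⟩
    by_contra hcon
    exact hτ2 f hfS ⟨hcon, h3⟩

theorem isUnit_natCast_mvPolynomial {k : Type} [Field k] [CharZero k] (n m : ℕ) (hm : m ≠ 0) :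
    IsUnit ((m : ℕ) : MvPolynomial (Fin n) k) := by
  have h1 : ((m : ℕ) : MvPolynomial (Fin n) k) = MvPolynomial.C ((m : ℕ) : k) := by simp
  rw [h1]
  exact (IsUnit.mk0 _ (Nat.cast_ne_zero.mpr hm)).map MvPolynomial.C

theorem HasSpec.mvPolynomial {k : Type} [Field k] [CharZero k] (h : HasSpec k) (n : ℕ) :
    HasSpec (MvPolynomial (Fin n) k) := by
  induction n with
  | zero => exact HasSpec.of_equiv (MvPolynomial.isEmptyRingEquiv k (Fin 0)).symm h
  | succ n ih =>
    exact HasSpec.of_equiv (MvPolynomial.finSuccEquiv k n).symm.toRingEquiv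
      (HasSpec.polynomial (isUnit_natCast_mvPolynomial n) ih)

/-- Hilbert irreducibility theorem, in the form used here: finitely many monic polynomials
without roots in `k[t_1, ..., t_n]` have a common specialization without roots in `k`. -/
theorem HasSpec.exists_point {k : Type} [Field k] [CharZero k] (h : HasSpec k) (n : ℕ)
    {ι : Type} [Finite ι] (P : ι → (MvPolynomial (Fin n) k)[X]) (hP : ∀ i, (P i).Monic)
    (hroot : ∀ i, ∀ r, ¬ (P i).IsRoot r) (g : MvPolynomial (Fin n) k) (hg : g ≠ 0) :
    ∃ τ : Fin n → k, MvPolynomial.eval τ g ≠ 0 ∧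
      ∀ i, ∀ x : k, ¬ ((P i).map (MvPolynomial.eval τ)).IsRoot x := by
  induction n with
  | zero =>
    have hinj : Function.Injective (MvPolynomial.eval (fun i : Fin 0 => i.elim0 : Fin 0 → k)) := by
      intro a b hab
      apply (MvPolynomial.isEmptyRingEquiv k (Fin 0)).injective
      rw [MvPolynomial.eq_C_of_isEmpty a, MvPolynomial.eq_C_of_isEmpty b,
        MvPolynomial.eval_C, MvPolynomial.eval_C] at hab
      rw [MvPolynomial.eq_C_of_isEmpty a, MvPolynomial.eq_C_of_isEmpty b, hab]
    refine ⟨fun i => i.elim0, ?_, ?_⟩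
    · intro h0
      exact hg (hinj (by rw [h0, map_zero]))
    · intro i x hx
      refine hroot i (MvPolynomial.C x) ?_
      have h2 : Polynomial.eval x ((P i).map (MvPolynomial.eval
          (fun i : Fin 0 => i.elim0 : Fin 0 → k))) = 0 := hx
      have h3 := Polynomial.eval_map_apply
        (f := MvPolynomial.eval (fun i : Fin 0 => i.elim0 : Fin 0 → k)) (p := P i)
        (MvPolynomial.C x)
      rw [MvPolynomial.eval_C, h2] at h3
      exact hinj (by rw [← h3, map_zero])
  | succ n ih =>
    have := Fintype.ofFinite ι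
    set e : MvPolynomial (Fin (n + 1)) k →+* (MvPolynomial (Fin n) k)[X] :=
      (MvPolynomial.finSuccEquiv k n).toRingEquiv.toRingHom with he
    have hs := HasSpec.mvPolynomial h n
    choose Z hZ h1 using fun i => hs ((P i).map e) ((hP i).map _)
    have hg' : e g ≠ 0 := by
      intro h0
      apply hg
      apply (MvPolynomial.finSuccEquiv k n).injective
      rw [map_zero]
      exact h0
    have hDZ : DZ ((⋃ i ∈ (Finset.univ : Finset ι), Z i) ∪
        {τ : ℕ | (e g).eval ((τ : ℕ) : MvPolynomial (Fin n) k) = 0}) :=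
      DZ.union (DZ.biUnion _ _ (fun i _ => hZ i)) (DZ.of_finite (finite_nat_roots _ hg'))
    obtain ⟨τ0, hτ0⟩ := DZ.exists_notMem hDZ
    simp only [Set.mem_union, Set.mem_iUnion, not_or, not_exists, Finset.mem_univ,
      exists_prop, true_and, Set.mem_ofPred_eq] at hτ0
    obtain ⟨hτ1, hτ2⟩ := hτ0
    have hroot' : ∀ i, ∀ r, ¬ (((P i).map e).map
        (evalRingHom ((τ0 : ℕ) : MvPolynomial (Fin n) k))).IsRoot r := by
      intro i r hr
      obtain ⟨s, hs1, -⟩ := h1 i τ0 (hτ1 i) r hr
      refine hroot i ((MvPolynomial.finSuccEquiv k n).symm s) ?_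
      have h2 := Polynomial.eval_map_apply (f := e) (p := P i)
        ((MvPolynomial.finSuccEquiv k n).symm s)
      have h3 : e ((MvPolynomial.finSuccEquiv k n).symm s) = s :=
        (MvPolynomial.finSuccEquiv k n).apply_symm_apply s
      rw [h3] at h2
      have h4 : ((P i).map e).eval s = 0 := hs1
      rw [h4] at h2
      apply (MvPolynomial.finSuccEquiv k n).injective
      rw [map_zero]
      exact h2.symm
    obtain ⟨τ', h5, h6⟩ := ih (fun i => ((P i).map e).map
      (evalRingHom ((τ0 : ℕ) : MvPolynomial (Fin n) k))) (fun i => ((hP i).map _).map _)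
      hroot' _ hτ2
    have hev : MvPolynomial.eval (Fin.cons ((τ0 : ℕ) : k) τ' : Fin (n + 1) → k) =
        ((MvPolynomial.eval τ').comp (evalRingHom ((τ0 : ℕ) : MvPolynomial (Fin n) k))).comp e := by
      apply RingHom.ext
      intro p
      rw [MvPolynomial.eval_eq_eval_mv_eval']
      rw [RingHom.comp_apply, RingHom.comp_apply, coe_evalRingHom]
      have h7 := Polynomial.eval_natCast_map (MvPolynomial.eval τ') (e p) τ0
      rw [← h7]
      rfl
    refine ⟨Fin.cons ((τ0 : ℕ) : k) τ', ?_, ?_⟩
    · rw [hev]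
      exact h5
    · intro i x hx
      refine h6 i x ?_
      rw [hev, ← Polynomial.map_map, ← Polynomial.map_map] at hx
      exact hx

end Pool.Agent.LibHP
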