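import Pool.Agent.LibHP.H7
import Pool.Agent.LibHP.H8

set_option autoImplicit false
open Polynomial

namespace Pool.Agent.LibHP

/-- An algebra map into the rational function field factors through the localization at one
polynomial. -/
theorem H9_factor (k : Type) [Field k] (n : ℕ) (A : Type) [CommRing A]
    [Algebra k A] [Algebra.FiniteType k A]
    (F : A →ₐ[k] FractionRing (MvPolynomial (Fin n) k)) :
    ∃ g : MvPolynomial (Fin n) k, g ≠ 0 ∧ ∃ (G : A →ₐ[k] Localization.Away g)
      (j : Localization.Away g →ₐ[k] FractionRing (MvPolynomial (Fin n) k)),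
      (∀ p : MvPolynomial (Fin n) k, j (algebraMap _ _ p) = algebraMap _ _ p) ∧
      j.comp G = F := by
  classical
  obtain ⟨S, hS⟩ := Algebra.FiniteType.out (R := k) (A := A)
  obtain ⟨⟨g, hg⟩, hb⟩ := IsLocalization.exist_integer_multiples_of_finset
    (nonZeroDivisors (MvPolynomial (Fin n) k)) (S.image F)
  have hg0 : g ≠ 0 := nonZeroDivisors.ne_zero hg
  have hinj : Function.Injective (algebraMap (MvPolynomial (Fin n) k)
      (FractionRing (MvPolynomial (Fin n) k))) := IsFractionRing.injective _ _
  have hgF : algebraMap (MvPolynomial (Fin n) k) (FractionRing (MvPolynomial (Fin n) k)) g ≠ 0 := by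
    intro h
    exact hg0 (hinj (by rw [h, map_zero]))
  have hunit : ∀ y : Submonoid.powers g, IsUnit (IsScalarTower.toAlgHom k
      (MvPolynomial (Fin n) k) (FractionRing (MvPolynomial (Fin n) k)) y) := by
    rintro ⟨y, m, rfl⟩
    simp only [IsScalarTower.coe_toAlgHom', map_pow]
    exact (isUnit_iff_ne_zero.2 hgF).pow m
  have hle : Submonoid.powers g ≤ nonZeroDivisors (MvPolynomial (Fin n) k) :=
    powers_le_nonZeroDivisors_of_noZeroDivisors hg0
  set j : Localization.Away g →ₐ[k] FractionRing (MvPolynomial (Fin n) k) :=
    IsLocalization.liftAlgHom (M := Submonoid.powers g) hunit with hj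
  have hjalg : ∀ p : MvPolynomial (Fin n) k, j (algebraMap _ _ p) = algebraMap _ _ p := by
    intro p
    rw [hj, IsLocalization.liftAlgHom_apply, IsLocalization.lift_eq]
    rfl
  have hjinj : Function.Injective j := by
    rw [hj, IsLocalization.coe_liftAlgHom, IsLocalization.lift_injective_iff]
    intro x y
    constructor
    · intro h
      rw [IsLocalization.injective (Localization.Away g) hle h]
    · intro h
      rw [hinj h]
  have hrange : ∀ a : A, F a ∈ j.range := by
    have h1 : Algebra.adjoin k (S : Set A) ≤ (j.range).comap F := by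
      apply Algebra.adjoin_le
      intro s hs
      obtain ⟨p, hp⟩ := hb (F s) (Finset.mem_image_of_mem _ hs)
      show F s ∈ j.range
      refine ⟨IsLocalization.mk' (Localization.Away g) p ⟨g, Submonoid.mem_powers g⟩, ?_⟩
      have h2 := IsLocalization.mk'_spec (Localization.Away g) p
        (⟨g, Submonoid.mem_powers g⟩ : Submonoid.powers g)
      have h3 := congrArg j h2
      rw [map_mul, hjalg, hjalg] at h3
      rw [Algebra.smul_def] at hp
      have h4 : j (IsLocalization.mk' (Localization.Away g) p ⟨g, Submonoid.mem_powers g⟩) *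
          algebraMap _ _ g = F s * algebraMap _ _ g := by
        rw [mul_comm (F s)]
        exact h3.trans hp
      exact mul_right_cancel₀ hgF h4
    intro a
    have : a ∈ Algebra.adjoin k (S : Set A) := by rw [hS]; trivial
    exact h1 this
  refine ⟨g, hg0, ((AlgEquiv.ofInjective j hjinj).symm : j.range →ₐ[k] Localization.Away g).comp
    (F.codRestrict j.range hrange), j, hjalg, ?_⟩
  ext a
  simp only [AlgHom.comp_apply]
  have : AlgEquiv.ofInjective j hjinj ((AlgEquiv.ofInjective j hjinj).symm
      (F.codRestrict j.range hrange a)) = F.codRestrict j.range hrange a :=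
    AlgEquiv.apply_symm_apply _ _
  have h2 := congrArg Subtype.val this
  exact h2

/-- A finitely generated algebra `A` over a number field `k` with a map to a rational function
field: finitely many monic polynomials over `A` without roots in the rational function field
have a common specialization at a `k`-point of `A` without roots in `k`. -/
theorem exists_point_of_hom (k : Type) [Field k] [NumberField k] (n : ℕ) (A : Type) [CommRing A]
    [Algebra k A] [Algebra.FiniteType k A]
    (F : A →ₐ[k] FractionRing (MvPolynomial (Fin n) k)) {ι : Type} [Finite ι]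
    (P : ι → A[X]) (hP : ∀ i, (P i).Monic)
    (hroot : ∀ i, ∀ r, ¬ ((P i).map (F : A →+* FractionRing (MvPolynomial (Fin n) k))).IsRoot r) :
    ∃ φ : A →ₐ[k] k, ∀ i, ∀ x : k, ¬ ((P i).map (φ : A →+* k)).IsRoot x := by
  obtain ⟨g, hg0, G, j, hj, rfl⟩ := H9_factor k n A F
  have hinj : Function.Injective (algebraMap (MvPolynomial (Fin n) k)
      (FractionRing (MvPolynomial (Fin n) k))) := IsFractionRing.injective _ _
  -- clear denominators
  have h1 : ∀ i, ∃ (b : MvPolynomial (Fin n) k) (Q : (MvPolynomial (Fin n) k)[X]),
      b ∈ Submonoid.powers g ∧ Q.Monic ∧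
      Q.map (algebraMap (MvPolynomial (Fin n) k) (Localization.Away g)) =
        ((P i).map (G : A →+* Localization.Away g)).scaleRoots (algebraMap _ _ b) := by
    intro i
    have hm : ((P i).map (G : A →+* Localization.Away g)).Monic := (hP i).map _
    have h := IsLocalization.scaleRoots_commonDenom_mem_lifts (Submonoid.powers g)
      ((P i).map (G : A →+* Localization.Away g)) (by rw [hm.leadingCoeff]; exact one_mem _)
    obtain ⟨Q, hQ, _, hQm⟩ := Polynomial.lifts_and_natDegree_eq_and_monic h
      ((monic_scaleRoots_iff _).2 hm)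
    exact ⟨_, Q, (IsLocalization.commonDenom (Submonoid.powers g) _ _).2, hQm, hQ⟩
  choose b Q hb hQm hQ using h1
  obtain ⟨τ, hτ, h2⟩ := (hasSpec_numberField k).exists_point n Q hQm (by
    intro i r hr
    have hb0 : algebraMap (MvPolynomial (Fin n) k) (FractionRing (MvPolynomial (Fin n) k)) (b i) ≠ 0 := by
      intro h
      have h0 : b i = 0 := hinj (by rw [h, map_zero])
      obtain ⟨m, hm⟩ := hb i
      exact pow_ne_zero m hg0 (hm.trans h0)
    apply hroot i (algebraMap _ _ r / algebraMap _ _ (b i))
    have h3 := scaleRoots_eval₂_mul (p := (P i).map (G : A →+* Localization.Away g))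
      (j : Localization.Away g →+* FractionRing (MvPolynomial (Fin n) k))
      (algebraMap _ _ r / algebraMap _ _ (b i)) (algebraMap _ _ (b i))
    have h4 : (j : Localization.Away g →+* FractionRing (MvPolynomial (Fin n) k))
        (algebraMap _ _ (b i)) = algebraMap _ _ (b i) := hj _
    have h5 : (j : Localization.Away g →+* FractionRing (MvPolynomial (Fin n) k)).comp
        (algebraMap (MvPolynomial (Fin n) k) (Localization.Away g)) =
        algebraMap (MvPolynomial (Fin n) k) (FractionRing (MvPolynomial (Fin n) k)) :=
      RingHom.ext hj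
    rw [h4, mul_div_cancel₀ _ hb0, ← hQ, eval₂_map, h5, eval₂_at_apply,
      show eval r (Q i) = 0 from hr, map_zero, eq_comm, mul_eq_zero] at h3
    have h6 := h3.resolve_left (pow_ne_zero _ hb0)
    rw [IsRoot, eval_map]
    rw [eval₂_map] at h6
    exact h6) g hg0
  have hunit : ∀ y : Submonoid.powers g, IsUnit ((MvPolynomial.aeval τ :
      MvPolynomial (Fin n) k →ₐ[k] k) y) := by
    rintro ⟨y, m, rfl⟩
    simp only [map_pow]
    exact (isUnit_iff_ne_zero.2 (by simpa [MvPolynomial.coe_aeval_eq_eval] using hτ)).pow m
  set ψ : Localization.Away g →ₐ[k] k :=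
    IsLocalization.liftAlgHom (M := Submonoid.powers g) hunit with hψ
  have hψalg : ∀ p : MvPolynomial (Fin n) k, ψ (algebraMap _ _ p) = MvPolynomial.eval τ p := by
    intro p
    rw [hψ, IsLocalization.liftAlgHom_apply, IsLocalization.lift_eq]
    simp [MvPolynomial.coe_aeval_eq_eval]
  refine ⟨ψ.comp G, fun i x hx => ?_⟩
  apply h2 i (ψ (algebraMap _ _ (b i)) * x)
  have h3 := scaleRoots_eval₂_mul (p := (P i).map (G : A →+* Localization.Away g))
    (ψ : Localization.Away g →+* k) x (algebraMap _ _ (b i))
  have h5 : (ψ : Localization.Away g →+* k).comp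
      (algebraMap (MvPolynomial (Fin n) k) (Localization.Away g)) = MvPolynomial.eval τ :=
    RingHom.ext hψalg
  have h6 : eval₂ (ψ : Localization.Away g →+* k) x
      ((P i).map (G : A →+* Localization.Away g)) = 0 := by
    rw [IsRoot, eval_map] at hx
    rw [eval₂_map]
    exact hx
  rw [h6, mul_zero, ← hQ, eval₂_map, h5] at h3
  rw [IsRoot, eval_map]
  exact h3

end Pool.Agent.LibHP
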