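import Mathlib

set_option autoImplicit false
open Polynomial

namespace Pool.Agent.LibHP

/-! ### Sets of natural numbers that are thin along the tenth powers -/

/-- `DZ Z`: the set `Z` has density zero along the tenth powers. -/
def DZ (Z : Set ℕ) : Prop :=
  ∀ ε : ℝ, 0 < ε → ∃ Q0 : ℕ, ∀ Q : ℕ, Q0 ≤ Q → ((Z ∩ Set.Iio (Q ^ 10)).ncard : ℝ) ≤ ε * (Q : ℝ) ^ 10

/-- `HasSpec R`: every root in `R` of a specialization at a natural number (outside a set of
density zero) of a monic polynomial over `R[t]` is the specialization of a root in `R[t]`. -/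
def HasSpec (R : Type) [CommRing R] : Prop :=
  ∀ P : R[X][X], P.Monic → ∃ Z : Set ℕ, DZ Z ∧ ∀ τ : ℕ, τ ∉ Z → ∀ x : R,
    (P.map (evalRingHom (τ : R))).IsRoot x → ∃ r : R[X], P.IsRoot r ∧ r.eval (τ : R) = x

/-! ### Regular rational functions and their first-order jets -/

/-- `HasJet f a b`: the rational function `f` is regular at `0` and is `a + b t` to first order. -/
def HasJet {K : Type} [Field K] (f : RatFunc K) (a b : K) : Prop :=
  ∃ p q : K[X], q.coeff 0 = 1 ∧ f * algebraMap K[X] (RatFunc K) q = algebraMap K[X] (RatFunc K) p ∧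
    p.coeff 0 = a ∧ p.coeff 1 = b + a * q.coeff 1

/-- The map on rational functions given by an embedding of the coefficient fields. -/
noncomputable def rmap {K E : Type} [Field K] [Field E] (F : K →+* E) : RatFunc K →+* RatFunc E :=
  RatFunc.mapRingHom (Polynomial.mapRingHom F)
    (nonZeroDivisors_le_comap_nonZeroDivisors_of_injective _
      (Polynomial.map_injective F F.injective))

/-- The degree over `K` of the relative algebraic closure of `K` in `E`, for an embedding of
fields `F : K →+* E`. -/
noncomputable def dF {K E : Type} [Field K] [Field E] (F : K →+* E) : ℕ :=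
  letI := F.toAlgebra
  Module.finrank K (algebraicClosure K E)

end Pool.Agent.LibHP
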