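import Pool.Agent.LibHP.Defs

set_option autoImplicit false
open Polynomial

namespace Pool.Agent.LibHP

section Jets
variable {K E : Type} [Field K] [Field E]

theorem F1a_rmap_algebraMap (F : K →+* E) (p : K[X]) :
    rmap F (algebraMap K[X] (RatFunc K) p) = algebraMap E[X] (RatFunc E) (p.map F) := by
  rw [rmap, RatFunc.coe_mapRingHom_eq_coe_map, RatFunc.map_apply]
  simp

theorem HasJet.unique {f : RatFunc K} {a b a' b' : K} (h : HasJet f a b) (h' : HasJet f a' b') :
    a = a' ∧ b = b' := by
  obtain ⟨p, q, hq, hf, hp0, hp1⟩ := h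
  obtain ⟨p', q', hq', hf', hp0', hp1'⟩ := h'
  have h1 : p * q' = p' * q := by
    apply IsFractionRing.injective K[X] (RatFunc K)
    rw [map_mul, map_mul, ← hf, ← hf']
    ring
  have h2 := congrArg (fun r => r.coeff 0) h1
  have h3 := congrArg (fun r => r.coeff 1) h1
  simp only [mul_coeff_zero, mul_coeff_one, hq, hq', hp0, hp0', hp1, hp1'] at h2 h3
  have h4 : a = a' := by simpa using h2
  subst h4
  refine ⟨rfl, ?_⟩
  linear_combination h3

theorem HasJet.C (a : K) : HasJet (RatFunc.C a) a 0 := by
  refine ⟨Polynomial.C a, 1, by simp, by simp, by simp, by simp [coeff_one]⟩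

theorem HasJet.X : HasJet (RatFunc.X : RatFunc K) 0 1 := by
  refine ⟨Polynomial.X, 1, by simp, by simp, by simp, by simp⟩

theorem HasJet.add {f g : RatFunc K} {a b a' b' : K} (h : HasJet f a b) (h' : HasJet g a' b') :
    HasJet (f + g) (a + a') (b + b') := by
  obtain ⟨p, q, hq, hf, hp0, hp1⟩ := h
  obtain ⟨p', q', hq', hf', hp0', hp1'⟩ := h'
  refine ⟨p * q' + p' * q, q * q', by simp [mul_coeff_zero, hq, hq'], ?_, ?_, ?_⟩
  · rw [map_add, map_mul, map_mul, map_mul, ← hf, ← hf']
    ring
  · simp [mul_coeff_zero, hq, hq', hp0, hp0']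
  · simp only [coeff_add, mul_coeff_one, hq, hq', hp0, hp0', hp1, hp1']
    ring

theorem HasJet.neg {f : RatFunc K} {a b : K} (h : HasJet f a b) : HasJet (-f) (-a) (-b) := by
  obtain ⟨p, q, hq, hf, hp0, hp1⟩ := h
  refine ⟨-p, q, hq, ?_, by simp [hp0], ?_⟩
  · rw [map_neg, ← hf]
    ring
  · rw [coeff_neg, hp1]
    ring

theorem HasJet.mul {f g : RatFunc K} {a b a' b' : K} (h : HasJet f a b) (h' : HasJet g a' b') :
    HasJet (f * g) (a * a') (a * b' + a' * b) := by
  obtain ⟨p, q, hq, hf, hp0, hp1⟩ := h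
  obtain ⟨p', q', hq', hf', hp0', hp1'⟩ := h'
  refine ⟨p * p', q * q', by simp [mul_coeff_zero, hq, hq'], ?_, ?_, ?_⟩
  · rw [map_mul, map_mul, ← hf, ← hf']
    ring
  · simp [mul_coeff_zero, hp0, hp0']
  · simp only [mul_coeff_one, hq, hq', hp0, hp0', hp1, hp1']
    ring

theorem HasJet.inv {f : RatFunc K} {a b : K} (h : HasJet f a b) (ha : a ≠ 0) :
    HasJet f⁻¹ a⁻¹ (-(b / a ^ 2)) := by
  obtain ⟨p, q, hq, hf, hp0, hp1⟩ := h
  have hp : p ≠ 0 := by
    rintro rfl
    exact ha (by simpa using hp0.symm)
  have hf0 : f ≠ 0 := by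
    rintro rfl
    rw [zero_mul] at hf
    exact hp ((map_eq_zero_iff _ (IsFractionRing.injective K[X] (RatFunc K))).mp hf.symm)
  refine ⟨Polynomial.C a⁻¹ * q, Polynomial.C a⁻¹ * p, ?_, ?_, ?_, ?_⟩
  · rw [mul_coeff_zero, coeff_C_zero, hp0, inv_mul_cancel₀ ha]
  · rw [map_mul, map_mul, ← hf]
    field_simp
  · rw [mul_coeff_zero, coeff_C_zero, hq, mul_one]
  · rw [coeff_C_mul, coeff_C_mul, hp1]
    field_simp
    ring

theorem HasJet.map {f : RatFunc K} {a b : K} (h : HasJet f a b) (F : K →+* E) :
    HasJet (rmap F f) (F a) (F b) := by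
  obtain ⟨p, q, hq, hf, hp0, hp1⟩ := h
  refine ⟨p.map F, q.map F, by simp [hq], ?_, by simp [hp0], by simp [hp1]⟩
  rw [← F1a_rmap_algebraMap, ← F1a_rmap_algebraMap, ← map_mul, hf]

theorem F1a_map_denom_ne (f : RatFunc K) : algebraMap K[X] (RatFunc K) f.denom ≠ 0 := by
  rw [Ne, map_eq_zero_iff _ (IsFractionRing.injective K[X] (RatFunc K))]
  exact f.denom_ne_zero

theorem F1a_mul_denom (f : RatFunc K) :
    f * algebraMap K[X] (RatFunc K) f.denom = algebraMap K[X] (RatFunc K) f.num :=
  ((div_eq_iff (F1a_map_denom_ne f)).mp f.num_div_denom).symm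

theorem F1a_of_denom {f : RatFunc K} (h : f.denom.coeff 0 ≠ 0) : ∃ a b, HasJet f a b := by
  refine ⟨_, (Polynomial.C (f.denom.coeff 0)⁻¹ * f.num).coeff 1 -
    (Polynomial.C (f.denom.coeff 0)⁻¹ * f.num).coeff 0 *
      (Polynomial.C (f.denom.coeff 0)⁻¹ * f.denom).coeff 1,
    Polynomial.C (f.denom.coeff 0)⁻¹ * f.num, Polynomial.C (f.denom.coeff 0)⁻¹ * f.denom,
    ?_, ?_, rfl, by ring⟩
  · rw [mul_coeff_zero, coeff_C_zero, inv_mul_cancel₀ h]
  · rw [map_mul, map_mul]
    rw [← F1a_mul_denom]
    ring

theorem F1a_num_ne {f : RatFunc K} (h : f.denom.coeff 0 = 0) : f.num.coeff 0 ≠ 0 := by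
  intro h0
  have h1 : Polynomial.X ∣ f.num := X_dvd_iff.mpr h0
  have h2 : Polynomial.X ∣ f.denom := X_dvd_iff.mpr h
  have h3 := f.isCoprime_num_denom.isUnit_of_dvd' h1 h2
  exact not_isUnit_X h3

/-- Regularity can be tested after extension of the coefficient field. -/
theorem HasJet.of_map {f : RatFunc K} {F : K →+* E} {a b : E} (h : HasJet (rmap F f) a b) :
    ∃ a' b' : K, HasJet f a' b' ∧ F a' = a ∧ F b' = b := by
  have h0 : f.denom.coeff 0 ≠ 0 := by
    intro h0
    have h1 := F1a_num_ne h0
    obtain ⟨p, q, hq, hf, hp0, hp1⟩ := h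
    have h2 : (f.num.map F) * q = p * (f.denom.map F) := by
      apply IsFractionRing.injective E[X] (RatFunc E)
      rw [map_mul, map_mul, ← hf, ← F1a_rmap_algebraMap, ← F1a_rmap_algebraMap]
      have h3 : rmap F (algebraMap K[X] (RatFunc K) f.num) =
          rmap F f * rmap F (algebraMap K[X] (RatFunc K) f.denom) := by
        rw [← map_mul]
        rw [F1a_mul_denom]
      rw [h3]
      ring
    have h3 := congrArg (fun r => r.coeff 0) h2
    simp only [mul_coeff_zero, hq, coeff_map, h0, map_zero, mul_zero, mul_one] at h3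
    exact h1 ((map_eq_zero_iff F F.injective).mp h3)
  obtain ⟨a', b', h1⟩ := F1a_of_denom h0
  obtain ⟨h2, h3⟩ := (h1.map F).unique h
  exact ⟨a', b', h1, h2, h3⟩

/-- The subring of rational functions regular at `0`. -/
noncomputable def regRing (K : Type) [Field K] : Subring (RatFunc K) where
  carrier := {f | ∃ a b, HasJet f a b}
  zero_mem' := ⟨0, 0, by simpa using HasJet.C (0 : K)⟩
  one_mem' := ⟨1, 0, by simpa using HasJet.C (1 : K)⟩
  add_mem' := fun ⟨_, _, h⟩ ⟨_, _, h'⟩ => ⟨_, _, h.add h'⟩
  mul_mem' := fun ⟨_, _, h⟩ ⟨_, _, h'⟩ => ⟨_, _, h.mul h'⟩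
  neg_mem' := fun ⟨_, _, h⟩ => ⟨_, _, h.neg⟩

/-- The valuation ring of regular functions. -/
noncomputable def F1a_V (K : Type) [Field K] : ValuationSubring (RatFunc K) where
  toSubring := regRing K
  mem_or_inv_mem' := by
    intro f
    by_cases h : f.denom.coeff 0 = 0
    · right
      have h1 := F1a_num_ne h
      have h3 : f ≠ 0 := by
        rintro rfl
        exact h1 (by simp)
      have h4 : f⁻¹ * algebraMap K[X] (RatFunc K) f.num =
          algebraMap K[X] (RatFunc K) f.denom := by
        rw [← F1a_mul_denom, inv_mul_cancel_left₀ h3]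
      refine ⟨_, (Polynomial.C (f.num.coeff 0)⁻¹ * f.denom).coeff 1 -
        (Polynomial.C (f.num.coeff 0)⁻¹ * f.denom).coeff 0 *
          (Polynomial.C (f.num.coeff 0)⁻¹ * f.num).coeff 1,
        Polynomial.C (f.num.coeff 0)⁻¹ * f.denom, Polynomial.C (f.num.coeff 0)⁻¹ * f.num,
        ?_, ?_, rfl, by ring⟩
      · rw [mul_coeff_zero, coeff_C_zero, inv_mul_cancel₀ h1]
      · rw [map_mul, map_mul, ← h4]
        ring
    · left
      exact F1a_of_denom h

/-- The regular functions are integrally closed: a rational function satisfying a monic equation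
with regular coefficients is regular. -/
theorem exists_hasJet_of_isIntegral (f : RatFunc K) (hf : IsIntegral (regRing K) f) :
    ∃ a b, HasJet f a b := by
  have hf' : IsIntegral (F1a_V K) f := hf
  obtain ⟨y, hy⟩ := (IsIntegrallyClosed.isIntegral_iff (R := F1a_V K)).mp hf'
  rw [← hy]
  exact y.2

/-- The derivation of `K` defined by a spray on the function field `K`. -/
theorem exists_derivation (s : K →+* RatFunc K) (hs : ∀ a, ∃ b, HasJet (s a) a b) :
    ∃ D : Derivation ℤ K K, ∀ a, HasJet (s a) a (D a) := by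
  choose D hD using hs
  have hadd : ∀ a b, D (a + b) = D a + D b := by
    intro a b
    have h1 := hD (a + b)
    rw [map_add] at h1
    exact (h1.unique ((hD a).add (hD b))).2
  have hmul : ∀ a b, D (a * b) = a * D b + b * D a := by
    intro a b
    have h1 := hD (a * b)
    rw [map_mul] at h1
    exact (h1.unique ((hD a).mul (hD b))).2
  refine ⟨Derivation.mk' (AddMonoidHom.mk' D hadd).toIntLinearMap ?_, ?_⟩
  · intro a b
    simpa using hmul a b
  · intro a
    exact hD a

end Jets

section ExtendCoeffs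
open IntermediateField.algebraAdjoinAdjoin

theorem rmap_algebraMap {K E : Type} [Field K] [Field E] (F : K →+* E) (p : K[X]) :
    rmap F (algebraMap K[X] (RatFunc K) p) = algebraMap E[X] (RatFunc E) (p.map F) := by
  have h1 : (nonZeroDivisors K[X]) ≤
      (nonZeroDivisors E[X]).comap (Polynomial.mapRingHom F : K[X] →+* E[X]) :=
    nonZeroDivisors_le_comap_nonZeroDivisors_of_injective _
      (Polynomial.map_injective F F.injective)
  have h := RatFunc.map_apply_div (Polynomial.mapRingHom F) h1 p 1
  rw [map_one, map_one, map_one, div_one, div_one] at h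
  rw [rmap, RatFunc.coe_mapRingHom_eq_coe_map]
  exact h

/-- A polynomial over `E` integral over `L[X]` has coefficients in `L` if `L` is algebraically
closed in `E`. -/
theorem exists_map_eq_of_isIntegral {L E : Type} [Field L] [Field E] [CharZero L] (ι : L →+* E)
    (hcl : ∀ e : E, (∃ P : L[X], P ≠ 0 ∧ P.eval₂ ι e = 0) → ∃ l, ι l = e)
    (q : E[X]) (Q : L[X][X]) (hQ : Q.Monic) (hq : Q.eval₂ (mapRingHom ι) q = 0) :
    ∃ g : L[X], g.map ι = q := by
  have key : ∀ c : L, ∃ l : L, ι l = q.eval (ι c) := by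
    intro c
    apply hcl
    refine ⟨Q.map (evalRingHom c), (hQ.map _).ne_zero, ?_⟩
    have h1 := congrArg (Polynomial.eval (ι c)) hq
    rw [← Polynomial.coe_evalRingHom, Polynomial.hom_eval₂, map_zero] at h1
    rw [Polynomial.eval₂_map]
    have h2 : (evalRingHom (ι c)).comp (mapRingHom ι) = ι.comp (evalRingHom c) := by
      ext x
      · simp
      · simp
    rw [← h2]
    simpa using h1
  choose l hl using key
  set n := q.natDegree + 1 with hn
  have hinj : Set.InjOn (fun i : ℕ => (i : L)) (Finset.range n : Set ℕ) := by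
    intro a _ b _ h
    exact Nat.cast_injective h
  have hinj' : Set.InjOn (fun i : ℕ => ι (i : L)) (Finset.range n : Set ℕ) := by
    intro a _ b _ h
    exact Nat.cast_injective (ι.injective h)
  refine ⟨Lagrange.interpolate (Finset.range n) (fun i : ℕ => (i : L)) (fun i => l (i : L)), ?_⟩
  refine Polynomial.eq_of_degrees_lt_of_eval_index_eq (Finset.range n) hinj' ?_ ?_ ?_
  · rw [Polynomial.degree_map]
    exact Lagrange.degree_interpolate_lt _ hinj
  · rw [Finset.card_range, hn]
    exact (Polynomial.degree_le_natDegree).trans_lt (by exact_mod_cast Nat.lt_succ_self _)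
  · intro i hi
    rw [Polynomial.eval_map, Polynomial.eval₂_hom,
      Lagrange.eval_interpolate_at_node _ hinj hi, hl]

/-- If `L` is algebraically closed in `E` then `L(t)` is algebraically closed in `E(t)`. -/
theorem mem_range_rmap {L E : Type} [Field L] [Field E] [CharZero L] (ι : L →+* E)
    (hcl : ∀ e : E, (∃ P : L[X], P ≠ 0 ∧ P.eval₂ ι e = 0) → ∃ l, ι l = e)
    (f : RatFunc E) (P : (RatFunc L)[X]) (hP : P ≠ 0) (hf : P.eval₂ (rmap ι) f = 0) :
    ∃ g : RatFunc L, rmap ι g = f := by
  let : Algebra (RatFunc L) (RatFunc E) := (rmap ι).toAlgebra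
  let : Algebra L[X] (RatFunc E) := ((rmap ι).comp (algebraMap L[X] (RatFunc L))).toAlgebra
  have : IsScalarTower L[X] (RatFunc L) (RatFunc E) := IsScalarTower.of_algebraMap_eq fun _ => rfl
  have halg : IsAlgebraic (RatFunc L) f := ⟨P, hP, hf⟩
  have halg' : IsAlgebraic L[X] f := (IsFractionRing.isAlgebraic_iff L[X] (RatFunc L) (RatFunc E)).mpr halg
  obtain ⟨d, hd0, hd⟩ := halg'.exists_integral_multiple
  obtain ⟨Q, hQm, hQ⟩ := hd
  have ham : ∀ p : L[X], algebraMap L[X] (RatFunc E) p = algebraMap E[X] (RatFunc E) (p.map ι) :=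
    fun p => rmap_algebraMap ι p
  have hcomp : algebraMap L[X] (RatFunc E) =
      (algebraMap E[X] (RatFunc E)).comp (mapRingHom ι) := by
    exact RingHom.ext ham
  -- `d f` is a polynomial over `E`
  have hint : IsIntegral E[X] (d • f) := by
    refine ⟨Q.map (mapRingHom ι), hQm.map _, ?_⟩
    rw [Polynomial.eval₂_map, ← hcomp]
    exact hQ
  obtain ⟨q, hq⟩ := IsIntegrallyClosed.isIntegral_iff.mp hint
  have hq2 : Q.eval₂ (mapRingHom ι) q = 0 := by
    apply IsFractionRing.injective E[X] (RatFunc E)
    rw [Polynomial.hom_eval₂, ← hcomp, hq, map_zero]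
    exact hQ
  obtain ⟨g, hg⟩ := exists_map_eq_of_isIntegral ι hcl q Q hQm hq2
  have hd1 : algebraMap L[X] (RatFunc L) d ≠ 0 := by
    rw [Ne, FaithfulSMul.algebraMap_eq_zero_iff]
    exact hd0
  refine ⟨algebraMap L[X] (RatFunc L) g / algebraMap L[X] (RatFunc L) d, ?_⟩
  rw [map_div₀, div_eq_iff (by rw [Ne, map_eq_zero]; exact hd1), rmap_algebraMap, hg, hq]
  rw [Algebra.smul_def, mul_comm]
  rfl

/-- The relative algebraic closure of a field in a finitely generated extension is finite. -/
theorem finiteDimensional_algebraicClosure (K E : Type) [Field K] [Field E] [Algebra K E]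
    [Algebra.EssFiniteType K E] : FiniteDimensional K (algebraicClosure K E) := by
  obtain ⟨s, hs⟩ : ∃ s : Finset E, IsTranscendenceBasis K ((↑) : s → E) := by
    have ⟨s, hs⟩ := IntermediateField.fg_top K E
    have : Algebra.IsAlgebraic (Algebra.adjoin K (s : Set E)) E := by
      rw [← IntermediateField.isAlgebraic_adjoin_iff_top, hs, Algebra.isAlgebraic_iff_isIntegral]
      refine Algebra.isIntegral_of_surjective IntermediateField.topEquiv.surjective
    have ⟨t, hts, ht⟩ := exists_isTranscendenceBasis_subset (R := K) (s : Set E)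
    lift t to Finset E using s.finite_toSet.subset hts
    exact ⟨t, ht⟩
  set F := IntermediateField.adjoin K (s : Set E) with hF
  have hrs : Set.range ((↑) : s → E) = (s : Set E) := Subtype.range_coe
  have : Algebra.IsAlgebraic F E := by
    have := hs.isAlgebraic_field
    rw [hrs] at this
    exact this
  have : Algebra.EssFiniteType F E := .of_comp K F E
  have : Module.Finite F E := Algebra.finite_of_essFiniteType_of_isAlgebraic
  have hind := hs.1.algebraicClosure
  have hle : Module.rank K (algebraicClosure K E) ≤ Module.finrank F E := by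
    refine rank_le (fun b hb => ?_)
    -- linear independence over `F`
    have h1 : LinearIndependent (Algebra.adjoin K (s : Set E))
        (fun i : b => ((i : algebraicClosure K E) : E)) := by
      rw [Fintype.linearIndependent_iff]
      intro g hg
      have hrange : ∀ i, ∃ p : MvPolynomial s K, MvPolynomial.aeval ((↑) : s → E) p = (g i : E) := by
        intro i
        have h := (g i).2
        have e : Algebra.adjoin K (s : Set E) =
            (MvPolynomial.aeval ((↑) : s → E) : MvPolynomial s K →ₐ[K] E).range := by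
          rw [← Algebra.adjoin_range_eq_range_aeval, hrs]
        exact (SetLike.ext_iff.mp e _).mp h
      choose p hp using hrange
      have h2 : MvPolynomial.aeval (R := algebraicClosure K E) ((↑) : s → E)
          (∑ i : b, MvPolynomial.C (i : algebraicClosure K E) *
            MvPolynomial.map (algebraMap K (algebraicClosure K E)) (p i)) = 0 := by
        rw [map_sum, ← hg]
        refine Finset.sum_congr rfl fun i _ => ?_
        rw [map_mul, MvPolynomial.algHom_C, MvPolynomial.aeval_map_algebraMap, hp]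
        rw [Algebra.smul_def, mul_comm]
        rfl
      have h3 := (injective_iff_map_eq_zero _).mp hind _ h2
      intro i
      have h4 : p i = 0 := by
        ext m
        have h5 := congrArg (MvPolynomial.coeff m) h3
        rw [MvPolynomial.coeff_sum] at h5
        simp only [MvPolynomial.coeff_C_mul, MvPolynomial.coeff_map, MvPolynomial.coeff_zero] at h5
        have h6 := Fintype.linearIndependent_iff.mp hb (fun i => MvPolynomial.coeff m (p i)) (by
          rw [← h5]
          refine Finset.sum_congr rfl fun i _ => ?_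
          rw [Algebra.smul_def, mul_comm])
        rw [h6 i, MvPolynomial.coeff_zero]
      apply Subtype.ext
      rw [← hp i, h4, map_zero]
      rfl
    have h2 : LinearIndependent F (fun i : b => ((i : algebraicClosure K E) : E)) :=
      (LinearIndependent.iff_fractionRing (Algebra.adjoin K (s : Set E)) F).mp h1
    have := h2.fintype_card_le_finrank
    simpa using this
  exact Module.rank_lt_aleph0_iff.mp (hle.trans_lt (Cardinal.natCast_lt_aleph0))

end ExtendCoeffs

end Pool.Agent.LibHP
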