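import Pool.Agent.LibHP.Defs

set_option autoImplicit false
open Polynomial

namespace Pool.Agent.LibHP

theorem DZ.mono {Z Z' : Set ℕ} (h : DZ Z') (hs : Z ⊆ Z') : DZ Z := by
  intro ε hε
  obtain ⟨Q0, h0⟩ := h ε hε
  refine ⟨Q0, fun Q hQ => le_trans ?_ (h0 Q hQ)⟩
  have hfin : (Z' ∩ Set.Iio (Q ^ 10)).Finite := (Set.finite_Iio _).subset Set.inter_subset_right
  exact_mod_cast Set.ncard_le_ncard (Set.inter_subset_inter_left _ hs) hfin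

theorem DZ.union {Z Z' : Set ℕ} (h : DZ Z) (h' : DZ Z') : DZ (Z ∪ Z') := by
  intro ε hε
  obtain ⟨Q0, h0⟩ := h (ε / 2) (by positivity)
  obtain ⟨Q1, h1⟩ := h' (ε / 2) (by positivity)
  refine ⟨max Q0 Q1, fun Q hQ => ?_⟩
  have a0 := h0 Q (le_trans (le_max_left _ _) hQ)
  have a1 := h1 Q (le_trans (le_max_right _ _) hQ)
  have hu : ((Z ∪ Z') ∩ Set.Iio (Q ^ 10)).ncard ≤
      (Z ∩ Set.Iio (Q ^ 10)).ncard + (Z' ∩ Set.Iio (Q ^ 10)).ncard := by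
    rw [Set.union_inter_distrib_right]
    exact Set.ncard_union_le _ _
  have hu' : (((Z ∪ Z') ∩ Set.Iio (Q ^ 10)).ncard : ℝ) ≤
      ((Z ∩ Set.Iio (Q ^ 10)).ncard : ℝ) + ((Z' ∩ Set.Iio (Q ^ 10)).ncard : ℝ) := by
    exact_mod_cast hu
  linarith

theorem DZ.of_card_le {Z : Set ℕ} (C Q0 : ℕ)
    (h : ∀ Q : ℕ, Q0 ≤ Q → (Z ∩ Set.Iio (Q ^ 10)).ncard ≤ C * Q ^ 9) : DZ Z := by
  intro ε hε
  obtain ⟨N, hN⟩ := exists_nat_ge ((C : ℝ) / ε)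
  refine ⟨max Q0 N, fun Q hQ => ?_⟩
  have h1 := h Q (le_trans (le_max_left _ _) hQ)
  have h2 : (N : ℝ) ≤ (Q : ℝ) := by exact_mod_cast le_trans (le_max_right _ _) hQ
  have h3 : (C : ℝ) ≤ ε * Q := by
    have : (C : ℝ) / ε ≤ Q := le_trans hN h2
    rw [div_le_iff₀ hε] at this
    linarith
  have h4 : ((Z ∩ Set.Iio (Q ^ 10)).ncard : ℝ) ≤ (C : ℝ) * (Q : ℝ) ^ 9 := by exact_mod_cast h1
  calc ((Z ∩ Set.Iio (Q ^ 10)).ncard : ℝ) ≤ (C : ℝ) * (Q : ℝ) ^ 9 := h4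
    _ ≤ (ε * Q) * (Q : ℝ) ^ 9 := by gcongr
    _ = ε * (Q : ℝ) ^ 10 := by ring

theorem DZ.of_finite {Z : Set ℕ} (h : Z.Finite) : DZ Z := by
  refine DZ.of_card_le Z.ncard 1 (fun Q hQ => ?_)
  calc (Z ∩ Set.Iio (Q ^ 10)).ncard ≤ Z.ncard := Set.ncard_le_ncard Set.inter_subset_left h
    _ = Z.ncard * 1 := (mul_one _).symm
    _ ≤ Z.ncard * Q ^ 9 := Nat.mul_le_mul_left _ (Nat.one_le_pow _ _ hQ)

theorem DZ.biUnion {ι : Type} (s : Finset ι) (Z : ι → Set ℕ) (h : ∀ i ∈ s, DZ (Z i)) :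
    DZ (⋃ i ∈ s, Z i) := by
  classical
  induction s using Finset.induction_on with
  | empty => simpa using DZ.of_finite Set.finite_empty
  | insert a s ha ih =>
    rw [Finset.set_biUnion_insert]
    exact DZ.union (h a (Finset.mem_insert_self a s))
      (ih (fun i hi => h i (Finset.mem_insert_of_mem hi)))

theorem DZ.exists_notMem {Z : Set ℕ} (h : DZ Z) : ∃ τ : ℕ, τ ∉ Z := by
  by_contra hcon
  push Not at hcon
  obtain ⟨Q0, h0⟩ := h (1 / 2) (by norm_num)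
  have h1 := h0 (Q0 + 1) (by omega)
  have hZ : Z ∩ Set.Iio ((Q0 + 1) ^ 10) = Set.Iio ((Q0 + 1) ^ 10) :=
    Set.inter_eq_right.mpr (fun x _ => hcon x)
  have hc : (Set.Iio ((Q0 + 1) ^ 10) : Set ℕ).ncard = (Q0 + 1) ^ 10 := by
    rw [Set.ncard_eq_toFinset_card']
    simp
  rw [hZ, hc] at h1
  have h2 : (0 : ℝ) < ((Q0 + 1 : ℕ) : ℝ) ^ 10 := by positivity
  push_cast at h1 h2
  linarith

end Pool.Agent.LibHP
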