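import Mathlib

set_option autoImplicit false
open Polynomial

namespace Pool.Agent.LibHP

/-- Values of a bivariate polynomial at congruent points are congruent. -/
theorem evalEval_congr {O : Type} [CommRing O] (p : O) (G : O[X][X]) (a h x0 y : O)
    (hh : p ∣ h) (hy : p ∣ y - x0) : p ∣ G.evalEval (a + h) y - G.evalEval a x0 := by
  have h1 : p ∣ G.evalEval (a + h) y - G.evalEval a y := by
    refine dvd_trans ?_ (sub_dvd_eval_sub (a + h) a (eval (C y) G))
    rwa [add_sub_cancel_left]
  have h2 : p ∣ G.evalEval a y - G.evalEval a x0 := by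
    rw [← map_evalRingHom_eval, ← map_evalRingHom_eval]
    exact dvd_trans hy (sub_dvd_eval_sub y x0 _)
  have h3 := dvd_add h1 h2
  rwa [sub_add_sub_cancel] at h3

/-- Hensel expansion: near an étale root modulo `p`, all roots `x` of `P(a+h, x) = 0` are given
modulo `p ^ r` by a polynomial in `h`. -/
theorem hensel_poly {O : Type} [CommRing O] (p : O) (P : O[X][X]) (a x0 e : O)
    (h0 : p ∣ P.evalEval a x0) (he : p ∣ e * (derivative P).evalEval a x0 - 1) (r : ℕ) :
    ∃ c : O[X], ∀ h x : O, p ∣ h → P.evalEval (a + h) x = 0 → p ∣ x - x0 →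
      p ^ r ∣ x - c.eval h := by
  have key : ∀ r : ℕ, ∃ c : O[X], ∀ h x : O, p ∣ h → P.evalEval (a + h) x = 0 → p ∣ x - x0 →
      p ^ (r + 1) ∣ x - c.eval h := by
    intro r
    induction r with
    | zero =>
      refine ⟨C x0, fun h x _ _ hx => ?_⟩
      simpa using hx
    | succ r ih =>
      obtain ⟨c, hc⟩ := ih
      refine ⟨c - C e * eval c (P.map (compRingHom (C a + X))), fun h x hh hP hx => ?_⟩
      have hy := hc h x hh hP hx
      have hval : (eval c (P.map (compRingHom (C a + X)))).eval h
          = (P.map (evalRingHom (a + h))).eval (c.eval h) := by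
        rw [eval_map, ← coe_evalRingHom h, hom_eval₂, coe_evalRingHom h, eval_map]
        congr 1
        ext q
        · simp
        · simp
      set y : O := c.eval h with hydef
      set Q : O[X] := P.map (evalRingHom (a + h)) with hQdef
      have hQx : Q.eval x = 0 := by rw [hQdef, map_evalRingHom_eval]; exact hP
      obtain ⟨k, hk⟩ := binomExpansion Q y (x - y)
      rw [add_sub_cancel, hQx] at hk
      have hpy : p ∣ x - y := dvd_trans (dvd_pow_self p (Nat.succ_ne_zero r)) hy
      have hyx0 : p ∣ y - x0 := by
        have := dvd_sub hx hpy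
        rwa [sub_sub_sub_cancel_left] at this
      have hder : p ∣ 1 - e * (derivative Q).eval y := by
        have h1 : (derivative Q).eval y = (derivative P).evalEval (a + h) y := by
          rw [hQdef, derivative_map, map_evalRingHom_eval]
        have h2 := evalEval_congr p (derivative P) a h x0 y hh hyx0
        rw [← h1] at h2
        have h3 := dvd_add he (dvd_mul_of_dvd_right h2 e)
        have h4 := (dvd_neg).2 h3
        convert h4 using 1
        ring
      have hfin : x - (c - C e * eval c (P.map (compRingHom (C a + X)))).eval h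
          = (x - y) * (1 - e * (derivative Q).eval y) - e * k * (x - y) ^ 2 := by
        rw [eval_sub, eval_mul, eval_C, hval]
        linear_combination (-e) * hk
      rw [hfin]
      refine dvd_sub ?_ ?_
      · rw [pow_succ]
        exact mul_dvd_mul hy hder
      · refine dvd_mul_of_dvd_right ?_ _
        rw [sq, pow_succ]
        exact mul_dvd_mul hy hpy
  cases r with
  | zero => exact ⟨0, fun h x _ _ _ => by simp⟩
  | succ r => exact key r

end Pool.Agent.LibHP
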