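import Mathlib

set_option autoImplicit false
open Polynomial

namespace Pool.Agent.LibHP

/-- The sum of a finite set of natural numbers is at least that of an initial segment. -/
theorem card_choose_le_sum (n : ℕ) : ∀ s : Finset ℕ, s.card = n → n * (n - 1) / 2 ≤ ∑ x ∈ s, x := by
  induction n with
  | zero => intro s _; simp
  | succ n ih =>
    intro s hs
    have hne : s.Nonempty := by
      rw [← Finset.card_pos, hs]; exact Nat.succ_pos n
    have hmem := s.max'_mem hne
    have hc : (s.erase (s.max' hne)).card = n := by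
      rw [Finset.card_erase_of_mem hmem, hs]; rfl
    have h1 := ih _ hc
    have h2 : n ≤ s.max' hne := by
      have hsub : s ⊆ Finset.range (s.max' hne + 1) := by
        intro x hx
        rw [Finset.mem_range]
        exact Nat.lt_succ_of_le (s.le_max' x hx)
      have := Finset.card_le_card hsub
      rw [hs, Finset.card_range] at this
      omega
    rw [← Finset.add_sum_erase s (fun x => x) hmem]
    have h3 : (n + 1) * (n + 1 - 1) / 2 = n + n * (n - 1) / 2 := by
      have := Finset.sum_range_succ (fun i => i) n
      rw [Finset.sum_range_id, Finset.sum_range_id] at this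
      omega
    omega

theorem card_choose_le_sum_injective {ι : Type} [Fintype ι] (l : ι → ℕ)
    (hl : Function.Injective l) :
    Fintype.card ι * (Fintype.card ι - 1) / 2 ≤ ∑ i, l i := by
  classical
  have h := card_choose_le_sum (Fintype.card ι) (Finset.univ.image l)
    (by rw [Finset.card_image_of_injective _ hl]; rfl)
  rwa [Finset.sum_image (fun x _ y _ hxy => hl hxy)] at h

/-- A determinant of values of polynomials at multiples of `p` is divisible by a high power of
`p`. -/
theorem det_dvd {O ι : Type} [CommRing O] [Fintype ι] [DecidableEq ι] (p : O) (f : ι → O[X])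
    (h : ι → O) (hp : ∀ i, p ∣ h i) :
    p ^ (Fintype.card ι * (Fintype.card ι - 1) / 2) ∣
      Matrix.det (Matrix.of fun i j => (f j).eval (h i)) := by
  obtain ⟨N, hN⟩ : ∃ N : ℕ, ∀ j, (f j).natDegree < N := by
    refine ⟨(∑ j, (f j).natDegree) + 1, fun j => ?_⟩
    have := Finset.single_le_sum (f := fun j => (f j).natDegree)
      (fun i _ => Nat.zero_le _) (Finset.mem_univ j)
    exact Nat.lt_succ_of_le this
  have hM : (Matrix.of fun i j => (f j).eval (h i))
      = fun i => ∑ l : Fin N, h i ^ (l : ℕ) • fun j => (f j).coeff l := by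
    funext i j
    rw [Finset.sum_apply]
    simp only [Matrix.of_apply, Pi.smul_apply, smul_eq_mul]
    rw [eval_eq_sum_range' (hN j), ← Fin.sum_univ_eq_sum_range
      (fun l => (f j).coeff l * h i ^ l) N]
    exact Finset.sum_congr rfl fun l _ => mul_comm _ _
  have hdet : Matrix.det (Matrix.of fun i j => (f j).eval (h i))
      = ∑ l : ι → Fin N, Matrix.detRowAlternating
          (fun i => h i ^ (l i : ℕ) • fun j => (f j).coeff (l i)) := by
    rw [hM]
    exact (Matrix.detRowAlternating (R := O) (n := ι)).toMultilinearMap.map_sum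
      (fun i (l : Fin N) => h i ^ (l : ℕ) • fun j => (f j).coeff l)
  rw [hdet]
  refine Finset.dvd_sum fun l _ => ?_
  have hs : Matrix.detRowAlternating (fun i => h i ^ (l i : ℕ) • fun j => (f j).coeff (l i))
      = (∏ i, h i ^ (l i : ℕ)) • Matrix.detRowAlternating
          (fun i => fun j => (f j).coeff (l i)) :=
    (Matrix.detRowAlternating (R := O) (n := ι)).toMultilinearMap.map_smul_univ
      (fun i => h i ^ (l i : ℕ)) (fun i => fun j => (f j).coeff (l i))
  rw [hs, smul_eq_mul]
  by_cases hinj : Function.Injective l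
  · refine dvd_mul_of_dvd_left ?_ _
    have hinj' : Function.Injective fun i => (l i : ℕ) := fun i j hij =>
      hinj (Fin.val_injective hij)
    refine dvd_trans (pow_dvd_pow p (card_choose_le_sum_injective _ hinj')) ?_
    rw [← Finset.prod_pow_eq_pow_sum]
    exact Finset.prod_dvd_prod_of_dvd _ _ fun i _ => pow_dvd_pow_of_dvd (hp i) _
  · rw [Function.Injective] at hinj
    push Not at hinj
    obtain ⟨i, j, hij, hne⟩ := hinj
    have : Matrix.detRowAlternating (fun i => fun j => (f j).coeff (l i)) = 0 := by
      refine (Matrix.detRowAlternating (R := O) (n := ι)).map_eq_zero_of_eq _ ?_ hne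
      rw [hij]
    rw [this, mul_zero]
    exact dvd_zero _

theorem det_dvd_of_congr {O ι : Type} [CommRing O] [Fintype ι] [DecidableEq ι] (p : O)
    (f : ι → O[X]) (h : ι → O) (hp : ∀ i, p ∣ h i) (M : Matrix ι ι O)
    (hM : ∀ i j, p ^ (Fintype.card ι * (Fintype.card ι - 1) / 2) ∣ M i j - (f j).eval (h i)) :
    p ^ (Fintype.card ι * (Fintype.card ι - 1) / 2) ∣ M.det := by
  set q : O := p ^ (Fintype.card ι * (Fintype.card ι - 1) / 2) with hq
  have h1 := det_dvd p f h hp
  rw [← hq] at h1
  rw [← Ideal.mem_span_singleton, ← Ideal.Quotient.eq_zero_iff_mem] at h1 ⊢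
  rw [← h1, RingHom.map_det, RingHom.map_det]
  congr 1
  ext i j
  simp only [RingHom.mapMatrix_apply, Matrix.map_apply, Matrix.of_apply]
  rw [Ideal.Quotient.mk_eq_mk_iff_sub_mem, Ideal.mem_span_singleton]
  exact hM i j

end Pool.Agent.LibHP
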