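import Mathlib

set_option autoImplicit false
open Polynomial NumberField

namespace Pool.Agent.LibHP

/-- Roots of `P(τ, x) = 0` are polynomially bounded at every complex place. -/
theorem root_bound (k : Type) [Field k] [NumberField k] (P : (𝓞 k)[X][X]) (hP : P.Monic) :
    ∃ (C : ℝ) (D : ℕ), 1 ≤ C ∧ 1 ≤ D ∧ ∀ (σ : k →+* ℂ) (τ : ℕ) (x : 𝓞 k),
      P.evalEval (τ : 𝓞 k) x = 0 → ‖σ (x : k)‖ ≤ C * ((τ : ℝ) + 1) ^ D := by
  classical
  set n := P.natDegree with hn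
  set D : ℕ := 1 + ∑ i ∈ Finset.range n, (P.coeff i).natDegree with hD
  set K : ℝ := ∑ σ : k →+* ℂ, ∑ i ∈ Finset.range n, ∑ j ∈ Finset.range D,
    ‖σ (((P.coeff i).coeff j : 𝓞 k) : k)‖ with hK
  have hK0 : 0 ≤ K := Finset.sum_nonneg fun _ _ => Finset.sum_nonneg fun _ _ =>
    Finset.sum_nonneg fun _ _ => norm_nonneg _
  refine ⟨K + 1, D, by linarith, by omega, ?_⟩
  intro σ τ x hx
  have hτ1 : (1 : ℝ) ≤ (τ : ℝ) + 1 := by
    have : (0 : ℝ) ≤ (τ : ℝ) := Nat.cast_nonneg _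
    linarith
  have hpow1 : (1 : ℝ) ≤ ((τ : ℝ) + 1) ^ D := one_le_pow₀ hτ1
  set f : 𝓞 k →+* ℂ := σ.comp (algebraMap (𝓞 k) k) with hf
  set q : ℂ[X] := (P.map (evalRingHom (τ : 𝓞 k))).map f with hq
  have hqm : q.Monic := (hP.map _).map _
  have hroot : q.IsRoot (f x) := by
    apply Polynomial.IsRoot.map
    rw [IsRoot.def, map_evalRingHom_eval, hx]
  have hlt := Polynomial.IsRoot.norm_lt_cauchyBound hqm.ne_zero hroot
  have hdeg : q.natDegree = n := by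
    rw [hq, (hP.map _).natDegree_map, hP.natDegree_map]
  have hcoef : ∀ i ∈ Finset.range n, ‖q.coeff i‖ ≤ K * ((τ : ℝ) + 1) ^ D := by
    intro i hi
    have h1 : q.coeff i = ∑ j ∈ Finset.range D, f ((P.coeff i).coeff j) * (τ : ℂ) ^ j := by
      rw [hq, coeff_map, coeff_map, coe_evalRingHom, eval_eq_sum_range' (n := D), map_sum]
      · simp
      · rw [hD]
        have : (P.coeff i).natDegree ≤ ∑ i ∈ Finset.range n, (P.coeff i).natDegree :=
          Finset.single_le_sum (f := fun i => (P.coeff i).natDegree) (fun _ _ => Nat.zero_le _) hi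
        omega
    rw [h1]
    calc ‖∑ j ∈ Finset.range D, f ((P.coeff i).coeff j) * (τ : ℂ) ^ j‖
        ≤ ∑ j ∈ Finset.range D, ‖f ((P.coeff i).coeff j) * (τ : ℂ) ^ j‖ := norm_sum_le _ _
      _ ≤ ∑ j ∈ Finset.range D, ‖f ((P.coeff i).coeff j)‖ * ((τ : ℝ) + 1) ^ D := by
          refine Finset.sum_le_sum fun j hj => ?_
          rw [norm_mul, norm_pow, Complex.norm_natCast]
          refine mul_le_mul_of_nonneg_left ?_ (norm_nonneg _)
          calc (τ : ℝ) ^ j ≤ ((τ : ℝ) + 1) ^ j :=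
                pow_le_pow_left₀ (Nat.cast_nonneg _) (by linarith) _
            _ ≤ ((τ : ℝ) + 1) ^ D := pow_le_pow_right₀ hτ1 (Finset.mem_range.1 hj).le
      _ = (∑ j ∈ Finset.range D, ‖f ((P.coeff i).coeff j)‖) * ((τ : ℝ) + 1) ^ D := by
          rw [Finset.sum_mul]
      _ ≤ K * ((τ : ℝ) + 1) ^ D := by
          refine mul_le_mul_of_nonneg_right ?_ (by positivity)
          calc (∑ j ∈ Finset.range D, ‖f ((P.coeff i).coeff j)‖)
              ≤ ∑ i ∈ Finset.range n, ∑ j ∈ Finset.range D,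
                  ‖σ (((P.coeff i).coeff j : 𝓞 k) : k)‖ :=
                Finset.single_le_sum (f := fun i => ∑ j ∈ Finset.range D,
                  ‖σ (((P.coeff i).coeff j : 𝓞 k) : k)‖)
                  (fun _ _ => Finset.sum_nonneg fun _ _ => norm_nonneg _) hi
            _ ≤ K := Finset.single_le_sum (f := fun σ : k →+* ℂ => ∑ i ∈ Finset.range n,
                  ∑ j ∈ Finset.range D, ‖σ (((P.coeff i).coeff j : 𝓞 k) : k)‖)
                  (fun _ _ => Finset.sum_nonneg fun _ _ => Finset.sum_nonneg fun _ _ =>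
                    norm_nonneg _) (Finset.mem_univ σ)
  have hcb : ((Polynomial.cauchyBound q : NNReal) : ℝ) ≤ K * ((τ : ℝ) + 1) ^ D + 1 := by
    rw [Polynomial.cauchyBound, hqm.leadingCoeff, hdeg]
    simp only [nnnorm_one, div_one, NNReal.coe_add, NNReal.coe_one, add_le_add_iff_right]
    have hnn : 0 ≤ K * ((τ : ℝ) + 1) ^ D := by positivity
    rw [← NNReal.coe_mk _ hnn, NNReal.coe_le_coe]
    refine Finset.sup_le fun i hi => ?_
    rw [← NNReal.coe_le_coe]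
    exact hcoef i hi
  have h2 : ‖f x‖ < ((Polynomial.cauchyBound q : NNReal) : ℝ) := by
    exact_mod_cast hlt
  have h3 : σ (x : k) = f x := rfl
  rw [h3]
  nlinarith

/-- An algebraic integer all of whose conjugates have absolute value less than one is zero. -/
theorem eq_zero_of_small (k : Type) [Field k] [NumberField k] (a : 𝓞 k)
    (h : ∀ σ : k →+* ℂ, ‖σ (a : k)‖ < 1) : a = 0 := by
  by_contra ha
  obtain ⟨w⟩ : Nonempty (InfinitePlace k) := inferInstance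
  have hz : ∀ z : InfinitePlace k, z a < 1 := fun z => by
    rw [← InfinitePlace.norm_embedding_eq]; exact h _
  have := InfinitePlace.one_le_of_lt_one (w := w) ha (fun z _ => hz z)
  exact absurd (hz w) (not_lt.2 this)

theorem sum_exp (n A D : ℕ) :
    2 * ∑ j : Fin n × Fin A, ((j.2 : ℕ) + D * (j.1 : ℕ)) =
      n * (A * (A - 1)) + D * (A * (n * (n - 1))) := by
  have h1 : ∑ j : Fin n × Fin A, ((j.2 : ℕ) + D * (j.1 : ℕ)) =
      n * (∑ a ∈ Finset.range A, a) + D * (A * ∑ b ∈ Finset.range n, b) := by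
    rw [Finset.sum_add_distrib, Fintype.sum_prod_type, Fintype.sum_prod_type]
    simp only [Finset.sum_const, Finset.card_univ, Fintype.card_fin, smul_eq_mul]
    rw [Finset.sum_range, Finset.sum_range]
    congr 1
    rw [Finset.mul_sum, Finset.mul_sum]
    refine Finset.sum_congr rfl fun b _ => by ring
  rw [h1, mul_add]
  have h2 := Finset.sum_range_id_mul_two A
  have h3 := Finset.sum_range_id_mul_two n
  rw [← h2, ← h3]; ring

/-- The determinant method: a determinant of monomials in points of small height which is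
divisible by a high power of a large `p` vanishes. -/
theorem det_eq_zero (k : Type) [Field k] [NumberField k] (C : ℝ) (hC : 1 ≤ C) (D n : ℕ)
    (hD : 1 ≤ D) (hn : 2 ≤ n) :
    ∃ A Q0 : ℕ, 1 ≤ A ∧ ∀ Q : ℕ, Q0 ≤ Q → ∀ p : ℕ, Q ^ 9 < p →
      ∀ (τ : Fin n × Fin A → ℕ) (x : Fin n × Fin A → 𝓞 k), (∀ i, τ i < Q ^ 10) →
        (∀ i (σ : k →+* ℂ), ‖σ (x i : k)‖ ≤ C * ((τ i : ℝ) + 1) ^ D) →
        (p : 𝓞 k) ^ ((n * A) * (n * A - 1) / 2) ∣
          Matrix.det (Matrix.of fun (i j : Fin n × Fin A) =>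
            (τ i : 𝓞 k) ^ (j.2 : ℕ) * x i ^ (j.1 : ℕ)) →
        Matrix.det (Matrix.of fun (i j : Fin n × Fin A) =>
            (τ i : 𝓞 k) ^ (j.2 : ℕ) * x i ^ (j.1 : ℕ)) = 0 := by
  classical
  set A : ℕ := 2 * D * n with hA
  have hA1 : 1 ≤ A := by
    rw [hA]
    have : 0 < 2 * D * n := by positivity
    omega
  set E : ℕ := ∑ j : Fin n × Fin A, ((j.2 : ℕ) + D * (j.1 : ℕ)) with hE
  set r : ℕ := (n * A) * (n * A - 1) / 2 with hr
  have h2r : 2 * r = (n * A) * (n * A - 1) := by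
    rw [hr]
    exact Nat.mul_div_cancel' (even_iff_two_dvd.1 (Nat.even_mul_pred_self _))
  have h2E : 2 * E = n * (A * (A - 1)) + D * (A * (n * (n - 1))) := sum_exp n A D
  have hkey : 10 * E + 1 ≤ 9 * r := by
    suffices h : 10 * (2 * E) + 2 ≤ 9 * (2 * r) by omega
    rw [h2r, h2E]
    obtain ⟨m, rfl⟩ : ∃ m, n = m + 2 := ⟨n - 2, by omega⟩
    obtain ⟨e, rfl⟩ : ∃ e, D = e + 1 := ⟨D - 1, by omega⟩
    obtain ⟨B, hB⟩ : ∃ B, A = B + 1 := ⟨A - 1, by omega⟩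
    have h4 : (m + 2) * A - 1 = (m + 2) * B + m + 1 := by rw [hB]; ring_nf; omega
    have h5 : A - 1 = B := by omega
    have h6 : m + 2 - 1 = m + 1 := by omega
    rw [h4, h5, h6]
    have h7 : B + 1 = 2 * (e + 1) * (m + 2) := by rw [← hB, hA]
    have h8 : (e + 1) * (m + 1) * 2 ≤ B + 1 := by
      rw [h7]; nlinarith [Nat.zero_le e, Nat.zero_le m]
    have h9 : 10 * (B + (e + 1) * (m + 1)) + 1 ≤ 9 * ((m + 2) * B + m + 1) := by
      have : 1 ≤ B := by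
        have : 4 ≤ 2 * (e + 1) * (m + 2) := by nlinarith [Nat.zero_le e, Nat.zero_le m]
        omega
      nlinarith [Nat.zero_le e, Nat.zero_le m]
    have h10 : 1 ≤ (m + 2) * A := by nlinarith
    calc 10 * ((m + 2) * (A * B) + (e + 1) * (A * ((m + 2) * (m + 1)))) + 2
        = (m + 2) * A * (10 * (B + (e + 1) * (m + 1))) + 2 := by ring
      _ ≤ (m + 2) * A * (10 * (B + (e + 1) * (m + 1))) + (m + 2) * A * 1 := by
          have : 2 ≤ (m + 2) * A := by nlinarith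
          omega
      _ = (m + 2) * A * (10 * (B + (e + 1) * (m + 1)) + 1) := by ring
      _ ≤ (m + 2) * A * (9 * ((m + 2) * B + m + 1)) := Nat.mul_le_mul_left _ h9
      _ = 9 * ((m + 2) * A * ((m + 2) * B + m + 1)) := by ring
  set K : ℝ := ((n * A).factorial : ℝ) * ∏ j : Fin n × Fin A, C ^ (j.1 : ℕ) with hK
  have hC0 : 0 < C := by linarith
  have hK0 : 0 < K := by
    rw [hK]
    exact mul_pos (by exact_mod_cast Nat.factorial_pos _)
      (Finset.prod_pos fun _ _ => pow_pos hC0 _)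
  refine ⟨A, ⌈K⌉₊ + 1, hA1, ?_⟩
  intro Q hQ p hp τ x hτ hx hdvd
  have hQK : K < Q := by
    have h1 : K ≤ ⌈K⌉₊ := Nat.le_ceil _
    have h2 : ((⌈K⌉₊ + 1 : ℕ) : ℝ) ≤ Q := by exact_mod_cast hQ
    push_cast at h2
    linarith
  have hQ1 : (1 : ℝ) ≤ Q := by
    have : 1 ≤ Q := by omega
    exact_mod_cast this
  have hQ0 : (0 : ℝ) < Q := by linarith
  obtain ⟨δ, hδ⟩ := hdvd
  rw [hδ]
  suffices h : δ = 0 by rw [h, mul_zero]
  apply eq_zero_of_small
  intro σ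
  set f : 𝓞 k →+* ℂ := σ.comp (algebraMap (𝓞 k) k) with hf
  have hfδ : σ (δ : k) = f δ := rfl
  rw [hfδ]
  -- the bound of the columns
  set b : Fin n × Fin A → ℂ := fun j =>
    (((Q : ℝ) ^ (10 * (j.2 : ℕ)) * (C * (Q : ℝ) ^ (10 * D)) ^ (j.1 : ℕ) : ℝ) : ℂ) with hb
  have hb0 : ∀ j : Fin n × Fin A, 0 < (Q : ℝ) ^ (10 * (j.2 : ℕ)) * (C * (Q : ℝ) ^ (10 * D)) ^ (j.1 : ℕ) :=
    fun j => by positivity
  have hbn : ∀ j, ‖b j‖ = (Q : ℝ) ^ (10 * (j.2 : ℕ)) * (C * (Q : ℝ) ^ (10 * D)) ^ (j.1 : ℕ) :=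
    fun j => by rw [hb]; simp only; rw [Complex.norm_real, Real.norm_eq_abs, abs_of_pos (hb0 j)]
  have hbne : ∀ j, b j ≠ 0 := fun j => by
    rw [← norm_pos_iff, hbn]; exact hb0 j
  set N : Matrix (Fin n × Fin A) (Fin n × Fin A) ℂ := Matrix.of fun i j =>
    (b j)⁻¹ * f ((τ i : 𝓞 k) ^ (j.2 : ℕ) * x i ^ (j.1 : ℕ)) with hN
  have hNle : ∀ i j, ‖N i j‖ ≤ 1 := by
    intro i j
    rw [hN, Matrix.of_apply, norm_mul, norm_inv, hbn, inv_mul_le_iff₀ (hb0 j), mul_one,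
      map_mul, map_pow, map_pow, map_natCast, norm_mul, norm_pow, norm_pow, Complex.norm_natCast]
    have hτi : (τ i : ℝ) + 1 ≤ (Q : ℝ) ^ 10 := by exact_mod_cast hτ i
    have hτ0 : (0 : ℝ) ≤ (τ i : ℝ) := Nat.cast_nonneg _
    refine mul_le_mul ?_ ?_ (by positivity) (by positivity)
    · rw [pow_mul]
      exact pow_le_pow_left₀ hτ0 (by linarith) _
    · refine pow_le_pow_left₀ (norm_nonneg _) ?_ _
      have h1 : ‖f (x i)‖ ≤ C * ((τ i : ℝ) + 1) ^ D := hx i σ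
      refine h1.trans ?_
      refine mul_le_mul_of_nonneg_left ?_ hC0.le
      rw [pow_mul]
      exact pow_le_pow_left₀ (by linarith) hτi _
  have hdetN : ‖N.det‖ ≤ ((n * A).factorial : ℝ) := by
    have := Matrix.det_le (A := N) (abv := NormedField.toAbsoluteValue ℂ) (x := 1)
      (fun i j => hNle i j)
    have h2 : ‖N.det‖ ≤ (Fintype.card (Fin n × Fin A)).factorial •
      (1 : ℝ) ^ Fintype.card (Fin n × Fin A) := this
    simpa using h2
  have hdet : f (Matrix.det (Matrix.of fun (i j : Fin n × Fin A) =>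
      (τ i : 𝓞 k) ^ (j.2 : ℕ) * x i ^ (j.1 : ℕ))) = (∏ j, b j) * N.det := by
    rw [← Matrix.det_mul_row, RingHom.map_det]
    congr 1
    ext i j
    simp only [RingHom.mapMatrix_apply, Matrix.map_apply, Matrix.of_apply, hN]
    rw [← mul_assoc, mul_inv_cancel₀ (hbne j), one_mul]
  have hprod : ‖∏ j, b j‖ = (∏ j : Fin n × Fin A, C ^ (j.1 : ℕ)) * (Q : ℝ) ^ (10 * E) := by
    rw [norm_prod, hE, Finset.mul_sum, ← Finset.prod_pow_eq_pow_sum, ← Finset.prod_mul_distrib]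
    refine Finset.prod_congr rfl fun j _ => ?_
    rw [hbn, mul_pow, ← pow_mul]
    ring
  have hnorm : (p : ℝ) ^ r * ‖f δ‖ ≤ K * (Q : ℝ) ^ (10 * E) := by
    have h1 : ‖f (Matrix.det (Matrix.of fun (i j : Fin n × Fin A) =>
      (τ i : 𝓞 k) ^ (j.2 : ℕ) * x i ^ (j.1 : ℕ)))‖ = (p : ℝ) ^ r * ‖f δ‖ := by
      rw [hδ, map_mul, map_pow, map_natCast, norm_mul, norm_pow, Complex.norm_natCast]
    rw [← h1, hdet, norm_mul, hprod, hK]
    calc (∏ j : Fin n × Fin A, C ^ (j.1 : ℕ)) * (Q : ℝ) ^ (10 * E) * ‖N.det‖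
        ≤ (∏ j : Fin n × Fin A, C ^ (j.1 : ℕ)) * (Q : ℝ) ^ (10 * E) *
            ((n * A).factorial : ℝ) := by
          refine mul_le_mul_of_nonneg_left hdetN ?_
          exact mul_nonneg (Finset.prod_nonneg fun _ _ => (pow_pos hC0 _).le) (by positivity)
      _ = _ := by ring
  have hpr : (Q : ℝ) ^ (10 * E + 1) ≤ (p : ℝ) ^ r := by
    calc (Q : ℝ) ^ (10 * E + 1) ≤ (Q : ℝ) ^ (9 * r) := pow_le_pow_right₀ hQ1 hkey
      _ = ((Q : ℝ) ^ 9) ^ r := by rw [pow_mul]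
      _ ≤ (p : ℝ) ^ r := by
          refine pow_le_pow_left₀ (by positivity) ?_ _
          exact_mod_cast hp.le
  have hQE : (0 : ℝ) < (Q : ℝ) ^ (10 * E) := by positivity
  have h1 : (Q : ℝ) ^ (10 * E) * (Q * ‖f δ‖) ≤ (Q : ℝ) ^ (10 * E) * K := by
    calc (Q : ℝ) ^ (10 * E) * (Q * ‖f δ‖) = (Q : ℝ) ^ (10 * E + 1) * ‖f δ‖ := by ring
      _ ≤ (p : ℝ) ^ r * ‖f δ‖ := mul_le_mul_of_nonneg_right hpr (norm_nonneg _)
      _ ≤ K * (Q : ℝ) ^ (10 * E) := hnorm
      _ = _ := by ring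
  have h2 : (Q : ℝ) * ‖f δ‖ ≤ K := le_of_mul_le_mul_left h1 hQE
  by_contra hcon
  have h3 : 1 ≤ ‖f δ‖ := not_lt.1 hcon
  have : (Q : ℝ) ≤ Q * ‖f δ‖ := by nlinarith
  linarith

end Pool.Agent.LibHP
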