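import Mathlib

set_option autoImplicit false
open Polynomial

namespace Pool.Agent.LibHP

/-- If all square minors of a family of vectors vanish, the vectors satisfy a linear relation. -/
theorem exists_relation {F ι S : Type} [Field F] [Fintype ι] [DecidableEq ι] (v : S → ι → F)
    (h : ∀ e : ι → S, Matrix.det (Matrix.of fun i j => v (e i) j) = 0) :
    ∃ g : ι → F, g ≠ 0 ∧ ∀ s, ∑ j, g j * v s j = 0 := by
  classical
  by_cases hW : Submodule.span F (Set.range v) = ⊤
  · exfalso
    obtain ⟨κ, a, ha, hspan, hli⟩ := exists_linearIndependent' F v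
    have hb : ⊤ ≤ Submodule.span F (Set.range (v ∘ a)) := by rw [hspan, hW]
    let b : Module.Basis κ F (ι → F) := Module.Basis.mk hli hb
    have hfin : Finite κ := b.linearIndependent.finite
    have := Fintype.ofFinite κ
    have hcard : Fintype.card κ = Fintype.card ι := by
      rw [← Module.finrank_eq_card_basis b, Module.finrank_fintype_fun_eq_card]
    let e : ι ≃ κ := Fintype.equivOfCardEq hcard.symm
    have hdet := h (fun i => a (e i))
    have hli' : LinearIndependent F (fun i => (v ∘ a) (e i)) := hli.comp e e.injective
    have hu : IsUnit (Matrix.of fun i j => v (a (e i)) j) := by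
      rw [← Matrix.linearIndependent_rows_iff_isUnit]
      exact hli'
    rw [Matrix.isUnit_iff_isUnit_det, hdet] at hu
    exact not_isUnit_zero hu
  · obtain ⟨f, hf0, hf⟩ := Submodule.exists_le_ker_of_lt_top _ (lt_top_iff_ne_top.2 hW)
    have hrep : ∀ x : ι → F, f x = ∑ j, f (Pi.single j 1) * x j := by
      intro x
      conv_lhs => rw [show x = ∑ j, x j • Pi.single j (1 : F) from by
        ext i
        simp [Finset.sum_apply, Pi.single_apply]]
      rw [map_sum]
      refine Finset.sum_congr rfl fun j _ => ?_
      rw [map_smul, smul_eq_mul, mul_comm]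
    refine ⟨fun j => f (Pi.single j 1), ?_, ?_⟩
    · intro h0
      apply hf0
      ext j
      have := congrFun h0 j
      simpa using this
    · intro s
      rw [← hrep]
      exact hf (Submodule.subset_span ⟨s, rfl⟩)

/-- The degree of a determinant of polynomials of bounded degree. -/
theorem natDegree_det_le_of_entry {F : Type} [Field F] {N M : ℕ}
    (A : Matrix (Fin N) (Fin N) F[X]) (h : ∀ i j, (A i j).natDegree ≤ M) :
    A.det.natDegree ≤ N * M := by
  classical
  rw [Matrix.det_apply]
  refine natDegree_sum_le_of_forall_le _ _ fun σ _ => ?_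
  have h1 : (∏ i, A (σ i) i).natDegree ≤ N * M := by
    refine (natDegree_prod_le _ _).trans ?_
    refine (Finset.sum_le_sum fun i _ => h (σ i) i).trans ?_
    simp
  rcases Int.units_eq_one_or (Equiv.Perm.sign σ) with hs | hs
  · rw [hs, one_smul]
    exact h1
  · rw [hs, Units.neg_smul, one_smul, natDegree_neg]
    exact h1

/-- Two plane curves, one irreducible and monic and the other of smaller degree, have at most a
bounded number of common points. -/
theorem few_points {F : Type} [Field F] (P : F[X][X]) (hP : P.Monic) (hirr : Irreducible P)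
    (A : ℕ) : ∃ C0 : ℕ, ∀ G : F[X][X], G ≠ 0 → G.natDegree < P.natDegree →
      (∀ i, (G.coeff i).natDegree < A) → ∀ T : Finset F,
        (∀ τ ∈ T, ∃ x : F, P.evalEval τ x = 0 ∧ G.evalEval τ x = 0) → T.card ≤ C0 := by
  classical
  obtain ⟨B, hB⟩ : ∃ B : ℕ, ∀ i, (P.coeff i).natDegree ≤ B := by
    refine ⟨P.support.sup fun i => (P.coeff i).natDegree, fun i => ?_⟩
    by_cases hi : i ∈ P.support
    · exact Finset.le_sup (f := fun i => (P.coeff i).natDegree) hi
    · rw [notMem_support_iff.1 hi]
      simp
  refine ⟨(P.natDegree + P.natDegree) * max A B, fun G hG0 hdeg hcoef T hT => ?_⟩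
  set r := resultant P G with hr
  have hrdeg : r.natDegree ≤ (P.natDegree + P.natDegree) * max A B := by
    refine (natDegree_det_le_of_entry (M := max A B) _ fun i j => ?_).trans
      (Nat.mul_le_mul_right _ (by omega))
    unfold sylvester
    rw [Matrix.of_apply]
    refine Fin.addCases (fun j₁ => ?_) (fun j₁ => ?_) j
    · rw [Fin.addCases_left]
      split_ifs
      · exact le_max_of_le_left (hcoef _).le
      · simp
    · rw [Fin.addCases_right]
      split_ifs
      · exact le_max_of_le_right (hB _)
      · simp
  have hr0 : r ≠ 0 := by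
    intro hr0
    have hirr' : Irreducible (P.map (algebraMap F[X] (RatFunc F))) :=
      (hP.irreducible_iff_irreducible_map_fraction_map).1 hirr
    have hinj : Function.Injective (algebraMap F[X] (RatFunc F)) := IsFractionRing.injective _ _
    have hG' : G.map (algebraMap F[X] (RatFunc F)) ≠ 0 := by
      rwa [Ne, Polynomial.map_eq_zero_iff hinj]
    have h1 : resultant (P.map (algebraMap F[X] (RatFunc F))) (G.map (algebraMap F[X] (RatFunc F)))
        = 0 := by
      rw [natDegree_map_eq_of_injective hinj, natDegree_map_eq_of_injective hinj,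
        resultant_map_map, ← hr, hr0, map_zero]
    rw [resultant_eq_zero_iff] at h1
    apply h1.2
    rw [hirr'.coprime_iff_not_dvd]
    intro hdvd
    have := natDegree_le_of_dvd hdvd hG'
    rw [natDegree_map_eq_of_injective hinj, natDegree_map_eq_of_injective hinj] at this
    omega
  have hroot : ∀ τ ∈ T, r.IsRoot τ := by
    intro τ hτ
    obtain ⟨x, hx, hx'⟩ := hT τ hτ
    obtain ⟨p, q, -, -, hpq⟩ := exists_mul_add_mul_eq_C_resultant P G le_rfl le_rfl
      (Or.inl (by omega))
    have := congrArg (fun R : F[X][X] => R.evalEval τ x) hpq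
    simp only [evalEval_add, evalEval_mul, hx, hx', zero_mul, add_zero, evalEval_C] at this
    exact this.symm
  calc T.card ≤ r.roots.toFinset.card := by
        apply Finset.card_le_card
        intro τ hτ
        rw [Multiset.mem_toFinset, mem_roots hr0]
        exact hroot τ hτ
    _ ≤ r.roots.card := Multiset.toFinset_card_le _
    _ ≤ r.natDegree := card_roots' r
    _ ≤ _ := hrdeg

end Pool.Agent.LibHP
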