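import Mathlib

set_option autoImplicit false
open Polynomial NumberField

namespace Pool.Agent.LibHP

theorem H5_primes_over (k : Type) [Field k] [NumberField k] (p : ℕ) (hp : p.Prime) :
    ∃ PP : Finset (Ideal (𝓞 k)), PP.card ≤ Module.finrank ℚ k ∧
      ∀ P : Ideal (𝓞 k), P ∈ PP ↔ P.IsMaximal ∧ (p : 𝓞 k) ∈ P := by
  classical
  have hp' : Prime (p : ℤ) := Nat.prime_iff_prime_int.1 hp
  have h0 : (Ideal.span {(p : ℤ)}) ≠ ⊥ := by
    rw [Ne, Ideal.span_singleton_eq_bot]; exact hp'.ne_zero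
  have hmax : (Ideal.span {(p : ℤ)}).IsMaximal :=
    PrincipalIdealRing.isMaximal_of_irreducible hp'.irreducible
  refine ⟨IsDedekindDomain.primesOverFinset (Ideal.span {(p : ℤ)}) (𝓞 k), ?_, ?_⟩
  · exact Ideal.card_primesOverFinset_le_finrank (𝓞 k) ℚ k h0
  · intro P
    rw [IsDedekindDomain.mem_primesOverFinset_iff h0]
    constructor
    · rintro ⟨h1, h2⟩
      have := h1
      have := h2
      have hm : (p : 𝓞 k) ∈ P := by
        have : (p : ℤ) ∈ P.under ℤ := by
          rw [← h2.over]; exact Ideal.mem_span_singleton_self _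
        rw [Ideal.under_def, Ideal.mem_comap] at this
        simpa using this
      refine ⟨?_, hm⟩
      refine h1.isMaximal ?_
      rintro rfl
      rw [Ideal.mem_bot] at hm
      exact hp.ne_zero (by exact_mod_cast hm)
    · rintro ⟨h1, h2⟩
      refine ⟨h1.isPrime, ⟨?_⟩⟩
      refine hmax.eq_of_le ?_ ?_
      · have := h1.isPrime
        exact (Ideal.IsPrime.under ℤ P).ne_top
      · rw [Ideal.span_singleton_le_iff_mem, Ideal.under_def, Ideal.mem_comap]
        simpa using h2

/-- unit modulo p -/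
theorem H5_unit (k : Type) [Field k] [NumberField k] (p : ℕ) (c : 𝓞 k)
    (h : ∀ P : Ideal (𝓞 k), P.IsMaximal → (p : 𝓞 k) ∈ P → c ∉ P) :
    ∃ e : 𝓞 k, (p : 𝓞 k) ∣ e * c - 1 := by
  by_cases ht : Ideal.span {(p : 𝓞 k), c} = ⊤
  · have h1 : (1 : 𝓞 k) ∈ Ideal.span {(p : 𝓞 k), c} := by rw [ht]; trivial
    rw [Ideal.mem_span_pair] at h1
    obtain ⟨a, b, hab⟩ := h1
    refine ⟨b, -a, ?_⟩
    rw [← hab]; ring
  · obtain ⟨P, hP, hle⟩ := Ideal.exists_le_maximal _ ht
    exfalso
    exact h P hP (hle (Ideal.subset_span (by simp))) (hle (Ideal.subset_span (by simp)))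

theorem H5_dvd (k : Type) [Field k] [NumberField k] (p : ℕ) (hp : p.Prime) (P : Ideal (𝓞 k))
    (hP : P.IsMaximal) (hpP : (p : 𝓞 k) ∈ P) (z : ℤ) (hz : (z : 𝓞 k) ∈ P) : (p : ℤ) ∣ z := by
  by_contra h
  have hp' : Prime (p : ℤ) := Nat.prime_iff_prime_int.1 hp
  obtain ⟨u, v, huv⟩ := (hp'.irreducible.coprime_iff_not_dvd).2 h
  apply hP.ne_top
  rw [Ideal.eq_top_iff_one]
  have h1 : ((u * p + v * z : ℤ) : 𝓞 k) ∈ P := by
    push_cast
    exact P.add_mem (P.mul_mem_left _ hpP) (P.mul_mem_left _ hz)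
  rw [huv] at h1
  simpa using h1

theorem H5_not_unit (k : Type) [Field k] [NumberField k] (p : ℕ) (hp : p.Prime) :
    ¬ IsUnit (p : 𝓞 k) := by
  intro h
  have h1 : IsUnit (Algebra.norm ℤ (p : 𝓞 k)) := h.map (Algebra.norm ℤ)
  have h2 : Algebra.norm ℤ (p : 𝓞 k) = (p : ℤ) ^ Module.finrank ℤ (𝓞 k) := by
    have := Algebra.norm_algebraMap_of_basis (RingOfIntegers.basis k) (p : ℤ)
    rw [← Module.finrank_eq_card_basis (RingOfIntegers.basis k)] at this
    rw [← this]; simp
  rw [h2] at h1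
  have hm : Module.finrank ℤ (𝓞 k) ≠ 0 := by
    rw [RingOfIntegers.rank]; exact Module.finrank_pos.ne'
  rw [isUnit_pow_iff hm] at h1
  exact (Nat.prime_iff_prime_int.1 hp).not_isUnit h1

/-- The number of simple roots of a monic polynomial of degree `n` modulo a rational prime `p`
in the ring of integers of `k` is at most `n ^ [k : ℚ]`. -/
theorem root_classes (k : Type) [Field k] [NumberField k] (f : (𝓞 k)[X]) (hf : f.Monic) (p : ℕ)
    (hp : p.Prime) (hu : ∀ x : 𝓞 k, (p : 𝓞 k) ∣ f.eval x →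
      ∃ e : 𝓞 k, (p : 𝓞 k) ∣ e * (derivative f).eval x - 1)
    (S : Finset (𝓞 k)) (hS : ∀ x ∈ S, (p : 𝓞 k) ∣ f.eval x)
    (hinj : ∀ x ∈ S, ∀ y ∈ S, (p : 𝓞 k) ∣ x - y → x = y) :
    S.card ≤ f.natDegree ^ Module.finrank ℚ k := by
  classical
  obtain ⟨PP, hPP, hmem⟩ := H5_primes_over k p hp
  rcases S.eq_empty_or_nonempty with rfl | ⟨x0, hx0⟩
  · simp
  -- the degree is positive
  have hn : 0 < f.natDegree := by
    by_contra hn
    have hn : f.natDegree = 0 := by omega
    have h1 : f = 1 := hf.natDegree_eq_zero.1 hn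
    have h2 := hS x0 hx0
    rw [h1, eval_one] at h2
    exact H5_not_unit k p hp (isUnit_of_dvd_one h2)
  -- the roots in the residue fields
  have hcard : ∀ P ∈ PP, (S.image (Ideal.Quotient.mk P)).card ≤ f.natDegree := by
    intro P hP
    obtain ⟨hP1, hP2⟩ := (hmem P).1 hP
    have : P.IsPrime := hP1.isPrime
    have hm : (f.map (Ideal.Quotient.mk P)).Monic := hf.map _
    calc (S.image (Ideal.Quotient.mk P)).card ≤ (f.map (Ideal.Quotient.mk P)).roots.toFinset.card := by
          apply Finset.card_le_card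
          intro y hy
          obtain ⟨x, hx, rfl⟩ := Finset.mem_image.1 hy
          rw [Multiset.mem_toFinset, mem_roots hm.ne_zero, IsRoot.def, eval_map, eval₂_hom,
            Ideal.Quotient.eq_zero_iff_mem]
          exact P.mem_of_dvd (hS x hx) hP2
      _ ≤ Multiset.card (f.map (Ideal.Quotient.mk P)).roots := Multiset.toFinset_card_le _
      _ ≤ (f.map (Ideal.Quotient.mk P)).natDegree := card_roots' _
      _ = f.natDegree := hf.natDegree_map _
  have hmaps : S.card ≤ (PP.pi fun P => S.image (Ideal.Quotient.mk P)).card := by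
    refine Finset.card_le_card_of_injOn (fun x P _ => Ideal.Quotient.mk P x) ?_ ?_
    · intro x hx
      rw [Finset.mem_coe, Finset.mem_pi]
      intro P _
      exact Finset.mem_image_of_mem _ hx
    · intro x hx y hy hxy
      apply hinj x hx y hy
      have hxy' : ∀ P : Ideal (𝓞 k), P.IsMaximal → (p : 𝓞 k) ∈ P → x - y ∈ P := by
        intro P h1 h2
        have := congrFun (congrFun hxy P) ((hmem P).2 ⟨h1, h2⟩)
        exact Ideal.Quotient.eq.1 this
      obtain ⟨h, hh⟩ : ∃ h : 𝓞 k, f.eval x - f.eval y = (x - y) * ((derivative f).eval x + (x - y) * h) := by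
        obtain ⟨c, hc⟩ := f.binomExpansion x (y - x)
        rw [show x + (y - x) = y by ring] at hc
        refine ⟨-c, ?_⟩
        rw [hc]; ring
      obtain ⟨e, he⟩ := H5_unit k p ((derivative f).eval x + (x - y) * h) (by
        intro P h1 h2 h3
        have h4 : (derivative f).eval x ∈ P := by
          have := P.sub_mem h3 (P.mul_mem_right h (hxy' P h1 h2))
          simpa using this
        obtain ⟨e, he⟩ := hu x (hS x hx)
        apply h1.ne_top
        rw [Ideal.eq_top_iff_one]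
        have h5 := P.sub_mem (P.mul_mem_left e h4) (P.mem_of_dvd he h2)
        simpa using h5)
      have key : x - y = e * (f.eval x - f.eval y) -
          (e * ((derivative f).eval x + (x - y) * h) - 1) * (x - y) := by
        rw [hh]; ring
      rw [key]
      exact dvd_sub (Dvd.dvd.mul_left (dvd_sub (hS x hx) (hS y hy)) _) (Dvd.dvd.mul_right he _)
  refine hmaps.trans ?_
  rw [Finset.card_pi]
  calc ∏ P ∈ PP, (S.image (Ideal.Quotient.mk P)).card ≤ ∏ _P ∈ PP, f.natDegree :=
        Finset.prod_le_prod' hcard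
    _ = f.natDegree ^ PP.card := by rw [Finset.prod_const]
    _ ≤ _ := Nat.pow_le_pow_right hn hPP

/-- Only a bounded number of classes modulo a large prime `p` are bad for a nonzero
polynomial `Δ` over the ring of integers. -/
theorem bad_classes (k : Type) [Field k] [NumberField k] (Δ : (𝓞 k)[X]) (hΔ : Δ ≠ 0) :
    ∃ C1 p0 : ℕ, ∀ p : ℕ, p.Prime → p0 ≤ p → ∀ T : Finset ℕ, (∀ a ∈ T, a < p) →
      (∀ a ∈ T, ¬ ∃ e : 𝓞 k, (p : 𝓞 k) ∣ e * Δ.eval (a : 𝓞 k) - 1) → T.card ≤ C1 := by
  classical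
  have hc : Δ.leadingCoeff ≠ 0 := leadingCoeff_ne_zero.2 hΔ
  set I : Ideal (𝓞 k) := Ideal.span {Δ.leadingCoeff} with hI
  have hI0 : Ideal.absNorm I ≠ 0 := by
    rw [Ne, Ideal.absNorm_eq_zero_iff, hI, Ideal.span_singleton_eq_bot]
    exact hc
  refine ⟨Module.finrank ℚ k * Δ.natDegree, Ideal.absNorm I + 1, ?_⟩
  intro p hp hp0 T hT hbad
  obtain ⟨PP, hPP, hmem⟩ := H5_primes_over k p hp
  have hsub : T ⊆ PP.biUnion fun P => T.filter fun a : ℕ => Δ.eval (a : 𝓞 k) ∈ P := by
    intro a ha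
    have h1 : ¬ ∀ P : Ideal (𝓞 k), P.IsMaximal → (p : 𝓞 k) ∈ P → Δ.eval (a : 𝓞 k) ∉ P :=
      fun h => hbad a ha (H5_unit k p _ h)
    push Not at h1
    obtain ⟨P, h2, h3, h4⟩ := h1
    rw [Finset.mem_biUnion]
    exact ⟨P, (hmem P).2 ⟨h2, h3⟩, Finset.mem_filter.2 ⟨ha, h4⟩⟩
  have hcard : ∀ P ∈ PP, (T.filter fun a : ℕ => Δ.eval (a : 𝓞 k) ∈ P).card ≤ Δ.natDegree := by
    intro P hP
    obtain ⟨hP1, hP2⟩ := (hmem P).1 hP
    have : P.IsPrime := hP1.isPrime
    have hcP : Δ.leadingCoeff ∉ P := by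
      intro h
      have h1 : I ≤ P := by rw [hI, Ideal.span_singleton_le_iff_mem]; exact h
      have h2 : ((Ideal.absNorm I : ℤ) : 𝓞 k) ∈ P := by
        have := h1 (Ideal.absNorm_mem I)
        simpa using this
      have h3 := H5_dvd k p hp P hP1 hP2 _ h2
      have h4 := Nat.le_of_dvd (Nat.pos_of_ne_zero hI0) (Int.natCast_dvd_natCast.1 h3)
      omega
    have hm : Δ.map (Ideal.Quotient.mk P) ≠ 0 := by
      intro h
      apply hcP
      rw [← Ideal.Quotient.eq_zero_iff_mem]
      have := congrArg (fun q => q.coeff Δ.natDegree) h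
      simpa using this
    calc (T.filter fun a : ℕ => Δ.eval (a : 𝓞 k) ∈ P).card
        ≤ (Δ.map (Ideal.Quotient.mk P)).roots.toFinset.card := by
          refine Finset.card_le_card_of_injOn (fun a : ℕ => Ideal.Quotient.mk P (a : 𝓞 k)) ?_ ?_
          · intro a ha
            obtain ⟨ha1, ha2⟩ := Finset.mem_filter.1 (Finset.mem_coe.1 ha)
            rw [Finset.mem_coe, Multiset.mem_toFinset, mem_roots hm, IsRoot.def, eval_map,
              eval₂_hom, Ideal.Quotient.eq_zero_iff_mem]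
            exact ha2
          · intro a ha b hb hab
            have ha1 := hT a (Finset.mem_filter.1 (Finset.mem_coe.1 ha)).1
            have hb1 := hT b (Finset.mem_filter.1 (Finset.mem_coe.1 hb)).1
            have h1 : (((a : ℤ) - b : ℤ) : 𝓞 k) ∈ P := by
              have := Ideal.Quotient.eq.1 hab
              simpa using this
            have h2 := H5_dvd k p hp P hP1 hP2 _ h1
            obtain ⟨c, hc⟩ := h2
            have h3 : c = 0 := by
              by_contra h3
              rcases lt_or_gt_of_ne h3 with h4 | h4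
              · nlinarith
              · nlinarith
            rw [h3] at hc
            omega
      _ ≤ Multiset.card (Δ.map (Ideal.Quotient.mk P)).roots := Multiset.toFinset_card_le _
      _ ≤ (Δ.map (Ideal.Quotient.mk P)).natDegree := card_roots' _
      _ ≤ Δ.natDegree := natDegree_map_le
  calc T.card ≤ (PP.biUnion fun P => T.filter fun a : ℕ => Δ.eval (a : 𝓞 k) ∈ P).card :=
        Finset.card_le_card hsub
    _ ≤ PP.card * Δ.natDegree := Finset.card_biUnion_le_card_mul _ _ _ hcard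
    _ ≤ _ := Nat.mul_le_mul_right _ hPP

end Pool.Agent.LibHP
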