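import Pool.Agent.LibHP.H0
import Pool.Agent.LibHP.H1
import Pool.Agent.LibHP.H2
import Pool.Agent.LibHP.H3
import Pool.Agent.LibHP.H4
import Pool.Agent.LibHP.H5

set_option autoImplicit false
open Polynomial NumberField

namespace Pool.Agent.LibHP

/-- The points of the curve `P = 0` in one residue class modulo a large prime have boundedly
many abscissae. -/
theorem class_bound (k : Type) [Field k] [NumberField k] (P : (𝓞 k)[X][X]) (hP : P.Monic)
    (h2 : 2 ≤ P.natDegree)
    (hirr : Irreducible (P.map (mapRingHom (algebraMap (𝓞 k) k)))) :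
    ∃ C0 Q0 : ℕ, ∀ Q : ℕ, Q0 ≤ Q → ∀ p : ℕ, Q ^ 9 < p → ∀ (a : ℕ) (x0 e : 𝓞 k),
      (p : 𝓞 k) ∣ P.evalEval (a : 𝓞 k) x0 →
      (p : 𝓞 k) ∣ e * (derivative P).evalEval (a : 𝓞 k) x0 - 1 →
      ∀ T : Finset ℕ, (∀ τ ∈ T, τ < Q ^ 10 ∧ (τ : ℤ) ≡ a [ZMOD p] ∧
        ∃ x : 𝓞 k, P.evalEval (τ : 𝓞 k) x = 0 ∧ (p : 𝓞 k) ∣ x - x0) → T.card ≤ C0 := by
  classical
  obtain ⟨C, D, hC, hD, hbd⟩ := root_bound k P hP
  obtain ⟨A, Q0, hA, hdet⟩ := det_eq_zero k C hC D P.natDegree hD h2
  obtain ⟨C0, hC0⟩ := few_points (P.map (mapRingHom (algebraMap (𝓞 k) k))) (hP.map _) hirr A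
  refine ⟨C0, Q0, fun Q hQ p hp a x0 e h0 he T hT => ?_⟩
  obtain ⟨c, hc⟩ := hensel_poly (p : 𝓞 k) P a x0 e h0 he
    ((P.natDegree * A) * (P.natDegree * A - 1) / 2)
  choose! x hx using fun τ (hτ : τ ∈ T) => (hT τ hτ).2.2
  have hcong : ∀ τ ∈ T, (p : 𝓞 k) ∣ (τ : 𝓞 k) - (a : 𝓞 k) := by
    intro τ hτ
    have h1 : (p : ℤ) ∣ (τ : ℤ) - a := (hT τ hτ).2.1.symm.dvd
    have h2 := map_dvd (Int.castRingHom (𝓞 k)) h1
    simpa using h2
  have hdet0 : ∀ e' : Fin P.natDegree × Fin A → {τ // τ ∈ T},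
      Matrix.det (Matrix.of fun (i j : Fin P.natDegree × Fin A) =>
        (((e' i).1 : ℕ) : k) ^ (j.2 : ℕ) * (algebraMap (𝓞 k) k (x (e' i).1)) ^ (j.1 : ℕ)) = 0 := by
    intro e'
    have h1 := hdet Q hQ p hp (fun i => (e' i).1) (fun i => x (e' i).1)
      (fun i => (hT _ (e' i).2).1)
      (fun i σ => hbd σ _ _ (hx _ (e' i).2).1) ?_
    · have h3 := congrArg (algebraMap (𝓞 k) k) h1
      rw [map_zero, RingHom.map_det] at h3
      rw [← h3]
      congr 1
    · have h4 := det_dvd_of_congr (ι := Fin P.natDegree × Fin A) (p : 𝓞 k)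
        (fun j => (Polynomial.C (a : 𝓞 k) + X) ^ (j.2 : ℕ) * c ^ (j.1 : ℕ))
        (fun i => (((e' i).1 : ℕ) : 𝓞 k) - (a : 𝓞 k)) (fun i => hcong _ (e' i).2)
        (Matrix.of fun (i j : Fin P.natDegree × Fin A) =>
            (((e' i).1 : ℕ) : 𝓞 k) ^ (j.2 : ℕ) * x (e' i).1 ^ (j.1 : ℕ)) ?_
      · simpa using h4
      · intro i j
        simp only [Fintype.card_prod, Fintype.card_fin, Matrix.of_apply, eval_mul, eval_pow,
          eval_add, eval_C, eval_X, add_sub_cancel]
        rw [← mul_sub]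
        refine Dvd.dvd.mul_left ?_ _
        refine dvd_trans ?_ (sub_dvd_pow_sub_pow _ _ _)
        refine hc _ _ (hcong _ (e' i).2) ?_ (hx _ (e' i).2).2
        rw [add_sub_cancel]
        exact (hx _ (e' i).2).1
  obtain ⟨g, hg0, hg⟩ := exists_relation (F := k) (ι := Fin P.natDegree × Fin A)
    (S := {τ // τ ∈ T})
    (fun τ j => (((τ.1 : ℕ) : k)) ^ (j.2 : ℕ) * (algebraMap (𝓞 k) k (x τ.1)) ^ (j.1 : ℕ)) hdet0
  -- the curve
  set G : k[X][X] := ∑ j : Fin P.natDegree × Fin A,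
    Polynomial.monomial (j.1 : ℕ) (Polynomial.monomial (j.2 : ℕ) (g j)) with hG
  have hGc : ∀ j : Fin P.natDegree × Fin A, (G.coeff (j.1 : ℕ)).coeff (j.2 : ℕ) = g j := by
    intro j
    rw [hG, finsetSum_coeff, finsetSum_coeff, Finset.sum_eq_single j]
    · simp
    · intro b _ hb
      rw [coeff_monomial]
      split_ifs with h5
      · rw [coeff_monomial, if_neg]
        intro h6
        apply hb
        exact Prod.ext (Fin.ext h5) (Fin.ext h6)
      · simp
    · simp
  have hG0 : G ≠ 0 := by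
    intro h
    apply hg0
    funext j
    rw [← hGc j, h]
    simp
  have hn0 : 0 < P.natDegree := by omega
  have hGd : G.natDegree < (P.map (mapRingHom (algebraMap (𝓞 k) k))).natDegree := by
    rw [hP.natDegree_map]
    refine lt_of_le_of_lt (b := P.natDegree - 1) ?_ (by omega)
    refine natDegree_sum_le_of_forall_le _ _ ?_
    intro j _
    refine (natDegree_monomial_le _).trans ?_
    have := j.1.2
    omega
  have hGA : ∀ i, (G.coeff i).natDegree < A := by
    intro i
    rw [hG, finsetSum_coeff]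
    refine lt_of_le_of_lt (b := A - 1) ?_ (by omega)
    refine natDegree_sum_le_of_forall_le _ _ ?_
    intro j _
    rw [coeff_monomial]
    split_ifs
    · refine (natDegree_monomial_le _).trans ?_
      have := j.2.2
      omega
    · simp
  have hfin := hC0 G hG0 hGd hGA (T.image (fun τ => ((τ : ℕ) : k))) ?_
  · rwa [Finset.card_image_of_injective _ Nat.cast_injective] at hfin
  · intro t ht
    obtain ⟨τ, hτ, rfl⟩ := Finset.mem_image.mp ht
    refine ⟨algebraMap (𝓞 k) k (x τ), ?_, ?_⟩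
    · have h7 : ((τ : ℕ) : k) = algebraMap (𝓞 k) k ((τ : ℕ) : 𝓞 k) := by simp
      rw [h7, map_mapRingHom_evalEval, (hx τ hτ).1, map_zero]
    · have h8 := hg ⟨τ, hτ⟩
      rw [← h8, hG, evalEval_finsetSum]
      refine Finset.sum_congr rfl fun j _ => ?_
      rw [evalEval, eval_monomial]
      simp only [← C_pow, eval_mul, eval_monomial, eval_C]
      ring

/-- Bezout identity for an irreducible polynomial and its derivative. -/
theorem exists_discr (k : Type) [Field k] [NumberField k] (P : (𝓞 k)[X][X]) (hP : P.Monic)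
    (hirr : Irreducible (P.map (mapRingHom (algebraMap (𝓞 k) k)))) :
    ∃ (Δ : (𝓞 k)[X]) (U V : (𝓞 k)[X][X]), Δ ≠ 0 ∧ U * P + V * derivative P = C Δ := by
  have hn0 : P.natDegree ≠ 0 := by
    intro h
    have h1 := eq_one_of_monic_natDegree_zero hP h
    rw [h1, Polynomial.map_one] at hirr
    exact not_irreducible_one hirr
  obtain ⟨U, V, -, -, hUV⟩ := exists_mul_add_mul_eq_C_resultant (m := P.natDegree)
    (n := (derivative P).natDegree) P (derivative P) le_rfl le_rfl (Or.inl hn0)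
  refine ⟨_, U, V, ?_, by rw [← hUV]; ring⟩
  have hinj0 : Function.Injective (algebraMap (𝓞 k) k) := RingOfIntegers.coe_injective
  set ψ : (𝓞 k)[X] →+* FractionRing k[X] :=
    (algebraMap k[X] (FractionRing k[X])).comp (mapRingHom (algebraMap (𝓞 k) k)) with hψ
  have hψi : Function.Injective ψ := by
    rw [hψ, RingHom.coe_comp]
    exact (IsFractionRing.injective _ _).comp (Polynomial.map_injective _ hinj0)
  have hirr2 : Irreducible (P.map ψ) := by
    rw [hψ, ← Polynomial.map_map]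
    exact ((hP.map _).irreducible_iff_irreducible_map_fraction_map).mp hirr
  have hsep : (P.map ψ).Separable := hirr2.separable
  intro h0
  have h1 : resultant (P.map ψ) (derivative (P.map ψ)) = 0 := by
    rw [derivative_map, natDegree_map_eq_of_injective hψi, natDegree_map_eq_of_injective hψi,
      resultant_map_map, h0, map_zero]
  exact (resultant_eq_zero_iff.mp h1).2 hsep

theorem hit_irred_int (k : Type) [Field k] [NumberField k] (P : (𝓞 k)[X][X]) (hP : P.Monic)
    (h2 : 2 ≤ P.natDegree)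
    (hirr : Irreducible (P.map (mapRingHom (algebraMap (𝓞 k) k)))) :
    ∃ Z : Set ℕ, DZ Z ∧ ∀ τ : ℕ, τ ∉ Z → ∀ x : 𝓞 k, P.evalEval (τ : 𝓞 k) x ≠ 0 := by
  classical
  obtain ⟨C0, Q0, hC0⟩ := class_bound k P hP h2 hirr
  obtain ⟨Δ, U, V, hΔ, hUV⟩ := exists_discr k P hP hirr
  obtain ⟨C1, p0, hC1⟩ := bad_classes k Δ hΔ
  refine ⟨{τ : ℕ | ∃ x : 𝓞 k, P.evalEval (τ : 𝓞 k) x = 0},
    DZ.of_card_le (2 * C1 + 2 * (P.natDegree ^ Module.finrank ℚ k * C0)) (max Q0 (p0 + 2)) ?_,
    fun τ hτ x hx => hτ ⟨x, hx⟩⟩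
  intro Q hQ
  have hQ1 : Q0 ≤ Q := (le_max_left _ _).trans hQ
  have hQ2 : p0 + 2 ≤ Q := (le_max_right _ _).trans hQ
  have hQ9 : Q ^ 9 ≠ 0 := pow_ne_zero _ (by omega)
  obtain ⟨p, hp, hpQ, hpQ2⟩ := Nat.exists_prime_lt_and_le_two_mul (Q ^ 9) hQ9
  have hQp : Q ≤ p := by
    have : Q ^ 1 ≤ Q ^ 9 := Nat.pow_le_pow_right (by omega) (by norm_num)
    rw [pow_one] at this
    omega
  have hpp0 : p0 ≤ p := by omega
  -- the finite set
  set S : Finset ℕ := (Finset.range (Q ^ 10)).filter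
    (fun τ => ∃ x : 𝓞 k, P.evalEval (τ : 𝓞 k) x = 0) with hS
  have hSeq : ({τ : ℕ | ∃ x : 𝓞 k, P.evalEval (τ : 𝓞 k) x = 0} ∩ Set.Iio (Q ^ 10)).ncard
      = S.card := by
    rw [← Set.ncard_coe_finset]
    congr 1
    ext τ
    simp only [Set.mem_inter_iff, Set.mem_ofPred_eq, Set.mem_Iio, hS, Finset.coe_filter,
      Finset.mem_range]
    tauto
  rw [hSeq]
  have hex : ∀ τ ∈ S, ∃ x : 𝓞 k, P.evalEval (τ : 𝓞 k) x = 0 := by
    intro τ hτ
    exact (Finset.mem_filter.mp hτ).2
  choose! x hx using hex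
  -- bad and good classes
  set B : Finset ℕ := (Finset.range p).filter
    (fun a => ¬ ∃ e : 𝓞 k, (p : 𝓞 k) ∣ e * Δ.eval (a : 𝓞 k) - 1) with hB
  have hBcard : B.card ≤ C1 := by
    refine hC1 p hp hpp0 B ?_ ?_
    · intro a ha
      exact Finset.mem_range.mp (Finset.mem_filter.mp ha).1
    · intro a ha
      exact (Finset.mem_filter.mp ha).2
  have hpos : 0 < p := hp.pos
  -- every class has at most Q + 1 elements
  have hclass : ∀ a, (S.filter (fun τ => τ % p = a)).card ≤ Q + 1 := by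
    intro a
    have h3 : (S.filter (fun τ => τ % p = a)).card ≤ (Finset.range (Q + 1)).card := by
      refine Finset.card_le_card_of_injOn (fun τ => τ / p) ?_ ?_
      · intro τ hτ
        rw [Finset.mem_coe, Finset.mem_filter] at hτ
        have h4 : τ < Q ^ 10 := Finset.mem_range.mp (Finset.mem_filter.mp hτ.1).1
        rw [Finset.mem_coe, Finset.mem_range]
        have h5 : τ / p < Q + 1 := by
          rw [Nat.div_lt_iff_lt_mul hpos]
          calc τ < Q ^ 10 := h4
            _ = Q * Q ^ 9 := by ring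
            _ ≤ Q * p := Nat.mul_le_mul_left _ hpQ.le
            _ ≤ (Q + 1) * p := Nat.mul_le_mul_right _ (Nat.le_succ _)
        exact h5
      · intro τ hτ τ' hτ' h
        rw [Finset.mem_coe, Finset.mem_filter] at hτ hτ'
        have h6 := Nat.div_add_mod τ p
        have h7 := Nat.div_add_mod τ' p
        simp only at h
        rw [← h6, ← h7, h, hτ.2, hτ'.2]
    simpa using h3
  -- good classes
  have hgood : ∀ a ∈ Finset.range p, a ∉ B →
      (S.filter (fun τ => τ % p = a)).card ≤ P.natDegree ^ Module.finrank ℚ k * C0 := by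
    intro a ha haB
    have hea : ∃ e : 𝓞 k, (p : 𝓞 k) ∣ e * Δ.eval (a : 𝓞 k) - 1 := by
      by_contra h
      exact haB (Finset.mem_filter.mpr ⟨ha, h⟩)
    obtain ⟨e, he⟩ := hea
    have hBez : ∀ y : 𝓞 k, U.evalEval (a : 𝓞 k) y * P.evalEval (a : 𝓞 k) y +
        V.evalEval (a : 𝓞 k) y * (derivative P).evalEval (a : 𝓞 k) y = Δ.eval (a : 𝓞 k) := by
      intro y
      have h := congrArg (fun R => R.evalEval (a : 𝓞 k) y) hUV
      simpa [evalEval_C] using h
    have hunit : ∀ y : 𝓞 k, (p : 𝓞 k) ∣ P.evalEval (a : 𝓞 k) y →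
        (p : 𝓞 k) ∣ (e * V.evalEval (a : 𝓞 k) y) * (derivative P).evalEval (a : 𝓞 k) y - 1 := by
      intro y hy
      have h : (e * V.evalEval (a : 𝓞 k) y) * (derivative P).evalEval (a : 𝓞 k) y - 1 =
          (e * Δ.eval (a : 𝓞 k) - 1) - e * U.evalEval (a : 𝓞 k) y * P.evalEval (a : 𝓞 k) y := by
        rw [← hBez y]
        ring
      rw [h]
      exact dvd_sub he (Dvd.dvd.mul_left hy _)
    set I : Ideal (𝓞 k) := Ideal.span {(p : 𝓞 k)} with hI
    set rep : 𝓞 k → 𝓞 k := fun y => Function.surjInv (Ideal.Quotient.mk_surjective (I := I))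
      (Ideal.Quotient.mk I y) with hrep
    have hrep1 : ∀ y, (p : 𝓞 k) ∣ y - rep y := by
      intro y
      have h := Function.surjInv_eq (Ideal.Quotient.mk_surjective (I := I)) (Ideal.Quotient.mk I y)
      rw [← Ideal.mem_span_singleton, ← hI, ← Ideal.Quotient.eq]
      exact h.symm
    have hrep2 : ∀ y z, (p : 𝓞 k) ∣ rep y - rep z → rep y = rep z := by
      intro y z h
      have h8 : (p : 𝓞 k) ∣ y - z := by
        have := dvd_add (dvd_sub (hrep1 y) (hrep1 z)) h
        have h9 : y - z = y - rep y - (z - rep z) + (rep y - rep z) := by ring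
        rwa [h9]
      rw [← Ideal.mem_span_singleton, ← hI, ← Ideal.Quotient.eq] at h8
      simp only [hrep, h8]
    -- points of the class
    have hmod : ∀ τ ∈ S.filter (fun τ => τ % p = a), (p : 𝓞 k) ∣ (τ : 𝓞 k) - (a : 𝓞 k) := by
      intro τ hτ
      have h10 : (a : ℤ) ≡ τ [ZMOD p] := by
        rw [← (Finset.mem_filter.mp hτ).2]
        push_cast
        exact Int.mod_modEq _ _
      have h11 := map_dvd (Int.castRingHom (𝓞 k)) h10.dvd
      simpa using h11
    have hroot : ∀ τ ∈ S.filter (fun τ => τ % p = a),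
        (p : 𝓞 k) ∣ P.evalEval (a : 𝓞 k) (rep (x τ)) := by
      intro τ hτ
      have h12 := hx τ (Finset.mem_filter.mp hτ).1
      have h13 : (p : 𝓞 k) ∣ P.evalEval (τ : 𝓞 k) (x τ) - P.evalEval (a : 𝓞 k) (rep (x τ)) := by
        have h14 : (p : 𝓞 k) ∣ P.evalEval (τ : 𝓞 k) (x τ) - P.evalEval (a : 𝓞 k) (x τ) :=
          (hmod τ hτ).trans (sub_dvd_eval_sub _ _ _)
        have h15 : (p : 𝓞 k) ∣ P.evalEval (a : 𝓞 k) (x τ) - P.evalEval (a : 𝓞 k) (rep (x τ)) := by
          rw [← map_evalRingHom_eval, ← map_evalRingHom_eval]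
          exact (hrep1 _).trans (sub_dvd_eval_sub _ _ _)
        have := dvd_add h14 h15
        rwa [sub_add_sub_cancel] at this
      rw [h12, zero_sub, dvd_neg] at h13
      exact h13
    have hcl := root_classes k (P.map (evalRingHom (a : 𝓞 k))) (hP.map _) p hp ?_
      ((S.filter (fun τ => τ % p = a)).image (fun τ => rep (x τ))) ?_ ?_
    · rw [hP.natDegree_map] at hcl
      calc (S.filter (fun τ => τ % p = a)).card
          ≤ C0 * ((S.filter (fun τ => τ % p = a)).image (fun τ => rep (x τ))).card := by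
            refine Finset.card_le_mul_card_image _ _ ?_
            intro y hy
            obtain ⟨τ0, hτ0, rfl⟩ := Finset.mem_image.mp hy
            refine hC0 Q hQ1 p hpQ a (rep (x τ0)) (e * V.evalEval (a : 𝓞 k) (rep (x τ0)))
              (hroot τ0 hτ0) (hunit _ (hroot τ0 hτ0)) _ ?_
            intro τ hτ
            obtain ⟨hτ1, hτ2⟩ := Finset.mem_filter.mp hτ
            obtain ⟨hτ3, hτ4⟩ := Finset.mem_filter.mp hτ1
            refine ⟨Finset.mem_range.mp (Finset.mem_filter.mp hτ3).1, ?_, x τ, hx τ hτ3, ?_⟩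
            · rw [← hτ4]
              push_cast
              exact (Int.mod_modEq _ _).symm
            · rw [← hτ2]
              exact hrep1 _
        _ ≤ C0 * P.natDegree ^ Module.finrank ℚ k := Nat.mul_le_mul_left _ hcl
        _ = _ := Nat.mul_comm _ _
    · intro y hy
      rw [map_evalRingHom_eval] at hy
      refine ⟨e * V.evalEval (a : 𝓞 k) y, ?_⟩
      rw [derivative_map, map_evalRingHom_eval]
      exact hunit y hy
    · intro y hy
      obtain ⟨τ, hτ, rfl⟩ := Finset.mem_image.mp hy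
      rw [map_evalRingHom_eval]
      exact hroot τ hτ
    · intro y hy z hz h
      obtain ⟨τ, hτ, rfl⟩ := Finset.mem_image.mp hy
      obtain ⟨τ', hτ', rfl⟩ := Finset.mem_image.mp hz
      exact hrep2 _ _ h
  -- total count
  have htot : S.card = ∑ a ∈ Finset.range p, (S.filter (fun τ => τ % p = a)).card := by
    refine Finset.card_eq_sum_card_fiberwise ?_
    intro τ _
    exact Finset.mem_coe.mpr (Finset.mem_range.mpr (Nat.mod_lt _ hpos))
  have hsum : ∑ a ∈ Finset.range p, (S.filter (fun τ => τ % p = a)).card ≤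
      ∑ a ∈ Finset.range p, ((if a ∈ B then Q + 1 else 0) +
        P.natDegree ^ Module.finrank ℚ k * C0) := by
    refine Finset.sum_le_sum fun a ha => ?_
    by_cases haB : a ∈ B
    · rw [if_pos haB]
      exact (hclass a).trans (Nat.le_add_right _ _)
    · rw [if_neg haB, zero_add]
      exact hgood a ha haB
  have hBsub : B ⊆ Finset.range p := Finset.filter_subset _ _
  rw [Finset.sum_add_distrib, Finset.sum_ite_mem, Finset.inter_eq_right.mpr hBsub,
    Finset.sum_const, Finset.sum_const, Finset.card_range, smul_eq_mul, smul_eq_mul] at hsum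
  rw [htot]
  refine hsum.trans ?_
  have hQ19 : Q + 1 ≤ 2 * Q ^ 9 := by
    have h1 : Q ^ 1 ≤ Q ^ 9 := Nat.pow_le_pow_right (by omega) (by norm_num)
    rw [pow_one] at h1
    have h2 : 1 ≤ Q ^ 9 := Nat.one_le_iff_ne_zero.mpr hQ9
    omega
  calc B.card * (Q + 1) + p * (P.natDegree ^ Module.finrank ℚ k * C0)
      ≤ C1 * (2 * Q ^ 9) + (2 * Q ^ 9) * (P.natDegree ^ Module.finrank ℚ k * C0) :=
        Nat.add_le_add (Nat.mul_le_mul hBcard hQ19) (Nat.mul_le_mul_right _ hpQ2)
    _ = (2 * C1 + 2 * (P.natDegree ^ Module.finrank ℚ k * C0)) * Q ^ 9 := by ring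

end Pool.Agent.LibHP
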