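import Pool.Agent.LibHP.H6

set_option autoImplicit false
open Polynomial NumberField

namespace Pool.Agent.LibHP

theorem H7_irreducible_scaleRoots {R : Type} [CommRing R] [IsDomain R] (P : R[X]) (hP : P.Monic)
    (hirr : Irreducible P) (u v : R) (huv : u * v = 1) : Irreducible (P.scaleRoots u) := by
  have hP' : (P.scaleRoots u).Monic := (monic_scaleRoots_iff u).2 hP
  have hback : (P.scaleRoots u).scaleRoots v = P := by
    rw [← scaleRoots_mul, huv, scaleRoots_one]
  rw [hP'.irreducible_iff_natDegree']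
  rw [hP.irreducible_iff_natDegree'] at hirr
  refine ⟨?_, ?_⟩
  · intro h1
    apply hirr.1
    rw [← hback, h1, one_scaleRoots]
  · intro f g hf hg hfg
    rw [natDegree_scaleRoots]
    have := hirr.2 (f.scaleRoots v) (g.scaleRoots v) ((monic_scaleRoots_iff v).2 hf)
      ((monic_scaleRoots_iff v).2 hg) (by
        rw [← mul_scaleRoots_of_noZeroDivisors, hfg, hback])
    rwa [natDegree_scaleRoots] at this

theorem H7_denom (k : Type) [Field k] [NumberField k] (P : k[X][X]) (hP : P.Monic) :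
    ∃ d : 𝓞 k, d ≠ 0 ∧ P.scaleRoots (C (algebraMap (𝓞 k) k d)) ∈
      Polynomial.lifts (mapRingHom (algebraMap (𝓞 k) k)) := by
  let _ : Algebra (𝓞 k)[X] k[X] := (mapRingHom (algebraMap (𝓞 k) k)).toAlgebra
  have : IsLocalization (Submonoid.map (C : (𝓞 k) →+* (𝓞 k)[X]) (nonZeroDivisors (𝓞 k))) k[X] :=
    Polynomial.isLocalization (nonZeroDivisors (𝓞 k)) k
  have h := IsLocalization.scaleRoots_commonDenom_mem_lifts
    (Submonoid.map (C : (𝓞 k) →+* (𝓞 k)[X]) (nonZeroDivisors (𝓞 k))) P
    (by rw [hP.leadingCoeff]; exact one_mem _)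
  generalize IsLocalization.commonDenom
    (Submonoid.map (C : (𝓞 k) →+* (𝓞 k)[X]) (nonZeroDivisors (𝓞 k))) P.support P.coeff = b at h
  obtain ⟨b, d, hd, rfl⟩ := b
  refine ⟨d, nonZeroDivisors.ne_zero hd, ?_⟩
  have e : algebraMap (𝓞 k)[X] k[X] (C d) = C (algebraMap (𝓞 k) k d) := by
    rw [RingHom.algebraMap_toAlgebra]; simp
  rw [← e]
  exact h

theorem hit_irred (k : Type) [Field k] [NumberField k] (P : k[X][X]) (hP : P.Monic)
    (h2 : 2 ≤ P.natDegree) (hirr : Irreducible P) :
    ∃ Z : Set ℕ, DZ Z ∧ ∀ τ : ℕ, τ ∉ Z → ∀ x : k, P.evalEval (τ : k) x ≠ 0 := by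
  obtain ⟨d, hd0, hd⟩ := H7_denom k P hP
  have hd1 : algebraMap (𝓞 k) k d ≠ 0 := by
    rw [Ne, FaithfulSMul.algebraMap_eq_zero_iff]; exact hd0
  obtain ⟨P0, hP0, hdeg, hmon⟩ := Polynomial.lifts_and_natDegree_eq_and_monic hd
    ((monic_scaleRoots_iff _).2 hP)
  have hirr' : Irreducible (P0.map (mapRingHom (algebraMap (𝓞 k) k))) := by
    rw [hP0]
    exact H7_irreducible_scaleRoots P hP hirr _ (C (algebraMap (𝓞 k) k d)⁻¹)
      (by rw [← C_mul, mul_inv_cancel₀ hd1, C_1])
  obtain ⟨Z, hZ, h⟩ := hit_irred_int k P0 hmon (by rw [hdeg, natDegree_scaleRoots]; exact h2) hirr'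
  refine ⟨Z, hZ, fun τ hτ x hx => ?_⟩
  -- the root times the denominator
  have h1 : (P0.map (mapRingHom (algebraMap (𝓞 k) k))).evalEval (τ : k)
      (algebraMap (𝓞 k) k d * x) = 0 := by
    rw [hP0, ← eval₂_evalRingHom]
    have := scaleRoots_eval₂_mul (p := P) (evalRingHom (τ : k)) x (C (algebraMap (𝓞 k) k d))
    rw [coe_evalRingHom, eval_C] at this
    rw [this, eval₂_evalRingHom, hx, mul_zero]
  have hint : IsIntegral (𝓞 k) (algebraMap (𝓞 k) k d * x) := by
    refine ⟨P0.map (evalRingHom (τ : 𝓞 k)), hmon.map _, ?_⟩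
    rw [← h1, eval₂_map, ← eval₂_evalRingHom, eval₂_map]
    congr 1
    ext i
    · simp
    · simp
  obtain ⟨y, hy⟩ := IsIntegrallyClosed.isIntegral_iff.1 hint
  apply h τ hτ y
  have h3 := map_mapRingHom_evalEval (algebraMap (𝓞 k) k) P0 (τ : 𝓞 k) y
  rw [map_natCast, hy, h1] at h3
  have h4 : algebraMap (𝓞 k) k (P0.evalEval (τ : 𝓞 k) y) = 0 := h3.symm
  rwa [FaithfulSMul.algebraMap_eq_zero_iff] at h4

theorem hasSpec_numberField (k : Type) [Field k] [NumberField k] : HasSpec k := by
  have key : ∀ n : ℕ, ∀ P : k[X][X], P.natDegree ≤ n → P.Monic → ∃ Z : Set ℕ, DZ Z ∧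
      ∀ τ : ℕ, τ ∉ Z → ∀ x : k, (P.map (evalRingHom (τ : k))).IsRoot x →
        ∃ r : k[X], P.IsRoot r ∧ r.eval (τ : k) = x := by
    intro n
    induction n with
    | zero =>
      intro P hn hP
      refine ⟨∅, DZ.of_finite Set.finite_empty, fun τ _ x hx => ?_⟩
      have : P = 1 := hP.natDegree_eq_zero.1 (by omega)
      rw [this, Polynomial.map_one, IsRoot, eval_one] at hx
      exact absurd hx one_ne_zero
    | succ n ih =>
      intro P hn hP
      by_cases h1 : P.natDegree ≤ 1
      · refine ⟨∅, DZ.of_finite Set.finite_empty, fun τ _ x hx => ?_⟩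
        rcases Nat.lt_or_ge P.natDegree 1 with h0 | h0
        · have : P = 1 := hP.natDegree_eq_zero.1 (by omega)
          rw [this, Polynomial.map_one, IsRoot, eval_one] at hx
          exact absurd hx one_ne_zero
        · have hX : P = X + C (P.coeff 0) := hP.eq_X_add_C (by omega)
          refine ⟨- P.coeff 0, ?_, ?_⟩
          · rw [hX, IsRoot]; simp
          · rw [hX, IsRoot] at hx
            simp only [Polynomial.map_add, map_X, map_C, eval_add, eval_X, eval_C,
              coe_evalRingHom] at hx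
            rw [eval_neg]
            exact (eq_neg_of_add_eq_zero_left hx).symm
      · by_cases hirr : Irreducible P
        · obtain ⟨Z, hZ, h⟩ := hit_irred k P hP (by omega) hirr
          refine ⟨Z, hZ, fun τ hτ x hx => ?_⟩
          rw [IsRoot, map_evalRingHom_eval] at hx
          exact absurd hx (h τ hτ x)
        · rw [hP.irreducible_iff_natDegree'] at hirr
          push Not at hirr
          obtain ⟨f, g, hf, hg, hfg, hdeg⟩ := hirr (by
            rintro rfl
            simp at h1)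
          have hsum : f.natDegree + g.natDegree = P.natDegree := by
            rw [← hfg, hf.natDegree_mul hg]
          rw [Finset.mem_Ioc] at hdeg
          obtain ⟨Z, hZ, h⟩ := ih f (by omega) hf
          obtain ⟨Z', hZ', h'⟩ := ih g (by omega) hg
          refine ⟨Z ∪ Z', hZ.union hZ', fun τ hτ x hx => ?_⟩
          rw [Set.mem_union, not_or] at hτ
          rw [← hfg, IsRoot, Polynomial.map_mul, eval_mul, mul_eq_zero] at hx
          rcases hx with hx | hx
          · obtain ⟨r, hr, hr'⟩ := h τ hτ.1 x hx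
            refine ⟨r, ?_, hr'⟩
            rw [← hfg, IsRoot, eval_mul, show eval r f = 0 from hr, zero_mul]
          · obtain ⟨r, hr, hr'⟩ := h' τ hτ.2 x hx
            refine ⟨r, ?_, hr'⟩
            rw [← hfg, IsRoot, eval_mul, show eval r g = 0 from hr, mul_zero]
  intro P hP
  exact key P.natDegree P le_rfl hP

end Pool.Agent.LibHP
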