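import Pool.Agent.LibHP.SDefs
import Pool.Agent.LibHP.F2

set_option autoImplicit false
open AlgebraicGeometry CategoryTheory Limits

namespace Pool.Agent.LibHP

/-- The morphism from the spectrum of an extension of the function field. -/
noncomputable def S1a_g {X : Scheme} [IsIntegral X] {L : Type} [Field L]
    (j : X.functionField →+* L) : Spec (CommRingCat.of L) ⟶ X :=
  Spec.map (CommRingCat.ofHom j) ≫ X.fromSpecStalk (genericPoint X)

theorem S1a_g_apply {X : Scheme} [IsIntegral X] {L : Type} [Field L]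
    (j : X.functionField →+* L) (y : Spec (CommRingCat.of L)) :
    S1a_g j y = genericPoint X := by
  rw [S1a_g, Scheme.Hom.comp_apply]
  have h : Spec.map (CommRingCat.ofHom j) y =
      IsLocalRing.closedPoint (X.presheaf.stalk (genericPoint X)) := by
    have : Subsingleton (Spec (X.presheaf.stalk (genericPoint X))) :=
      inferInstanceAs (Subsingleton (PrimeSpectrum X.functionField))
    exact Subsingleton.elim _ _
  rw [h, Scheme.fromSpecStalk_closedPoint]

theorem S1a_g_preimage {X : Scheme} [IsIntegral X] {L : Type} [Field L]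
    (j : X.functionField →+* L) (U : X.Opens) (hU : genericPoint X ∈ U) :
    S1a_g j ⁻¹ᵁ U = ⊤ := by
  ext y
  simp only [TopologicalSpace.Opens.coe_top, Set.mem_univ, iff_true]
  show S1a_g j y ∈ U
  rw [S1a_g_apply]
  exact hU

theorem S1a_stalk_appLE (X : Scheme) (x : X) (U : X.Opens) (hU : x ∈ U)
    (h : ⊤ ≤ X.fromSpecStalk x ⁻¹ᵁ U) :
    (X.fromSpecStalk x).appLE U ⊤ h ≫ (Scheme.ΓSpecIso (X.presheaf.stalk x)).hom =
      X.presheaf.germ U x hU := by
  rw [Scheme.Hom.appLE, Scheme.fromSpecStalk_app hU]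
  simp only [Category.assoc]
  rw [← Functor.map_comp_assoc]
  have : ((homOfLE le_top : X.fromSpecStalk x ⁻¹ᵁ U ⟶ ⊤).op ≫ (homOfLE h).op) =
      𝟙 (Opposite.op (⊤ : (Spec (X.presheaf.stalk x)).Opens)) := rfl
  rw [this, CategoryTheory.Functor.map_id, Category.id_comp, Iso.inv_hom_id, Category.comp_id]

theorem S1a_le {X : Scheme} (x : X) (hx : Subsingleton (Spec (X.presheaf.stalk x)))
    (U : X.Opens) (hU : x ∈ U) : ⊤ ≤ X.fromSpecStalk x ⁻¹ᵁ U := by
  intro y _
  show X.fromSpecStalk x y ∈ U
  rw [Subsingleton.elim y (IsLocalRing.closedPoint (X.presheaf.stalk x)),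
    Scheme.fromSpecStalk_closedPoint]
  exact hU

theorem S1a_g_appLE {X : Scheme} [IsIntegral X] {L : Type} [Field L]
    (j : X.functionField →+* L) (U : X.Opens) (hU : genericPoint X ∈ U)
    (h : ⊤ ≤ S1a_g j ⁻¹ᵁ U) :
    (S1a_g j).appLE U ⊤ h ≫ (Scheme.ΓSpecIso (CommRingCat.of L)).hom =
      X.presheaf.germ U (genericPoint X) hU ≫ CommRingCat.ofHom j := by
  have hle := S1a_le (genericPoint X) (inferInstanceAs (Subsingleton (PrimeSpectrum X.functionField)))
    U hU
  have h1 : (S1a_g j).appLE U ⊤ h =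
      (X.fromSpecStalk (genericPoint X)).appLE U ⊤ hle ≫
        (Spec.map (CommRingCat.ofHom j)).appLE ⊤ ⊤ le_rfl := by
    exact (Scheme.Hom.appLE_comp_appLE _ _ _ _ _ _ _).symm
  rw [h1, Category.assoc]
  have h2 : (Spec.map (CommRingCat.ofHom j)).appLE ⊤ ⊤ le_rfl ≫
      (Scheme.ΓSpecIso (CommRingCat.of L)).hom =
      (Scheme.ΓSpecIso (X.presheaf.stalk (genericPoint X))).hom ≫ CommRingCat.ofHom j := by
    have := Scheme.ΓSpecIso_naturality (CommRingCat.ofHom j)
    rw [Scheme.Hom.appTop, Scheme.Hom.app_eq_appLE] at this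
    exact this
  exact (congrArg ((X.fromSpecStalk (genericPoint X)).appLE U ⊤ hle ≫ ·) h2).trans
    ((Category.assoc _ _ _).symm.trans
      (congrArg (· ≫ CommRingCat.ofHom j) (S1a_stalk_appLE X _ U hU hle)))

set_option backward.isDefEq.respectTransparency false in
theorem S1a_restrict {X Y : Scheme} (f : X ⟶ Y) [QuasiCompact f] [QuasiSeparated f]
    (P : MorphismProperty Scheme) [P.RespectsIso] (U : Y.affineOpens)
    (h : P (Spec.map (f.normalizationDiagramMap.app (.op U.1)))) :
    P (f.fromNormalization ∣_ U.1) := by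
  let e := IsOpenImmersion.isoOfRangeEq (f.fromNormalization ⁻¹ᵁ U).ι (f.normalizationOpenCover.f U)
      (by simpa using congr($(f.fromNormalization_preimage U).1))
  rw [← MorphismProperty.cancel_left_of_respectsIso P e.inv,
    ← MorphismProperty.cancel_right_of_respectsIso P _ U.2.isoSpec.hom]
  convert! h
  rw [← cancel_mono U.2.fromSpec]
  simp [IsAffineOpen.isoSpec_hom, e, Scheme.Hom.ι_fromNormalization]

/-- Transfer of `FinEt` along an isomorphism of the target. -/
theorem S1a_finEt {A L B : Type} [CommRing A] [Field L] [CommRing B] (φ : A →+* L) (ψ : A →+* B)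
    (e : B ≃+* L) (he : ∀ a, e (ψ a) = φ a) (h : FinEt φ) :
    letI := ψ.toAlgebra
    Module.Finite A (integralClosure A B) ∧ Algebra.Etale A (integralClosure A B) := by
  let _ := ψ.toAlgebra
  let _ := φ.toAlgebra
  obtain ⟨h1, h2⟩ := h
  let e' : L ≃ₐ[A] B := AlgEquiv.ofRingEquiv (f := e.symm) (by
    intro a
    rw [RingEquiv.symm_apply_eq]
    exact (he a).symm)
  exact ⟨Module.Finite.equiv (e'.mapIntegralClosure).toLinearEquiv,
    Algebra.Etale.of_equiv e'.mapIntegralClosure⟩

/-- Sections over an open containing the generic point. -/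
noncomputable def S1a_e {X : Scheme} [IsIntegral X] {L : Type} [Field L]
    (j : X.functionField →+* L) (U : X.Opens) (hU : genericPoint X ∈ U) :
    Γ(Spec (CommRingCat.of L), S1a_g j ⁻¹ᵁ U) ≅ CommRingCat.of L :=
  (Spec (CommRingCat.of L)).presheaf.mapIso (eqToIso (S1a_g_preimage j U hU).symm).op ≪≫
    Scheme.ΓSpecIso (CommRingCat.of L)

theorem S1a_e_comp {X : Scheme} [IsIntegral X] {L : Type} [Field L]
    (j : X.functionField →+* L) (U : X.Opens) (hU : genericPoint X ∈ U) :
    (S1a_g j).app U ≫ (S1a_e j U hU).hom =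
      X.presheaf.germ U (genericPoint X) hU ≫ CommRingCat.ofHom j := by
  rw [← S1a_g_appLE j U hU (by rw [S1a_g_preimage j U hU]), Scheme.Hom.appLE, Category.assoc]
  rfl

theorem S1a_e_apply {X : Scheme} [IsIntegral X] {L : Type} [Field L]
    (j : X.functionField →+* L) (U : X.Opens) (hU : genericPoint X ∈ U) (a : Γ(X, U)) :
    (S1a_e j U hU).commRingCatIsoToRingEquiv (((S1a_g j).app U).hom a) =
      (j.comp (X.presheaf.germ U (genericPoint X) hU).hom) a :=
  ConcreteCategory.congr_hom (S1a_e_comp j U hU) a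

theorem S1a_spec {A B : CommRingCat} (ψ : A ⟶ B)
    (h : letI := ψ.hom.toAlgebra
      Module.Finite A (integralClosure A B) ∧ Algebra.Etale A (integralClosure A B)) :
    letI := ψ.hom.toAlgebra
    IsFinite (Spec.map (CommRingCat.ofHom (algebraMap A (integralClosure A B)))) ∧
      Etale (Spec.map (CommRingCat.ofHom (algebraMap A (integralClosure A B)))) := by
  let _ := ψ.hom.toAlgebra
  refine ⟨?_, ?_⟩
  · rw [IsFinite.SpecMap_iff]
    exact RingHom.finite_algebraMap.2 h.1
  · rw [HasRingHomProperty.Spec_iff (P := @Etale)]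
    exact RingHom.etale_algebraMap.2 h.2

theorem S1a_local {X : Scheme} [IsIntegral X] {L : Type} [Field L]
    (j : X.functionField →+* L) (U : X.Opens) (hU : genericPoint X ∈ U)
    (h : FinEt (j.comp (X.presheaf.germ U (genericPoint X) hU).hom)) :
    IsFinite (Spec.map ((S1a_g j).normalizationDiagramMap.app (.op U))) ∧
      Etale (Spec.map ((S1a_g j).normalizationDiagramMap.app (.op U))) :=
  S1a_spec ((S1a_g j).app U) (S1a_finEt _ ((S1a_g j).app U).hom
    (S1a_e j U hU).commRingCatIsoToRingEquiv (S1a_e_apply j U hU) h)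

/-- The local hypothesis. -/
def S1a_Cov {X : Scheme} [IsIntegral X] {L : Type} [Field L]
    (j : X.functionField →+* L) : Prop :=
  ∀ x : X, ∃ (U : X.Opens) (_ : IsAffineOpen U) (hx : x ∈ U),
      FinEt (j.comp ((X.presheaf.germ U (genericPoint X)
        (((genericPoint_spec X).mem_open_set_iff U.isOpen).mpr (by simpa using ⟨x, hx⟩))).hom))

set_option backward.isDefEq.respectTransparency.types false in
theorem S1a_pi {X : Scheme} [IsIntegral X] {L : Type} [Field L]
    (j : X.functionField →+* L) [QuasiCompact (S1a_g j)] [QuasiSeparated (S1a_g j)]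
    (hcov : S1a_Cov j) :
    IsFinite (S1a_g j).fromNormalization ∧ Etale (S1a_g j).fromNormalization := by
  refine ⟨?_, ?_⟩
  · apply IsZariskiLocalAtTarget.of_forall_exists_morphismRestrict (P := @IsFinite)
    intro x
    obtain ⟨U, hU, hx, h⟩ := hcov x
    exact ⟨U, hx, S1a_restrict _ @IsFinite ⟨U, hU⟩ (S1a_local j U _ h).1⟩
  · apply IsZariskiLocalAtTarget.of_forall_exists_morphismRestrict (P := @Etale)
    intro x
    obtain ⟨U, hU, hx, h⟩ := hcov x
    exact ⟨U, hx, S1a_restrict _ @Etale ⟨U, hU⟩ (S1a_local j U _ h).2⟩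

open TensorProduct in
theorem S1a_domain (k : Type) [Field k] (n : ℕ) :
    IsDomain ((RF k n) ⊗[k] (AlgebraicClosure k)) := by
  let A := MvPolynomial (Fin n) k
  let S := AlgebraicClosure k
  let B := RF k n
  let e : A ⊗[k] S ≃ₐ[k] MvPolynomial (Fin n) S :=
    (Algebra.TensorProduct.comm k A S).trans
      ((MvPolynomial.algebraTensorAlgEquiv k S).restrictScalars k)
  have hA : IsDomain (A ⊗[k] S) := e.toMulEquiv.isDomain
  let φ : A ⊗[k] S →ₐ[A] B ⊗[k] S :=
    Algebra.TensorProduct.map (Algebra.ofId A B) (AlgHom.id k S)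
  let _ : Algebra (A ⊗[k] S) (B ⊗[k] S) := φ.toRingHom.toAlgebra
  have h1 : IsScalarTower A (A ⊗[k] S) (B ⊗[k] S) := by
    refine ⟨fun x y z => ?_⟩
    show φ (x • y) * z = x • (φ y * z)
    rw [map_smul, smul_mul_assoc]
  have h2 := IsLocalization.tensorProduct_tensorProduct k S (nonZeroDivisors A) B (by
    ext x
    show φ (1 ⊗ₜ x) = 1 ⊗ₜ x
    simp [φ])
  refine IsLocalization.isDomain_of_le_nonZeroDivisors (B ⊗[k] S) (M :=
    Algebra.algebraMapSubmonoid (A ⊗[k] S) (nonZeroDivisors A)) ?_
  rintro _ ⟨a, ha, rfl⟩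
  apply mem_nonZeroDivisors_of_ne_zero
  have hinj : Function.Injective (algebraMap A (A ⊗[k] S)) :=
    Algebra.TensorProduct.includeLeft_injective (S := A) (algebraMap k S).injective
  rw [Ne, map_eq_zero_iff _ hinj]
  exact nonZeroDivisors.ne_zero ha

noncomputable abbrev S1a_q (k : Type) [Field k] :
    Spec (CommRingCat.of (AlgebraicClosure k)) ⟶ Spec (CommRingCat.of k) :=
  Spec.map (CommRingCat.ofHom (algebraMap k (AlgebraicClosure k)))

theorem S1a_irr {α β : Type} [TopologicalSpace α] [TopologicalSpace β] (f : α → β)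
    (hf : Continuous f) (hd : DenseRange f) (h : IrreducibleSpace α) : IrreducibleSpace β := by
  rw [irreducibleSpace_def] at h ⊢
  have h4 := (h.image f hf.continuousOn).closure
  rw [Set.top_eq_univ, Set.image_univ, hd.closure_eq] at h4
  exact h4

theorem S1a_irred_source (k : Type) [Field k] (n : ℕ) :
    IrreducibleSpace ↥(pullback (Spec.map (CommRingCat.ofHom (algebraMap k (RF k n))))
      (S1a_q k)) := by
  have h := S1a_domain k n
  have h2 : IrreducibleSpace (Spec (CommRingCat.of (TensorProduct k (RF k n) (AlgebraicClosure k)))) :=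
    inferInstanceAs (IrreducibleSpace (PrimeSpectrum (TensorProduct k (RF k n) (AlgebraicClosure k))))
  have e := (pullbackSpecIso k (RF k n) (AlgebraicClosure k)).hom.homeomorph
  exact S1a_irr e.symm e.symm.continuous e.symm.surjective.denseRange h2

theorem S1a_conn (k : Type) [Field k] (n : ℕ) (Y : Scheme) (h : Y ⟶ Spec (CommRingCat.of k))
    (u : Spec (CommRingCat.of (RF k n)) ⟶ Y) [IsDominant u]
    (hu : u ≫ h = Spec.map (CommRingCat.ofHom (algebraMap k (RF k n)))) :
    IrreducibleSpace ↥(pullback h (S1a_q k)) := by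
  have h1 : IrreducibleSpace ↥(pullback u (pullback.fst h (S1a_q k))) := by
    have h2 := S1a_irred_source k n
    have e := (pullbackRightPullbackFstIso h (S1a_q k) u ≪≫
      pullback.congrHom hu rfl).hom.homeomorph
    exact S1a_irr e.symm e.symm.continuous e.symm.surjective.denseRange h2
  refine S1a_irr (pullback.snd u (pullback.fst h (S1a_q k)))
    (pullback.snd u (pullback.fst h (S1a_q k))).continuous ?_ h1
  show Dense (Set.range (pullback.snd u (pullback.fst h (S1a_q k))))
  rw [Scheme.Pullback.range_snd]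
  exact (u.denseRange).preimage (pullback.fst h (S1a_q k)).isOpenMap

set_option backward.isDefEq.respectTransparency.types false in
theorem S1a_iso {k : Type} [Field k] {X Y : Scheme} (f : X ⟶ Spec (CommRingCat.of k))
    (hsc : GeomSimplyConnected f) (π : Y ⟶ X) (h1 : IsFinite π) (h2 : Etale π)
    (hirr : IrreducibleSpace ↥(pullback (π ≫ f) (S1a_q k))) : IsIso π := by
  have hconn : ConnectedSpace ↥(pullback (pullback.fst f (S1a_q k)) π) := by
    have e := (pullbackSymmetry (pullback.fst f (S1a_q k)) π ≪≫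
      pullbackRightPullbackFstIso f (S1a_q k) π).hom.homeomorph
    have := S1a_irr e.symm e.symm.continuous e.symm.surjective.denseRange hirr
    infer_instance
  have h3 : IsFinite (pullback.fst (pullback.fst f (S1a_q k)) π) := inferInstance
  have h4 : Etale (pullback.fst (pullback.fst f (S1a_q k)) π) := inferInstance
  have h5 : IsIso (pullback.fst (pullback.fst f (S1a_q k)) π) := hsc _ _ h3 h4 hconn
  exact MorphismProperty.of_pullback_fst_of_descendsAlong
    (P := MorphismProperty.isomorphisms Scheme) (Q := @Surjective ⊓ @Flat ⊓ @QuasiCompact)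
    (f := pullback.fst f (S1a_q k)) (g := π) ⟨⟨inferInstance, inferInstance⟩, inferInstance⟩ h5

theorem S1a_fromSpecStalk {k : Type} [Field k] {X : Scheme} (f : X ⟶ Spec (CommRingCat.of k))
    (x : X) : X.fromSpecStalk x ≫ f = Spec.map (CommRingCat.ofHom (toStalk f x)) := by
  have h1 : f = X.toSpecΓ ≫ Spec.map ((Scheme.ΓSpecIso (CommRingCat.of k)).inv ≫ f.appTop) := by
    rw [Spec.map_comp, ← Scheme.toSpecΓ_naturality_assoc, ← SpecMap_ΓSpecIso_hom,
      ← Spec.map_comp, Iso.inv_hom_id, Spec.map_id, Category.comp_id]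
  conv_lhs => rw [h1]
  rw [Scheme.fromSpecStalk_toSpecΓ_assoc, ← Spec.map_comp, toStalk]
  simp

theorem S1a_alg {X Y : Scheme} (g : X ⟶ Y) [QuasiCompact g] [QuasiSeparated g]
    [IsIso g.fromNormalization] {U : Y.Opens} (hU : IsAffineOpen U) (b : Γ(X, g ⁻¹ᵁ U))
    (hb : (g.app U).hom.IsIntegralElem b) : ∃ a, (g.app U).hom a = b := by
  let _ := (g.app U).hom.toAlgebra
  have h1 := g.fromNormalization_app hU
  have h2 : IsIso (g.fromNormalization.app U ≫ (g.normalizationObjIso hU).hom) := inferInstance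
  rw [h1, Category.assoc, Iso.inv_hom_id, Category.comp_id] at h2
  have h3 : Function.Bijective (algebraMap Γ(Y, U) (integralClosure Γ(Y, U) Γ(X, g ⁻¹ᵁ U))) := by
    have := (ConcreteCategory.isIso_iff_bijective _).1 h2
    exact this
  obtain ⟨a, ha⟩ := h3.2 ⟨b, hb⟩
  exact ⟨a, congrArg Subtype.val ha⟩

theorem S1a_alg2 {X : Scheme} [IsIntegral X] {L : Type} [Field L]
    (j : X.functionField →+* L) [QuasiCompact (S1a_g j)] [QuasiSeparated (S1a_g j)]
    [IsIso (S1a_g j).fromNormalization] (U : X.Opens) (hU : IsAffineOpen U)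
    (hx : genericPoint X ∈ U) (l : L)
    (hl : (j.comp (X.presheaf.germ U (genericPoint X) hx).hom).IsIntegralElem l) :
    ∃ a, (j.comp (X.presheaf.germ U (genericPoint X) hx).hom) a = l := by
  let e := (S1a_e j U hx).commRingCatIsoToRingEquiv
  have he : ∀ a, e (((S1a_g j).app U).hom a) =
    (j.comp (X.presheaf.germ U (genericPoint X) hx).hom) a := S1a_e_apply j U hx
  obtain ⟨P, hP, hPl⟩ := hl
  have hint : ((S1a_g j).app U).hom.IsIntegralElem (e.symm l) := by
    refine ⟨P, hP, ?_⟩
    apply e.injective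
    have h1 : e (P.eval₂ ((S1a_g j).app U).hom (e.symm l)) =
        P.eval₂ ((e : _ →+* L).comp ((S1a_g j).app U).hom) (e (e.symm l)) :=
      Polynomial.hom_eval₂ P ((S1a_g j).app U).hom (e : _ →+* L) (e.symm l)
    rw [h1, RingEquiv.apply_symm_apply, map_zero]
    have h2 : (e : _ →+* L).comp ((S1a_g j).app U).hom =
        (j.comp (X.presheaf.germ U (genericPoint X) hx).hom) := RingHom.ext he
    rw [h2]
    exact hPl
  obtain ⟨a, ha⟩ := S1a_alg (S1a_g j) hU _ hint
  refine ⟨a, ?_⟩
  rw [← he, ha, RingEquiv.apply_symm_apply]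

theorem S1a_surj {X : Scheme} [IsIntegral X] {L : Type} [Field L]
    (j : X.functionField →+* L) (hfin : j.Finite) [QuasiCompact (S1a_g j)]
    [QuasiSeparated (S1a_g j)] [IsIso (S1a_g j).fromNormalization] (U : X.Opens)
    (hU : IsAffineOpen U) (hne : Nonempty U) :
    Function.Surjective j := by
  have hx : genericPoint X ∈ U :=
    ((genericPoint_spec X).mem_open_set_iff U.isOpen).mpr (by simpa using hne)
  have h1 := S1a_alg2 j U hU hx
  have hfr : IsFractionRing Γ(X, U) X.functionField :=
    functionField_isFractionRing_of_isAffineOpen X U hU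
  let _ : Algebra X.functionField L := j.toAlgebra
  let _ : Algebra Γ(X, U) L :=
    (j.comp (X.presheaf.germ U (genericPoint X) hx).hom).toAlgebra
  have hst : IsScalarTower Γ(X, U) X.functionField L := IsScalarTower.of_algebraMap_eq' rfl
  intro l
  have hl : IsIntegral X.functionField l := hfin.to_isIntegral l
  obtain ⟨⟨m, hm⟩, h2⟩ := IsIntegral.exists_multiple_integral_of_isLocalization
    (nonZeroDivisors Γ(X, U)) l hl
  obtain ⟨a, ha⟩ := h1 _ h2
  have hm0 : algebraMap Γ(X, U) X.functionField m ≠ 0 :=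
    IsLocalization.to_map_ne_zero_of_mem_nonZeroDivisors _ le_rfl hm
  refine ⟨algebraMap Γ(X, U) X.functionField a / algebraMap Γ(X, U) X.functionField m, ?_⟩
  have h3 : j (algebraMap Γ(X, U) X.functionField a) =
      j (algebraMap Γ(X, U) X.functionField m) * l := by
    refine ha.trans ?_
    rw [Submonoid.smul_def, Algebra.smul_def]
    rfl
  have hm1 : j (algebraMap Γ(X, U) X.functionField m) ≠ 0 := by
    rw [Ne, map_eq_zero]; exact hm0
  rw [map_div₀, h3, mul_div_cancel_left₀ _ hm1]

/-- A finite etale normalization in `L` forces `L = K` when `L` embeds in a rational function field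
and `X` is geometrically simply connected. -/
theorem surjective_of_finEt {k : Type} [Field k] {X : Scheme} (f : X ⟶ Spec (CommRingCat.of k))
    [CharZero k] [IsIntegral X] [Smooth f] [IsSeparated f] [QuasiCompact f]
    (hsc : GeomSimplyConnected f) (L : Type) [Field L] (j : X.functionField →+* L)
    (hjfin : j.Finite) (n : ℕ) (ι : L →+* RF k n)
    (hk : ∀ c : k, ι (j (toStalk f (genericPoint X) c)) = algebraMap k (RF k n) c)
    (hcov : ∀ x : X, ∃ (U : X.Opens) (_ : IsAffineOpen U) (hx : x ∈ U),
      FinEt (j.comp ((X.presheaf.germ U (genericPoint X)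
        (((genericPoint_spec X).mem_open_set_iff U.isOpen).mpr (by simpa using ⟨x, hx⟩))).hom))) :
    Function.Surjective j := by
  have hgf : S1a_g j ≫ f = Spec.map (CommRingCat.ofHom (j.comp (toStalk f (genericPoint X)))) := by
    rw [S1a_g, Category.assoc, S1a_fromSpecStalk, ← Spec.map_comp]
    rfl
  have hqs : QuasiSeparated (S1a_g j) := by
    have : QuasiSeparated (S1a_g j ≫ f) := by rw [hgf]; infer_instance
    exact QuasiSeparated.of_comp (S1a_g j) f
  have hqc : QuasiCompact (S1a_g j) := by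
    have : QuasiCompact (S1a_g j ≫ f) := by rw [hgf]; infer_instance
    exact MorphismProperty.of_postcomp (W := @QuasiCompact) (W' := @QuasiSeparated)
      (S1a_g j) f inferInstance this
  obtain ⟨h1, h2⟩ := S1a_pi j hcov
  have hdom : IsDominant (Spec.map (CommRingCat.ofHom ι) ≫ (S1a_g j).toNormalization) := by
    have h3 : Surjective (Spec.map (CommRingCat.ofHom ι)) := inferInstance
    infer_instance
  have hu : (Spec.map (CommRingCat.ofHom ι) ≫ (S1a_g j).toNormalization) ≫
      (S1a_g j).fromNormalization ≫ f = Spec.map (CommRingCat.ofHom (algebraMap k (RF k n))) := by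
    rw [Category.assoc, Scheme.Hom.toNormalization_fromNormalization_assoc, hgf, ← Spec.map_comp]
    congr 1
    ext c
    exact hk c
  have hirr := S1a_conn k n _ ((S1a_g j).fromNormalization ≫ f) _ hu
  have hiso := S1a_iso f hsc (S1a_g j).fromNormalization h1 h2 hirr
  obtain ⟨U, hU, hx, _⟩ := hcov (genericPoint X)
  exact S1a_surj j hjfin U hU ⟨_, hx⟩

end Pool.Agent.LibHP
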