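import Pool.Agent.LibHP.S2
import Pool.Agent.LibHP.H9

set_option autoImplicit false
open AlgebraicGeometry CategoryTheory

namespace Pool.Agent.LibHP

section fun_field

variable {X Y : Scheme} [IsIntegral X] [IsIntegral Y] (π : Y ⟶ X)

theorem map_genericPoint_of_surjective [Surjective π] : π (genericPoint Y) = genericPoint X := by
  have h1 := (genericPoint_spec Y).image π.continuous
  have h2 : closure (π '' Set.univ) = Set.univ := by
    rw [Set.image_univ, π.surjective.range_eq, closure_univ]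
  rw [h2] at h1
  exact h1.eq (genericPoint_spec X)

/-- The map on function fields. -/
noncomputable def kap [Surjective π] : X.functionField →+* Y.functionField :=
  (X.presheaf.stalkSpecializes (by rw [map_genericPoint_of_surjective π] :
    π (genericPoint Y) ⤳ genericPoint X) ≫ π.stalkMap (genericPoint Y)).hom

theorem kap_germ [Surjective π] (U : X.Opens) (h1 : genericPoint X ∈ U)
    (h2 : genericPoint Y ∈ π ⁻¹ᵁ U) (s : Γ(X, U)) :
    kap π (X.presheaf.germ U _ h1 s) = Y.presheaf.germ (π ⁻¹ᵁ U) _ h2 (π.app U s) := by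
  rw [kap, ← CommRingCat.comp_apply, TopCat.Presheaf.germ_stalkSpecializes_assoc,
    π.germ_stalkMap]
  rfl

theorem genericPoint_mem (U : X.Opens) (x : X) (hx : x ∈ U) : genericPoint X ∈ U :=
  ((genericPoint_spec X).mem_open_set_iff U.isOpen).mpr (by simpa using ⟨x, hx⟩)

theorem genericPoint_mem_preimage [Surjective π] (U : X.Opens) (h1 : genericPoint X ∈ U) :
    genericPoint Y ∈ π ⁻¹ᵁ U := by
  rw [Scheme.Hom.mem_preimage, map_genericPoint_of_surjective π]; exact h1

/-- Elements of `Γ(Y, π⁻¹ V)` whose germ is in the image of the function field of `X` come from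
`Γ(X, V)`. -/
theorem app_surjective_of_kap [Surjective π] [IsFinite π] (V : X.Opens) (hV : IsAffineOpen V)
    (h1 : genericPoint X ∈ V) [IsIntegrallyClosed Γ(X, V)]
    (hk : Function.Surjective (kap π)) : Function.Surjective (π.app V) := by
  intro c
  have h2 := genericPoint_mem_preimage π V h1
  obtain ⟨z, hz⟩ := hk (Y.presheaf.germ (π ⁻¹ᵁ V) _ h2 c)
  have : Nonempty V := ⟨⟨_, h1⟩⟩
  have := functionField_isFractionRing_of_isAffineOpen X V hV
  have hint : (π.app V).hom.IsIntegral := (IsFinite.finite_app π V hV).to_isIntegral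
  obtain ⟨P, hP, hPc⟩ := hint c
  have hz2 : IsIntegral Γ(X, V) z := by
    refine ⟨P, hP, ?_⟩
    apply (kap π).injective
    rw [map_zero, Polynomial.hom_eval₂, hz]
    have h3 : (kap π).comp (algebraMap Γ(X, V) X.functionField) =
        (Y.presheaf.germ (π ⁻¹ᵁ V) _ h2).hom.comp (π.app V).hom := by
      ext s
      exact kap_germ π V h1 h2 s
    rw [h3, ← Polynomial.hom_eval₂, hPc, map_zero]
  obtain ⟨a, ha⟩ := (IsIntegrallyClosed.isIntegral_iff (R := Γ(X, V)) (K := X.functionField)).mp hz2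
  refine ⟨a, ?_⟩
  apply germ_injective_of_isIntegral Y _ h2
  rw [← hz, ← ha, ← kap_germ π V h1 h2]
  rfl

/-- If all sections over one affine open have germs in the image of the function field of `X`
then the function fields agree. -/
theorem kap_surjective_of_sections [Surjective π] [IsFinite π] (U : X.Opens) (hU : IsAffineOpen U)
    (h1 : genericPoint X ∈ U)
    (h : ∀ b : Γ(Y, π ⁻¹ᵁ U), ∃ z, kap π z =
      Y.presheaf.germ (π ⁻¹ᵁ U) _ (genericPoint_mem_preimage π U h1) b) :
    Function.Surjective (kap π) := by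
  intro y
  have h2 := genericPoint_mem_preimage π U h1
  have : Nonempty (π ⁻¹ᵁ U : Y.Opens) := ⟨⟨_, h2⟩⟩
  have := functionField_isFractionRing_of_isAffineOpen Y (π ⁻¹ᵁ U) (hU.preimage π)
  obtain ⟨b1, b2, hb, rfl⟩ := IsFractionRing.div_surjective (A := Γ(Y, π ⁻¹ᵁ U)) y
  obtain ⟨z1, hz1⟩ := h b1
  obtain ⟨z2, hz2⟩ := h b2
  refine ⟨z1 / z2, ?_⟩
  rw [map_div₀, hz1, hz2]
  rfl

/-- A finite surjective morphism to a normal scheme which is an isomorphism on function fields is
an isomorphism. -/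
theorem isIso_of_kap [Surjective π] [IsFinite π]
    (hnorm : ∀ x : X, ∃ V : X.Opens, IsAffineOpen V ∧ x ∈ V ∧ IsIntegrallyClosed Γ(X, V))
    (hk : Function.Surjective (kap π)) : IsIso π := by
  have : IsClosedImmersion π := by
    choose V hV hx hc using hnorm
    have hsup : (⨆ x, V x) = ⊤ := by
      ext x
      simpa using ⟨x, hx x⟩
    rw [HasAffineProperty.iff_of_iSup_eq_top (P := @IsClosedImmersion)
      (fun x => (⟨V x, hV x⟩ : X.affineOpens)) hsup]
    intro x
    refine ⟨(hV x).preimage π, ?_⟩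
    have h1 : genericPoint X ∈ V x := genericPoint_mem _ x (hx x)
    have := hc x
    have h2 := app_surjective_of_kap π (V x) (hV x) h1 hk
    rw [morphismRestrict_appTop]
    have h3 : Function.Surjective (π.app ((V x).ι ''ᵁ ⊤)) := by
      rw [Scheme.Opens.ι_image_top]; exact h2
    have h4 : Function.Surjective
        (Y.presheaf.map (eqToHom (image_morphismRestrict_preimage π (V x) ⊤)).op) :=
      ((ConcreteCategory.isIso_iff_bijective _).mp inferInstance).2
    exact h4.comp h3
  exact isIso_of_isClosedImmersion_of_surjective π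

/-- For a finite surjective morphism onto a normal scheme which is not an isomorphism, there are
sections over any nonempty affine open that do not come from the function field. -/
theorem exists_section_not_mem [Surjective π] [IsFinite π]
    (hnorm : ∀ x : X, ∃ V : X.Opens, IsAffineOpen V ∧ x ∈ V ∧ IsIntegrallyClosed Γ(X, V))
    (hiso : ¬ IsIso π) (U : X.Opens) (hU : IsAffineOpen U) (h1 : genericPoint X ∈ U) :
    ∃ b : Γ(Y, π ⁻¹ᵁ U), ∀ z, kap π z ≠
      Y.presheaf.germ (π ⁻¹ᵁ U) _ (genericPoint_mem_preimage π U h1) b := by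
  by_contra hcon
  push Not at hcon
  exact hiso (isIso_of_kap π hnorm (kap_surjective_of_sections π U hU h1 hcon))

/-- Existence of an integral equation without roots in the function field. -/
theorem exists_poly [Surjective π] [IsFinite π]
    (hnorm : ∀ x : X, ∃ V : X.Opens, IsAffineOpen V ∧ x ∈ V ∧ IsIntegrallyClosed Γ(X, V))
    (hiso : ¬ IsIso π) (U : X.Opens) (hU : IsAffineOpen U) (h1 : genericPoint X ∈ U)
    (hic : IsIntegrallyClosed Γ(X, U)) :
    ∃ (P : Polynomial Γ(X, U)) (b : Γ(Y, π ⁻¹ᵁ U)), P.Monic ∧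
      P.eval₂ (π.app U).hom b = 0 ∧
      ∀ z : X.functionField, P.eval₂ (X.presheaf.germ U _ h1).hom z ≠ 0 := by
  obtain ⟨b, hb⟩ := exists_section_not_mem π hnorm hiso U hU h1
  have h2 := genericPoint_mem_preimage π U h1
  have hne : Nonempty U := ⟨⟨_, h1⟩⟩
  have hfr := functionField_isFractionRing_of_isAffineOpen X U hU
  have hint : (π.app U).hom.IsIntegral := (IsFinite.finite_app π U hU).to_isIntegral
  let _ : Algebra X.functionField Y.functionField := (kap π).toAlgebra
  let _ : Algebra Γ(X, U) Y.functionField :=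
    ((Y.presheaf.germ (π ⁻¹ᵁ U) _ h2).hom.comp (π.app U).hom).toAlgebra
  have : IsScalarTower Γ(X, U) X.functionField Y.functionField := by
    apply IsScalarTower.of_algebraMap_eq
    intro s
    exact (kap_germ π U h1 h2 s).symm
  let x := Y.presheaf.germ (π ⁻¹ᵁ U) _ h2 b
  have hx : IsIntegral Γ(X, U) x := by
    obtain ⟨P, hP, hPb⟩ := hint b
    refine ⟨P, hP, ?_⟩
    change P.eval₂ ((Y.presheaf.germ (π ⁻¹ᵁ U) _ h2).hom.comp (π.app U).hom)
      ((Y.presheaf.germ (π ⁻¹ᵁ U) _ h2).hom b) = 0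
    rw [← Polynomial.hom_eval₂, hPb, map_zero]
  have hmin : minpoly X.functionField x =
      (minpoly Γ(X, U) x).map (algebraMap Γ(X, U) X.functionField) :=
    minpoly.isIntegrallyClosed_eq_field_fractions' X.functionField hx
  refine ⟨minpoly Γ(X, U) x, b, minpoly.monic hx, ?_, ?_⟩
  · apply germ_injective_of_isIntegral Y _ h2
    rw [map_zero]
    have h3 := minpoly.aeval Γ(X, U) x
    rw [Polynomial.aeval_def] at h3
    refine Eq.trans ?_ h3
    exact Polynomial.hom_eval₂ _ _ (Y.presheaf.germ (π ⁻¹ᵁ U) _ h2).hom _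
  · intro z hz
    have hx' : IsIntegral X.functionField x := hx.tower_top
    have hroot : (minpoly X.functionField x).IsRoot z := by
      rw [hmin, Polynomial.IsRoot.def, Polynomial.eval_map]
      exact hz
    have hdeg := Polynomial.degree_eq_one_of_irreducible_of_root (minpoly.irreducible hx') hroot
    have h4 := (minpoly.mem_range_of_degree_eq_one X.functionField x hdeg)
    obtain ⟨w, hw⟩ := h4
    exact hb w hw

end fun_field

section points

variable {k : Type} [Field k] {X Y : Scheme} (f : X ⟶ Spec (CommRingCat.of k))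

/-- The structure map from the base field to the sections over `U`. -/
noncomputable def toSec (U : X.Opens) : k →+* Γ(X, U) :=
  ((Scheme.ΓSpecIso (CommRingCat.of k)).inv ≫ f.appLE ⊤ U le_top).hom

theorem point_comp (U : X.Opens) (hU : IsAffineOpen U) (φ : Γ(X, U) →+* k)
    (hφ : ∀ c, φ (toSec f U c) = c) :
    (Spec.map (CommRingCat.ofHom φ) ≫ hU.fromSpec : Spec (CommRingCat.of k) ⟶ X) ≫ f = 𝟙 _ := by
  have h : (Scheme.ΓSpecIso (CommRingCat.of k)).inv ≫ f.appLE ⊤ U le_top ≫ CommRingCat.ofHom φ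
      = 𝟙 _ := by
    ext c
    exact hφ c
  rw [Category.assoc, ← IsAffineOpen.SpecMap_appLE_fromSpec f (isAffineOpen_top _) hU le_top,
    IsAffineOpen.fromSpec_top, Scheme.isoSpec_Spec_inv, ← Spec.map_comp, ← Spec.map_comp]
  rw [← Spec.map_id, ← h]
  rfl

theorem preimage_eq_top (U : X.Opens) (hU : IsAffineOpen U) (φ : Γ(X, U) →+* k) :
    (Spec.map (CommRingCat.ofHom φ) ≫ hU.fromSpec : Spec (CommRingCat.of k) ⟶ X) ⁻¹ᵁ U = ⊤ := by
  rw [Scheme.Hom.comp_preimage, hU.fromSpec_preimage_self]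
  rfl

theorem point_appLE (U : X.Opens) (hU : IsAffineOpen U) (φ : Γ(X, U) →+* k)
    (h : ⊤ ≤ (Spec.map (CommRingCat.ofHom φ) ≫ hU.fromSpec : Spec (CommRingCat.of k) ⟶ X) ⁻¹ᵁ U) :
    (Spec.map (CommRingCat.ofHom φ) ≫ hU.fromSpec : Spec (CommRingCat.of k) ⟶ X).appLE U ⊤ h ≫
      (Scheme.ΓSpecIso (CommRingCat.of k)).hom = CommRingCat.ofHom φ := by
  rw [Scheme.Hom.comp_appLE, IsAffineOpen.fromSpec_app_self, Category.assoc, Category.assoc,
    Scheme.Hom.map_appLE_assoc]
  have h2 := Scheme.ΓSpecIso_naturality (CommRingCat.ofHom φ)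
  rw [Iso.inv_comp_eq]
  refine Eq.trans ?_ h2
  congr 1

theorem exists_lift_of_point (π : Y ⟶ X) (U : X.Opens) (hU : IsAffineOpen U) (φ : Γ(X, U) →+* k)
    (t : Spec (CommRingCat.of k) ⟶ Y) (ht : t ≫ π = Spec.map (CommRingCat.ofHom φ) ≫ hU.fromSpec) :
    ∃ τ : Γ(Y, π ⁻¹ᵁ U) →+* k, τ.comp (π.app U).hom = φ := by
  have h1 : ⊤ ≤ (t ≫ π) ⁻¹ᵁ U := by
    rw [ht, preimage_eq_top]
  have h2 : ⊤ ≤ t ⁻¹ᵁ (π ⁻¹ᵁ U) := h1
  refine ⟨(t.appLE (π ⁻¹ᵁ U) ⊤ h2 ≫ (Scheme.ΓSpecIso (CommRingCat.of k)).hom).hom, ?_⟩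
  have h3 : π.app U ≫ t.appLE (π ⁻¹ᵁ U) ⊤ h2 ≫ (Scheme.ΓSpecIso (CommRingCat.of k)).hom =
      CommRingCat.ofHom φ := by
    rw [← Category.assoc, ← Scheme.Hom.comp_appLE t π U ⊤ h1]
    rw [← point_appLE U hU φ (by rw [← ht]; exact h1)]
    congr 1
    simp only [ht]
  exact congrArg CommRingCat.Hom.hom h3

end points

/-- The Hilbert property from an embedding of the function field which is algebraically closed in
a rational function field. -/
theorem hilbertProp_of_embedding (k : Type) [Field k] [NumberField k] {X : Scheme}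
    (f : X ⟶ Spec (CommRingCat.of k)) [IsIntegral X] [Smooth f] (n : ℕ)
    (F : X.functionField →+* RF k n)
    (hk : ∀ c : k, F (toStalk f (genericPoint X) c) = algebraMap k (RF k n) c)
    (hcl : ∀ e : RF k n, (∃ P : Polynomial X.functionField, P ≠ 0 ∧ P.eval₂ F e = 0) →
      ∃ a, F a = e) : HilbertProp f := by
  intro m Y π hY hfin hsurj hiso
  rw [dense_iff_inter_open]
  rintro U hUo ⟨x, hxU⟩
  -- normality
  have hnorm : ∀ x : X, ∃ V : X.Opens, IsAffineOpen V ∧ x ∈ V ∧ IsIntegrallyClosed Γ(X, V) := by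
    intro x
    obtain ⟨V, hV, hxV, d, ψ, hψ⟩ := exists_etale_chart f x
    refine ⟨V, hV, hxV, ?_⟩
    have hne : Nonempty V := ⟨⟨_, hxV⟩⟩
    let _ := ψ.toAlgebra
    have : Algebra.Etale (MvPolynomial (Fin d) k) Γ(X, V) := hψ
    exact isIntegrallyClosed_of_etale k d Γ(X, V)
  obtain ⟨V, hV, hxV, hVc⟩ := hnorm x
  obtain ⟨g, hgU, hxg⟩ := hV.exists_basicOpen_le (V := ⟨U, hUo⟩) ⟨x, hxU⟩ hxV
  have hW : IsAffineOpen (X.basicOpen g) := hV.basicOpen g
  have hneV : Nonempty V := ⟨⟨_, hxV⟩⟩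
  have hneW : Nonempty (X.basicOpen g) := ⟨⟨_, hxg⟩⟩
  have hWc : IsIntegrallyClosed Γ(X, X.basicOpen g) := by
    have := hV.isLocalization_basicOpen g
    refine isIntegrallyClosed_of_isLocalization (R := Γ(X, V)) _ (Submonoid.powers g) ?_
    refine powers_le_nonZeroDivisors_of_noZeroDivisors ?_
    rintro rfl
    simp at hxg
  generalize X.basicOpen g = W at hgU hxg hW hneW hWc
  clear hneV hVc hxV hV g V
  have h1 : genericPoint X ∈ W := genericPoint_mem W x hxg
  -- equations
  have hP : ∀ i, ∃ (P : Polynomial Γ(X, W)) (b : Γ(Y i, π i ⁻¹ᵁ W)), P.Monic ∧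
      P.eval₂ ((π i).app W).hom b = 0 ∧
      ∀ z : X.functionField, P.eval₂ (X.presheaf.germ W _ h1).hom z ≠ 0 := by
    intro i
    have := hY i
    have := hfin i
    have := hsurj i
    exact exists_poly (π i) hnorm (hiso i) W hW h1 hWc
  choose P b hPm hPb hPz using hP
  -- the algebra
  let _ : Algebra k Γ(X, W) := (toSec f W).toAlgebra
  have hft : Algebra.FiniteType k Γ(X, W) := by
    have h2 : (toSec f W).FiniteType := by
      refine RingHom.FiniteType.comp (g := (f.appLE ⊤ W le_top).hom)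
        (f.finiteType_appLE (isAffineOpen_top _) hW le_top) ?_
      exact RingHom.FiniteType.of_surjective _
        ((ConcreteCategory.isIso_iff_bijective
          (Scheme.ΓSpecIso (CommRingCat.of k)).inv).mp inferInstance).2
    exact h2
  let FA : Γ(X, W) →ₐ[k] RF k n :=
    { toRingHom := F.comp (X.presheaf.germ W _ h1).hom
      commutes' := by
        intro c
        rw [← hk c]
        change F (X.presheaf.germ W _ h1 (toSec f W c)) = F (toStalk f _ c)
        congr 1
        have h3 : f.appLE ⊤ W le_top ≫ X.presheaf.germ W _ h1 =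
            f.appTop ≫ X.presheaf.germ ⊤ _ trivial := by
          rw [Scheme.Hom.appLE, Category.assoc, TopCat.Presheaf.germ_res]
          rfl
        exact congrArg (fun q => q ((Scheme.ΓSpecIso (CommRingCat.of k)).inv c)) h3 }
  obtain ⟨φ, hφ⟩ := exists_point_of_hom k n Γ(X, W) FA P hPm (by
    intro i r hr
    have hr2 : ((P i).map (X.presheaf.germ W _ h1).hom).eval₂ F r = 0 := by
      rw [Polynomial.eval₂_map]
      rw [Polynomial.IsRoot.def, Polynomial.eval_map] at hr
      exact hr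
    obtain ⟨z, hz⟩ := hcl r ⟨_, ((hPm i).map _).ne_zero, hr2⟩
    apply hPz i z
    apply F.injective
    rw [map_zero, Polynomial.hom_eval₂, hz, ← Polynomial.eval₂_map]
    exact hr2)
  -- the point
  refine ⟨(Spec.map (CommRingCat.ofHom (φ : Γ(X, W) →+* k)) ≫ hW.fromSpec :
    Spec (CommRingCat.of k) ⟶ X) (IsLocalRing.closedPoint k), ?_, ?_⟩
  · apply hgU
    have h4 := preimage_eq_top W hW (φ : Γ(X, W) →+* k)
    have h5 : (IsLocalRing.closedPoint k) ∈
      (Spec.map (CommRingCat.ofHom (φ : Γ(X, W) →+* k)) ≫ hW.fromSpec :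
        Spec (CommRingCat.of k) ⟶ X) ⁻¹ᵁ W := by
      rw [h4]; trivial
    exact h5
  · refine ⟨_, point_comp f W hW (φ : Γ(X, W) →+* k) (fun c => φ.commutes c), ⟨_, rfl⟩, ?_⟩
    intro i t ht
    obtain ⟨τ, hτ⟩ := exists_lift_of_point (π i) W hW (φ : Γ(X, W) →+* k) t ht
    apply hφ i (τ (b i))
    rw [Polynomial.IsRoot.def, Polynomial.eval_map, ← hτ, ← Polynomial.hom_eval₂, hPb i, map_zero]

end Pool.Agent.LibHP
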