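import Pool.Agent.LibHP.S1
import Pool.Agent.LibHP.S1b
import Pool.Agent.LibHP.S2

set_option autoImplicit false
open AlgebraicGeometry CategoryTheory Polynomial

namespace Pool.Agent.LibHP

/-- First main theorem: unirational version. -/
theorem main_unirational (k : Type) [Field k] [NumberField k] {X : Scheme}
    (f : X ⟶ Spec (CommRingCat.of k)) [IsIntegral X] [Smooth f] [IsSeparated f] [QuasiCompact f]
    (hsc : GeomSimplyConnected f)
    (n0 : ℕ) (F0 : X.functionField →+* RF k n0)
    (hk0 : ∀ c : k, F0 (toStalk f (genericPoint X) c) = algebraMap k (RF k n0) c)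
    (hcurves : ∀ x : X, ringKrullDim (X.presheaf.stalk x) = 1 →
        ∀ l : ℕ, l.Prime → ∃ m : ℕ, ¬ l ∣ m ∧ CurveMeets f x m) :
    HilbertProp f := by
  let : Algebra k X.functionField := (toStalk f (genericPoint X)).toAlgebra
  let F1 : X.functionField →ₐ[k] RF k n0 := { toRingHom := F0, commutes' := hk0 }
  obtain ⟨L, _, hA, n, ι, hfd, hcl, hιk, hlift⟩ := exists_liftable k X.functionField n0 F1
  let j : X.functionField →+* L := algebraMap _ L
  have hjfin : j.Finite := by
    rw [RingHom.finite_algebraMap]; exact hfd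
  have hpres : ∀ x : X, ringKrullDim (X.presheaf.stalk x) = 1 → PresAt j x := by
    intro x hx
    exact presAt_of_curves f j hjfin x hx (hcurves x hx) hlift
  have hsurj : Function.Surjective j := by
    refine surjective_of_finEt f hsc L j hjfin n ι hιk ?_
    intro x
    obtain ⟨U, hU, hx, m, ψ, hψ⟩ := exists_etale_chart f x
    exact ⟨U, hU, hx, finEt_of_presAt j hjfin hpres x U hU hx m ψ hψ⟩
  refine hilbertProp_of_embedding k f n (ι.comp j) hιk ?_
  intro e he
  obtain ⟨P, hP, hPe⟩ := he
  obtain ⟨l, rfl⟩ := hcl e ⟨P.map j, (Polynomial.map_ne_zero_iff j.injective).mpr hP, by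
    rw [Polynomial.eval₂_map]; exact hPe⟩
  obtain ⟨a, rfl⟩ := hsurj l
  exact ⟨a, rfl⟩

end Pool.Agent.LibHP
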