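import Pool.Agent.LibHP.F1
import Pool.Agent.LibHP.F2

set_option autoImplicit false
set_option linter.unusedSectionVars false
open Polynomial TensorProduct

namespace Pool.Agent.LibHP

section Spec

variable {k A K : Type} [Field k] [CommRing A] [IsDomain A] [Field K] [Algebra A K]
  [IsFractionRing A K] {r : ℕ}

/-- polynomials over `A` as rational functions over `K` -/
noncomputable def inclM (A K : Type) [CommRing A] [Field K] [Algebra A K] (r : ℕ) :
    MvPolynomial (Fin r) A →+* RF K r :=
  (algebraMap (MvPolynomial (Fin r) K) (RF K r)).comp (MvPolynomial.map (algebraMap A K))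

/-- specialization of polynomials over `A` -/
noncomputable def specM (r : ℕ) (φ : A →+* k) : MvPolynomial (Fin r) A →+* RF k r :=
  (algebraMap (MvPolynomial (Fin r) k) (RF k r)).comp (MvPolynomial.map φ)

/-- `h` is the specialization of `f` -/
def SpecRel (φ : A →+* k) (f : RF K r) (h : RF k r) : Prop :=
  ∃ p q : MvPolynomial (Fin r) A, specM r φ q ≠ 0 ∧ f * inclM A K r q = inclM A K r p ∧
    h * specM r φ q = specM r φ p

theorem inclM_injective : Function.Injective (inclM A K r) := by
  unfold inclM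
  rw [RingHom.coe_comp]
  exact (IsFractionRing.injective (MvPolynomial (Fin r) K) (RF K r)).comp
    (MvPolynomial.map_injective _ (IsFractionRing.injective A K))

theorem specM_eq_zero_iff (φ : A →+* k) (q : MvPolynomial (Fin r) A) :
    specM r φ q = 0 ↔ MvPolynomial.map φ q = 0 := by
  unfold specM
  rw [RingHom.comp_apply, map_eq_zero_iff _ (IsFractionRing.injective _ _)]

theorem specM_ne_zero_of_coeff (φ : A →+* k) (q : MvPolynomial (Fin r) A) (m : Fin r →₀ ℕ)
    (h : φ (q.coeff m) ≠ 0) : specM r φ q ≠ 0 := by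
  rw [Ne, specM_eq_zero_iff]
  intro h0
  apply h
  rw [← MvPolynomial.coeff_map, h0, MvPolynomial.coeff_zero]

theorem SpecRel.unique {φ : A →+* k} {f : RF K r} {h h' : RF k r} (h1 : SpecRel φ f h)
    (h2 : SpecRel φ f h') : h = h' := by
  obtain ⟨p, q, hq, e1, e2⟩ := h1
  obtain ⟨p', q', hq', e1', e2'⟩ := h2
  have h3 : p * q' = p' * q := by
    apply inclM_injective (K := K)
    rw [map_mul, map_mul, ← e1, ← e1']
    ring
  have h4 := congrArg (specM r φ) h3
  rw [map_mul, map_mul, ← e2, ← e2'] at h4
  have h5 : (h - h') * (specM r φ q * specM r φ q') = 0 := by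
    linear_combination h4
  rcases mul_eq_zero.mp h5 with h6 | h6
  · exact sub_eq_zero.mp h6
  · exact absurd h6 (mul_ne_zero hq hq')

theorem SpecRel.of_poly (φ : A →+* k) (p : MvPolynomial (Fin r) A) :
    SpecRel (K := K) φ (inclM A K r p) (specM r φ p) :=
  ⟨p, 1, by rw [map_one]; exact one_ne_zero, by rw [map_one, mul_one], by rw [map_one, mul_one]⟩

theorem SpecRel.add {φ : A →+* k} {f f' : RF K r} {h h' : RF k r} (h1 : SpecRel φ f h)
    (h2 : SpecRel φ f' h') : SpecRel φ (f + f') (h + h') := by
  obtain ⟨p, q, hq, e1, e2⟩ := h1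
  obtain ⟨p', q', hq', e1', e2'⟩ := h2
  refine ⟨p * q' + p' * q, q * q', ?_, ?_, ?_⟩
  · rw [map_mul]
    exact mul_ne_zero hq hq'
  · rw [map_mul, map_add, map_mul, map_mul, ← e1, ← e1']
    ring
  · rw [map_mul, map_add, map_mul, map_mul, ← e2, ← e2']
    ring

theorem SpecRel.mul {φ : A →+* k} {f f' : RF K r} {h h' : RF k r} (h1 : SpecRel φ f h)
    (h2 : SpecRel φ f' h') : SpecRel φ (f * f') (h * h') := by
  obtain ⟨p, q, hq, e1, e2⟩ := h1
  obtain ⟨p', q', hq', e1', e2'⟩ := h2
  refine ⟨p * p', q * q', ?_, ?_, ?_⟩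
  · rw [map_mul]
    exact mul_ne_zero hq hq'
  · rw [map_mul, map_mul, ← e1, ← e1']
    ring
  · rw [map_mul, map_mul, ← e2, ← e2']
    ring

theorem SpecRel.const (φ : A →+* k) (a : A) :
    SpecRel (K := K) (r := r) φ (algebraMap K (RF K r) (algebraMap A K a))
      (algebraMap k (RF k r) (φ a)) := by
  have h1 : inclM A K r (MvPolynomial.C a) = algebraMap K (RF K r) (algebraMap A K a) := by
    unfold inclM
    rw [RingHom.comp_apply, MvPolynomial.map_C]
    rfl
  have h2 : specM r φ (MvPolynomial.C a) = algebraMap k (RF k r) (φ a) := by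
    unfold specM
    rw [RingHom.comp_apply, MvPolynomial.map_C]
    rfl
  rw [← h1, ← h2]
  exact SpecRel.of_poly φ _

theorem SpecRel.X (φ : A →+* k) (j : Fin r) :
    SpecRel (K := K) φ (algebraMap (MvPolynomial (Fin r) K) (RF K r) (MvPolynomial.X j))
      (algebraMap (MvPolynomial (Fin r) k) (RF k r) (MvPolynomial.X j)) := by
  have h1 : inclM A K r (MvPolynomial.X j) =
      algebraMap (MvPolynomial (Fin r) K) (RF K r) (MvPolynomial.X j) := by
    unfold inclM
    rw [RingHom.comp_apply, MvPolynomial.map_X]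
  have h2 : specM r φ (MvPolynomial.X j) =
      algebraMap (MvPolynomial (Fin r) k) (RF k r) (MvPolynomial.X j) := by
    unfold specM
    rw [RingHom.comp_apply, MvPolynomial.map_X]
  rw [← h1, ← h2]
  exact SpecRel.of_poly φ _

/-- every rational function over `K` is a quotient of polynomials over `A` -/
theorem exists_quotient (f : RF K r) : ∃ p q : MvPolynomial (Fin r) A, q ≠ 0 ∧
    f * inclM A K r q = inclM A K r p := by
  have clear : ∀ P : MvPolynomial (Fin r) K, ∃ (d : A) (p : MvPolynomial (Fin r) A), d ≠ 0 ∧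
      P * MvPolynomial.map (algebraMap A K) (MvPolynomial.C d) =
        MvPolynomial.map (algebraMap A K) p := by
    intro P
    induction P using MvPolynomial.induction_on with
    | C a =>
      obtain ⟨x, y, hy, hxy⟩ := IsFractionRing.div_surjective (A := A) a
      refine ⟨y, MvPolynomial.C x, nonZeroDivisors.ne_zero hy, ?_⟩
      rw [MvPolynomial.map_C, MvPolynomial.map_C, ← MvPolynomial.C_mul, ← hxy]
      have hy' : algebraMap A K y ≠ 0 := by
        rw [Ne, map_eq_zero_iff _ (IsFractionRing.injective A K)]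
        exact nonZeroDivisors.ne_zero hy
      rw [div_mul_cancel₀ _ hy']
    | add P Q hP hQ =>
      obtain ⟨d, p, hd, hp⟩ := hP
      obtain ⟨e, q, he, hq⟩ := hQ
      refine ⟨d * e, p * MvPolynomial.C e + q * MvPolynomial.C d, mul_ne_zero hd he, ?_⟩
      rw [map_mul, map_mul, map_add, map_mul, map_mul, ← hp, ← hq]
      ring
    | mul_X P j hP =>
      obtain ⟨d, p, hd, hp⟩ := hP
      refine ⟨d, p * MvPolynomial.X j, hd, ?_⟩
      rw [map_mul, MvPolynomial.map_X, ← hp]
      ring
  obtain ⟨P, Q, hQ, rfl⟩ := IsFractionRing.div_surjective (A := MvPolynomial (Fin r) K) f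
  obtain ⟨d, p, hd, hp⟩ := clear P
  obtain ⟨e, q, he, hq⟩ := clear Q
  have hQ0 : Q ≠ 0 := nonZeroDivisors.ne_zero hQ
  have hQ' : algebraMap (MvPolynomial (Fin r) K) (RF K r) Q ≠ 0 := by
    rw [Ne, map_eq_zero_iff _ (IsFractionRing.injective _ _)]
    exact hQ0
  refine ⟨p * MvPolynomial.C e, q * MvPolynomial.C d, ?_, ?_⟩
  · apply mul_ne_zero
    · intro h0
      rw [h0, map_zero] at hq
      have h1 : MvPolynomial.map (algebraMap A K) (MvPolynomial.C e : MvPolynomial (Fin r) A) ≠ 0 := by
        rw [Ne, map_eq_zero_iff _ (MvPolynomial.map_injective _ (IsFractionRing.injective A K))]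
        rw [MvPolynomial.C_eq_zero]
        exact he
      exact mul_ne_zero hQ0 h1 hq
    · rw [Ne, MvPolynomial.C_eq_zero]
      exact hd
  · unfold inclM
    simp only [RingHom.comp_apply, map_mul]
    rw [← hp, ← hq]
    simp only [map_mul]
    field_simp

theorem exists_specRel (f : RF K r) : ∃ g : A, g ≠ 0 ∧ ∀ φ : A →+* k, φ g ≠ 0 →
    ∃ h : RF k r, SpecRel φ f h ∧ (f ≠ 0 → h ≠ 0) := by
  obtain ⟨p, q, hq, hpq⟩ := exists_quotient (A := A) f
  obtain ⟨m, hm⟩ := MvPolynomial.ne_zero_iff.mp hq
  have key : ∀ φ : A →+* k, φ (q.coeff m) ≠ 0 → SpecRel φ f (specM r φ p / specM r φ q) := by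
    intro φ hφ
    have h1 := specM_ne_zero_of_coeff φ q m hφ
    exact ⟨p, q, h1, hpq, div_mul_cancel₀ _ h1⟩
  by_cases hp : p = 0
  · refine ⟨q.coeff m, hm, fun φ hφ => ⟨_, key φ hφ, fun hf => ?_⟩⟩
    exfalso
    rw [hp, map_zero] at hpq
    rcases mul_eq_zero.mp hpq with h | h
    · exact hf h
    · exact hq (inclM_injective (K := K) (by rw [h, map_zero]))
  · obtain ⟨n, hn⟩ := MvPolynomial.ne_zero_iff.mp hp
    refine ⟨q.coeff m * p.coeff n, mul_ne_zero hm hn, fun φ hφ => ?_⟩
    rw [map_mul] at hφ
    have h1 : φ (q.coeff m) ≠ 0 := left_ne_zero_of_mul hφ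
    have h2 : φ (p.coeff n) ≠ 0 := right_ne_zero_of_mul hφ
    exact ⟨_, key φ h1, fun _ => div_ne_zero (specM_ne_zero_of_coeff φ p n h2)
      (specM_ne_zero_of_coeff φ q m h1)⟩

theorem SpecRel.eval₂ {φ : A →+* k} {ι : Type} (v : ι → RF K r) (w : ι → RF k r)
    (hvw : ∀ i, SpecRel φ (v i) (w i)) (c : MvPolynomial ι A) :
    SpecRel φ (MvPolynomial.eval₂ ((algebraMap K (RF K r)).comp (algebraMap A K)) v c)
      (MvPolynomial.eval₂ ((algebraMap k (RF k r)).comp φ) w c) := by
  induction c using MvPolynomial.induction_on with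
  | C a =>
    rw [MvPolynomial.eval₂_C, MvPolynomial.eval₂_C]
    exact SpecRel.const φ a
  | add p q hp hq =>
    rw [MvPolynomial.eval₂_add, MvPolynomial.eval₂_add]
    exact hp.add hq
  | mul_X p i hp =>
    rw [MvPolynomial.eval₂_mul, MvPolynomial.eval₂_mul, MvPolynomial.eval₂_X,
      MvPolynomial.eval₂_X]
    exact hp.mul (hvw i)

theorem SpecRel.sum {φ : A →+* k} {κ : Type} (s : Finset κ) (f : κ → RF K r) (h : κ → RF k r)
    (hfh : ∀ i, SpecRel φ (f i) (h i)) : SpecRel φ (∑ i ∈ s, f i) (∑ i ∈ s, h i) := by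
  classical
  induction s using Finset.induction_on with
  | empty =>
    rw [Finset.sum_empty, Finset.sum_empty]
    have := SpecRel.of_poly (K := K) (r := r) φ (0 : MvPolynomial (Fin r) A)
    rwa [map_zero, map_zero] at this
  | insert a s ha ih =>
    rw [Finset.sum_insert ha, Finset.sum_insert ha]
    exact (hfh a).add ih

theorem SpecRel.pow {φ : A →+* k} {f : RF K r} {h : RF k r} (hfh : SpecRel φ f h) (n : ℕ) :
    SpecRel φ (f ^ n) (h ^ n) := by
  induction n with
  | zero =>
    rw [pow_zero, pow_zero]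
    have := SpecRel.of_poly (K := K) (r := r) φ (1 : MvPolynomial (Fin r) A)
    rwa [map_one, map_one] at this
  | succ n ih =>
    rw [pow_succ, pow_succ]
    exact ih.mul hfh

end Spec

/-- the variables of the rational function field form a transcendence basis -/
theorem isTranscendenceBasis_RF (k : Type) [Field k] (r : ℕ) :
    IsTranscendenceBasis k
      (fun j : Fin r => algebraMap (MvPolynomial (Fin r) k) (RF k r) (MvPolynomial.X j)) := by
  have h1 := IsTranscendenceBasis.mvPolynomial (Fin r) k
  have : Algebra.IsAlgebraic (MvPolynomial (Fin r) k) (RF k r) :=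
    IsLocalization.isAlgebraic _ (nonZeroDivisors (MvPolynomial (Fin r) k))
  exact h1.algebraMap_comp (A := RF k r)

theorem trdeg_RF (k : Type) [Field k] (r : ℕ) : Algebra.trdeg k (RF k r) = r := by
  rw [← (isTranscendenceBasis_RF k r).cardinalMk_eq_trdeg]
  simp

/-- linear disjointness transports algebraic independence -/
theorem algebraicIndependent_of_disjoint {k K : Type} [Field k] [Field K] [Algebra k K] {r : ℕ}
    (F : K →+* RF K r)
    (hdisj : ∀ (m : ℕ) (a : Fin m → K), LinearIndependent k a → LinearIndependent K (F ∘ a))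
    {ι : Type} (y : ι → K) (hy : AlgebraicIndependent k y) :
    AlgebraicIndependent K (F ∘ y) := by
  classical
  have hmon : LinearIndependent k (fun m : ι →₀ ℕ => m.prod fun i e => y i ^ e) := by
    have h1 : (fun m : ι →₀ ℕ => m.prod fun i e => y i ^ e) =
        (MvPolynomial.aeval y).toLinearMap ∘ (MvPolynomial.basisMonomials ι k) := by
      funext m
      simp [MvPolynomial.aeval_monomial]
    rw [h1]
    exact (MvPolynomial.basisMonomials ι k).linearIndependent.map'
      (MvPolynomial.aeval y).toLinearMap (LinearMap.ker_eq_bot.mpr hy)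
  have hmon' : LinearIndependent K (fun m : ι →₀ ℕ => m.prod fun i e => (F ∘ y) i ^ e) := by
    rw [linearIndependent_iff_finset_linearIndependent]
    intro s
    let e := s.equivFin
    have h2 := hdisj s.card (fun j => (e.symm j : ι →₀ ℕ).prod fun i e => y i ^ e)
      (hmon.comp (fun j => (e.symm j : ι →₀ ℕ)) (Subtype.val_injective.comp e.symm.injective))
    have h3 := h2.comp e e.injective
    have h4 : ((F ∘ fun j => (e.symm j : ι →₀ ℕ).prod fun i e => y i ^ e) ∘ e) =
        (fun m : ι →₀ ℕ => m.prod fun i e => (F ∘ y) i ^ e) ∘ (Subtype.val : s → ι →₀ ℕ) := by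
      funext m
      simp [Finsupp.prod, map_prod]
    rw [h4] at h3
    exact h3
  have h5 : (fun m : ι →₀ ℕ => m.prod fun i e => (F ∘ y) i ^ e) =
      (MvPolynomial.aeval (R := K) (F ∘ y)).toLinearMap ∘ (MvPolynomial.basisMonomials ι K) := by
    funext m
    simp [MvPolynomial.aeval_monomial]
  rw [h5] at hmon'
  rw [algebraicIndependent_iff]
  intro p hp
  have h6 : (MvPolynomial.aeval (R := K) (F ∘ y)).toLinearMap p = 0 := hp
  rw [← (MvPolynomial.basisMonomials ι K).linearCombination_repr p,
    Finsupp.apply_linearCombination] at h6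
  have h7 := linearIndependent_iff.mp hmon' _ h6
  exact (MvPolynomial.basisMonomials ι K).repr.map_eq_zero_iff.mp h7


/-- clearing denominators in polynomials over polynomial rings -/
theorem exists_clear {A K : Type} [CommRing A] [IsDomain A] [Field K] [Algebra A K]
    [IsFractionRing A K] {ι : Type} (P : (MvPolynomial ι K)[X]) :
    ∃ (d : A) (p : (MvPolynomial ι A)[X]), d ≠ 0 ∧
      Polynomial.C (MvPolynomial.C (algebraMap A K d)) * P =
        p.map (MvPolynomial.map (algebraMap A K)) := by
  have clear : ∀ Q : MvPolynomial ι K, ∃ (d : A) (q : MvPolynomial ι A), d ≠ 0 ∧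
      MvPolynomial.C (algebraMap A K d) * Q = MvPolynomial.map (algebraMap A K) q := by
    intro Q
    induction Q using MvPolynomial.induction_on with
    | C a =>
      obtain ⟨x, y, hy, hxy⟩ := IsFractionRing.div_surjective (A := A) a
      refine ⟨y, MvPolynomial.C x, nonZeroDivisors.ne_zero hy, ?_⟩
      rw [MvPolynomial.map_C, ← MvPolynomial.C_mul, ← hxy]
      have hy' : algebraMap A K y ≠ 0 := by
        rw [Ne, map_eq_zero_iff _ (IsFractionRing.injective A K)]
        exact nonZeroDivisors.ne_zero hy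
      rw [mul_div_cancel₀ _ hy']
    | add P Q hP hQ =>
      obtain ⟨d, p, hd, hp⟩ := hP
      obtain ⟨e, q, he, hq⟩ := hQ
      refine ⟨d * e, p * MvPolynomial.C e + q * MvPolynomial.C d, mul_ne_zero hd he, ?_⟩
      simp only [map_add, map_mul, MvPolynomial.map_C]
      rw [← hp, ← hq]
      ring
    | mul_X P j hP =>
      obtain ⟨d, p, hd, hp⟩ := hP
      refine ⟨d, p * MvPolynomial.X j, hd, ?_⟩
      rw [map_mul, MvPolynomial.map_X, ← hp]
      ring
  induction P using Polynomial.induction_on' with
  | add P Q hP hQ =>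
    obtain ⟨d, p, hd, hp⟩ := hP
    obtain ⟨e, q, he, hq⟩ := hQ
    refine ⟨d * e, Polynomial.C (MvPolynomial.C e) * p + Polynomial.C (MvPolynomial.C d) * q,
      mul_ne_zero hd he, ?_⟩
    rw [Polynomial.map_add, Polynomial.map_mul, Polynomial.map_mul, ← hp, ← hq,
      Polynomial.map_C, Polynomial.map_C, MvPolynomial.map_C, MvPolynomial.map_C,
      map_mul, MvPolynomial.C_mul, Polynomial.C_mul]
    ring
  | monomial n a =>
    obtain ⟨d, q, hd, hq⟩ := clear a
    refine ⟨d, Polynomial.monomial n q, hd, ?_⟩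
    rw [Polynomial.map_monomial, ← hq, Polynomial.C_mul_monomial]

/-- Specialization of a linearly disjoint embedding at a general `k`-point. -/
theorem exists_hom_of_disjoint (k K : Type) [Field k] [CharZero k] [Field K] [Algebra k K]
    (A : Subalgebra k K) (hA : A.FG) (hfrac : IsFractionRing A K)
    (r : ℕ) (F : K →+* RF K r)
    (hF : ∀ c : k, F (algebraMap k K c) = algebraMap K (RF K r) (algebraMap k K c))
    (hdisj : ∀ (m : ℕ) (a : Fin m → K), LinearIndependent k a → LinearIndependent K (F ∘ a)) :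
    ∃ g : A, g ≠ 0 ∧ ∀ φ : A →ₐ[k] k, φ g ≠ 0 → Nonempty (K →ₐ[k] RF k r) := by
  classical
  obtain ⟨s, hs⟩ := hA
  -- a transcendence basis inside `s`
  have halgA : Algebra.IsAlgebraic A K := IsLocalization.isAlgebraic _ (nonZeroDivisors A)
  have halg : Algebra.IsAlgebraic (Algebra.adjoin k (s : Set K)) K := by rw [hs]; exact halgA
  obtain ⟨t, hts, ht⟩ := exists_isTranscendenceBasis_subset (R := k) (A := K) (s : Set K)
  have htA : ∀ a ∈ t, a ∈ A := fun a ha => by
    rw [← hs]
    exact Algebra.subset_adjoin (hts ha)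
  have hFt : AlgebraicIndependent K (F ∘ ((↑) : t → K)) :=
    algebraicIndependent_of_disjoint F hdisj _ ht.1
  -- complete to a transcendence basis of `K(t)`
  let xK : Fin r → RF K r := fun j =>
    algebraMap (MvPolynomial (Fin r) K) (RF K r) (MvPolynomial.X j)
  let xk : Fin r → RF k r := fun j =>
    algebraMap (MvPolynomial (Fin r) k) (RF k r) (MvPolynomial.X j)
  have halg1 : Algebra.IsAlgebraic
      (Algebra.adjoin K (Set.range (F ∘ ((↑) : t → K)) ∪ Set.range xK)) (RF K r) := by
    refine (isTranscendenceBasis_RF K r).isAlgebraic_iff.mpr (fun j => ?_)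
    have h1 : xK j ∈ Algebra.adjoin K (Set.range (F ∘ ((↑) : t → K)) ∪ Set.range xK) :=
      Algebra.subset_adjoin (Or.inr ⟨j, rfl⟩)
    exact isAlgebraic_algebraMap (⟨xK j, h1⟩ :
      Algebra.adjoin K (Set.range (F ∘ ((↑) : t → K)) ∪ Set.range xK))
  obtain ⟨u, hsu, hut, hu⟩ := exists_isTranscendenceBasis_between (R := K)
    (Set.range (F ∘ ((↑) : t → K))) (Set.range (F ∘ ((↑) : t → K)) ∪ Set.range xK)
    Set.subset_union_left hFt.to_subtype_range
  have hucard : Cardinal.mk u = r := by
    rw [hu.cardinalMk_eq_trdeg, trdeg_RF]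
  have hufin : Finite u := by
    rw [← Cardinal.mk_lt_aleph0_iff, hucard]
    exact Cardinal.natCast_lt_aleph0
  -- algebraic relations of the variables
  have hrel : ∀ j : Fin r, ∃ p : (MvPolynomial u A)[X], p ≠ 0 ∧
      p.eval₂ (MvPolynomial.eval₂Hom ((algebraMap K (RF K r)).comp (algebraMap A K))
        ((↑) : u → RF K r)) (xK j) = 0 := by
    intro j
    obtain ⟨p, hp0, hp⟩ := hu.isAlgebraic.isAlgebraic (xK j)
    let e := hu.1.aevalEquiv
    let P : (MvPolynomial u K)[X] := p.map (e.symm : _ →+* MvPolynomial u K)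
    have hP0 : P ≠ 0 := (Polynomial.map_ne_zero_iff e.symm.injective).mpr hp0
    have hP : P.eval₂ ((MvPolynomial.aeval ((↑) : u → RF K r) :
        MvPolynomial u K →ₐ[K] RF K r) : MvPolynomial u K →+* RF K r) (xK j) = 0 := by
      have hcomp : ((MvPolynomial.aeval ((↑) : u → RF K r) :
          MvPolynomial u K →ₐ[K] RF K r) : MvPolynomial u K →+* RF K r).comp
          (e.symm : _ →+* MvPolynomial u K) =
          algebraMap (Algebra.adjoin K (Set.range ((↑) : u → RF K r))) (RF K r) := by
        apply RingHom.ext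
        intro a
        have h1 := hu.1.algebraMap_aevalEquiv (e.symm a)
        rw [AlgEquiv.apply_symm_apply] at h1
        exact h1.symm
      rw [Polynomial.eval₂_map, hcomp]
      exact hp
    obtain ⟨d, p', hd, hp'⟩ := exists_clear (A := A) P
    refine ⟨p', ?_, ?_⟩
    · intro h0
      rw [h0, Polynomial.map_zero] at hp'
      refine mul_ne_zero ?_ hP0 hp'
      rw [Ne, Polynomial.C_eq_zero, MvPolynomial.C_eq_zero,
        map_eq_zero_iff _ (IsFractionRing.injective A K)]
      exact hd
    · have h1 : MvPolynomial.eval₂Hom ((algebraMap K (RF K r)).comp (algebraMap A K))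
          ((↑) : u → RF K r) = ((MvPolynomial.aeval ((↑) : u → RF K r) :
          MvPolynomial u K →ₐ[K] RF K r) : MvPolynomial u K →+* RF K r).comp
          (MvPolynomial.map (algebraMap A K)) := by
        apply MvPolynomial.ringHom_ext
        · intro a
          simp
        · intro i
          simp
      rw [h1, ← Polynomial.eval₂_map, ← hp', Polynomial.eval₂_mul, hP, mul_zero]
  choose p hp0 hp using hrel
  have hcoef : ∀ j, ∃ n, (p j).coeff n ≠ 0 := fun j => by
    by_contra hcon
    push Not at hcon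
    exact hp0 j (Polynomial.ext (by simpa using hcon))
  choose n hn using hcoef
  let ev : MvPolynomial u A →+* RF K r :=
    MvPolynomial.eval₂Hom ((algebraMap K (RF K r)).comp (algebraMap A K)) ((↑) : u → RF K r)
  have hev : Function.Injective ev := by
    have h1 : ev = ((MvPolynomial.aeval ((↑) : u → RF K r) :
          MvPolynomial u K →ₐ[K] RF K r) : MvPolynomial u K →+* RF K r).comp
          (MvPolynomial.map (algebraMap A K)) := by
      apply MvPolynomial.ringHom_ext
      · intro a
        simp [ev]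
      · intro i
        simp [ev]
    rw [h1, RingHom.coe_comp]
    exact Function.Injective.comp hu.1
      (MvPolynomial.map_injective _ (IsFractionRing.injective A K))
  choose g1 hg1 hg1' using fun j : Fin r => exists_specRel (k := k) (A := A) (ev ((p j).coeff (n j)))
  choose g2 hg2 hg2' using fun x : s => exists_specRel (k := k) (A := A) (F x)
  refine ⟨(∏ j, g1 j) * ∏ x, g2 x, mul_ne_zero (Finset.prod_ne_zero_iff.mpr fun j _ => hg1 j)
    (Finset.prod_ne_zero_iff.mpr fun x _ => hg2 x), ?_⟩
  intro φ hφ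
  rw [map_mul, map_prod, map_prod] at hφ
  have hφ1 : ∀ j, (φ : A →+* k) (g1 j) ≠ 0 := fun j =>
    Finset.prod_ne_zero_iff.mp (left_ne_zero_of_mul hφ) j (Finset.mem_univ j)
  have hφ2 : ∀ x, (φ : A →+* k) (g2 x) ≠ 0 := fun x =>
    Finset.prod_ne_zero_iff.mp (right_ne_zero_of_mul hφ) x (Finset.mem_univ x)
  -- the specialization of `F`
  have hconst : ∀ c : k, SpecRel (φ : A →+* k) (F (algebraMap k K c)) (algebraMap k (RF k r) c) := by
    intro c
    have h1 := SpecRel.const (K := K) (r := r) (φ : A →+* k) (algebraMap k A c)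
    rw [hF c]
    have h2 : (φ : A →+* k) (algebraMap k A c) = c := φ.commutes c
    rw [h2] at h1
    exact h1
  have hG' : ∀ a ∈ Algebra.adjoin k (s : Set K), ∃ h, SpecRel (φ : A →+* k) (F a) h := by
    intro a ha
    induction ha using Algebra.adjoin_induction with
    | mem x hx =>
      obtain ⟨h, h1, -⟩ := hg2' ⟨x, hx⟩ (φ : A →+* k) (hφ2 _)
      exact ⟨h, h1⟩
    | algebraMap c => exact ⟨_, hconst c⟩
    | add x y _ _ hx hy =>
      obtain ⟨h, h1⟩ := hx
      obtain ⟨h', h1'⟩ := hy
      exact ⟨h + h', by rw [map_add]; exact h1.add h1'⟩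
    | mul x y _ _ hx hy =>
      obtain ⟨h, h1⟩ := hx
      obtain ⟨h', h1'⟩ := hy
      exact ⟨h * h', by rw [map_mul]; exact h1.mul h1'⟩
  have hG : ∀ a : A, ∃ h, SpecRel (φ : A →+* k) (F a) h := fun a =>
    hG' a (by rw [hs]; exact a.2)
  choose G0 hG0 using hG
  let G : A →ₐ[k] RF k r :=
    { toFun := G0
      map_one' := by
        refine (hG0 1).unique ?_
        have := hconst 1
        simp only [map_one] at this
        have h1 : F ((1 : A) : K) = 1 := by simp
        rw [h1]
        exact this
      map_mul' := fun a b => by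
        refine (hG0 (a * b)).unique ?_
        have := (hG0 a).mul (hG0 b)
        rwa [← map_mul] at this
      map_zero' := by
        refine (hG0 0).unique ?_
        have := hconst 0
        simp only [map_zero] at this
        have h1 : F ((0 : A) : K) = 0 := by simp
        rw [h1]
        exact this
      map_add' := fun a b => by
        refine (hG0 (a + b)).unique ?_
        have := (hG0 a).add (hG0 b)
        rwa [← map_add] at this
      commutes' := fun c => (hG0 (algebraMap k A c)).unique (hconst c) }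
  have hGspec : ∀ a : A, SpecRel (φ : A →+* k) (F a) (G a) := hG0
  -- the specialization of the transcendence basis
  have hw : ∀ i : u, ∃ h, SpecRel (φ : A →+* k) (i : RF K r) h := by
    intro i
    rcases hut i.2 with ⟨a, ha⟩ | ⟨j, hj⟩
    · exact ⟨G ⟨a, htA a a.2⟩, by rw [← ha]; exact hGspec ⟨a, htA a a.2⟩⟩
    · exact ⟨xk j, by rw [← hj]; exact SpecRel.X _ j⟩
  choose w hw using hw
  have hevw := SpecRel.eval₂ ((↑) : u → RF K r) w hw
  let S := Algebra.adjoin k (Set.range w)
  let evS : MvPolynomial u A →+* S := MvPolynomial.eval₂Hom ((algebraMap k S).comp (φ : A →+* k))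
    (fun i => ⟨w i, Algebra.subset_adjoin ⟨i, rfl⟩⟩)
  have hevS : (algebraMap S (RF k r)).comp evS =
      MvPolynomial.eval₂Hom ((algebraMap k (RF k r)).comp (φ : A →+* k)) w := by
    apply MvPolynomial.ringHom_ext
    · intro a
      simp [evS]
    · intro i
      simp [evS]
  have hX : ∀ j, IsAlgebraic S (xk j) := by
    intro j
    refine ⟨(p j).map evS, ?_, ?_⟩
    · intro h0
      have h1 : evS ((p j).coeff (n j)) = 0 := by
        rw [← Polynomial.coeff_map, h0, Polynomial.coeff_zero]
      obtain ⟨h, h2, h3⟩ := hg1' j (φ : A →+* k) (hφ1 j)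
      have h4 : h = 0 := by
        rw [h2.unique (hevw ((p j).coeff (n j)))]
        have h5 := congrArg (algebraMap S (RF k r)) h1
        rw [← RingHom.comp_apply, hevS, map_zero] at h5
        exact h5
      refine h3 ?_ h4
      intro h6
      exact hn j (hev (by rw [h6, map_zero]))
    · rw [Polynomial.aeval_def, Polynomial.eval₂_map, hevS]
      have h1 : SpecRel (φ : A →+* k) ((p j).eval₂ ev (xK j)) ((p j).eval₂
          (MvPolynomial.eval₂Hom ((algebraMap k (RF k r)).comp (φ : A →+* k)) w) (xk j)) := by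
        rw [Polynomial.eval₂_eq_sum_range, Polynomial.eval₂_eq_sum_range]
        exact SpecRel.sum _ _ _ (fun i => (hevw _).mul ((SpecRel.X _ j).pow i))
      have h2 : (p j).eval₂ ev (xK j) = 0 := hp j
      rw [h2] at h1
      have h3 := hconst 0
      rw [map_zero, map_zero, map_zero] at h3
      exact h1.unique h3
  have halgS : Algebra.IsAlgebraic S (RF k r) := (isTranscendenceBasis_RF k r).isAlgebraic_iff.mpr hX
  have hwb : IsTranscendenceBasis k w := by
    refine Algebra.IsAlgebraic.isTranscendenceBasis_of_le_trdeg_of_finite k w ?_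
    rw [hucard, trdeg_RF]
  have hGt : AlgebraicIndependent k (fun a : t => G ⟨a, htA a a.2⟩) := by
    have h1 := hwb.1.comp (fun a : t => (⟨F a, hsu ⟨a, rfl⟩⟩ : u)) (by
      intro a b hab
      have h2 : F a = F b := congrArg Subtype.val hab
      exact Subtype.ext (F.injective h2))
    have h3 : (w ∘ fun a : t => (⟨F a, hsu ⟨a, rfl⟩⟩ : u)) = fun a : t => G ⟨a, htA a a.2⟩ := by
      funext a
      exact (hw _).unique (hGspec ⟨a, htA a a.2⟩)
    rw [h3] at h1
    exact h1
  have hGinj : Function.Injective G := by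
    rw [injective_iff_map_eq_zero]
    intro a ha
    by_contra ha0
    have haK : (a : K) ≠ 0 := fun h => ha0 (Subtype.ext h)
    obtain ⟨q, hq0, hq⟩ := (ht.isAlgebraic.isAlgebraic (a : K)).exists_nonzero_coeff_and_aeval_eq_zero
      (mem_nonZeroDivisors_of_ne_zero haK)
    have hle : Algebra.adjoin k (Set.range ((↑) : t → K)) ≤ A := by
      rw [Algebra.adjoin_le_iff]
      rintro _ ⟨a, rfl⟩
      exact htA a a.2
    let i := Subalgebra.inclusion hle
    have h1 : q.eval₂ (i : _ →+* A) a = 0 := by
      apply Subtype.ext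
      have h2 : ((q.eval₂ (i : _ →+* A) a : A) : K) = Polynomial.aeval (a : K) q := by
        rw [Polynomial.aeval_def]
        exact Polynomial.hom_eval₂ q (i : _ →+* A) (algebraMap A K) a
      rw [h2, hq]
      rfl
    have h2 : G (i (q.coeff 0)) = 0 := by
      have h3 := congrArg (G : A →+* RF k r) h1
      have ha' : (G : A →+* RF k r) a = 0 := ha
      rw [Polynomial.hom_eval₂, ha', Polynomial.eval₂_at_zero, map_zero] at h3
      exact h3
    let c : MvPolynomial t k := ht.1.aevalEquiv.symm (q.coeff 0)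
    have hc : c ≠ 0 := by
      intro h0
      apply hq0
      have h5 := congrArg ht.1.aevalEquiv h0
      rw [AlgEquiv.apply_symm_apply, map_zero] at h5
      exact h5
    apply hc
    apply hGt
    rw [map_zero, ← h2]
    have h6 : i (q.coeff 0) = MvPolynomial.aeval (fun a : t => (⟨a, htA a a.2⟩ : A)) c := by
      apply Subtype.ext
      have h7 : ((i (q.coeff 0) : A) : K) = MvPolynomial.aeval ((↑) : t → K) c := by
        have h8 := ht.1.algebraMap_aevalEquiv c
        rw [AlgEquiv.apply_symm_apply] at h8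
        exact h8
      rw [h7]
      have h9 := MvPolynomial.aeval_algebraMap_apply K (fun a : t => (⟨a, htA a a.2⟩ : A)) c
      exact h9
    rw [h6, ← AlgHom.comp_apply]
    congr 1
    apply MvPolynomial.algHom_ext
    intro a
    simp
  exact ⟨IsFractionRing.liftAlgHom hGinj⟩

end Pool.Agent.LibHP
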