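import Pool.Agent.LibHP.S3
import Pool.Agent.LibHP.U1

set_option autoImplicit false
open AlgebraicGeometry CategoryTheory Polynomial

namespace Pool.Agent.LibHP

theorem le_preimage_top' {X Y : Scheme} (f : X ⟶ Y) (U : X.Opens) : U ≤ f ⁻¹ᵁ ⊤ := by
  rw [Scheme.Hom.preimage_top]; exact le_top

/-- The structure map from the base field to the sections on an open set. -/
noncomputable def kapU {k : Type} [Field k] {X : Scheme} (f : X ⟶ Spec (CommRingCat.of k))
    (U : X.Opens) : k →+* Γ(X, U) :=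
  ((Scheme.ΓSpecIso (CommRingCat.of k)).inv ≫ f.appLE ⊤ U (le_preimage_top' f U)).hom

theorem germ_kapU {k : Type} [Field k] {X : Scheme} (f : X ⟶ Spec (CommRingCat.of k))
    (U : X.Opens) (x : X) (hx : x ∈ U) (c : k) :
    X.presheaf.germ U x hx (kapU f U c) = toStalk f x c := by
  have h : ((Scheme.ΓSpecIso (CommRingCat.of k)).inv ≫ f.appLE ⊤ U (le_preimage_top' f U)) ≫
      X.presheaf.germ U x hx = (Scheme.ΓSpecIso (CommRingCat.of k)).inv ≫ f.appTop ≫
      X.presheaf.germ ⊤ x trivial := by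
    rw [Category.assoc]
    congr 1
    have h2 : f.appLE ⊤ U (le_preimage_top' f U) = f.appTop ≫ X.presheaf.map (homOfLE le_top).op := by
      rfl
    rw [h2, Category.assoc, X.presheaf.germ_res]
  have h2 := congrArg (fun φ => φ.hom c) h
  simpa [kapU, toStalk] using h2

/-- Evaluation of the sections at a rational point. -/
noncomputable def evalPt {k : Type} [Field k] {X : Scheme}
    (U : X.Opens) (s : Spec (CommRingCat.of k) ⟶ X) (hs : ⊤ ≤ s ⁻¹ᵁ U) : Γ(X, U) →+* k :=
  (s.appLE U ⊤ hs ≫ (Scheme.ΓSpecIso (CommRingCat.of k)).hom).hom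

theorem evalPt_kapU {k : Type} [Field k] {X : Scheme} (f : X ⟶ Spec (CommRingCat.of k))
    (U : X.Opens) (s : Spec (CommRingCat.of k) ⟶ X) (hs : ⊤ ≤ s ⁻¹ᵁ U) (hsf : s ≫ f = 𝟙 _)
    (c : k) : evalPt U s hs (kapU f U c) = c := by
  have h3 : ∀ (φ : Spec (CommRingCat.of k) ⟶ Spec (CommRingCat.of k)) (hφ : φ = 𝟙 _) h,
      φ.appLE ⊤ ⊤ h = 𝟙 _ := by
    rintro φ rfl h
    rfl
  have h : ((Scheme.ΓSpecIso (CommRingCat.of k)).inv ≫ f.appLE ⊤ U (le_preimage_top' f U)) ≫
      s.appLE U ⊤ hs ≫ (Scheme.ΓSpecIso (CommRingCat.of k)).hom = 𝟙 _ := by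
    have h2 := Scheme.Hom.appLE_comp_appLE s f ⊤ U ⊤ (le_preimage_top' f U) hs
    rw [h3 _ hsf] at h2
    rw [Category.assoc, ← Category.assoc (f.appLE ⊤ U (le_preimage_top' f U)), h2,
      Category.id_comp, Iso.inv_hom_id]
  have h2 := congrArg (fun φ => φ.hom c) h
  simpa [kapU, evalPt] using h2

theorem evalPt_ne_zero {k : Type} [Field k] {X : Scheme}
    (U : X.Opens) (s : Spec (CommRingCat.of k) ⟶ X) (hs : ⊤ ≤ s ⁻¹ᵁ U) (g : Γ(X, U))
    (x : X) (hx : x ∈ Set.range s.base) (hg : x ∈ X.basicOpen g) : evalPt U s hs g ≠ 0 := by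
  intro h0
  have h1 : s.appLE U ⊤ hs g = 0 := by
    have hinj : Function.Injective (Scheme.ΓSpecIso (CommRingCat.of k)).hom := by
      exact (ConcreteCategory.bijective_of_isIso (Scheme.ΓSpecIso (CommRingCat.of k)).hom).1
    apply hinj
    rw [map_zero]
    simpa [evalPt] using h0
  have h2 := Scheme.basicOpen_appLE s ⊤ U hs g
  rw [h1, Scheme.basicOpen_zero] at h2
  obtain ⟨y, rfl⟩ := hx
  have : y ∈ (⊥ : (Spec (CommRingCat.of k)).Opens) := by
    rw [h2]
    exact ⟨trivial, hg⟩
  exact this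

/-- A rational point in the open set `U`. -/
theorem exists_pt {k : Type} [Field k] {X : Scheme} (f : X ⟶ Spec (CommRingCat.of k))
    [IsIntegral X]
    (hdense : Dense {x : X | ∃ s : Spec (CommRingCat.of k) ⟶ X, s ≫ f = 𝟙 _ ∧
      x ∈ Set.range s.base}) (U : X.Opens) (g : Γ(X, U)) (hg : g ≠ 0) :
    ∃ φ : Γ(X, U) →+* k, (∀ c, φ (kapU f U c) = c) ∧ φ g ≠ 0 := by
  have hne : X.basicOpen g ≠ ⊥ := by
    intro h
    exact hg ((basicOpen_eq_bot_iff g).1 h)
  have hne2 : (X.basicOpen g : Set X).Nonempty := by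
    by_contra hcon
    rw [Set.not_nonempty_iff_eq_empty] at hcon
    exact hne (TopologicalSpace.Opens.ext (by simpa using hcon))
  obtain ⟨x, hxg, s, hs, hxs⟩ := hdense.inter_open_nonempty _ (X.basicOpen g).isOpen hne2
  have hxU : x ∈ U := X.basicOpen_le g hxg
  have hsU : ⊤ ≤ s ⁻¹ᵁ U := by
    intro y _
    obtain ⟨y', hy'⟩ := hxs
    have : y = y' := Subsingleton.elim (α := PrimeSpectrum k) y y'
    rw [this]
    show s.base y' ∈ U
    rw [hy']
    exact hxU
  exact ⟨evalPt U s hsU, evalPt_kapU f U s hsU hs, evalPt_ne_zero U s hsU g x hxs hxg⟩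

theorem kapU_finiteType {k : Type} [Field k] {X : Scheme} (f : X ⟶ Spec (CommRingCat.of k))
    [LocallyOfFiniteType f] (U : X.Opens) (hU : IsAffineOpen U) : (kapU f U).FiniteType := by
  have h1 : (f.appLE ⊤ U (le_preimage_top' f U)).hom.FiniteType :=
    f.finiteType_appLE (isAffineOpen_top _) hU _
  have h2 : (Scheme.ΓSpecIso (CommRingCat.of k)).inv.hom.FiniteType :=
    RingHom.FiniteType.of_surjective _
      (ConcreteCategory.bijective_of_isIso (Scheme.ΓSpecIso (CommRingCat.of k)).inv).2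
  exact h1.comp h2

/-- The constants of the curves are the elements of the base field. -/
theorem const_of_curves {k : Type} [Field k] {X : Scheme}
    (f : X ⟶ Spec (CommRingCat.of k)) [IsIntegral X] [LocallyOfFiniteType f]
    (hdense : Dense {x : X | ∃ s : Spec (CommRingCat.of k) ⟶ X, s ≫ f = 𝟙 _ ∧
      x ∈ Set.range s.base})
    (hcurves : ∀ x : X, ringKrullDim (X.presheaf.stalk x) = 1 → ∃ m : ℕ, CurveMeets f x m)
    (a : X.functionField)
    (ha : ∀ σ : X.functionField →+* RatFunc X.functionField,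
      (∀ c : k, σ (toStalk f (genericPoint X) c) = RatFunc.C (toStalk f (genericPoint X) c)) →
      (∀ a : X.functionField, ∃ p q : Polynomial X.functionField, q.coeff 0 = 1 ∧ p.coeff 0 = a ∧
        σ a * algebraMap _ (RatFunc X.functionField) q = algebraMap _ _ p) → σ a = RatFunc.C a) :
    ∃ c : k, toStalk f (genericPoint X) c = a := by
  by_cases ha0 : a = 0
  · exact ⟨0, by rw [map_zero, ha0]⟩
  obtain ⟨V, hV, b, hVne, hba, -⟩ := exists_isUnit_germ_eq X a ha0
  have hgen : genericPoint X ∈ V :=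
    ((genericPoint_spec X).mem_open_set_iff V.isOpen).mpr (by simpa using hVne)
  have hinj := Scheme.germToFunctionField_injective X V
  obtain ⟨φ, hφk, -⟩ := exists_pt f hdense V (1 : Γ(X, V)) one_ne_zero
  set d : Γ(X, V) := b - kapU f V (φ b) with hd
  have hφd : φ d = 0 := by rw [hd, map_sub, hφk, sub_self]
  have hda : X.germToFunctionField V d = a - toStalk f (genericPoint X) (φ b) := by
    rw [hd, map_sub, hba]
    congr 1
    exact germ_kapU f V (genericPoint X) hgen (φ b)
  by_cases hd0 : d = 0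
  · refine ⟨φ b, ?_⟩
    rw [hd0, map_zero] at hda
    exact (sub_eq_zero.1 hda.symm).symm
  exfalso
  have hnoeth : IsNoetherianRing Γ(X, V) := by
    let := (kapU f V).toAlgebra
    have : Algebra.FiniteType k Γ(X, V) := kapU_finiteType f V hV
    exact Algebra.FiniteType.isNoetherianRing k _
  have hdom : IsDomain Γ(X, V) := by
    have := hVne
    infer_instance
  have hdu : ¬ IsUnit d := by
    intro h
    have := h.map φ
    rw [hφd] at this
    exact not_isUnit_zero this
  have hspan : Ideal.span {d} ≠ ⊤ := by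
    rwa [Ne, Ideal.span_singleton_eq_top]
  obtain ⟨P, hP⟩ := Ideal.nonempty_minimalPrimes hspan
  have hPprime : P.IsPrime := hP.1.1
  have hdP : d ∈ P := hP.1.2 (Ideal.subset_span rfl)
  have hPh : P.height = 1 := by
    refine le_antisymm (Ideal.height_le_one_of_isPrincipal_of_mem_minimalPrimes _ P hP) ?_
    rw [Order.one_le_iff_ne_zero, Ne, Ideal.height_eq_zero_iff_eq_bot]
    intro h
    rw [h] at hdP
    exact hd0 hdP
  set y : PrimeSpectrum Γ(X, V) := ⟨P, hPprime⟩ with hy
  set x : X := hV.fromSpec y with hx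
  have hxV : x ∈ V := by
    have : x ∈ Set.range hV.fromSpec := ⟨y, rfl⟩
    rwa [hV.range_fromSpec] at this
  let := TopCat.Presheaf.algebra_section_stalk X.presheaf ⟨x, hxV⟩
  have hloc : IsLocalization.AtPrime (X.presheaf.stalk x) y.asIdeal := hV.isLocalization_stalk' y hxV
  have hdim : ringKrullDim (X.presheaf.stalk x) = 1 := by
    rw [IsLocalization.AtPrime.ringKrullDim_eq_height y.asIdeal (X.presheaf.stalk x)]
    show ((P.height : ℕ∞) : WithBot ℕ∞) = 1
    rw [hPh]
    rfl
  obtain ⟨m, σ, g, hσk, hσv, hg, hm1, hreg, π, hπ, p, q, hp, hq, hpq⟩ := hcurves x hdim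
  have hσa := ha σ hσk hσv
  set dx : X.presheaf.stalk x := X.presheaf.germ V x hxV d with hdx
  have hdxu : ¬ IsUnit dx := by
    intro h
    have h2 : IsUnit (algebraMap Γ(X, V) (X.presheaf.stalk x) d) := h
    rw [IsLocalization.AtPrime.isUnit_to_map_iff (X.presheaf.stalk x) y.asIdeal] at h2
    exact h2 hdP
  obtain ⟨z, hz⟩ := (hπ dx).1 hdxu
  obtain ⟨p', q', hq', hpq'⟩ := hreg z
  have hσd : σ (algebraMap (X.presheaf.stalk x) X.functionField dx) =
      RatFunc.C (a - toStalk f (genericPoint X) (φ b)) := by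
    rw [hdx, Scheme.algebraMap_germ_eq_germToFunctionField, hda, map_sub, hσa, hσk, map_sub]
  have hα : a - toStalk f (genericPoint X) (φ b) ≠ 0 := by
    rw [← hda]
    intro h
    exact hd0 (hinj (by rw [h, map_zero]))
  have hprod : algebraMap (Polynomial X.functionField) (RatFunc X.functionField)
      (Polynomial.C (a - toStalk f (genericPoint X) (φ b)) * q * q') =
      algebraMap _ _ (g ^ m * p * p') := by
    rw [map_mul, map_mul, map_mul (algebraMap _ _) (g ^ m * p) p', ← hpq, ← hpq',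
      RatFunc.algebraMap_C, ← hσd, hz, map_mul, map_mul]
    ring
  have hprod' := RatFunc.algebraMap_injective X.functionField hprod
  have hgd : g ∣ Polynomial.C (a - toStalk f (genericPoint X) (φ b)) * q * q' := by
    rw [hprod', mul_assoc]
    exact Dvd.dvd.mul_right (dvd_pow_self g (by omega)) _
  rcases hg.prime.dvd_or_dvd hgd with h1 | h1
  · rcases hg.prime.dvd_or_dvd h1 with h2 | h2
    · exact hg.not_isUnit (isUnit_of_dvd_unit h2 (Polynomial.isUnit_C.2 (isUnit_iff_ne_zero.2 hα)))
    · exact hq h2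
  · exact hq' h1

/-- Density of the rational points and rational curves through the generic point meeting every
prime divisor imply unirationality. -/
theorem exists_unirational (k : Type) [Field k] [CharZero k] {X : Scheme}
    (f : X ⟶ Spec (CommRingCat.of k)) [IsIntegral X] [Smooth f]
    (hdense : Dense {x : X | ∃ s : Spec (CommRingCat.of k) ⟶ X, s ≫ f = 𝟙 _ ∧
      x ∈ Set.range s.base})
    (hcurves : ∀ x : X, ringKrullDim (X.presheaf.stalk x) = 1 → ∃ m : ℕ, CurveMeets f x m) :
    ∃ (n : ℕ) (F : X.functionField →+* RF k n),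
      ∀ c : k, F (toStalk f (genericPoint X) c) = algebraMap k (RF k n) c := by
  obtain ⟨U, hU, b0, hUne, -, -⟩ := exists_isUnit_germ_eq X 1 one_ne_zero
  have hgen : genericPoint X ∈ U :=
    ((genericPoint_spec X).mem_open_set_iff U.isOpen).mpr (by simpa using hUne)
  let algK : Algebra k X.functionField := (toStalk f (genericPoint X)).toAlgebra
  let algU : Algebra k Γ(X, U) := (kapU f U).toAlgebra
  have tower : IsScalarTower k Γ(X, U) X.functionField :=
    IsScalarTower.of_algebraMap_eq (fun c => (germ_kapU f U (genericPoint X) hgen c).symm)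
  have hfrac : IsFractionRing Γ(X, U) X.functionField :=
    functionField_isFractionRing_of_isAffineOpen X U hU
  let ι : Γ(X, U) →ₐ[k] X.functionField := IsScalarTower.toAlgHom k _ _
  have hinj : Function.Injective ι := Scheme.germToFunctionField_injective X U
  let e : Γ(X, U) ≃ₐ[k] ι.range := AlgEquiv.ofInjective ι hinj
  have hft : Algebra.FiniteType k Γ(X, U) := kapU_finiteType f U hU
  have hA : ι.range.FG := by
    rw [← Algebra.map_top]
    exact hft.out.map ι
  have hfracA : IsFractionRing ι.range X.functionField := by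
    refine IsFractionRing.of_ringEquiv_left e.symm.toRingEquiv (fun x => ?_)
    have h1 : ι (e.symm x) = x := by
      have := congrArg Subtype.val (e.apply_symm_apply x)
      exact this
    exact h1.symm
  set S : Set (X.functionField →+* RatFunc X.functionField) :=
    {σ | (∀ c : k, σ (toStalk f (genericPoint X) c) = RatFunc.C (toStalk f (genericPoint X) c)) ∧
      ∀ a : X.functionField, ∃ p q : Polynomial X.functionField, q.coeff 0 = 1 ∧ p.coeff 0 = a ∧
        σ a * algebraMap _ (RatFunc X.functionField) q = algebraMap _ _ p} with hS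
  obtain ⟨r, F, hFk, hFind⟩ := exists_disjoint_embedding k X.functionField ι.range hA hfracA S
    (fun σ hσ c => hσ.1 c)
    (by
      intro σ hσ a
      obtain ⟨p, q, hq, hp, hpq⟩ := hσ.2 a
      exact ⟨p.coeff 1 - a * q.coeff 1, p, q, hq, hpq, hp, by ring⟩)
    (by
      intro a ha
      exact const_of_curves f hdense hcurves a (fun σ h1 h2 => ha σ ⟨h1, h2⟩))
  obtain ⟨g, hg0, hg⟩ := exists_hom_of_disjoint k X.functionField ι.range hA hfracA r F hFk hFind
  obtain ⟨φ, hφk, hφg⟩ := exists_pt f hdense U (e.symm g) (by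
    intro h
    apply hg0
    rw [← e.apply_symm_apply g, h, map_zero])
  let φ' : Γ(X, U) →ₐ[k] k := { φ with commutes' := hφk }
  obtain ⟨G⟩ := hg (φ'.comp e.symm.toAlgHom) hφg
  exact ⟨r, G.toRingHom, fun c => G.commutes c⟩

theorem main_dense :
    ∀ (k : Type) [Field k] [NumberField k] (X : Scheme) [AlgebraicGeometry.IsIntegral X]
      (f : X ⟶ Spec (CommRingCat.of k)),
      AlgebraicGeometry.Smooth f →
      AlgebraicGeometry.IsSeparated f → QuasiCompact f →
      (∀ (Y : Scheme)
          (g : Y ⟶ Limits.pullback f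
            (Spec.map (CommRingCat.ofHom (algebraMap k (AlgebraicClosure k))))),
          AlgebraicGeometry.IsFinite g → AlgebraicGeometry.Etale g → ConnectedSpace Y →
            IsIso g) →
      Dense {x : X | ∃ s : Spec (CommRingCat.of k) ⟶ X, s ≫ f = 𝟙 _ ∧ x ∈ Set.range s.base} →
      (∀ x : X, ringKrullDim (X.presheaf.stalk x) = 1 →
        ∀ l : ℕ, l.Prime → ∃ m : ℕ, ¬ l ∣ m ∧ CurveMeets f x m) →
      ∀ (n : ℕ) (Y : Fin n → Scheme) (π : ∀ i, Y i ⟶ X),
        (∀ i, AlgebraicGeometry.IsIntegral (Y i)) →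
        (∀ i, AlgebraicGeometry.IsFinite (π i)) →
        (∀ i, AlgebraicGeometry.Surjective (π i)) →
        (∀ i, ¬ IsIso (π i)) →
        Dense {x : X | ∃ s : Spec (CommRingCat.of k) ⟶ X, s ≫ f = 𝟙 _ ∧
          x ∈ Set.range s.base ∧
          ∀ i (t : Spec (CommRingCat.of k) ⟶ Y i), t ≫ π i ≠ s} := by
  intro k _ _ X hint f hsm hsep hqc hsc hdense hcurves
  obtain ⟨n0, F0, hk0⟩ := exists_unirational k f hdense (fun x hx => by
    obtain ⟨m, _, hm⟩ := hcurves x hx 2 Nat.prime_two
    exact ⟨m, hm⟩)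
  exact main_unirational k f hsc n0 F0 hk0 hcurves

end Pool.Agent.LibHP
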