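import Pool.Agent.LibHP.F1
import Pool.Agent.LibHP.F2

set_option autoImplicit false
open Polynomial TensorProduct

namespace Pool.Agent.LibHP

theorem u_rmap_algebraMap {K E : Type} [Field K] [Field E] (F : K →+* E) (p : K[X]) :
    rmap F (algebraMap K[X] (RatFunc K) p) = algebraMap E[X] (RatFunc E) (p.map F) := by
  have h : algebraMap K[X] (RatFunc K) p =
      algebraMap K[X] (RatFunc K) p / algebraMap K[X] (RatFunc K) 1 := by
    rw [map_one, div_one]
  rw [h]
  unfold rmap
  rw [RatFunc.coe_mapRingHom_eq_coe_map, RatFunc.map_apply_div]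
  simp

theorem u_rmap_C {K E : Type} [Field K] [Field E] (F : K →+* E) (a : K) :
    rmap F (RatFunc.C a) = RatFunc.C (F a) := by
  rw [← RatFunc.algebraMap_C, u_rmap_algebraMap, Polynomial.map_C, RatFunc.algebraMap_C]

theorem u_rmap_rmap {K E L : Type} [Field K] [Field E] [Field L] (F : K →+* E) (G : E →+* L)
    (f : RatFunc K) : rmap G (rmap F f) = rmap (G.comp F) f := by
  have h : (rmap G).comp (rmap F) = rmap (G.comp F) := by
    apply IsLocalization.ringHom_ext (nonZeroDivisors K[X])
    ext a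
    · simp only [RingHom.comp_apply]
      rw [u_rmap_algebraMap, u_rmap_algebraMap, u_rmap_algebraMap, Polynomial.map_map]
    · simp only [RingHom.comp_apply]
      rw [u_rmap_algebraMap, u_rmap_algebraMap, u_rmap_algebraMap, Polynomial.map_map]
  exact congrArg (fun g => g f) h

theorem u_jet_zero {K : Type} [Field K] : HasJet (0 : RatFunc K) 0 0 := by
  simpa using HasJet.C (0 : K)

theorem u_jet_sum {K ι : Type} [Field K] (s : Finset ι) (f : ι → RatFunc K) (a b : ι → K)
    (h : ∀ i ∈ s, HasJet (f i) (a i) (b i)) :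
    HasJet (∑ i ∈ s, f i) (∑ i ∈ s, a i) (∑ i ∈ s, b i) := by
  classical
  induction s using Finset.induction_on with
  | empty => simpa using u_jet_zero
  | insert i s hi ih =>
    rw [Finset.sum_insert hi, Finset.sum_insert hi, Finset.sum_insert hi]
    exact (h i (Finset.mem_insert_self i s)).add
      (ih fun j hj => h j (Finset.mem_insert_of_mem hj))

/-- Extension of a spray of the field `E` to the field `E(t)`. -/
theorem exists_spray_ratFunc {E : Type} [Field E] (σ : E →+* RatFunc E)
    (hσ : ∀ a, ∃ b, HasJet (σ a) a b) :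
    ∃ σ' : RatFunc E →+* RatFunc (RatFunc E), (∀ a, ∃ b, HasJet (σ' a) a b) ∧
      ∀ a, σ' (RatFunc.C a) = rmap (RatFunc.C : E →+* RatFunc E) (σ a) := by
  let φ : E[X] →+* RatFunc (RatFunc E) :=
    eval₂RingHom ((rmap (RatFunc.C : E →+* RatFunc E)).comp σ) (RatFunc.C (RatFunc.X : RatFunc E))
  have hφC : ∀ a, φ (Polynomial.C a) = rmap (RatFunc.C : E →+* RatFunc E) (σ a) := by
    intro a
    show eval₂ _ _ (Polynomial.C a) = _
    rw [eval₂_C]
    rfl
  have hφX : φ Polynomial.X = RatFunc.C (RatFunc.X : RatFunc E) := eval₂_X _ _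
  have hj : ∀ P : E[X], ∃ b, HasJet (φ P) (algebraMap E[X] (RatFunc E) P) b := by
    intro P
    induction P using Polynomial.induction_on with
    | C a =>
      obtain ⟨b, hb⟩ := hσ a
      refine ⟨RatFunc.C b, ?_⟩
      rw [hφC, RatFunc.algebraMap_C]
      exact hb.map _
    | add p q hp hq =>
      obtain ⟨b, hb⟩ := hp
      obtain ⟨b', hb'⟩ := hq
      refine ⟨b + b', ?_⟩
      rw [map_add, map_add]
      exact hb.add hb'
    | monomial n a ih =>
      obtain ⟨b, hb⟩ := ih
      rw [pow_succ, ← mul_assoc, map_mul φ, hφX, map_mul (algebraMap E[X] (RatFunc E)),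
        RatFunc.algebraMap_X]
      exact ⟨_, hb.mul (HasJet.C _)⟩
  have hinj : Function.Injective φ := by
    rw [injective_iff_map_eq_zero]
    intro P hP
    obtain ⟨b, hb⟩ := hj P
    rw [hP] at hb
    have h := (hb.unique u_jet_zero).1
    exact (map_eq_zero_iff _ (IsFractionRing.injective E[X] (RatFunc E))).1 h
  refine ⟨IsFractionRing.lift hinj, ?_, ?_⟩
  · intro f
    obtain ⟨p, q, hq, rfl⟩ := IsFractionRing.div_surjective (A := E[X]) f
    obtain ⟨b, hb⟩ := hj p
    obtain ⟨b', hb'⟩ := hj q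
    have hq0 : algebraMap E[X] (RatFunc E) q ≠ 0 := by
      intro h
      exact nonZeroDivisors.ne_zero hq
        ((map_eq_zero_iff _ (IsFractionRing.injective E[X] (RatFunc E))).1 h)
    rw [map_div₀, IsFractionRing.lift_algebraMap, IsFractionRing.lift_algebraMap,
      div_eq_mul_inv, div_eq_mul_inv]
    exact ⟨_, hb.mul (hb'.inv hq0)⟩
  · intro a
    rw [← RatFunc.algebraMap_C, IsFractionRing.lift_algebraMap, hφC]

theorem u_zero (K : Type) [Field K] : Function.Bijective (algebraMap K (RF K 0)) := by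
  refine ⟨(algebraMap K (RF K 0)).injective, fun x => ?_⟩
  obtain ⟨p, q, hq, rfl⟩ := IsFractionRing.div_surjective (A := MvPolynomial (Fin 0) K) x
  obtain ⟨a, rfl⟩ := MvPolynomial.C_surjective (Fin 0) p
  obtain ⟨b, rfl⟩ := MvPolynomial.C_surjective (Fin 0) q
  refine ⟨a / b, ?_⟩
  rw [map_div₀]
  rfl

/-- Extension of a spray of `K` to `K(t_1, ..., t_r)`. -/
theorem u_ext (K : Type) [Field K] (σ : K →+* RatFunc K) (hσ : ∀ a, ∃ b, HasJet (σ a) a b) :
    ∀ r : ℕ, ∃ σr : RF K r →+* RatFunc (RF K r), (∀ a, ∃ b, HasJet (σr a) a b) ∧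
      ∀ a : K, σr (algebraMap K (RF K r) a) = rmap (algebraMap K (RF K r)) (σ a) := by
  intro r
  induction r with
  | zero =>
    let e : K ≃+* RF K 0 := RingEquiv.ofBijective _ (u_zero K)
    refine ⟨(rmap (algebraMap K (RF K 0))).comp (σ.comp e.symm.toRingHom), ?_, ?_⟩
    · intro x
      obtain ⟨a, rfl⟩ := e.surjective x
      obtain ⟨b, hb⟩ := hσ a
      refine ⟨algebraMap K (RF K 0) b, ?_⟩
      have h : (rmap (algebraMap K (RF K 0))).comp (σ.comp e.symm.toRingHom) (e a) =
          rmap (algebraMap K (RF K 0)) (σ a) := by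
        show rmap (algebraMap K (RF K 0)) (σ (e.symm (e a))) = _
        rw [e.symm_apply_apply]
      rw [h]
      exact hb.map _
    · intro a
      show rmap (algebraMap K (RF K 0)) (σ (e.symm (e a))) = _
      rw [e.symm_apply_apply]
  | succ r ih =>
    obtain ⟨σr, h1, h2⟩ := ih
    obtain ⟨σ', h3, h4⟩ := exists_spray_ratFunc σr h1
    obtain ⟨ε⟩ := exists_algEquiv_ratFunc K r
    have hC : ∀ a : K, algebraMap K (RatFunc (RF K r)) a =
        RatFunc.C (algebraMap K (RF K r) a) := fun a => rfl
    refine ⟨(rmap ε.toRingEquiv.toRingHom).comp (σ'.comp ε.symm.toRingEquiv.toRingHom), ?_, ?_⟩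
    · intro x
      obtain ⟨a, rfl⟩ := ε.surjective x
      obtain ⟨b, hb⟩ := h3 a
      refine ⟨ε b, ?_⟩
      have h : (rmap ε.toRingEquiv.toRingHom).comp (σ'.comp ε.symm.toRingEquiv.toRingHom) (ε a) =
          rmap ε.toRingEquiv.toRingHom (σ' a) := by
        show rmap ε.toRingEquiv.toRingHom (σ' (ε.symm (ε a))) = _
        rw [ε.symm_apply_apply]
      rw [h]
      exact hb.map _
    · intro a
      show rmap ε.toRingEquiv.toRingHom (σ' (ε.symm (algebraMap K (RF K (r + 1)) a))) = _
      rw [ε.symm.commutes, hC, h4, h2, u_rmap_rmap, u_rmap_rmap]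
      have he : (ε.toRingEquiv.toRingHom.comp (RatFunc.C : RF K r →+* RatFunc (RF K r))).comp
          (algebraMap K (RF K r)) = algebraMap K (RF K (r + 1)) := by
        refine RingHom.ext fun c => ?_
        show ε (RatFunc.C (algebraMap K (RF K r) c)) = _
        rw [← hC, ε.commutes]
      rw [← he]

theorem u_leib {E : Type} [Field E] (D : Derivation ℤ E E) (a b : E) :
    D (a * b) = a * D b + b * D a := by
  rw [D.leibniz, smul_eq_mul, smul_eq_mul]

section disj
variable {k K : Type} [Field k] [Field K] [Algebra k K]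

/-- An embedding which is the identity on the constants as an algebra map. -/
noncomputable def uAlg {r : ℕ} (F : K →+* RF K r) (hF : ∀ c : k, F (algebraMap k K c) =
    algebraMap K (RF K r) (algebraMap k K c)) : K →ₐ[k] RF K r :=
  { F with
    commutes' := by
      intro c
      rw [IsScalarTower.algebraMap_apply k K (RF K r), ← hF]
      rfl }

/-- The product map of the tensor product. -/
noncomputable def uPhi (A : Subalgebra k K) {r : ℕ} (F : K →+* RF K r)
    (hF : ∀ c : k, F (algebraMap k K c) =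
    algebraMap K (RF K r) (algebraMap k K c)) : K ⊗[k] A →ₐ[k] RF K r :=
  Algebra.TensorProduct.productMap (IsScalarTower.toAlgHom k K (RF K r)) ((uAlg F hF).comp A.val)

theorem uPhi_tmul (A : Subalgebra k K) {r : ℕ} (F : K →+* RF K r)
    (hF : ∀ c : k, F (algebraMap k K c) =
    algebraMap K (RF K r) (algebraMap k K c)) (c : K) (b : A) :
    uPhi A F hF (c ⊗ₜ b) = algebraMap K (RF K r) c * F b := by
  unfold uPhi
  rw [Algebra.TensorProduct.productMap_apply_tmul]
  rfl

theorem uPhi_sum (A : Subalgebra k K) {r : ℕ} (F : K →+* RF K r)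
    (hF : ∀ c : k, F (algebraMap k K c) =
    algebraMap K (RF K r) (algebraMap k K c)) {m : ℕ} (c : Fin m → K) (b : Fin m → A) :
    uPhi A F hF (∑ j, c j ⊗ₜ b j) = ∑ j, algebraMap K (RF K r) (c j) * F (b j) := by
  rw [map_sum]
  exact Finset.sum_congr rfl fun j _ => uPhi_tmul A F hF _ _

/-- The step: from `F` to `σ_r ∘ F`. -/
theorem u_step (A : Subalgebra k K) (σ : K →+* RatFunc K)
    (hk : ∀ c : k, σ (algebraMap k K c) = RatFunc.C (algebraMap k K c))
    (hD : ∀ a, ∃ b, HasJet (σ a) a b) {r : ℕ} (F : K →+* RF K r)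
    (hF : ∀ c : k, F (algebraMap k K c) = algebraMap K (RF K r) (algebraMap k K c)) :
    ∃ (σr : RF K r →+* RatFunc (RF K r)) (F' : K →+* RF K (r + 1))
      (hF' : ∀ c : k, F' (algebraMap k K c) =
        algebraMap K (RF K (r + 1)) (algebraMap k K c)), (∀ a, ∃ b, HasJet (σr a) a b) ∧
      (∀ a : K, σr (algebraMap K (RF K r) a) = rmap (algebraMap K (RF K r)) (σ a)) ∧
      ∀ x : K ⊗[k] A, uPhi A F' hF' x = 0 → uPhi A F hF x = 0 ∧
        ∀ (m : ℕ) (c : Fin m → K) (b : Fin m → A), x = ∑ j, c j ⊗ₜ b j →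
          ∑ j, RatFunc.C (algebraMap K (RF K r) (c j)) * σr (F (b j)) = 0 := by
  obtain ⟨σr, h1, h2⟩ := u_ext K σ hD r
  obtain ⟨ε⟩ := exists_algEquiv_ratFunc K r
  have hC : ∀ a : K, algebraMap K (RatFunc (RF K r)) a =
      RatFunc.C (algebraMap K (RF K r) a) := fun a => rfl
  have hεC : ∀ a : K, ε (RatFunc.C (algebraMap K (RF K r) a)) =
      algebraMap K (RF K (r + 1)) a := fun a => by rw [← hC, ε.commutes]
  let F' : K →+* RF K (r + 1) := ε.toRingEquiv.toRingHom.comp (σr.comp F)
  have hF'a : ∀ a, F' a = ε (σr (F a)) := fun a => rfl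
  have hF' : ∀ c : k, F' (algebraMap k K c) =
      algebraMap K (RF K (r + 1)) (algebraMap k K c) := by
    intro c
    rw [hF'a, hF, h2, hk, u_rmap_C, hεC]
  refine ⟨σr, F', hF', h1, h2, fun x hx => ?_⟩
  have main : ∀ (m : ℕ) (c : Fin m → K) (b : Fin m → A), x = ∑ j, c j ⊗ₜ b j →
      uPhi A F hF x = 0 ∧ ∑ j, RatFunc.C (algebraMap K (RF K r) (c j)) * σr (F (b j)) = 0 := by
    intro m c b hxe
    rw [hxe, uPhi_sum] at hx
    have e2 : ε (∑ j, RatFunc.C (algebraMap K (RF K r) (c j)) * σr (F (b j))) = 0 := by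
      rw [map_sum, ← hx]
      refine Finset.sum_congr rfl fun j _ => ?_
      rw [map_mul, hεC, hF'a]
    have e3 : ∑ j, RatFunc.C (algebraMap K (RF K r) (c j)) * σr (F (b j)) = 0 :=
      (map_eq_zero_iff ε ε.injective).1 e2
    refine ⟨?_, e3⟩
    choose dd hdd using fun j => h1 (F (b j))
    have e4 := u_jet_sum Finset.univ
      (fun j => RatFunc.C (algebraMap K (RF K r) (c j)) * σr (F (b j)))
      _ _ (fun j _ => (HasJet.C (algebraMap K (RF K r) (c j))).mul (hdd j))
    rw [e3] at e4
    rw [hxe, uPhi_sum]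
    exact (e4.unique u_jet_zero).1
  obtain ⟨m, c, b, hxe⟩ : ∃ (m : ℕ) (c : Fin m → K) (b : Fin m → A), x = ∑ j, c j ⊗ₜ b j := by
    obtain ⟨s, hs⟩ := TensorProduct.exists_finset x
    refine ⟨s.card, fun j => (s.equivFin.symm j).1.1, fun j => (s.equivFin.symm j).1.2, ?_⟩
    rw [hs, ← Finset.sum_coe_sort]
    exact (Equiv.sum_comp s.equivFin.symm (fun i : s => (i.1.1 ⊗ₜ i.1.2 : K ⊗[k] A))).symm
  exact ⟨(main m c b hxe).1, fun m c b h => (main m c b h).2⟩

/-- A polynomial is regular at zero with value its constant coefficient. -/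
theorem u_jet_poly {E : Type} [Field E] (P : E[X]) :
    ∃ b, HasJet (algebraMap E[X] (RatFunc E) P) (P.coeff 0) b := by
  induction P using Polynomial.induction_on with
  | C a => exact ⟨0, by rw [RatFunc.algebraMap_C, Polynomial.coeff_C_zero]; exact HasJet.C a⟩
  | add p q hp hq =>
    obtain ⟨b, hb⟩ := hp
    obtain ⟨b', hb'⟩ := hq
    exact ⟨b + b', by rw [map_add, Polynomial.coeff_add]; exact hb.add hb'⟩
  | monomial n a ih =>
    have e : (Polynomial.C a * Polynomial.X ^ (n + 1)).coeff 0 = 0 := by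
      rw [pow_succ, ← mul_assoc, Polynomial.mul_coeff_zero, Polynomial.coeff_X_zero, mul_zero]
    obtain ⟨b, hb⟩ := ih
    rw [e, pow_succ, ← mul_assoc, map_mul, RatFunc.algebraMap_X]
    have := hb.mul HasJet.X
    rw [mul_zero] at this
    exact ⟨_, this⟩

/-- Linear independence is preserved by a spray (specialization at `0`). -/
theorem u_spec {K E : Type} [Field K] [Field E] (ι : K →+* E) (σr : E →+* RatFunc E)
    (hσ : ∀ a, ∃ b, HasJet (σr a) a b) {m : ℕ} (e : Fin m → E)
    (he : ∀ c : Fin m → K, ∑ j, ι (c j) * e j = 0 → ∀ j, c j = 0)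
    (f : Fin m → RatFunc K) (hf : ∑ j, rmap ι (f j) * σr (e j) = 0) : ∀ j, f j = 0 := by
  classical
  have key : ∀ (n : ℕ) (p : Fin m → K[X]), (∀ j, (p j).degree < n) →
      ∑ j, algebraMap E[X] (RatFunc E) ((p j).map ι) * σr (e j) = 0 → ∀ j, p j = 0 := by
    intro n
    induction n with
    | zero =>
      intro p hp _ j
      have := hp j
      rw [Nat.cast_zero] at this
      by_contra h
      exact absurd this (not_lt.2 (Polynomial.zero_le_degree_iff.2 h))
    | succ n ih =>
      intro p hp h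
      choose d hd using fun j => hσ (e j)
      choose d' hd' using fun j => u_jet_poly ((p j).map ι)
      have e4 := u_jet_sum Finset.univ
        (fun j => algebraMap E[X] (RatFunc E) ((p j).map ι) * σr (e j)) _ _
        (fun j _ => (hd' j).mul (hd j))
      rw [h] at e4
      have e5 := (e4.unique u_jet_zero).1
      simp only [Polynomial.coeff_map] at e5
      have e6 := he _ e5
      have e7 : ∀ j, p j = (p j).divX * Polynomial.X := by
        intro j
        conv_lhs => rw [← Polynomial.divX_mul_X_add (p j), e6 j, map_zero, add_zero]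
      have e8 : ∀ j, (p j).divX = 0 := by
        apply ih
        · intro j
          have h1 := hp j
          rcases eq_or_ne (p j).divX 0 with h0 | h0
          · rw [h0, Polynomial.degree_zero]
            exact WithBot.bot_lt_coe n
          · rw [e7 j, Polynomial.degree_mul_X, Polynomial.degree_eq_natDegree h0] at h1
            rw [Polynomial.degree_eq_natDegree h0]
            have h2 : (((p j).divX.natDegree + 1 : ℕ) : WithBot ℕ) < ((n + 1 : ℕ) : WithBot ℕ) := by
              exact_mod_cast h1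
            have h3 := WithBot.coe_lt_coe.1 h2
            exact WithBot.coe_lt_coe.2 (by exact_mod_cast Nat.lt_of_succ_lt_succ h3)
        · have e9 : ∑ j, algebraMap E[X] (RatFunc E) ((p j).map ι) * σr (e j) =
              RatFunc.X * ∑ j, algebraMap E[X] (RatFunc E) (((p j).divX).map ι) * σr (e j) := by
            rw [Finset.mul_sum]
            refine Finset.sum_congr rfl fun j _ => ?_
            conv_lhs => rw [e7 j, Polynomial.map_mul, Polynomial.map_X, map_mul,
              RatFunc.algebraMap_X]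
            ring
          rw [h] at e9
          exact (mul_eq_zero.1 e9.symm).resolve_left RatFunc.X_ne_zero
      intro j
      rw [e7 j, e8 j, zero_mul]
  obtain ⟨q, hq⟩ := IsLocalization.exist_integer_multiples (nonZeroDivisors K[X]) Finset.univ f
  have hq0 : algebraMap K[X] (RatFunc K) (q : K[X]) ≠ 0 := by
    intro h
    exact nonZeroDivisors.coe_ne_zero q
      ((map_eq_zero_iff _ (IsFractionRing.injective K[X] (RatFunc K))).1 h)
  have hq2 : ∀ j, ∃ y : K[X], algebraMap K[X] (RatFunc K) y =
      algebraMap K[X] (RatFunc K) (q : K[X]) * f j := by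
    intro j
    obtain ⟨y, hy⟩ := hq j (Finset.mem_univ j)
    refine ⟨y, ?_⟩
    rw [hy, Algebra.smul_def]
  choose y hy using hq2
  obtain ⟨n, hn⟩ : ∃ n : ℕ, ∀ j, (y j).degree < n := by
    refine ⟨(Finset.univ.sup fun j => (y j).natDegree) + 1, fun j => ?_⟩
    refine lt_of_le_of_lt Polynomial.degree_le_natDegree ?_
    have : (y j).natDegree ≤ Finset.univ.sup fun j => (y j).natDegree :=
      Finset.le_sup (f := fun j => (y j).natDegree) (Finset.mem_univ j)
    exact_mod_cast Nat.lt_succ_of_le this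
  have h1 := key n y hn (by
    have : ∑ j, algebraMap E[X] (RatFunc E) ((y j).map ι) * σr (e j) =
        rmap ι (algebraMap K[X] (RatFunc K) (q : K[X])) * ∑ j, rmap ι (f j) * σr (e j) := by
      rw [Finset.mul_sum]
      refine Finset.sum_congr rfl fun j _ => ?_
      rw [← u_rmap_algebraMap, hy, map_mul]
      ring
    rw [this, hf, mul_zero])
  intro j
  have h2 := hy j
  rw [h1 j, map_zero] at h2
  exact (mul_eq_zero.1 h2.symm).resolve_left hq0

/-- Relations with coefficients. -/
theorem u_rel (A : Subalgebra k K) (S : Set (K →+* RatFunc K))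
    (hconst : ∀ a : K, (∀ σ ∈ S, σ a = RatFunc.C a) → ∃ c : k, algebraMap k K c = a)
    {r : ℕ} (F : K →+* RF K r)
    (hF : ∀ c : k, F (algebraMap k K c) = algebraMap K (RF K r) (algebraMap k K c))
    (hst : ∀ σ ∈ S, ∃ σr : RF K r →+* RatFunc (RF K r), (∀ a, ∃ b, HasJet (σr a) a b) ∧
      (∀ a : K, σr (algebraMap K (RF K r) a) = rmap (algebraMap K (RF K r)) (σ a)) ∧
      ∀ (m : ℕ) (c : Fin m → K) (b : Fin m → A),
      ∑ j, algebraMap K (RF K r) (c j) * F (b j) = 0 →
      ∑ j, RatFunc.C (algebraMap K (RF K r) (c j)) * σr (F (b j)) = 0) :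
    ∀ (m : ℕ) (c : Fin m → K) (b : Fin m → A), LinearIndependent k b →
      ∑ j, algebraMap K (RF K r) (c j) * F (b j) = 0 → ∀ j, c j = 0 := by
  intro m
  induction m with
  | zero => intro c b _ _ j; exact j.elim0
  | succ m ih =>
    intro c b hb h
    have hb' : LinearIndependent k (fun j : Fin m => b j.castSucc) :=
      hb.comp _ (Fin.castSucc_injective m)
    rcases eq_or_ne (c (Fin.last m)) 0 with h0 | h0
    · rw [Fin.sum_univ_castSucc, h0, map_zero, zero_mul, add_zero] at h
      have h1 := ih (fun j => c j.castSucc) (fun j => b j.castSucc) hb' h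
      intro j
      refine Fin.lastCases h0 (fun j => h1 j) j
    · exfalso
      have hl : c (Fin.last m) / c (Fin.last m) = 1 := div_self h0
      have h1 : ∑ j, algebraMap K (RF K r) (c j / c (Fin.last m)) * F (b j) = 0 := by
        have : ∑ j, algebraMap K (RF K r) (c j / c (Fin.last m)) * F (b j) =
            (algebraMap K (RF K r) (c (Fin.last m)))⁻¹ *
              ∑ j, algebraMap K (RF K r) (c j) * F (b j) := by
          rw [Finset.mul_sum]
          refine Finset.sum_congr rfl fun j _ => ?_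
          rw [map_div₀]
          ring
        rw [this, h, mul_zero]
      have h2 : ∀ σ ∈ S, ∀ j, σ (c j / c (Fin.last m)) = RatFunc.C (c j / c (Fin.last m)) := by
        intro σ hσ
        obtain ⟨σr, hj, hc, hs⟩ := hst σ hσ
        have h3 := hs (m + 1) (fun j => c j / c (Fin.last m)) b h1
        have h3' := congrArg σr h1
        rw [map_zero, map_sum] at h3'
        have h4 : ∑ j, rmap (algebraMap K (RF K r))
            (σ (c j / c (Fin.last m)) - RatFunc.C (c j / c (Fin.last m))) * σr (F (b j)) = 0 := by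
          rw [← sub_eq_zero.2 (h3'.trans h3.symm), ← Finset.sum_sub_distrib]
          refine Finset.sum_congr rfl fun j _ => ?_
          rw [map_sub, u_rmap_C, map_mul, hc]
          ring
        rw [Fin.sum_univ_castSucc] at h4
        simp only [hl] at h4
        rw [map_one, map_one, sub_self, map_zero, zero_mul, add_zero] at h4
        have h5 := u_spec (algebraMap K (RF K r)) σr hj (fun j : Fin m => F (b j.castSucc))
          (fun c' hc' => ih c' (fun j => b j.castSucc) hb' hc') _ h4
        intro j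
        refine Fin.lastCases ?_ (fun j => sub_eq_zero.1 (h5 j)) j
        rw [hl, map_one, map_one]
      have h5 : ∀ j, ∃ d : k, algebraMap k K d = c j / c (Fin.last m) := by
        intro j
        apply hconst
        intro σ hσ
        exact h2 σ hσ j
      choose d hd using h5
      have h6 : ∑ j, d j • b j = 0 := by
        have h7 : F ((∑ j, d j • b j : A) : K) = 0 := by
          rw [← h1, AddSubmonoidClass.coe_finsetSum, map_sum]
          refine Finset.sum_congr rfl fun j _ => ?_
          rw [← hd j, ← hF, ← map_mul, Subalgebra.coe_smul, Algebra.smul_def]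
        have h8 := (map_eq_zero_iff F F.injective).1 h7
        exact_mod_cast h8
      have h9 := Fintype.linearIndependent_iff.1 hb d h6 (Fin.last m)
      have h10 := hd (Fin.last m)
      rw [h9, map_zero, hl] at h10
      exact zero_ne_one h10

end disj

/-- Chains of sprays: if the constants of a family `S` of sprays of `K` over `k` are reduced to `k`,
a chain of sprays gives a second embedding of `K` in some `K(t_1, ..., t_r)` linearly disjoint from
the first one over `k`. -/
theorem exists_disjoint_embedding (k K : Type) [Field k] [CharZero k] [Field K] [Algebra k K]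
    (A : Subalgebra k K) (hA : A.FG) (hfrac : IsFractionRing A K)
    (S : Set (K →+* RatFunc K))
    (hk : ∀ σ ∈ S, ∀ c : k, σ (algebraMap k K c) = RatFunc.C (algebraMap k K c))
    (hjet : ∀ σ ∈ S, ∀ a, ∃ b, HasJet (σ a) a b)
    (hconst : ∀ a : K, (∀ σ ∈ S, σ a = RatFunc.C a) → ∃ c : k, algebraMap k K c = a) :
    ∃ (r : ℕ) (F : K →+* RF K r), (∀ c : k, F (algebraMap k K c) =
        algebraMap K (RF K r) (algebraMap k K c)) ∧
      ∀ (m : ℕ) (a : Fin m → K), LinearIndependent k a → LinearIndependent K (F ∘ a) := by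
  classical
  have hft : Algebra.FiniteType k A := A.fg_iff_finiteType.1 hA
  have hN : IsNoetherianRing (K ⊗[k] A) := Algebra.FiniteType.isNoetherianRing K _
  have hpr : ∀ (r : ℕ) (F : K →+* RF K r) (hF : ∀ c : k, F (algebraMap k K c) =
      algebraMap K (RF K r) (algebraMap k K c)), (RingHom.ker (uPhi A F hF)).IsPrime :=
    fun r F hF => RingHom.ker_isPrime _
  have hex : ∃ n : ℕ, ∃ (r : ℕ) (F : K →+* RF K r) (hF : ∀ c : k, F (algebraMap k K c) =
      algebraMap K (RF K r) (algebraMap k K c)), (RingHom.ker (uPhi A F hF)).height = n := by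
    have hF : ∀ c : k, algebraMap K (RF K 0) (algebraMap k K c) =
      algebraMap K (RF K 0) (algebraMap k K c) := fun _ => rfl
    have h1 := hpr 0 (algebraMap K (RF K 0)) hF
    have h2 := Ideal.height_lt_top_of_isPrime (I := RingHom.ker (uPhi A (algebraMap K (RF K 0)) hF))
    obtain ⟨n, hn⟩ := ENat.ne_top_iff_exists.1 h2.ne
    exact ⟨n, 0, _, hF, hn.symm⟩
  obtain ⟨r, F, hF, hht⟩ := Nat.find_spec hex
  have hmin : ∀ (r' : ℕ) (F' : K →+* RF K r') (hF' : ∀ c : k, F' (algebraMap k K c) =
      algebraMap K (RF K r') (algebraMap k K c)),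
      RingHom.ker (uPhi A F' hF') ≤ RingHom.ker (uPhi A F hF) →
      RingHom.ker (uPhi A F' hF') = RingHom.ker (uPhi A F hF) := by
    intro r' F' hF' hle
    have h1 := hpr r' F' hF'
    have h0 := hpr r F hF
    refine Ideal.eq_of_le_of_height_le _ hle ?_
    rw [hht]
    have h2 := Ideal.height_lt_top_of_isPrime (I := RingHom.ker (uPhi A F' hF'))
    obtain ⟨n, hn⟩ := ENat.ne_top_iff_exists.1 h2.ne
    rw [← hn]
    exact_mod_cast Nat.find_min' hex ⟨r', F', hF', hn.symm⟩
  have hst : ∀ σ ∈ S, ∃ σr : RF K r →+* RatFunc (RF K r), (∀ a, ∃ b, HasJet (σr a) a b) ∧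
      (∀ a : K, σr (algebraMap K (RF K r) a) = rmap (algebraMap K (RF K r)) (σ a)) ∧
      ∀ (m : ℕ) (c : Fin m → K) (b : Fin m → A),
      ∑ j, algebraMap K (RF K r) (c j) * F (b j) = 0 →
      ∑ j, RatFunc.C (algebraMap K (RF K r) (c j)) * σr (F (b j)) = 0 := by
    intro σ hσ
    obtain ⟨σr, F', hF', hj, hc, h1⟩ := u_step A σ (hk σ hσ) (hjet σ hσ) F hF
    refine ⟨σr, hj, hc, fun m c b h => ?_⟩
    have h2 := hmin (r + 1) F' hF' (fun x hx => (h1 x hx).1)
    have h3 : (∑ j, c j ⊗ₜ b j : K ⊗[k] A) ∈ RingHom.ker (uPhi A F' hF') := by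
      rw [h2, RingHom.mem_ker, uPhi_sum, h]
    exact (h1 _ h3).2 m c b rfl
  have hrel := u_rel A S hconst F hF hst
  refine ⟨r, F, hF, fun m a ha => ?_⟩
  rw [Fintype.linearIndependent_iff]
  intro c hc
  obtain ⟨b, hb⟩ := IsLocalization.exist_integer_multiples (nonZeroDivisors A) Finset.univ a
  have hb0 : ((b : A) : K) ≠ 0 := by
    intro h
    have : (b : A) = 0 := by exact_mod_cast h
    exact nonZeroDivisors.coe_ne_zero b this
  have hb2 : ∀ j, ∃ y : A, (y : K) = ((b : A) : K) * a j := by
    intro j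
    obtain ⟨y, hy⟩ := hb j (Finset.mem_univ j)
    refine ⟨y, ?_⟩
    rw [show (y : K) = algebraMap A K y from rfl, hy, Algebra.smul_def]
    rfl
  choose y hy using hb2
  have hli : LinearIndependent k y := by
    rw [Fintype.linearIndependent_iff]
    intro d hd
    apply Fintype.linearIndependent_iff.1 ha d
    have h1 : ((b : A) : K) * ∑ j, d j • a j = 0 := by
      have h2 : ((∑ j, d j • y j : A) : K) = 0 := by rw [hd]; rfl
      rw [← h2, AddSubmonoidClass.coe_finsetSum, Finset.mul_sum]
      refine Finset.sum_congr rfl fun j _ => ?_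
      rw [Subalgebra.coe_smul, hy, mul_smul_comm]
    exact (mul_eq_zero.1 h1).resolve_left hb0
  apply hrel m c y hli
  have h1 : ∑ j, algebraMap K (RF K r) (c j) * F (y j) = F (b : A) * ∑ j, c j • (F ∘ a) j := by
    rw [Finset.mul_sum]
    refine Finset.sum_congr rfl fun j _ => ?_
    rw [hy, map_mul, Algebra.smul_def]
    show _ = _ * (_ * F (a j))
    ring
  rw [h1, hc, mul_zero]

end Pool.Agent.LibHP
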